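import Mathlib
import Pool.Agent.H823.Swindle

/-! Basic facts on cotangent bundles: extension of functions, translations, nondegeneracy. -/

open scoped Topology ContDiff Manifold
open Set Metric Bundle

noncomputable section

namespace Pool.Agent.H823

open Pool.Agent.Helper186

set_option linter.unusedSectionVars false

universe u

section extend

variable {F : Type*} [NormedAddCommGroup F] [NormedSpace ℝ F] [FiniteDimensional ℝ F]
  {L : Type*} [TopologicalSpace L] [ChartedSpace F L] [IsManifold 𝓘(ℝ, F) ∞ L]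
  {E : Type u} [NormedAddCommGroup E] [NormedSpace ℝ E] [FiniteDimensional ℝ E]
  {H : Type*} [TopologicalSpace H] {I : ModelWithCorners ℝ E H} [I.Boundaryless]
  {X : Type*} [TopologicalSpace X] [ChartedSpace H X] [IsManifold I ∞ X]

/-- A smooth function on a compact embedded submanifold extends locally. -/
lemma exists_extend_local [T2Space X] [CompactSpace L]
    {ι : L → X} (hι : ContMDiff 𝓘(ℝ, F) I ∞ ι) (hιinj : Function.Injective ι)
    (hιimm : ∀ q, Function.Injective (mfderiv 𝓘(ℝ, F) I ι q))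
    {f : L → ℝ} (hf : ContMDiff 𝓘(ℝ, F) 𝓘(ℝ, ℝ) ∞ f) (q₀ : L) :
    ∃ U ∈ 𝓝 (ι q₀), ∃ g : X → ℝ, ContMDiffOn I 𝓘(ℝ, ℝ) ∞ g U ∧
      ∀ q, ι q ∈ U → g (ι q) = f q := by
  obtain ⟨g₀, hg₀, hg₀i⟩ := exists_local_coord (I := I) (ι q₀)
  have hA : Function.Injective (mfderiv 𝓘(ℝ, F) 𝓘(ℝ, E) (g₀ ∘ ι) q₀) := by
    have h1 := mfderiv_comp (I := 𝓘(ℝ, F)) (I' := I) (I'' := 𝓘(ℝ, E)) q₀
      (hg₀.mdifferentiableAt (by simp) (x := ι q₀)) (hι.mdifferentiableAt (by simp))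
    rw [h1]
    exact hg₀i.self_of_nhds.comp (hιimm q₀)
  let A : F →L[ℝ] E := mfderiv 𝓘(ℝ, F) 𝓘(ℝ, E) (g₀ ∘ ι) q₀
  obtain ⟨P₀, hP₀⟩ := LinearMap.exists_leftInverse_of_injective (A : F →ₗ[ℝ] E)
    (LinearMap.ker_eq_bot.2 hA)
  let P : E →L[ℝ] F := LinearMap.toContinuousLinearMap P₀
  have hPA : ∀ a, P (A a) = a := fun a => DFunLike.congr_fun hP₀ a
  let ρ : X → F := fun x => P (g₀ x)
  have hρ : ContMDiff I 𝓘(ℝ, F) ∞ ρ := P.contDiff.contMDiff.comp hg₀
  let w : L → F := fun q => ρ (ι q)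
  have hw : ContMDiff 𝓘(ℝ, F) 𝓘(ℝ, F) ∞ w := hρ.comp hι
  have hwi : Function.Injective (mfderiv 𝓘(ℝ, F) 𝓘(ℝ, F) w q₀) := by
    have h1 := mfderiv_comp (I := 𝓘(ℝ, F)) (I' := 𝓘(ℝ, E)) (I'' := 𝓘(ℝ, F)) q₀
      (P.contDiff.contMDiff.mdifferentiableAt (n := ∞) (by simp) (x := (g₀ ∘ ι) q₀))
      ((hg₀.comp hι).mdifferentiableAt (by simp))
    have h2 : (⇑P ∘ (g₀ ∘ ι)) = w := rfl
    rw [h2] at h1
    intro a b hab
    have h3 : ∀ c : F, (mfderiv 𝓘(ℝ, F) 𝓘(ℝ, F) w q₀ c : F) = c := by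
      intro c
      have h4 : (mfderiv 𝓘(ℝ, F) 𝓘(ℝ, F) w q₀ c : F) =
          (mfderiv 𝓘(ℝ, E) 𝓘(ℝ, F) ⇑P ((g₀ ∘ ι) q₀) (A c) : F) := DFunLike.congr_fun h1 c
      have h5 : mfderiv 𝓘(ℝ, E) 𝓘(ℝ, F) ⇑P ((g₀ ∘ ι) q₀) = P := by
        rw [mfderiv_eq_fderiv]
        exact P.fderiv
      rw [h5] at h4
      exact h4.trans (hPA c)
    exact (h3 a).symm.trans (Eq.trans hab (h3 b))
  obtain ⟨S, v, hS, hqS, hv, hopen, hvs⟩ := local_inverse hw hwi rfl
  have h1 : IsOpen (w '' S) := hopen S subset_rfl hS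
  have h2 : IsClosed (ι '' Sᶜ) :=
    ((hS.isClosed_compl.isCompact).image hι.continuous).isClosed
  refine ⟨ρ ⁻¹' (w '' S) ∩ (ι '' Sᶜ)ᶜ, ?_, fun x => f (v (ρ x)), ?_, ?_⟩
  · apply ((h1.preimage hρ.continuous).inter h2.isOpen_compl).mem_nhds
    refine ⟨⟨q₀, hqS, rfl⟩, ?_⟩
    rintro ⟨q, hq, hqq⟩
    exact hq (hιinj hqq ▸ hqS)
  · rintro x ⟨⟨q, hq, hqx⟩, -⟩
    have h3 : ContMDiffAt 𝓘(ℝ, F) 𝓘(ℝ, F) ∞ v (ρ x) := by
      rw [← hqx]; exact hvs q hq
    exact ((hf _).comp x (h3.comp x (hρ x))).contMDiffWithinAt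
  · rintro q ⟨-, hq⟩
    have h3 : q ∈ S := by
      by_contra h
      exact hq ⟨q, h, rfl⟩
    show f (v (w q)) = f q
    rw [hv q h3]

/-- A smooth function on a compact embedded submanifold extends. -/
theorem exists_extend [T2Space X] [SigmaCompactSpace X] [CompactSpace L]
    {ι : L → X} (hι : ContMDiff 𝓘(ℝ, F) I ∞ ι) (hιinj : Function.Injective ι)
    (hιimm : ∀ q, Function.Injective (mfderiv 𝓘(ℝ, F) I ι q))
    {f : L → ℝ} (hf : ContMDiff 𝓘(ℝ, F) 𝓘(ℝ, ℝ) ∞ f) :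
    ∃ g : X → ℝ, ContMDiff I 𝓘(ℝ, ℝ) ∞ g ∧ ∀ q, g (ι q) = f q := by
  obtain ⟨g, hg⟩ := exists_contMDiffMap_forall_mem_convex_of_local (M := X) (F := ℝ) I
    (n := (⊤ : ℕ∞)) (t := fun x : X => {y : ℝ | ∀ q, ι q = x → y = f q}) (by
      intro x
      rw [convex_iff_forall_pos]
      intro a ha b hb s t hs ht hst q hq
      rw [ha q hq, hb q hq, smul_eq_mul, smul_eq_mul, ← add_mul, hst, one_mul]) (by
      intro x
      by_cases hx : x ∈ range ι
      · obtain ⟨q₀, rfl⟩ := hx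
        obtain ⟨U, hU, g, hg, hgf⟩ := exists_extend_local hι hιinj hιimm hf q₀
        refine ⟨U, hU, g, hg, ?_⟩
        rintro y hy q rfl
        exact hgf q hy
      · refine ⟨(range ι)ᶜ, (isCompact_range hι.continuous).isClosed.isOpen_compl.mem_nhds hx,
          fun _ => 0, contMDiffOn_const, ?_⟩
        rintro y hy q rfl
        exact absurd ⟨q, rfl⟩ hy)
  exact ⟨g, g.contMDiff, fun q => hg (ι q) q rfl⟩

end extend

section pull

variable {E : Type*} [NormedAddCommGroup E] [NormedSpace ℝ E] [FiniteDimensional ℝ E]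
  {H : Type*} [TopologicalSpace H] {I : ModelWithCorners ℝ E H} [I.Boundaryless]
  {X : Type*} [TopologicalSpace X] [ChartedSpace H X] [IsManifold I ∞ X]
  {E' : Type*} [NormedAddCommGroup E'] [NormedSpace ℝ E'] [FiniteDimensional ℝ E']
  {H' : Type*} [TopologicalSpace H'] {J : ModelWithCorners ℝ E' H'} [J.Boundaryless]
  {N : Type*} [TopologicalSpace N] [ChartedSpace H' N] [IsManifold J ∞ N]

/-- The exterior derivative of a multiple. -/
lemma extDer_smul {α : (ξ : N) → TangentSpace J ξ →L[ℝ] ℝ} (hα : SmoothForm α) (c : ℝ) (ξ : N)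
    (u v : TangentSpace J ξ) :
    extDer J (fun ξ => c • α ξ) ξ u v = c * extDer J α ξ u v := by
  have h1 : chartForm J (fun ξ => c • α ξ) ξ = fun y => c • chartForm J α ξ y := by
    ext1 y
    refine ContinuousLinearMap.ext fun w => ?_
    rfl
  have hd : DifferentiableAt ℝ (chartForm J α ξ) (extChartAt J ξ ξ) :=
    ((contDiffOn_chartForm hα ξ).contDiffAt
      (extChartAt_target_mem_nhds ξ)).differentiableAt (by simp)
  have h2 := (hd.hasFDerivAt.const_smul c).fderiv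
  unfold extDer
  rw [h1]
  have h3 : fderiv ℝ (fun y => c • chartForm J α ξ y) (extChartAt J ξ ξ) =
    c • fderiv ℝ (chartForm J α ξ) (extChartAt J ξ ξ) := h2
  rw [h3]
  have h4 : ∀ (T : E' →L[ℝ] E' →L[ℝ] ℝ) (a b : E'), (c • T) a b = c * T a b := fun T a b => rfl
  rw [h4, h4]
  ring

lemma smoothForm_smul {α : (ξ : N) → TangentSpace J ξ →L[ℝ] ℝ} (hα : SmoothForm α) (c : ℝ) :
    SmoothForm (fun ξ => c • α ξ) := by
  intro V
  exact (contMDiffAt_const (c := c)).mul (hα V)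

/-- An (everywhere) conformally exact map is conformally symplectic. -/
lemma extDer_of_PB {lam : (x : X) → TangentSpace I x →L[ℝ] ℝ}
    {β : (x : N) → TangentSpace J x →L[ℝ] ℝ} (hlam : SmoothForm lam) (hβ : SmoothForm β)
    {Φ : X → N} (hΦ : ContMDiff I J ∞ Φ) {f : X → ℝ} (hf : ContMDiff I 𝓘(ℝ, ℝ) ∞ f) {c : ℝ}
    (h : ∀ x, PB lam β Φ c f x) (x : X) (u v : TangentSpace I x) :
    extDer J β (Φ x) (mfderiv I J Φ x u) (mfderiv I J Φ x v) = c * extDer I lam x u v := by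
  rw [← extDer_pull hΦ hβ]
  have h1 : pullForm J I Φ β = fun x => c • lam x + dForm I f x := by
    ext1 y
    refine ContinuousLinearMap.ext fun a => ?_
    exact h y a
  rw [h1, extDer_add (smoothForm_smul hlam c) (smoothForm_dForm hf), extDer_dForm hf, add_zero,
    extDer_smul hlam]

end pull

section cot

variable {F : Type*} [NormedAddCommGroup F] [NormedSpace ℝ F] [FiniteDimensional ℝ F]
  {L : Type*} [TopologicalSpace L] [ChartedSpace F L] [IsManifold 𝓘(ℝ, F) ∞ L]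

/-- Fibrewise translation by the differential of a function. -/
def trans (u : L → ℝ) (ξ : Cotangent F L) : Cotangent F L :=
  ⟨ξ.1, ξ.2 + dForm 𝓘(ℝ, F) u ξ.1⟩

lemma contMDiff_trans {u : L → ℝ} (hu : ContMDiff 𝓘(ℝ, F) 𝓘(ℝ, ℝ) ∞ u) :
    ContMDiff (IC F) (IC F) ∞ (trans u : Cotangent F L → Cotangent F L) := by
  intro ξ₀
  refine contMDiffAt_cot_of_pairing (b := fun ξ : Cotangent F L => ξ.1)
    (θ := fun ξ => ξ.2 + dForm 𝓘(ℝ, F) u ξ.1) (contMDiff_projC _) ?_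
  intro v hv
  have h1 := contMDiffAt_cot_pairing (f := fun ξ : Cotangent F L => ξ) (v := v)
      (p₀ := ξ₀) contMDiffAt_id hv
  have h2 : ContMDiffAt (IC F) 𝓘(ℝ, ℝ) ∞
      (fun ξ : Cotangent F L => dForm 𝓘(ℝ, F) u ξ.1 (v ξ)) ξ₀ :=
    (smoothForm_dForm hu).comp hv le_rfl
  exact h1.add h2

lemma dForm_neg_fun (u : L → ℝ) (q : L) :
    dForm 𝓘(ℝ, F) (fun q => - u q) q = - dForm 𝓘(ℝ, F) u q := by
  by_cases h : MDifferentiableAt 𝓘(ℝ, F) 𝓘(ℝ, ℝ) u q
  · exact h.hasMFDerivAt.neg.mfderiv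
  · have h2 : ¬ MDifferentiableAt 𝓘(ℝ, F) 𝓘(ℝ, ℝ) (fun q => - u q) q := by
      intro h3
      apply h
      have h4 := h3.neg
      have h5 : (-(fun q => - u q)) = u := by ext1 q; simp
      rwa [h5] at h4
    show mfderiv 𝓘(ℝ, F) 𝓘(ℝ, ℝ) (fun q => - u q) q = - mfderiv 𝓘(ℝ, F) 𝓘(ℝ, ℝ) u q
    rw [mfderiv_zero_of_not_mdifferentiableAt h, mfderiv_zero_of_not_mdifferentiableAt h2]
    exact (neg_zero (G := F →L[ℝ] ℝ)).symm

lemma trans_neg_trans (u : L → ℝ) (ξ : Cotangent F L) :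
    trans (fun q => - u q) (trans u ξ) = ξ := by
  unfold trans
  have h1 : ξ.2 + dForm 𝓘(ℝ, F) u ξ.1 + dForm 𝓘(ℝ, F) (fun q => - u q) ξ.1 = ξ.2 := by
    rw [dForm_neg_fun]
    exact add_neg_cancel_right _ _
  show (⟨ξ.1, ξ.2 + dForm 𝓘(ℝ, F) u ξ.1 + dForm 𝓘(ℝ, F) (fun q => - u q) ξ.1⟩ : Cotangent F L) = ξ
  rw [h1]

lemma trans_trans_neg (u : L → ℝ) (ξ : Cotangent F L) :
    trans u (trans (fun q => - u q) ξ) = ξ := by
  have h := trans_neg_trans (fun q => - u q) ξ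
  have h1 : (fun q => - (fun q => - u q) q) = u := by ext1 q; simp
  rwa [h1] at h

/-- The canonical form under fibre preserving maps. -/
lemma canForm_trans {u : L → ℝ} (hu : ContMDiff 𝓘(ℝ, F) 𝓘(ℝ, ℝ) ∞ u) (ξ : Cotangent F L) :
    PB (I := IC F) (J := IC F) canForm canForm (trans u) 1
      (fun ξ : Cotangent F L => u ξ.1) ξ := by
  intro a
  have h1 := DFunLike.congr_fun (mfderiv_comp (I := IC F) (I' := IC F) (I'' := 𝓘(ℝ, F)) ξ
    (contMDiff_projC.mdifferentiableAt (by simp) (x := trans u ξ))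
    ((contMDiff_trans hu).mdifferentiableAt (by simp) (x := ξ))) a
  have h2 : ((TotalSpace.proj : Cotangent F L → L) ∘ trans u) = TotalSpace.proj := rfl
  rw [h2] at h1
  have h3 : canForm (trans u ξ) (mfderiv (IC F) (IC F) (trans u) ξ a) =
    (ξ.2 + dForm 𝓘(ℝ, F) u ξ.1)
      (mfderiv (IC F) 𝓘(ℝ, F) (TotalSpace.proj : Cotangent F L → L) ξ a) := by
    exact congrArg (ξ.2 + dForm 𝓘(ℝ, F) u ξ.1) h1.symm
  have h4 := DFunLike.congr_fun (mfderiv_comp (I := IC F) (I' := 𝓘(ℝ, F)) (I'' := 𝓘(ℝ, ℝ)) ξ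
    (hu.mdifferentiableAt (by simp) (x := ξ.1))
    (contMDiff_projC.mdifferentiableAt (by simp) (x := ξ))) a
  have h5 : (show ℝ from mfderiv (IC F) 𝓘(ℝ, ℝ) (fun ξ : Cotangent F L => u ξ.1) ξ a) =
    dForm 𝓘(ℝ, F) u ξ.1
      (mfderiv (IC F) 𝓘(ℝ, F) (TotalSpace.proj : Cotangent F L → L) ξ a) := h4
  rw [h3, h5, one_mul]
  rfl

/-- Every covector is the differential of a smooth function. -/
lemma exists_dForm_eq [T2Space L] (ξ : Cotangent F L) :
    ∃ u : L → ℝ, ContMDiff 𝓘(ℝ, F) 𝓘(ℝ, ℝ) ∞ u ∧ dForm 𝓘(ℝ, F) u ξ.1 = ξ.2 := by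
  obtain ⟨g, hg, hgi⟩ := exists_local_coord (I := 𝓘(ℝ, F)) ξ.1
  have hi := hgi.self_of_nhds
  let A : F →L[ℝ] F := mfderiv 𝓘(ℝ, F) 𝓘(ℝ, F) g ξ.1
  obtain ⟨P₀, hP₀⟩ := LinearMap.exists_leftInverse_of_injective (A : F →ₗ[ℝ] F)
    (LinearMap.ker_eq_bot.2 hi)
  let P : F →L[ℝ] F := LinearMap.toContinuousLinearMap P₀
  have hPA : ∀ a, P (A a) = a := fun a => DFunLike.congr_fun hP₀ a
  let ℓ : F →L[ℝ] ℝ := (show F →L[ℝ] ℝ from ξ.2).comp P
  refine ⟨fun q => ℓ (g q), ℓ.contDiff.contMDiff.comp hg, ?_⟩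
  refine ContinuousLinearMap.ext fun a => ?_
  have h1 := DFunLike.congr_fun (mfderiv_comp (I := 𝓘(ℝ, F)) (I' := 𝓘(ℝ, F)) (I'' := 𝓘(ℝ, ℝ)) ξ.1
    (ℓ.contDiff.contMDiff.mdifferentiableAt (n := ∞) (by simp) (x := g ξ.1))
    (hg.mdifferentiableAt (by simp))) a
  have h2 : mfderiv 𝓘(ℝ, F) 𝓘(ℝ, ℝ) ⇑ℓ (g ξ.1) = ℓ := by
    rw [mfderiv_eq_fderiv]
    exact ℓ.fderiv
  have h3 : dForm 𝓘(ℝ, F) (fun q => ℓ (g q)) ξ.1 a =
    (mfderiv 𝓘(ℝ, F) 𝓘(ℝ, ℝ) ⇑ℓ (g ξ.1) (A a) : ℝ) := h1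
  rw [h2] at h3
  rw [h3]
  exact congrArg (show F →L[ℝ] ℝ from ξ.2) (hPA a)

/-- Nondegeneracy at the zero section. -/
lemma nondegenerate_zeroC (q : L) (u : TangentSpace (IC F) (zeroC q : Cotangent F L))
    (hu : ∀ v, extDer (IC F) (canForm : (ξ : Cotangent F L) → _) (zeroC q) u v = 0) : u = 0 := by
  have hanti : ∀ (a b : TangentSpace (IC F) (zeroC q : Cotangent F L)),
      extDer (IC F) (canForm : (ξ : Cotangent F L) → _) (zeroC q) a b =
      - extDer (IC F) (canForm : (ξ : Cotangent F L) → _) (zeroC q) b a := by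
    intro a b
    unfold extDer
    ring
  have hadd : ∀ (a b v : TangentSpace (IC F) (zeroC q : Cotangent F L)),
      extDer (IC F) (canForm : (ξ : Cotangent F L) → _) (zeroC q) (a + b) v =
      extDer (IC F) (canForm : (ξ : Cotangent F L) → _) (zeroC q) a v +
      extDer (IC F) (canForm : (ξ : Cotangent F L) → _) (zeroC q) b v := by
    intro a b v
    rw [← extDerL_apply, map_add]
    rfl
  obtain ⟨a, p, rfl⟩ := exists_hor_vert q u
  have h1 : p = 0 := by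
    refine ContinuousLinearMap.ext fun b => ?_
    have h2 := hu (horV q b)
    rw [hadd, extDer_hor_hor, extDer_vert_hor, zero_add] at h2
    exact h2
  have h2 : (vertV q p : TangentSpace (IC F) (zeroC q : Cotangent F L)) = 0 := by
    rw [h1]; exact map_zero _
  have h3 : (a : F) = 0 := by
    by_contra ha
    obtain ⟨p', hp'⟩ : ∃ p' : F →L[ℝ] ℝ, p' a ≠ 0 := by
      exact SeparatingDual.exists_ne_zero (R := ℝ) (V := F) ha
    have h4 := hu (vertV q p')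
    rw [h2, add_zero] at h4
    rw [hanti, extDer_vert_hor] at h4
    apply hp'
    linarith
  rw [h2, add_zero]
  have h4 : (horV q (0:F) : TangentSpace (IC F) (zeroC q : Cotangent F L)) = 0 := map_zero _
  have h5 : a = (0 : F) := h3
  rw [h5]
  exact h4

/-- The canonical symplectic form of the cotangent bundle is nondegenerate. -/
theorem nondegenerate_canForm [T2Space L] (ξ : Cotangent F L) (u : TangentSpace (IC F) ξ)
    (hu : ∀ v, extDer (IC F) (canForm : (ξ : Cotangent F L) → _) ξ u v = 0) : u = 0 := by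
  obtain ⟨h, hh, hhξ⟩ := exists_dForm_eq ξ
  have h0 : trans h (zeroC ξ.1) = ξ := by
    show (⟨ξ.1, 0 + dForm 𝓘(ℝ, F) h ξ.1⟩ : Cotangent F L) = ξ
    rw [hhξ, zero_add]
  have hG := contMDiff_trans hh
  have hGi := contMDiff_trans hh.neg
  have hpb := extDer_of_PB (Φ := trans h) (smoothForm_canForm (F := F) (L := L))
    smoothForm_canForm hG
    (hh.comp contMDiff_projC) (c := 1) (fun x => canForm_trans hh x) (zeroC ξ.1)
  -- surjectivity
  have hsurj : ∀ b : F × (F →L[ℝ] ℝ), ∃ a : F × (F →L[ℝ] ℝ),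
      (mfderiv (IC F) (IC F) (trans h) (zeroC ξ.1 : Cotangent F L) a : F × (F →L[ℝ] ℝ)) = b := by
    intro b
    have e1 : trans (fun q => - h q) (trans h (zeroC ξ.1 : Cotangent F L)) = zeroC ξ.1 :=
      trans_neg_trans h _
    have h1 := mfderiv_comp (I := IC F) (I' := IC F) (I'' := IC F)
      (trans h (zeroC ξ.1 : Cotangent F L))
      (hG.mdifferentiableAt (by simp)
        (x := trans (fun q => - h q) (trans h (zeroC ξ.1 : Cotangent F L))))
      (hGi.mdifferentiableAt (by simp) (x := trans h (zeroC ξ.1 : Cotangent F L)))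
    have h2 : (trans h ∘ trans (fun q => - h q) : Cotangent F L → Cotangent F L) = id := by
      ext1 ζ; exact trans_trans_neg h ζ
    rw [h2, mfderiv_id] at h1
    have h3 : b =
        (mfderiv (IC F) (IC F) (trans h)
          (trans (fun q => - h q) (trans h (zeroC ξ.1 : Cotangent F L)))
          (mfderiv (IC F) (IC F) (trans (fun q => - h q)) (trans h (zeroC ξ.1 : Cotangent F L)) b) :
          F × (F →L[ℝ] ℝ)) :=
      DFunLike.congr_fun h1 b
    have h4 : ∀ z : Cotangent F L, z = zeroC ξ.1 → ∀ c : F × (F →L[ℝ] ℝ),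
        (mfderiv (IC F) (IC F) (trans h) z c : F × (F →L[ℝ] ℝ)) =
        mfderiv (IC F) (IC F) (trans h) (zeroC ξ.1 : Cotangent F L) c := by
      rintro z rfl c; rfl
    exact ⟨(mfderiv (IC F) (IC F) (trans (fun q => - h q)) (trans h (zeroC ξ.1 : Cotangent F L)) b),
      (h4 _ e1 _).symm.trans h3.symm⟩
  have key : ∀ x : Cotangent F L, x = trans h (zeroC ξ.1) → ∀ u : TangentSpace (IC F) x,
      (∀ v, extDer (IC F) (canForm : (ξ : Cotangent F L) → _) x u v = 0) → u = 0 := by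
    rintro _ rfl b hb
    obtain ⟨a, ha⟩ := hsurj b
    have ha' : (show TangentSpace (IC F) (zeroC ξ.1 : Cotangent F L) from a) = 0 := by
      apply nondegenerate_zeroC
      intro v
      have h1 := hpb a v
      rw [one_mul] at h1
      rw [← h1]
      have h2 := hb (mfderiv (IC F) (IC F) (trans h) (zeroC ξ.1) v)
      rw [← ha] at h2
      exact h2
    rw [← ha]
    exact (congrArg (mfderiv (IC F) (IC F) (trans h) (zeroC ξ.1 : Cotangent F L)) ha').trans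
      (map_zero _)
  exact key ξ h0.symm u hu

end cot

end Pool.Agent.H823
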