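import Mathlib

/-!
# Exact Lagrangian embeddings into cotangent bundles: the definitions used in the statements

`F` is a finite-dimensional real vector space, `N` and `L` are manifolds without boundary modelled
on `F` (so they have the same dimension).  Everything is smooth of class `C^∞`.

The cotangent bundle and its smooth structure are the ones of Mathlib (the total space of the
bundle of continuous linear maps from the tangent bundle to the trivial line bundle).
-/

open scoped Topology ContDiff Manifold
open Set Bundle

noncomputable section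

namespace Pool.Agent.H823.Nearby

set_option linter.unusedSectionVars false

universe u

/-! ### Differential forms -/

section Forms

variable {E : Type*} [NormedAddCommGroup E] [NormedSpace ℝ E] {H : Type*} [TopologicalSpace H]
  {I : ModelWithCorners ℝ E H} {X : Type*} [TopologicalSpace X] [ChartedSpace H X]

variable (I X) in
/-- One-forms on `X`. -/
abbrev OneForm : Type _ := (x : X) → TangentSpace I x →L[ℝ] ℝ

variable (I) in
/-- The one-form `α` written in the preferred chart `φ` at `x`: at the point `y` of the model
space `E` it is the pull back of `α` by `φ⁻¹`. -/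
def formInChart (α : OneForm I X) (x : X) (y : E) : E →L[ℝ] ℝ :=
  (α ((extChartAt I x).symm y)).comp (mfderiv 𝓘(ℝ, E) I (extChartAt I x).symm y)

variable (I) in
/-- The exterior derivative `dα` of the one-form `α` at `x`, evaluated on the tangent vectors `u`
and `v`; it is computed in the preferred chart at `x`, in which the tangent space at `x` is
identified with `E`. -/
def exteriorDerivative (α : OneForm I X) (x : X) (u v : TangentSpace I x) : ℝ :=
  fderiv ℝ (formInChart I α x) (extChartAt I x x) u v -
    fderiv ℝ (formInChart I α x) (extChartAt I x x) v u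

variable (I) in
/-- The differential of a real valued function. -/
def differential (f : X → ℝ) : OneForm I X := fun x => mfderiv I 𝓘(ℝ, ℝ) f x

end Forms

/-! ### The cotangent bundle -/

section Cotangent

variable (F : Type u) [NormedAddCommGroup F] [NormedSpace ℝ F]

/-- The cotangent bundle of the manifold `L`. -/
abbrev CotangentBundle (L : Type*) [TopologicalSpace L] [ChartedSpace F L] : Type _ :=
  TotalSpace (F →L[ℝ] ℝ) (fun q : L => TangentSpace 𝓘(ℝ, F) q →L[ℝ] ℝ)

/-- The model of the cotangent bundle; it has no boundary. -/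
abbrev cotangentCorners : ModelWithCorners ℝ (F × (F →L[ℝ] ℝ)) (ModelProd F (F →L[ℝ] ℝ)) :=
  𝓘(ℝ, F).prod 𝓘(ℝ, F →L[ℝ] ℝ)

variable {F}
variable {L : Type*} [TopologicalSpace L] [ChartedSpace F L]

/-- The zero section of the cotangent bundle. -/
def zeroSection (q : L) : CotangentBundle F L := ⟨q, 0⟩

/-- Multiplication by the real number `t` in the fibres of the cotangent bundle. -/
def scale (t : ℝ) (ξ : CotangentBundle F L) : CotangentBundle F L := ⟨ξ.1, t • ξ.2⟩

variable [IsManifold 𝓘(ℝ, F) ∞ L]

/-- The Liouville form `λ = p dq`: at the covector `ξ` it sends the tangent vector `w` to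
`ξ (dπ w)`, where `π` is the projection to `L`. -/
def liouvilleForm : OneForm (cotangentCorners F) (CotangentBundle F L) :=
  fun ξ => ξ.2.comp (mfderiv (cotangentCorners F) 𝓘(ℝ, F)
    (TotalSpace.proj : CotangentBundle F L → L) ξ)

end Cotangent

/-! ### Exact Lagrangian embeddings and symplectic maps -/

section Maps

variable {F : Type u} [NormedAddCommGroup F] [NormedSpace ℝ F]
  {L : Type*} [TopologicalSpace L] [ChartedSpace F L] [IsManifold 𝓘(ℝ, F) ∞ L]
  {N : Type*} [TopologicalSpace N] [ChartedSpace F N] [IsManifold 𝓘(ℝ, F) ∞ N]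

/-- The map `j : L → T^*N` is an exact Lagrangian embedding: a smooth embedding such that
`j^* λ` is the differential of a smooth function (so that `j^* ω = 0`); the dimensions of `L` and
`N` agree because both are modelled on `F`. -/
structure ExactLagrangianEmbedding (j : L → CotangentBundle F N) : Prop where
  smooth : ContMDiff 𝓘(ℝ, F) (cotangentCorners F) ∞ j
  embedding : Topology.IsEmbedding j
  immersion : ∀ q, Function.Injective (mfderiv 𝓘(ℝ, F) (cotangentCorners F) j q)
  exact : ∃ f : L → ℝ, ContMDiff 𝓘(ℝ, F) 𝓘(ℝ, ℝ) ∞ f ∧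
    ∀ (q : L) (v : TangentSpace 𝓘(ℝ, F) q),
      liouvilleForm (j q) (mfderiv 𝓘(ℝ, F) (cotangentCorners F) j q v) =
        differential 𝓘(ℝ, F) f q v

/-- The map `ψ : T^*L → T^*N` satisfies `ψ^* ω = ω` at the points of `O`. -/
def SymplecticOn (ψ : CotangentBundle F L → CotangentBundle F N)
    (O : Set (CotangentBundle F L)) : Prop :=
  ∀ ξ ∈ O, ∀ u v : TangentSpace (cotangentCorners F) ξ,
    exteriorDerivative (cotangentCorners F) liouvilleForm (ψ ξ)
      (mfderiv (cotangentCorners F) (cotangentCorners F) ψ ξ u)
      (mfderiv (cotangentCorners F) (cotangentCorners F) ψ ξ v) =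
    exteriorDerivative (cotangentCorners F) liouvilleForm ξ u v

/-- The map `ψ : T^*L → T^*N` satisfies `ψ^* λ = c λ + df` for some smooth function `f`. -/
def ConformallyExact (ψ : CotangentBundle F L → CotangentBundle F N) (c : ℝ) : Prop :=
  ∃ f : CotangentBundle F L → ℝ, ContMDiff (cotangentCorners F) 𝓘(ℝ, ℝ) ∞ f ∧
    ∀ (ξ : CotangentBundle F L) (u : TangentSpace (cotangentCorners F) ξ),
      liouvilleForm (ψ ξ) (mfderiv (cotangentCorners F) (cotangentCorners F) ψ ξ u) =
        c * liouvilleForm ξ u + differential (cotangentCorners F) f ξ u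

/-- The conclusion of Arnold's conjecture for `j : L → T^*N`: there is a symplectic diffeomorphism
`ψ` of `T^*N` with `j (L) = ψ (0_N)`. -/
def IsImageOfZeroSection (j : L → CotangentBundle F N) : Prop :=
  ∃ ψ : Diffeomorph (cotangentCorners F) (cotangentCorners F)
      (CotangentBundle F N) (CotangentBundle F N) ∞,
    SymplecticOn ψ univ ∧ range j = ψ '' range (zeroSection : N → CotangentBundle F N)

/-- There is a symplectic diffeomorphism `Ψ : T^*L → T^*N` which extends `j`, that is,
`Ψ ∘ 0_L = j`. -/
def Extends (j : L → CotangentBundle F N) : Prop :=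
  ∃ Ψ : Diffeomorph (cotangentCorners F) (cotangentCorners F)
      (CotangentBundle F L) (CotangentBundle F N) ∞,
    SymplecticOn Ψ univ ∧ ∀ q, Ψ (zeroSection q) = j q

/-- There is an exact symplectic diffeomorphism `Ψ : T^*L → T^*N` which extends `j`, that is,
`Ψ ∘ 0_L = j`. -/
def ExtendsExactly (j : L → CotangentBundle F N) : Prop :=
  ∃ Ψ : Diffeomorph (cotangentCorners F) (cotangentCorners F)
      (CotangentBundle F L) (CotangentBundle F N) ∞,
    ConformallyExact Ψ 1 ∧ ∀ q, Ψ (zeroSection q) = j q

/-- The two manifolds are diffeomorphic. -/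
def AreDiffeomorphic (F : Type u) [NormedAddCommGroup F] [NormedSpace ℝ F]
    (L : Type*) [TopologicalSpace L] [ChartedSpace F L]
    (N : Type*) [TopologicalSpace N] [ChartedSpace F N] : Prop :=
  Nonempty (Diffeomorph 𝓘(ℝ, F) 𝓘(ℝ, F) L N ∞)

end Maps

end Pool.Agent.H823.Nearby
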