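import Mathlib
import Pool.Agent.H823.NearbyDefs

/-!
# Criteria for exact Lagrangian embeddings into cotangent bundles
-/

open scoped Topology ContDiff Manifold
open Set Bundle

noncomputable section

namespace Pool.Agent.H823.Nearby

set_option linter.unusedSectionVars false

universe u

section defs

variable {F : Type u} [NormedAddCommGroup F] [NormedSpace ℝ F]
  {L : Type*} [TopologicalSpace L] [ChartedSpace F L] [IsManifold 𝓘(ℝ, F) ∞ L]
  {N : Type*} [TopologicalSpace N] [ChartedSpace F N] [IsManifold 𝓘(ℝ, F) ∞ N]

/-- The cone over `j (L)`, together with the zero section: the compact set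
`0_N ∪ {t j (q) : 0 ≤ t ≤ 1, q ∈ L}`. -/
def cone (j : L → CotangentBundle F N) : Set (CotangentBundle F N) :=
  range (zeroSection : N → CotangentBundle F N) ∪
    {x | ∃ t ∈ Icc (0:ℝ) 1, ∃ q : L, x = scale t (j q)}

/-- **Engulfing.** There is a Weinstein chart of `j`, defined on a fibrewise star-shaped open
neighbourhood `O` of the zero section of `T^*L`, whose image contains the compact set `cone j`.
(A Weinstein chart of `j` is a symplectic diffeomorphism `w` of `O` onto an open set of `T^*N`,
with inverse `w'`, such that `w ∘ 0_L = j`.) -/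
def Engulfing (j : L → CotangentBundle F N) : Prop :=
  ∃ (O : Set (CotangentBundle F L)) (w : CotangentBundle F L → CotangentBundle F N)
    (w' : CotangentBundle F N → CotangentBundle F L),
    IsOpen O ∧ (∀ t ∈ Icc (0:ℝ) 1, ∀ ξ ∈ O, scale t ξ ∈ O) ∧ (∀ q : L, zeroSection q ∈ O) ∧
    ContMDiffOn (cotangentCorners F) (cotangentCorners F) ∞ w O ∧ IsOpen (w '' O) ∧
    ContMDiffOn (cotangentCorners F) (cotangentCorners F) ∞ w' (w '' O) ∧
    (∀ ξ ∈ O, w' (w ξ) = ξ) ∧ SymplecticOn w O ∧ (∀ q, w (zeroSection q) = j q) ∧
    cone j ⊆ w '' O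

/-- **Attractor, weak form.** There is a conformally symplectic (and exact) diffeomorphism `η` of
`T^*N`, contracting `ω`, with `η (j (L)) = j (L)`, such that the iterates of `η` move `cone j`
into any given neighbourhood of `j (L)`. -/
def AttractsCone (j : L → CotangentBundle F N) : Prop :=
  ∃ (η : Diffeomorph (cotangentCorners F) (cotangentCorners F)
      (CotangentBundle F N) (CotangentBundle F N) ∞) (c : ℝ),
    0 < c ∧ c < 1 ∧ ConformallyExact η c ∧ η '' range j = range j ∧
    ∀ U : Set (CotangentBundle F N), IsOpen U → range j ⊆ U → ∃ n : ℕ, η^[n] '' cone j ⊆ U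

/-- **Attractor, strong form.** There is a conformally symplectic (and exact) diffeomorphism `η` of
`T^*N`, contracting `ω`, for which `j (L)` is the global attractor: `η (j (L)) = j (L)`, and the
iterates of `η` contract all compact sets to `j (L)`. -/
def IsGlobalAttractor (j : L → CotangentBundle F N) : Prop :=
  ∃ (η : Diffeomorph (cotangentCorners F) (cotangentCorners F)
      (CotangentBundle F N) (CotangentBundle F N) ∞) (c : ℝ),
    0 < c ∧ c < 1 ∧ ConformallyExact η c ∧ η '' range j = range j ∧
    ∀ K : Set (CotangentBundle F N), IsCompact K →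
      ∀ U : Set (CotangentBundle F N), IsOpen U → range j ⊆ U →
        ∃ n₀ : ℕ, ∀ n ≥ n₀, η^[n] '' K ⊆ U

/-- **Skeleton.** The set `j (L)` is the skeleton of a Liouville structure of `T^*N` which differs
from the standard one by an exact form: there are a smooth function `f` and a smooth action `φ` of
`ℝ` on `T^*N` with `φ_t^* (λ + df) = e^t (λ + df)` (the flow of the Liouville vector field of
`λ + df`) which leaves `j (L)` invariant and contracts all compact sets to `j (L)` for
`t → -∞`. -/
def IsSkeleton (j : L → CotangentBundle F N) : Prop :=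
  ∃ (f : CotangentBundle F N → ℝ) (φ : ℝ → CotangentBundle F N → CotangentBundle F N),
    ContMDiff (cotangentCorners F) 𝓘(ℝ, ℝ) ∞ f ∧
    ContMDiff (𝓘(ℝ, ℝ).prod (cotangentCorners F)) (cotangentCorners F) ∞
      (fun p : ℝ × CotangentBundle F N => φ p.1 p.2) ∧
    (∀ x, φ 0 x = x) ∧ (∀ s t x, φ (s + t) x = φ s (φ t x)) ∧
    (∀ (t : ℝ) (x : CotangentBundle F N) (u : TangentSpace (cotangentCorners F) x),
      (liouvilleForm (φ t x) + differential (cotangentCorners F) f (φ t x))
        (mfderiv (cotangentCorners F) (cotangentCorners F) (φ t) x u) =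
      Real.exp t * (liouvilleForm x + differential (cotangentCorners F) f x) u) ∧
    (∀ t, φ t '' range j = range j) ∧
    ∀ K : Set (CotangentBundle F N), IsCompact K →
      ∀ U : Set (CotangentBundle F N), IsOpen U → range j ⊆ U →
        ∃ t₀ : ℝ, ∀ t ≥ t₀, φ (-t) '' K ⊆ U

end defs

end Pool.Agent.H823.Nearby
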