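import Mathlib
import Pool.Agent.H823.Basic

/-! The engulfing engine, the Weinstein theorem for exact Lagrangian embeddings and
exactness of symplectic maps. -/

open scoped Topology ContDiff Manifold
open Set Metric Bundle

noncomputable section

namespace Pool.Agent.H823

open Pool.Agent.Helper186

set_option linter.unusedSectionVars false

universe u

section weinstein

variable {F : Type*} [NormedAddCommGroup F] [NormedSpace ℝ F] [FiniteDimensional ℝ F]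
  {L : Type*} [TopologicalSpace L] [ChartedSpace F L] [IsManifold 𝓘(ℝ, F) ∞ L]
  {E : Type u} [NormedAddCommGroup E] [NormedSpace ℝ E] [FiniteDimensional ℝ E]
  {H : Type*} [TopologicalSpace H] {I : ModelWithCorners ℝ E H} [I.Boundaryless]
  {X : Type*} [TopologicalSpace X] [ChartedSpace H X] [IsManifold I ∞ X]

/-- **Weinstein neighbourhood theorem** for exact Lagrangian embeddings. -/
theorem weinstein_exact [T2Space X] [SigmaCompactSpace X] [CompactSpace L] [T2Space L] [Nonempty L]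
    {lam : (x : X) → TangentSpace I x →L[ℝ] ℝ} (hlam : SmoothForm lam)
    (hnd : ∀ (x : X) (u : TangentSpace I x), (∀ v, extDer I lam x u v = 0) → u = 0)
    {ι : L → X} (hι : ContMDiff 𝓘(ℝ, F) I ∞ ι) (hιinj : Function.Injective ι)
    (hιimm : ∀ q, Function.Injective (mfderiv 𝓘(ℝ, F) I ι q))
    {f : L → ℝ} (hf : ContMDiff 𝓘(ℝ, F) 𝓘(ℝ, ℝ) ∞ f)
    (hιf : ∀ q (w : TangentSpace 𝓘(ℝ, F) q), lam (ι q) (mfderiv 𝓘(ℝ, F) I ι q w) =
      dForm 𝓘(ℝ, F) f q w)
    (hdim : Module.finrank ℝ E = 2 * Module.finrank ℝ F) :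
    ∃ (w : Cotangent F L → X) (w' : X → Cotangent F L) (O : Set (Cotangent F L)) (g : X → ℝ),
      IsOpen O ∧ (∀ q, zeroC q ∈ O) ∧ IsOpen (w '' O) ∧ ContMDiff (IC F) I ∞ w ∧
      ContMDiffOn I (IC F) ∞ w' (w '' O) ∧ (∀ ξ ∈ O, w' (w ξ) = ξ) ∧ (∀ q, w (zeroC q) = ι q) ∧
      ContMDiffOn I 𝓘(ℝ, ℝ) ∞ g (w '' O) ∧
      ∀ x ∈ w '' O, PB lam canForm w' 1 (fun x => - g x) x := by
  obtain ⟨g₀, hg₀, hg₀f⟩ := exists_extend hι hιinj hιimm hf
  have hs : SmoothForm (fun x => lam x + dForm I (fun x => - g₀ x) x) :=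
    hlam.add (smoothForm_dForm hg₀.neg)
  have hext : ∀ (x : X) (u v : TangentSpace I x),
      extDer I (fun x => lam x + dForm I (fun x => - g₀ x) x) x u v = extDer I lam x u v := by
    intro x u v
    rw [extDer_add hlam (smoothForm_dForm hg₀.neg), extDer_dForm hg₀.neg, add_zero]
  have hneg : ∀ (g : X → ℝ) (x : X) (u : TangentSpace I x), MDifferentiableAt I 𝓘(ℝ, ℝ) g x →
      dForm I (fun x => - g x) x u = - dForm I g x u := by
    intro g x u hg
    exact DFunLike.congr_fun hg.hasMFDerivAt.neg.mfderiv u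
  obtain ⟨w, w', O, g, h1, h2, h3, h4, h5, h6, h7, h8, h9⟩ := weinstein hs
    (fun x u hu => hnd x u fun v => by rw [← hext]; exact hu v) hι hιinj hιimm (by
      intro q v
      show lam (ι q) (mfderiv 𝓘(ℝ, F) I ι q v) +
        dForm I (fun x => - g₀ x) (ι q) (mfderiv 𝓘(ℝ, F) I ι q v) = 0
      rw [hιf, hneg g₀ _ _ (hg₀.mdifferentiableAt (by simp))]
      have e1 := DFunLike.congr_fun (mfderiv_comp (I := 𝓘(ℝ, F)) (I' := I) (I'' := 𝓘(ℝ, ℝ)) q
        (hg₀.mdifferentiableAt (by simp) (x := ι q)) (hι.mdifferentiableAt (by simp))) v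
      have e2 : (g₀ ∘ ι) = f := by ext1 q; exact hg₀f q
      rw [e2] at e1
      have e3 : dForm 𝓘(ℝ, F) f q v = dForm I g₀ (ι q) (mfderiv 𝓘(ℝ, F) I ι q v) := e1
      rw [e3]
      ring) hdim
  refine ⟨w, w', O, fun x => g x + g₀ x, h1, h2, h3, h4, h5, h6, h7,
    h8.add hg₀.contMDiffOn, ?_⟩
  intro x hx u
  have e0 : MDifferentiableAt I 𝓘(ℝ, ℝ) g x :=
    (h8.contMDiffAt (h3.mem_nhds hx)).mdifferentiableAt (by simp)
  have e1 : MDifferentiableAt I 𝓘(ℝ, ℝ) g₀ x := hg₀.mdifferentiableAt (by simp)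
  rw [h9 x hx u]
  have e2 : (show ℝ from mfderiv I 𝓘(ℝ, ℝ) (fun x => - (g x + g₀ x)) x u) =
      - ((show ℝ from mfderiv I 𝓘(ℝ, ℝ) g x u) + (show ℝ from mfderiv I 𝓘(ℝ, ℝ) g₀ x u)) :=
    DFunLike.congr_fun (e0.hasMFDerivAt.add e1.hasMFDerivAt).neg.mfderiv u
  have e3 : (show ℝ from mfderiv I 𝓘(ℝ, ℝ) (fun x => - g x) x u) =
      - (show ℝ from mfderiv I 𝓘(ℝ, ℝ) g x u) :=
    DFunLike.congr_fun e0.hasMFDerivAt.neg.mfderiv u
  have e4 : (lam x + dForm I (fun x => - g₀ x) x) u =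
      lam x u + - (show ℝ from mfderiv I 𝓘(ℝ, ℝ) g₀ x u) := by
    have e5 : (lam x + dForm I (fun x => - g₀ x) x) u =
      lam x u + dForm I (fun x => - g₀ x) x u := rfl
    rw [e5, hneg g₀ _ _ e1]
    rfl
  rw [e2, e3, e4]
  ring

end weinstein

section engine

variable {F : Type u} [NormedAddCommGroup F] [NormedSpace ℝ F] [FiniteDimensional ℝ F]
  {L : Type*} [TopologicalSpace L] [ChartedSpace F L] [IsManifold 𝓘(ℝ, F) ∞ L]
  {E' : Type*} [NormedAddCommGroup E'] [NormedSpace ℝ E'] [FiniteDimensional ℝ E']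
  {H' : Type*} [TopologicalSpace H'] {J : ModelWithCorners ℝ E' H'} [J.Boundaryless]
  {Z : Type*} [TopologicalSpace Z] [ChartedSpace H' Z] [IsManifold J ∞ Z]

/-- The star hull of a set. -/
def hull (C : Set (Cotangent F L)) : Set (Cotangent F L) :=
  (fun p : ℝ × Cotangent F L => scal p.1 p.2) '' (Icc (0:ℝ) 1 ×ˢ C)

lemma hull_compact {C : Set (Cotangent F L)} (hC : IsCompact C) : IsCompact (hull C) :=
  (isCompact_Icc.prod hC).image continuous_scal

lemma subset_hull (C : Set (Cotangent F L)) : C ⊆ hull C := fun ξ hξ =>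
  ⟨(1, ξ), ⟨⟨zero_le_one, le_rfl⟩, hξ⟩, scal_one ξ⟩

lemma hull_star (C : Set (Cotangent F L)) : ∀ s ∈ Icc (0:ℝ) 1, MapsTo (scal s) (hull C) (hull C) := by
  rintro s hs _ ⟨⟨t, ξ⟩, ⟨ht, hξ⟩, rfl⟩
  exact ⟨(s * t, ξ), ⟨⟨mul_nonneg hs.1 ht.1, mul_le_one₀ hs.2 ht.1 ht.2⟩, hξ⟩,
    (scal_scal s t ξ).symm⟩

/-- Compact sets with star hull in an open set have compact star-shaped neighbourhoods. -/
lemma exists_star_nbhd {K A : Set (Cotangent F L)} (hK : IsCompact K) (hA : IsOpen A)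
    (hKA : ∀ s ∈ Icc (0:ℝ) 1, ∀ ξ ∈ K, scal s ξ ∈ A) :
    ∃ V : Set (Cotangent F L), IsCompact V ∧ V ⊆ A ∧ K ⊆ interior V ∧
      ∀ s ∈ Icc (0:ℝ) 1, MapsTo (scal s) V V := by
  have hV : IsOpen {p : ℝ × Cotangent F L | scal p.1 p.2 ∈ A} := hA.preimage continuous_scal
  obtain ⟨a, b, ha, hb, h1, h2, h3⟩ := generalized_tube_lemma
    (isCompact_Icc (a := (0:ℝ)) (b := 1)) hK hV (by
      rintro ⟨s, ξ⟩ ⟨hs, hξ⟩
      exact hKA s hs ξ hξ)
  obtain ⟨Q', hQ', h4, h5⟩ := exists_compact_between hK hb h2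
  refine ⟨hull Q', hull_compact hQ', ?_, h4.trans (interior_mono (subset_hull Q')), hull_star Q'⟩
  rintro _ ⟨p, hp, rfl⟩
  exact h3 ⟨h1 hp.1, h5 hp.2⟩

/-- **The engulfing engine.** An exact symplectic chart with star-shaped domain in `T^*L`, whose
image contains a compact set `V` which is an absorbing set of the Liouville flow of `Z` and a
neighbourhood of the image of the zero section, can be replaced by an exact symplectic
diffeomorphism of `T^*L` onto `Z`, without changing the image of the zero section. -/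
theorem engine [T2Space L] [CompactSpace L] {β : (x : Z) → TangentSpace J x →L[ℝ] ℝ}
    (G : ConfFlow J β) {w : Cotangent F L → Z} {w' : Z → Cotangent F L}
    {O : Set (Cotangent F L)} {A V : Set Z} {g : Cotangent F L → ℝ}
    (hO : IsOpen O) (hA : IsOpen A) (hOs : ∀ s ∈ Icc (0:ℝ) 1, MapsTo (scal s) O O)
    (hw : MapsTo w O A) (hw' : MapsTo w' A O) (hw'w : ∀ ξ ∈ O, w' (w ξ) = ξ)
    (hww' : ∀ x ∈ A, w (w' x) = x)
    (hws : ContMDiffOn (IC F) J ∞ w O) (hw's : ContMDiffOn J (IC F) ∞ w' A)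
    (hg : ContMDiffOn (IC F) 𝓘(ℝ, ℝ) ∞ g O) (hpb : ∀ ξ ∈ O, PB canForm β w 1 g ξ)
    (hV : IsCompact V) (hVA : V ⊆ A) (hVG : ∀ r ≥ 0, MapsTo (G.φ (-r)) V V)
    (hVabs : ∀ C : Set Z, IsCompact C → ∃ s₀, 0 ≤ s₀ ∧ ∀ r ≥ s₀, ∀ x ∈ C,
      G.φ (-r) x ∈ interior V)
    (h0 : ∀ q, zeroC q ∈ O) (hV0 : ∀ q, w (zeroC q) ∈ interior V) :
    ∃ (Φ : Diffeomorph (IC F) J (Cotangent F L) Z ∞) (f : Cotangent F L → ℝ),
      ContMDiff (IC F) 𝓘(ℝ, ℝ) ∞ f ∧ (∀ ξ, PB canForm β Φ 1 f ξ) ∧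
      ∀ q, Φ (zeroC q) = w (zeroC q) := by
  have hexp : ∀ r : ℝ, 0 ≤ r → Real.exp (-r) ∈ Icc (0:ℝ) 1 := fun r hr =>
    ⟨(Real.exp_pos _).le, Real.exp_le_one_iff.2 (by linarith)⟩
  have hCc : IsCompact (w' '' V) := hV.image_of_continuousOn (hw's.continuousOn.mono hVA)
  have hBO : hull (w' '' V) ⊆ O := by
    rintro _ ⟨⟨s, _⟩, ⟨hs, ⟨x, hx, rfl⟩⟩, rfl⟩
    exact hOs s hs (hw' (hVA hx))
  have hBc : IsCompact (hull (w' '' V)) := hull_compact hCc
  have hQ₁ : IsOpen (O ∩ w ⁻¹' interior V) :=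
    hws.continuousOn.isOpen_inter_preimage hO isOpen_interior
  have hQ₁0 : ∀ q, zeroC q ∈ interior (O ∩ w ⁻¹' interior V) := by
    intro q
    rw [hQ₁.interior_eq]
    exact ⟨h0 q, hV0 q⟩
  obtain ⟨T₀, hT₀, hT₀Q⟩ := exists_contract hQ₁0 hBc
  rw [hQ₁.interior_eq] at hT₀Q
  obtain ⟨s₀, hs₀, hs₀V⟩ := hVabs (w '' hull (w' '' V))
    (hBc.image_of_continuousOn (hws.continuousOn.mono hBO))
  let 𝒟 : GermData (IC F) J (canForm : (ξ : Cotangent F L) → _) β :=
    { F := cotFlow F L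
      G := G
      w := w'
      w' := w
      O := A
      A := O
      B := hull (w' '' V)
      Q := V
      g := fun ξ => - g ξ
      T₀ := T₀
      s₀ := s₀
      O_open := hA
      A_open := hO
      w_maps := hw'
      w'_maps := hw
      w'_w := hww'
      w_w' := hw'w
      w_smooth := hw's
      w'_smooth := hws
      g_smooth := hg.neg
      w'_form := fun ξ hξ => by
        have h1 := hpb ξ hξ
        have h2 : (fun x => - (fun ξ => - g ξ) x) = g := by ext1 x; simp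
        rw [h2]
        exact h1
      B_sub := hBO
      B_inv := fun r hr => hull_star _ _ (hexp r hr)
      Q_compact := hV
      Q_sub := hVA
      Q_inv := hVG
      wQ_B := fun x hx => subset_hull _ ⟨x, hx, rfl⟩
      T₀_nonneg := hT₀
      T₀_spec := fun r hr ξ hξ => (hT₀Q r hr ξ hξ).2
      s₀_nonneg := hs₀
      s₀_spec := fun r hr ξ hξ => hs₀V r hr _ ⟨ξ, hξ, rfl⟩
      absorb := fun ξ => by
        obtain ⟨t₀, -, ht₀⟩ := exists_contract hQ₁0 (isCompact_singleton (x := ξ))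
        rw [hQ₁.interior_eq] at ht₀
        exact ⟨t₀, fun t ht => ht₀ t ht ξ rfl⟩
      absorb' := fun x => by
        obtain ⟨t₀, -, ht₀⟩ := hVabs {x} isCompact_singleton
        exact ⟨t₀, fun t ht => ht₀ t ht x rfl⟩ }
  obtain ⟨Φ, f, hf, hΦ, hΦw⟩ := germ_equiv 𝒟 smoothForm_canForm nondegenerate_canForm
  exact ⟨Φ, f, hf, hΦ, fun q => hΦw _ ⟨h0 q, hV0 q⟩⟩

/-- The engulfing engine for cotangent bundles. -/
theorem engine_cot [T2Space L] [CompactSpace L]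
    {N : Type*} [TopologicalSpace N] [ChartedSpace F N] [IsManifold 𝓘(ℝ, F) ∞ N]
    [CompactSpace N]
    {w : Cotangent F L → Cotangent F N} {w' : Cotangent F N → Cotangent F L}
    {O : Set (Cotangent F L)} {A : Set (Cotangent F N)} {g : Cotangent F L → ℝ}
    (hO : IsOpen O) (hA : IsOpen A) (hOs : ∀ s ∈ Icc (0:ℝ) 1, MapsTo (scal s) O O)
    (hw : MapsTo w O A) (hw' : MapsTo w' A O) (hw'w : ∀ ξ ∈ O, w' (w ξ) = ξ)
    (hww' : ∀ x ∈ A, w (w' x) = x)
    (hws : ContMDiffOn (IC F) (IC F) ∞ w O) (hw's : ContMDiffOn (IC F) (IC F) ∞ w' A)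
    (hg : ContMDiffOn (IC F) 𝓘(ℝ, ℝ) ∞ g O) (hpb : ∀ ξ ∈ O, PB canForm canForm w 1 g ξ)
    (h0 : ∀ q, zeroC q ∈ O)
    (hN : ∀ q : N, zeroC q ∈ A) (hcone : ∀ s ∈ Icc (0:ℝ) 1, ∀ q, scal s (w (zeroC q)) ∈ A) :
    ∃ (Φ : Diffeomorph (IC F) (IC F) (Cotangent F L) (Cotangent F N) ∞)
      (f : Cotangent F L → ℝ),
      ContMDiff (IC F) 𝓘(ℝ, ℝ) ∞ f ∧ (∀ ξ, PB canForm canForm Φ 1 f ξ) ∧
      ∀ q, Φ (zeroC q) = w (zeroC q) := by
  have hwz : Continuous (fun q : L => w (zeroC q)) :=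
    hws.continuousOn.comp_continuous contMDiff_zeroC.continuous h0
  obtain ⟨V, hV, hVA, hKV, hVs⟩ := exists_star_nbhd
    (K := range (zeroC : N → Cotangent F N) ∪ range (fun q : L => w (zeroC q)))
    (isCompact_range_zeroC.union (isCompact_range hwz)) hA (by
      rintro s hs _ (⟨q, rfl⟩ | ⟨q, rfl⟩)
      · rw [scal_zeroC]; exact hN q
      · exact hcone s hs q)
  exact engine (cotFlow F N) hO hA hOs hw hw' hw'w hww' hws hw's hg hpb hV hVA
    (fun r hr => hVs _ ⟨(Real.exp_pos _).le, Real.exp_le_one_iff.2 (by linarith)⟩)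
    (fun C hC => exists_contract (fun q => hKV (Or.inl ⟨q, rfl⟩)) hC)
    h0 (fun q => hKV (Or.inr ⟨q, rfl⟩))

end engine

section exactness

variable {F : Type u} [NormedAddCommGroup F] [NormedSpace ℝ F] [FiniteDimensional ℝ F]
  {L : Type*} [TopologicalSpace L] [ChartedSpace F L] [IsManifold 𝓘(ℝ, F) ∞ L]
  {E' : Type*} [NormedAddCommGroup E'] [NormedSpace ℝ E'] [FiniteDimensional ℝ E']
  {H' : Type*} [TopologicalSpace H'] {J : ModelWithCorners ℝ E' H'} [J.Boundaryless]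
  {Z : Type*} [TopologicalSpace Z] [ChartedSpace H' Z] [IsManifold J ∞ Z]

/-- The radial vector field is annihilated by the canonical form. -/
lemma canForm_dS_scal (s : ℝ) (ξ : Cotangent F L) :
    canForm (scal s ξ) (dS (IC F) (fun p : ℝ × Cotangent F L => scal p.1 p.2) s ξ) = 0 := by
  have hd : MDifferentiableAt 𝓘(ℝ, ℝ) (IC F) (fun σ : ℝ => scal σ ξ) s := by
    have h1 : ContMDiff 𝓘(ℝ, ℝ) (IC F) ∞ (fun σ : ℝ => scal σ ξ) :=
      contMDiff_scal.comp (contMDiff_id.prodMk contMDiff_const)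
    exact h1.mdifferentiableAt (by simp)
  have h1 := mfderiv_comp (I := 𝓘(ℝ, ℝ)) (I' := IC F) (I'' := 𝓘(ℝ, F)) s
    (contMDiff_projC.mdifferentiableAt (by simp) (x := scal s ξ)) hd
  have h2 : ((TotalSpace.proj : Cotangent F L → L) ∘ fun σ : ℝ => scal σ ξ) = fun _ => ξ.1 := rfl
  rw [h2, mfderiv_const] at h1
  have h3 := DFunLike.congr_fun h1 (1:ℝ)
  have h4 : canForm (scal s ξ) (dS (IC F) (fun p : ℝ × Cotangent F L => scal p.1 p.2) s ξ) =
    (s • ξ.2) (mfderiv (IC F) 𝓘(ℝ, F) (TotalSpace.proj : Cotangent F L → L) (scal s ξ)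
      (mfderiv 𝓘(ℝ, ℝ) (IC F) (fun σ : ℝ => scal σ ξ) s (1:ℝ))) := rfl
  rw [h4]
  refine (congrArg (s • ξ.2) h3.symm).trans ?_
  exact map_zero _

/-- **Exactness.** A symplectic map of a neighbourhood of a compact star-shaped set in `T^*L` is
exact on the compact set if it is exact on the zero section. -/
theorem exact_of_symplectic [T2Space L] [CompactSpace L]
    {β : (x : Z) → TangentSpace J x →L[ℝ] ℝ} (hβ : SmoothForm β)
    {w : Cotangent F L → Z} {O C : Set (Cotangent F L)} (hO : IsOpen O)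
    (hws : ContMDiffOn (IC F) J ∞ w O)
    (hsym : ∀ ξ ∈ O, ∀ u v : TangentSpace (IC F) ξ,
      extDer J β (w ξ) (mfderiv (IC F) J w ξ u) (mfderiv (IC F) J w ξ v) =
      extDer (IC F) (canForm : (ξ : Cotangent F L) → _) ξ u v)
    (hC : IsCompact C) (hCO : C ⊆ O) (hCs : ∀ s ∈ Icc (0:ℝ) 1, MapsTo (scal s) C C)
    {j : L → Z} (hj : ∀ q, zeroC q ∈ O → w (zeroC q) = j q) 
    {f : L → ℝ} (hf : ContMDiff 𝓘(ℝ, F) 𝓘(ℝ, ℝ) ∞ f)
    (hjf : ∀ q, zeroC q ∈ O → ∀ v : TangentSpace 𝓘(ℝ, F) q,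
      β (j q) (mfderiv 𝓘(ℝ, F) J j q v) = dForm 𝓘(ℝ, F) f q v) :
    ∃ g : Cotangent F L → ℝ, ContMDiff (IC F) 𝓘(ℝ, ℝ) ∞ g ∧
      ∀ ξ ∈ C, PB canForm β w 1 g ξ := by
  obtain ⟨χ, K', hχ, hK', hK'O, hχ1, hχ0⟩ := exists_cutoff (IC F) hC hO hCO
  -- the two families
  set i₀ : ℝ × Cotangent F L → Cotangent F L := fun p => scal p.1 p.2 with hi₀
  have hi₀s : ContMDiff (𝓘(ℝ, ℝ).prod (IC F)) (IC F) ∞ i₀ := contMDiff_scal
  set D : Set (ℝ × Cotangent F L) := i₀ ⁻¹' O with hD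
  have hDo : IsOpen D := hO.preimage hi₀s.continuous
  set i : ℝ × Cotangent F L → Z := fun p => w (i₀ p) with hi
  have his : ContMDiffOn (𝓘(ℝ, ℝ).prod (IC F)) J ∞ i D :=
    hws.comp hi₀s.contMDiffOn (fun p hp => hp)
  set K : ℝ × Cotangent F L → ℝ := fun p => β (i p) (dS J i p.1 p.2) with hK
  have hKs : ContMDiffOn (𝓘(ℝ, ℝ).prod (IC F)) 𝓘(ℝ, ℝ) ∞ K D := fun p hp =>
    (hβ.comp (contMDiffAt_dS hDo his hp) le_rfl).contMDiffWithinAt
  set Kt : ℝ × Cotangent F L → ℝ := fun p => χ (i₀ p) * K p with hKt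
  have hKts : ContMDiff (𝓘(ℝ, ℝ).prod (IC F)) 𝓘(ℝ, ℝ) ∞ Kt := by
    refine contMDiff_cutoff_mul (K' := i₀ ⁻¹' K') (hK'.isClosed.preimage hi₀s.continuous) hDo
      (preimage_mono hK'O) (hχ.comp hi₀s) hKs ?_
    intro p hp
    exact hχ0 _ hp
  refine ⟨fun ξ => (∫ s in (0:ℝ)..1, Kt (s, ξ)) + f ξ.1,
    (contMDiff_paramInt hKts 1).add (hf.comp contMDiff_projC), ?_⟩
  intro ξ hξ u
  -- variation formulas
  have hCi : ∀ s ∈ Icc (0:ℝ) 1, (s, ξ) ∈ D := fun s hs => hCO (hCs s hs hξ)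
  have hvar : ∀ s ∈ Icc (0:ℝ) 1, HasDerivAt (fun σ => β (i (σ, ξ)) (dX J (IC F) i σ ξ u))
      (canForm ξ u + (show ℝ from mfderiv (IC F) 𝓘(ℝ, ℝ) (fun x => Kt (s, x)) ξ u)) s := by
    intro s hs
    have hsD := hCi s hs
    have h1 := hasDerivAt_variation hβ hDo his hsD u
    have h2 := hasDerivAt_variation (smoothForm_canForm (F := F) (L := L)) isOpen_univ
      hi₀s.contMDiffOn (mem_univ (s, ξ)) u
    have h3 : (fun x' => canForm (i₀ (s, x')) (dS (IC F) i₀ s x')) = fun _ => (0:ℝ) := by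
      ext x'
      exact canForm_dS_scal s x'
    have h4 : (show ℝ from mfderiv (IC F) 𝓘(ℝ, ℝ)
        (fun x' => canForm (i₀ (s, x')) (dS (IC F) i₀ s x')) ξ u) = 0 := by
      rw [h3, mfderiv_const]
      rfl
    rw [h4, add_zero] at h2
    have h5 : (fun σ => canForm (i₀ (σ, ξ)) (dX (IC F) (IC F) i₀ σ ξ u)) =
        fun σ => σ * canForm ξ u := by
      ext σ
      exact canForm_scal σ ξ u
    rw [h5] at h2
    have h6 : HasDerivAt (fun σ : ℝ => σ * canForm ξ u) (canForm ξ u) s := by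
      simpa using (hasDerivAt_id s).mul_const (canForm ξ u)
    have h7 := h6.unique h2
    -- chain rule
    have hwd : MDifferentiableAt (IC F) J w (i₀ (s, ξ)) :=
      (hws.contMDiffAt (hO.mem_nhds hsD)).mdifferentiableAt (by simp)
    have h8 : dS J i s ξ = mfderiv (IC F) J w (i₀ (s, ξ)) (dS (IC F) i₀ s ξ) := by
      have hd : MDifferentiableAt 𝓘(ℝ, ℝ) (IC F) (fun σ => i₀ (σ, ξ)) s := by
        have h1 : ContMDiff 𝓘(ℝ, ℝ) (IC F) ∞ (fun σ : ℝ => i₀ (σ, ξ)) :=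
          hi₀s.comp (contMDiff_id.prodMk contMDiff_const)
        exact h1.mdifferentiableAt (by simp)
      exact DFunLike.congr_fun (mfderiv_comp (I := 𝓘(ℝ, ℝ)) (I' := IC F) (I'' := J) s hwd hd)
        (1:ℝ)
    have h9 : dX J (IC F) i s ξ u =
        mfderiv (IC F) J w (i₀ (s, ξ)) (dX (IC F) (IC F) i₀ s ξ u) := by
      have hd : MDifferentiableAt (IC F) (IC F) (fun x => i₀ (s, x)) ξ := by
        have h1 : ContMDiff (IC F) (IC F) ∞ (fun x => i₀ (s, x)) :=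
          hi₀s.comp (contMDiff_const.prodMk contMDiff_id)
        exact h1.mdifferentiableAt (by simp)
      exact DFunLike.congr_fun (mfderiv_comp (I := IC F) (I' := IC F) (I'' := J) ξ hwd hd) u
    have h10 : extDer J β (i (s, ξ)) (dS J i s ξ) (dX J (IC F) i s ξ u) = canForm ξ u := by
      rw [h8, h9, h7]
      exact hsym _ hsD _ _
    rw [h10] at h1
    -- the cut-off plays no role
    have h11 : (fun x => Kt (s, x)) =ᶠ[𝓝 ξ] fun x' => β (i (s, x')) (dS J i s x') := by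
      have h12 : ContinuousAt (fun x : Cotangent F L => i₀ (s, x)) ξ :=
        (contMDiff_scal_slice s).continuous.continuousAt
      have h13 : ∀ᶠ y in 𝓝 (i₀ (s, ξ)), χ y = 1 :=
        hχ1.filter_mono (nhds_le_nhdsSet (hCs s hs hξ))
      filter_upwards [h12.eventually h13] with x hx
      show χ (i₀ (s, x)) * K (s, x) = _
      rw [hx, one_mul]
    rw [h11.mfderiv_eq (I := IC F) (I' := 𝓘(ℝ, ℝ))]
    exact h1
  have hint : IntervalIntegrable (fun s => canForm ξ u +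
      (show ℝ from mfderiv (IC F) 𝓘(ℝ, ℝ) (fun x => Kt (s, x)) ξ u))
      MeasureTheory.volume 0 1 :=
    (continuous_const.add (continuous_mfderiv_slice hKts ξ u)).intervalIntegrable _ _
  have hftc := intervalIntegral.integral_eq_sub_of_hasDerivAt (a := (0:ℝ)) (b := 1)
    (f := fun σ => β (i (σ, ξ)) (dX J (IC F) i σ ξ u))
    (f' := fun s => canForm ξ u +
      (show ℝ from mfderiv (IC F) 𝓘(ℝ, ℝ) (fun x => Kt (s, x)) ξ u)) (by
      intro s hs
      rw [uIcc_of_le zero_le_one] at hs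
      exact hvar s hs) hint
  have hint2 : IntervalIntegrable (fun s =>
      (show ℝ from mfderiv (IC F) 𝓘(ℝ, ℝ) (fun x => Kt (s, x)) ξ u))
      MeasureTheory.volume 0 1 := (continuous_mfderiv_slice hKts ξ u).intervalIntegrable _ _
  rw [intervalIntegral.integral_add (by simp) hint2] at hftc
  rw [intervalIntegral.integral_const] at hftc
  -- the derivative of the primitive
  have hg1 : (show ℝ from mfderiv (IC F) 𝓘(ℝ, ℝ)
      (fun ξ : Cotangent F L => (∫ s in (0:ℝ)..1, Kt (s, ξ)) + f ξ.1) ξ u) =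
      (∫ s in (0:ℝ)..1, (show ℝ from mfderiv (IC F) 𝓘(ℝ, ℝ) (fun x => Kt (s, x)) ξ u)) +
      dForm 𝓘(ℝ, F) f ξ.1
        (mfderiv (IC F) 𝓘(ℝ, F) (TotalSpace.proj : Cotangent F L → L) ξ u) := by
    have e1 := ((contMDiff_paramInt hKts 1).mdifferentiableAt (by simp) (x := ξ)).hasMFDerivAt.add
      ((hf.comp contMDiff_projC).mdifferentiableAt (by simp) (x := ξ)).hasMFDerivAt
    have e2 := DFunLike.congr_fun e1.mfderiv u
    have e3 := DFunLike.congr_fun (mfderiv_comp (I := IC F) (I' := 𝓘(ℝ, F)) (I'' := 𝓘(ℝ, ℝ)) ξ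
      (hf.mdifferentiableAt (by simp) (x := ξ.1))
      (contMDiff_projC.mdifferentiableAt (by simp) (x := ξ))) u
    have e4 := mfderiv_paramInt hKts 1 ξ u
    exact e2.trans (congrArg₂ (fun a b : ℝ => a + b) e4 e3)
  have h1' : i₀ (1, ξ) = ξ := scal_one ξ
  have hend1 : β (i (1, ξ)) (dX J (IC F) i 1 ξ u) = β (w ξ) (mfderiv (IC F) J w ξ u) := by
    have e1 : (fun x => i (1, x)) = w := by
      ext1 x
      show w (scal 1 x) = w x
      rw [scal_one]
    have e2 : ∀ φ : Cotangent F L → Z, φ = w → β (φ ξ) (mfderiv (IC F) J φ ξ u) =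
        β (w ξ) (mfderiv (IC F) J w ξ u) := by
      rintro φ rfl; rfl
    exact e2 _ e1
  have hend0 : β (i (0, ξ)) (dX J (IC F) i 0 ξ u) = dForm 𝓘(ℝ, F) f ξ.1
        (mfderiv (IC F) 𝓘(ℝ, F) (TotalSpace.proj : Cotangent F L → L) ξ u) := by
    have h0O : zeroC ξ.1 ∈ O := by
      have := hCi 0 ⟨le_rfl, zero_le_one⟩
      have h2 : scal 0 ξ ∈ O := this
      rwa [scal_zero] at h2
    rw [← hjf ξ.1 h0O]
    have hOL : IsOpen {q : L | (zeroC q : Cotangent F L) ∈ O} :=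
      hO.preimage contMDiff_zeroC.continuous
    have hjd : MDifferentiableAt 𝓘(ℝ, F) J j ξ.1 := by
      have e1 : MDifferentiableAt 𝓘(ℝ, F) J (w ∘ zeroC) ξ.1 :=
        MDifferentiableAt.comp (I' := IC F) ξ.1
          ((hws.contMDiffAt (hO.mem_nhds h0O)).mdifferentiableAt (by simp))
          (contMDiff_zeroC.mdifferentiableAt (by simp))
      refine e1.congr_of_eventuallyEq ?_
      filter_upwards [hOL.mem_nhds h0O] with q hq
      exact (hj q hq).symm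
    have e1 : (fun x => i (0, x)) =ᶠ[𝓝 ξ] (j ∘ (TotalSpace.proj : Cotangent F L → L)) := by
      filter_upwards [(hOL.preimage contMDiff_projC.continuous).mem_nhds h0O] with x hx
      show w (scal 0 x) = j x.1
      rw [scal_zero]
      exact hj x.1 hx
    have e2 := tangentMap_congr_of_eventuallyEq (J := IC F) (I := J)
      (v := (⟨ξ, u⟩ : TangentBundle (IC F) (Cotangent F L))) e1
    have e3 := form_congr' β e2
    have e4 := DFunLike.congr_fun (mfderiv_comp (I := IC F) (I' := 𝓘(ℝ, F)) (I'' := J) ξ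
      hjd (contMDiff_projC.mdifferentiableAt (by simp) (x := ξ))) u
    have e5 : β (j ξ.1) (mfderiv (IC F) J (j ∘ (TotalSpace.proj : Cotangent F L → L)) ξ u) =
      β (j ξ.1) (mfderiv 𝓘(ℝ, F) J j ξ.1
        (mfderiv (IC F) 𝓘(ℝ, F) (TotalSpace.proj : Cotangent F L → L) ξ u)) :=
      congrArg (β (j ξ.1)) e4
    exact e3.trans e5
  rw [hend1, hend0] at hftc
  rw [hg1, one_mul]
  simp only [sub_zero, smul_eq_mul, one_mul] at hftc
  linarith

end exactness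

end Pool.Agent.H823
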