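import Mathlib
import Pool.Agent.H823.Core
import Pool.Agent.H823.NearbyDefs

/-! Star-shaped Weinstein charts for exact Lagrangian embeddings. -/

open scoped Topology ContDiff Manifold
open Set Bundle

noncomputable section

namespace Pool.Agent.H823.Nearby

set_option linter.unusedSectionVars false

universe u

/-! ### Conversion to the library -/

section bridge

open Pool.Agent.Helper186

variable {F : Type u} [NormedAddCommGroup F] [NormedSpace ℝ F] [FiniteDimensional ℝ F]
  {L : Type*} [TopologicalSpace L] [ChartedSpace F L] [IsManifold 𝓘(ℝ, F) ∞ L]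
  {N : Type*} [TopologicalSpace N] [ChartedSpace F N] [IsManifold 𝓘(ℝ, F) ∞ N]

lemma conformallyExact_iff {ψ : CotangentBundle F L → CotangentBundle F N} {c : ℝ} :
    ConformallyExact ψ c ↔ ∃ f : Cotangent F L → ℝ, ContMDiff (IC F) 𝓘(ℝ, ℝ) ∞ f ∧
      ∀ ξ, PB canForm canForm ψ c f ξ := Iff.rfl

lemma symplectic_of_exact {ψ : CotangentBundle F L → CotangentBundle F N}
    (hψ : ContMDiff (IC F) (IC F) ∞ ψ) (h : ConformallyExact ψ 1) : SymplecticOn ψ univ := by
  obtain ⟨f, hf, hpb⟩ := conformallyExact_iff.1 h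
  intro ξ _ u v
  have h1 := extDer_of_PB smoothForm_canForm smoothForm_canForm hψ hf hpb ξ u v
  rw [one_mul] at h1
  exact h1

lemma extends_of_exactly {j : L → CotangentBundle F N} (h : ExtendsExactly j) : Extends j := by
  obtain ⟨Ψ, h1, h2⟩ := h
  exact ⟨Ψ, symplectic_of_exact Ψ.contMDiff h1, h2⟩

lemma finrank_cot : Module.finrank ℝ (F × (F →L[ℝ] ℝ)) = 2 * Module.finrank ℝ F := by
  rw [Module.finrank_prod]
  have h1 : Module.finrank ℝ F = Module.finrank ℝ (F →L[ℝ] ℝ) := by
    rw [← (LinearMap.toContinuousLinearMap (𝕜 := ℝ) (E := F) (F' := ℝ)).finrank_eq]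
    exact (Subspace.dual_finrank_eq (K := ℝ) (V := F)).symm
  omega

/-- Star-shaped exact Weinstein charts. -/
theorem exists_chart [T2Space L] [CompactSpace L] [Nonempty L] [T2Space N] [CompactSpace N]
    {j : L → CotangentBundle F N} (hj : ExactLagrangianEmbedding j) :
    ∃ (w : Cotangent F L → Cotangent F N) (w' : Cotangent F N → Cotangent F L)
      (O : Set (Cotangent F L)) (g : Cotangent F L → ℝ),
      IsOpen O ∧ (∀ s ∈ Icc (0:ℝ) 1, MapsTo (scal s) O O) ∧ (∀ q, zeroC q ∈ O) ∧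
      IsOpen (w '' O) ∧ ContMDiff (IC F) (IC F) ∞ w ∧ ContMDiffOn (IC F) (IC F) ∞ w' (w '' O) ∧
      (∀ ξ ∈ O, w' (w ξ) = ξ) ∧ (∀ q, w (zeroC q) = j q) ∧
      ContMDiffOn (IC F) 𝓘(ℝ, ℝ) ∞ g O ∧ ∀ ξ ∈ O, PB canForm canForm w 1 g ξ := by
  obtain ⟨f, hf, hjf⟩ := hj.exact
  obtain ⟨w, w', O, g, h1, h2, h3, h4, h5, h6, h7, h8, h9⟩ := weinstein_exact
    (smoothForm_canForm (F := F) (L := N)) nondegenerate_canForm hj.smooth hj.embedding.injective
    hj.immersion hf hjf finrank_cot
  obtain ⟨Q, hQ, hQO, hQ0, hQs⟩ := exists_starshaped h1 h2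
  have hO' : interior Q ⊆ O := interior_subset.trans hQO
  have himg : w '' interior Q = (w '' O) ∩ w' ⁻¹' interior Q := by
    ext x
    constructor
    · rintro ⟨ξ, hξ, rfl⟩
      refine ⟨⟨ξ, hO' hξ, rfl⟩, ?_⟩
      show w' (w ξ) ∈ interior Q
      rw [h6 ξ (hO' hξ)]
      exact hξ
    · rintro ⟨⟨ξ, hξ, rfl⟩, hx⟩
      have hx' : w' (w ξ) ∈ interior Q := hx
      rw [h6 ξ hξ] at hx'
      exact ⟨ξ, hx', rfl⟩
  have hsub : w '' interior Q ⊆ w '' O := image_mono hO'
  refine ⟨w, w', interior Q, fun ξ => g (w ξ), isOpen_interior, ?_, hQ0, ?_, h4, h5.mono hsub,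
    fun ξ hξ => h6 ξ (hO' hξ), h7, ?_, ?_⟩
  · intro s hs ξ hξ
    rcases eq_or_lt_of_le hs.1 with h | h
    · rw [← h, scal_zero]
      exact hQ0 _
    · have h10 : scal s '' interior Q ⊆ interior Q := by
        apply interior_maximal
        · rintro _ ⟨ζ, hζ, rfl⟩
          exact hQs s hs (interior_subset hζ)
        · have h11 : scal s '' interior Q = scal s⁻¹ ⁻¹' interior Q := by
            ext ζ
            constructor
            · rintro ⟨η, hη, rfl⟩
              show scal s⁻¹ (scal s η) ∈ interior Q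
              rw [scal_scal, inv_mul_cancel₀ h.ne', scal_one]
              exact hη
            · intro hζ
              refine ⟨scal s⁻¹ ζ, hζ, ?_⟩
              rw [scal_scal, mul_inv_cancel₀ h.ne', scal_one]
          rw [h11]
          exact isOpen_interior.preimage (contMDiff_scal_slice _).continuous
      exact h10 ⟨ξ, hξ, rfl⟩
  · rw [himg]
    exact h5.continuousOn.isOpen_inter_preimage h3 isOpen_interior
  · exact h8.comp h4.contMDiffOn (fun ξ hξ => ⟨ξ, hO' hξ, rfl⟩)
  · intro ξ hξ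
    have hξO := hO' hξ
    have hmem : w ξ ∈ w '' O := ⟨ξ, hξO, rfl⟩
    refine PB.inv (h9 _ hmem) ?_ (h4.mdifferentiableAt (by simp))
      ((h5.contMDiffAt (h3.mem_nhds hmem)).mdifferentiableAt (by simp))
      ((h8.contMDiffAt (h3.mem_nhds hmem)).mdifferentiableAt (by simp))
    filter_upwards [h1.mem_nhds hξO] with ζ hζ
    exact h6 ζ hζ

end bridge

end Pool.Agent.H823.Nearby
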