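import Mathlib
import Pool.Agent.H823.Nearby
import Pool.Agent.H823.CriteriaDefs

/-! Proofs of the criteria for exact Lagrangian embeddings. -/

open scoped Topology ContDiff Manifold
open Set Bundle

noncomputable section

namespace Pool.Agent.H823.Nearby

set_option linter.unusedSectionVars false

universe u

section proofs

open Pool.Agent.Helper186

variable {F : Type u} [NormedAddCommGroup F] [NormedSpace ℝ F] [FiniteDimensional ℝ F]
  {L : Type*} [TopologicalSpace L] [ChartedSpace F L] [IsManifold 𝓘(ℝ, F) ∞ L]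
  {N : Type*} [TopologicalSpace N] [ChartedSpace F N] [IsManifold 𝓘(ℝ, F) ∞ N]
  {P : Type*} [TopologicalSpace P] [ChartedSpace F P] [IsManifold 𝓘(ℝ, F) ∞ P]

lemma ConformallyExact.comp {g : CotangentBundle F N → CotangentBundle F P}
    {f : CotangentBundle F L → CotangentBundle F N} {c c' : ℝ}
    (hg : ConformallyExact g c') (hf : ConformallyExact f c)
    (hgs : ContMDiff (IC F) (IC F) ∞ g) (hfs : ContMDiff (IC F) (IC F) ∞ f) :
    ConformallyExact (g ∘ f) (c' * c) := by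
  obtain ⟨k', hk', h'⟩ := conformallyExact_iff.1 hg
  obtain ⟨k, hk, h⟩ := conformallyExact_iff.1 hf
  refine conformallyExact_iff.2 ⟨fun x => c' * k x + k' (f x),
    (contMDiff_const.mul hk).add (hk'.comp hfs), fun ξ => ?_⟩
  exact PB.comp (h' _) (h _) (hfs.mdifferentiableAt (by simp)) (hgs.mdifferentiableAt (by simp))
    (hk.mdifferentiableAt (by simp)) (hk'.mdifferentiableAt (by simp))

lemma conformallyExact_id : ConformallyExact (id : CotangentBundle F N → CotangentBundle F N) 1 := by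
  refine conformallyExact_iff.2 ⟨fun _ => 0, contMDiff_const, fun ξ u => ?_⟩
  have h1 : mfderiv (IC F) (IC F) (id : Cotangent F N → Cotangent F N) ξ u = u := by
    rw [mfderiv_id]
    rfl
  have h2 : (show ℝ from mfderiv (IC F) 𝓘(ℝ, ℝ) (fun _ : Cotangent F N => (0:ℝ)) ξ u) = 0 := by
    rw [mfderiv_const]
    rfl
  rw [h2]
  show canForm ξ (mfderiv (IC F) (IC F) (id : Cotangent F N → Cotangent F N) ξ u) = _
  rw [h1]
  ring

lemma conformallyExact_iterate {η : CotangentBundle F N → CotangentBundle F N} {c : ℝ}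
    (hη : ConformallyExact η c) (hηs : ContMDiff (IC F) (IC F) ∞ η) (n : ℕ) :
    ConformallyExact (η^[n]) (c ^ n) ∧ ContMDiff (IC F) (IC F) ∞ (η^[n]) := by
  induction n with
  | zero => exact ⟨by simpa using conformallyExact_id, contMDiff_id⟩
  | succ n ih =>
    rw [Function.iterate_succ', pow_succ']
    exact ⟨hη.comp ih.1 hηs ih.2, hηs.comp ih.2⟩

lemma conformallyExact_scal (s : ℝ) :
    ConformallyExact (scal s : CotangentBundle F N → CotangentBundle F N) s := by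
  refine conformallyExact_iff.2 ⟨fun _ => 0, contMDiff_const, fun ξ u => ?_⟩
  have h2 : (show ℝ from mfderiv (IC F) 𝓘(ℝ, ℝ) (fun _ : Cotangent F N => (0:ℝ)) ξ u) = 0 := by
    rw [mfderiv_const]
    rfl
  rw [h2, add_zero]
  exact canForm_scal s ξ u

/-- The inverse of a conformally exact diffeomorphism. -/
lemma conformallyExact_symm
    (Ψ : Diffeomorph (IC F) (IC F) (Cotangent F L) (Cotangent F N) ∞) {c : ℝ} (hc : c ≠ 0)
    (h : ConformallyExact (Ψ : CotangentBundle F L → CotangentBundle F N) c) :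
    ConformallyExact (Ψ.symm : CotangentBundle F N → CotangentBundle F L) c⁻¹ := by
  obtain ⟨f, hf, hpb⟩ := conformallyExact_iff.1 h
  refine conformallyExact_iff.2 ⟨fun x => - (c⁻¹ * f (Ψ.symm x)),
    (contMDiff_const.mul (hf.comp Ψ.symm.contMDiff)).neg, fun x u => ?_⟩
  have hΨd : MDifferentiableAt (IC F) (IC F) Ψ (Ψ.symm x) := Ψ.contMDiff.mdifferentiableAt (by simp)
  have hΨ'd : MDifferentiableAt (IC F) (IC F) Ψ.symm x := Ψ.symm.contMDiff.mdifferentiableAt (by simp)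
  have h1 := hpb (Ψ.symm x) (mfderiv (IC F) (IC F) Ψ.symm x u)
  have h2 : (Ψ ∘ Ψ.symm : Cotangent F N → Cotangent F N) = id := by
    ext1 y; exact Ψ.apply_symm_apply y
  have h3 := mfderiv_comp (I := IC F) (I' := IC F) (I'' := IC F) x hΨd hΨ'd
  rw [h2, mfderiv_id] at h3
  have h4 : canForm (Ψ (Ψ.symm x)) (mfderiv (IC F) (IC F) Ψ (Ψ.symm x)
      (mfderiv (IC F) (IC F) Ψ.symm x u)) = canForm x u := by
    have h5 : (mfderiv (IC F) (IC F) Ψ (Ψ.symm x)
      (mfderiv (IC F) (IC F) Ψ.symm x u) : F × (F →L[ℝ] ℝ)) = u :=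
      (DFunLike.congr_fun h3 u).symm
    exact form_move canForm (Ψ.apply_symm_apply x) h5
  rw [h4] at h1
  have h6 : (show ℝ from mfderiv (IC F) 𝓘(ℝ, ℝ) (fun x => - (c⁻¹ * f (Ψ.symm x))) x u) =
      - (c⁻¹ * (show ℝ from mfderiv (IC F) 𝓘(ℝ, ℝ) f (Ψ.symm x)
        (mfderiv (IC F) (IC F) Ψ.symm x u))) := by
    have e1 : MDifferentiableAt (IC F) 𝓘(ℝ, ℝ) (fun x => f (Ψ.symm x)) x :=
      (hf.comp Ψ.symm.contMDiff).mdifferentiableAt (by simp)
    have e2 := DFunLike.congr_fun (e1.hasMFDerivAt.const_smul c⁻¹).neg.mfderiv u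
    have e3 := DFunLike.congr_fun (mfderiv_comp (I := IC F) (I' := IC F) (I'' := 𝓘(ℝ, ℝ)) x
      (hf.mdifferentiableAt (by simp) (x := Ψ.symm x)) hΨ'd) u
    have e4 : (show ℝ from mfderiv (IC F) 𝓘(ℝ, ℝ) (fun x => - (c⁻¹ * f (Ψ.symm x))) x u) =
      - (c⁻¹ * (show ℝ from mfderiv (IC F) 𝓘(ℝ, ℝ) (fun x => f (Ψ.symm x)) x u)) := e2
    rw [e4]
    exact congrArg (fun z : ℝ => - (c⁻¹ * z)) e3
  rw [h6, h1]
  field_simp
  ring

/-- Scaling as a diffeomorphism. -/
def scalDiffeo (N : Type*) [TopologicalSpace N] [ChartedSpace F N] [IsManifold 𝓘(ℝ, F) ∞ N]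
    (s : ℝ) (hs : s ≠ 0) :
    Diffeomorph (IC F) (IC F) (Cotangent F N) (Cotangent F N) ∞ where
  toFun := scal s
  invFun := scal s⁻¹
  left_inv ξ := by rw [scal_scal, inv_mul_cancel₀ hs, scal_one]
  right_inv ξ := by rw [scal_scal, mul_inv_cancel₀ hs, scal_one]
  contMDiff_toFun := contMDiff_scal_slice s
  contMDiff_invFun := contMDiff_scal_slice s⁻¹

lemma isCompact_cone [CompactSpace L] [CompactSpace N] {j : L → CotangentBundle F N}
    (hj : Continuous j) : IsCompact (cone j) := by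
  refine isCompact_range_zeroC.union ?_
  have h1 : {x | ∃ t ∈ Icc (0:ℝ) 1, ∃ q : L, x = scale t (j q)} =
      (fun p : ℝ × L => (scal p.1 (j p.2) : Cotangent F N)) '' (Icc (0:ℝ) 1 ×ˢ univ) := by
    ext x
    constructor
    · rintro ⟨t, ht, q, rfl⟩
      exact ⟨(t, q), ⟨ht, mem_univ _⟩, rfl⟩
    · rintro ⟨⟨t, q⟩, ⟨ht, -⟩, rfl⟩
      exact ⟨t, ht, q, rfl⟩
  rw [h1]
  refine (isCompact_Icc.prod isCompact_univ).image ?_
  exact continuous_scal.comp (continuous_fst.prodMk (hj.comp continuous_snd))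

/-- Engulfing is sufficient. -/
theorem extendsExactly_of_engulfing [T2Space L] [CompactSpace L] [CompactSpace N] [T2Space N]
    {j : L → CotangentBundle F N} (hj : ExactLagrangianEmbedding j) (h : Engulfing j) :
    ExtendsExactly j := by
  obtain ⟨O, w, w', hO, hOs, h0, hw, hA, hw', hw'w, hsym, hwj, hcone⟩ := h
  obtain ⟨f, hf, hjf⟩ := hj.exact
  set A := w '' O with hAdef
  have hww' : ∀ x ∈ A, w (w' x) = x := by
    rintro _ ⟨ξ, hξ, rfl⟩
    rw [hw'w ξ hξ]
  have hw'A : MapsTo w' A O := by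
    rintro _ ⟨ξ, hξ, rfl⟩
    rw [hw'w ξ hξ]
    exact hξ
  -- a compact star-shaped neighbourhood of the cone
  obtain ⟨V, hV, hVA, hKV, hVs⟩ := exists_star_nbhd (K := cone j)
    (isCompact_cone hj.smooth.continuous) hA (by
      rintro s hs ξ (⟨q, rfl⟩ | ⟨t, ht, q, rfl⟩)
      · have : scal s (zeroC q : Cotangent F N) = zeroC q := scal_zeroC s q
        have h1 : (zeroC q : Cotangent F N) ∈ A := hcone (Or.inl ⟨q, rfl⟩)
        rw [← this] at h1
        exact h1
      · have h1 : scal s (scal t (j q) : Cotangent F N) = scal (s * t) (j q) := scal_scal s t _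
        have h2 : scale (s * t) (j q) ∈ A := hcone (Or.inr ⟨s * t,
          ⟨mul_nonneg hs.1 ht.1, mul_le_one₀ hs.2 ht.1 ht.2⟩, q, rfl⟩)
        exact h1 ▸ h2)
  -- the compact star-shaped sets in the source
  have hC₀c : IsCompact (w' '' V ∪ range (zeroC : L → Cotangent F L)) :=
    (hV.image_of_continuousOn (hw'.continuousOn.mono hVA)).union isCompact_range_zeroC
  obtain ⟨C, hC, hCO, hC₀C, hCs⟩ := exists_star_nbhd
    (K := w' '' V ∪ range (zeroC : L → Cotangent F L)) hC₀c hO (by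
      rintro s hs ξ (⟨x, hx, rfl⟩ | ⟨q, rfl⟩)
      · exact hOs s hs _ (hw'A (hVA hx))
      · rw [scal_zeroC]; exact h0 q)
  obtain ⟨g, hg, hgpb⟩ := exact_of_symplectic (smoothForm_canForm (F := F) (L := N)) hO hw
    (fun ξ hξ u v => hsym ξ hξ u v) hC hCO hCs (j := j) (fun q _ => hwj q) hf
    (fun q _ v => hjf q v)
  -- the smaller chart
  have hO's : ∀ s ∈ Icc (0:ℝ) 1, MapsTo (scal s) (interior C) (interior C) := by
    intro s hs ξ hξ
    rcases eq_or_lt_of_le hs.1 with h | h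
    · rw [← h, scal_zero]
      exact hC₀C (Or.inr ⟨_, rfl⟩)
    · have h10 : (scalDiffeo (F := F) L s h.ne') '' interior C ⊆ interior C := by
        apply interior_maximal
        · rintro _ ⟨ζ, hζ, rfl⟩
          exact hCs s hs (interior_subset hζ)
        · exact (scalDiffeo (F := F) L s h.ne').toHomeomorph.isOpenMap _ isOpen_interior
      exact h10 ⟨ξ, hξ, rfl⟩
  have hO'O : interior C ⊆ O := interior_subset.trans hCO
  have hA'o : IsOpen (A ∩ w' ⁻¹' interior C) :=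
    hw'.continuousOn.isOpen_inter_preimage hA isOpen_interior
  obtain ⟨Φ, k, hk, hΦ, hΦ0⟩ := engine (cotFlow F N) (w := w) (w' := w') (O := interior C)
    (A := A ∩ w' ⁻¹' interior C) (V := V) (g := g) isOpen_interior hA'o hO's
    (fun ξ hξ => ⟨⟨ξ, hO'O hξ, rfl⟩, by
      show w' (w ξ) ∈ interior C
      rw [hw'w ξ (hO'O hξ)]
      exact hξ⟩)
    (fun x hx => hx.2) (fun ξ hξ => hw'w ξ (hO'O hξ)) (fun x hx => hww' x hx.1)
    (hw.mono hO'O) (hw'.mono inter_subset_left) hg.contMDiffOn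
    (fun ξ hξ => hgpb ξ (interior_subset hξ)) hV
    (fun x hx => ⟨hVA hx, hC₀C (Or.inl ⟨x, hx, rfl⟩)⟩)
    (fun r hr => hVs _ ⟨(Real.exp_pos _).le, Real.exp_le_one_iff.2 (by linarith)⟩)
    (fun K hK => exists_contract (fun q => hKV (Or.inl ⟨q, rfl⟩)) hK)
    (fun q => hC₀C (Or.inr ⟨q, rfl⟩))
    (fun q => by
      have h1 : j q ∈ interior V := hKV (Or.inr ⟨1, ⟨zero_le_one, le_rfl⟩, q,
        (scal_one (j q : Cotangent F N)).symm⟩)
      rw [← hwj q] at h1
      exact h1)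
  refine ⟨Φ, conformallyExact_iff.2 ⟨k, hk, hΦ⟩, fun q => ?_⟩
  exact (hΦ0 q).trans (hwj q)

/-- An extension gives engulfing. -/
theorem engulfing_of_extends {j : L → CotangentBundle F N} (h : Extends j) : Engulfing j := by
  obtain ⟨Ψ, hΨ, hΨj⟩ := h
  have himg : (Ψ : Cotangent F L → Cotangent F N) '' univ = univ := by
    rw [image_univ]
    exact Ψ.surjective.range_eq
  refine ⟨univ, Ψ, Ψ.symm, isOpen_univ, fun _ _ _ _ => mem_univ _, fun _ => mem_univ _,
    Ψ.contMDiff.contMDiffOn, ?_, ?_, fun ξ _ => Ψ.symm_apply_apply ξ, hΨ, hΨj, ?_⟩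
  · rw [himg]; exact isOpen_univ
  · exact Ψ.symm.contMDiff.contMDiffOn
  · rw [himg]; exact subset_univ _

/-- Attraction is sufficient. -/
theorem extendsExactly_of_attractsCone [T2Space L] [CompactSpace L] [Nonempty L]
    [CompactSpace N] [T2Space N]
    {j : L → CotangentBundle F N} (hj : ExactLagrangianEmbedding j) (h : AttractsCone j) :
    ExtendsExactly j := by
  obtain ⟨η, c, hc0, hc1, hη, hηj, hatt⟩ := h
  obtain ⟨w₀, w₀', O₀, g₀, hO₀, hO₀s, h0, hA₀, hw₀, hw₀', hw'w, hwj, hg₀, hpb₀⟩ := exists_chart hj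
  obtain ⟨n, hn⟩ := hatt (w₀ '' O₀) hA₀ (by
    rintro _ ⟨q, rfl⟩
    exact ⟨zeroC q, h0 q, hwj q⟩)
  have hcn : c ^ n ≠ 0 := pow_ne_zero _ hc0.ne'
  have hηn := conformallyExact_iterate hη η.contMDiff n
  have hηi := conformallyExact_iterate (conformallyExact_symm η hc0.ne' hη) η.symm.contMDiff n
  have hcanc : ∀ x, (η^[n]) ((η.symm^[n]) x) = x :=
    Function.LeftInverse.iterate (g := η) (f := η.symm) (fun x => η.apply_symm_apply x) n
  have hcanc' : ∀ x, (η.symm^[n]) ((η^[n]) x) = x :=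
    Function.LeftInverse.iterate (g := η.symm) (f := η) (fun x => η.symm_apply_apply x) n
  have hinv : ∀ m : ℕ, ∀ x ∈ range j, (η.symm^[m]) x ∈ range j := by
    intro m
    induction m with
    | zero => intro x hx; exact hx
    | succ m ih =>
      intro x hx
      rw [Function.iterate_succ_apply]
      apply ih
      rw [← hηj] at hx
      obtain ⟨y, hy, rfl⟩ := hx
      rw [η.symm_apply_apply]
      exact hy
  -- the transported chart
  set w : Cotangent F L → Cotangent F N := fun ξ => (η.symm^[n]) (w₀ (scal (c ^ n) ξ)) with hw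
  set w' : Cotangent F N → Cotangent F L := fun x => scal (c ^ n)⁻¹ (w₀' ((η^[n]) x)) with hw'
  set O : Set (Cotangent F L) := scal (c ^ n) ⁻¹' O₀ with hO
  set A : Set (Cotangent F N) := (η^[n]) ⁻¹' (w₀ '' O₀) with hA
  have hw₀'maps : ∀ x ∈ w₀ '' O₀, w₀' x ∈ O₀ ∧ w₀ (w₀' x) = x := by
    rintro _ ⟨ξ, hξ, rfl⟩
    rw [hw'w ξ hξ]
    exact ⟨hξ, rfl⟩
  have hOo : IsOpen O := hO₀.preimage (contMDiff_scal_slice _).continuous
  have hAo : IsOpen A := hA₀.preimage hηn.2.continuous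
  have hcc : ∀ ξ : Cotangent F L, scal (c ^ n) (scal (c ^ n)⁻¹ ξ) = ξ := by
    intro ξ
    rw [scal_scal, mul_inv_cancel₀ hcn, scal_one]
  have hcc' : ∀ ξ : Cotangent F L, scal (c ^ n)⁻¹ (scal (c ^ n) ξ) = ξ := by
    intro ξ
    rw [scal_scal, inv_mul_cancel₀ hcn, scal_one]
  obtain ⟨fi, hfi, hfipb⟩ := conformallyExact_iff.1 hηi.1
  have hws : ContMDiff (IC F) (IC F) ∞ w := hηi.2.comp (hw₀.comp (contMDiff_scal_slice _))
  obtain ⟨Φ, k, hk, hΦ, hΦ0⟩ := engine_cot (w := w) (w' := w') (O := O) (A := A)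
    (g := fun ξ => (c⁻¹) ^ n * (1 * 0 + g₀ (scal (c ^ n) ξ)) + fi (w₀ (scal (c ^ n) ξ)))
    hOo hAo
    (fun s hs ξ hξ => by
      show scal (c ^ n) (scal s ξ) ∈ O₀
      rw [scal_scal, mul_comm, ← scal_scal]
      exact hO₀s s hs hξ)
    (fun ξ hξ => by
      show (η^[n]) ((η.symm^[n]) (w₀ (scal (c ^ n) ξ))) ∈ w₀ '' O₀
      rw [hcanc]
      exact ⟨_, hξ, rfl⟩)
    (fun x hx => by
      show scal (c ^ n) (scal (c ^ n)⁻¹ (w₀' ((η^[n]) x))) ∈ O₀
      rw [hcc]
      exact (hw₀'maps _ hx).1)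
    (fun ξ hξ => by
      show scal (c ^ n)⁻¹ (w₀' ((η^[n]) ((η.symm^[n]) (w₀ (scal (c ^ n) ξ))))) = ξ
      rw [hcanc, hw'w _ hξ, hcc'])
    (fun x hx => by
      show (η.symm^[n]) (w₀ (scal (c ^ n) (scal (c ^ n)⁻¹ (w₀' ((η^[n]) x))))) = x
      rw [hcc, (hw₀'maps _ hx).2, hcanc'])
    hws.contMDiffOn
    ((contMDiff_scal_slice _).comp_contMDiffOn (hw₀'.comp hηn.2.contMDiffOn fun x hx => hx))
    ((contMDiffOn_const.mul (contMDiffOn_const.add (hg₀.comp
      (contMDiff_scal_slice _).contMDiffOn fun ξ hξ => hξ))).add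
      ((hfi.comp (hw₀.comp (contMDiff_scal_slice _))).contMDiffOn))
    (fun ξ hξ => by
      have hgd : MDifferentiableAt (IC F) 𝓘(ℝ, ℝ) g₀ (scal (c ^ n) ξ) :=
        (hg₀.contMDiffAt (hO₀.mem_nhds hξ)).mdifferentiableAt (by simp)
      have hsd : MDifferentiableAt (IC F) (IC F) (scal (c ^ n)) ξ :=
        (contMDiff_scal_slice _).mdifferentiableAt (by simp)
      have a0 : PB canForm canForm (scal (c ^ n) : Cotangent F L → Cotangent F L) (c ^ n)
          (fun _ => 0) ξ := by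
        intro u
        have h2 : (show ℝ from mfderiv (IC F) 𝓘(ℝ, ℝ) (fun _ : Cotangent F L => (0:ℝ)) ξ u) = 0 := by
          rw [mfderiv_const]
          rfl
        rw [h2, add_zero]
        exact canForm_scal _ ξ u
      have a1 := PB.comp (hpb₀ _ hξ) a0 hsd (hw₀.mdifferentiableAt (by simp))
        mdifferentiableAt_const hgd
      have hkd : MDifferentiableAt (IC F) 𝓘(ℝ, ℝ)
          (fun ξ : Cotangent F L => 1 * 0 + g₀ (scal (c ^ n) ξ)) ξ :=
        mdifferentiableAt_const.add (hgd.comp ξ hsd)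
      have a2 := PB.comp (hfipb _) a1
        ((hw₀.comp (contMDiff_scal_slice _)).mdifferentiableAt (by simp))
        (hηi.2.mdifferentiableAt (by simp)) hkd (hfi.mdifferentiableAt (by simp))
      have h1 : (c⁻¹) ^ n * (1 * c ^ n) = 1 := by
        rw [one_mul, inv_pow, inv_mul_cancel₀ hcn]
      intro u
      have a3 := a2 u
      rw [h1] at a3
      exact a3)
    (fun q => by
      show scal (c ^ n) (zeroC q) ∈ O₀
      rw [scal_zeroC]
      exact h0 q)
    (fun q => hn ⟨_, Or.inl ⟨q, rfl⟩, rfl⟩)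
    (fun s hs q => by
      have h1 : w (zeroC q) = (η.symm^[n]) (j q) := by
        show (η.symm^[n]) (w₀ (scal (c ^ n) (zeroC q))) = _
        rw [scal_zeroC, hwj]
      obtain ⟨q', hq'⟩ := hinv n (j q) ⟨q, rfl⟩
      rw [h1, ← hq']
      exact hn ⟨_, Or.inr ⟨s, hs, q', rfl⟩, rfl⟩)
  -- transport back
  let ηn : Diffeomorph (IC F) (IC F) (Cotangent F N) (Cotangent F N) ∞ :=
    { toFun := η^[n]
      invFun := η.symm^[n]
      left_inv := hcanc'
      right_inv := hcanc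
      contMDiff_toFun := hηn.2
      contMDiff_invFun := hηi.2 }
  refine ⟨((scalDiffeo (F := F) L (c ^ n)⁻¹ (inv_ne_zero hcn)).trans Φ).trans ηn, ?_, ?_⟩
  · have h1 : ConformallyExact (Φ : CotangentBundle F L → CotangentBundle F N) 1 :=
      conformallyExact_iff.2 ⟨k, hk, hΦ⟩
    have h2 := (hηn.1.comp (h1.comp (conformallyExact_scal (c ^ n)⁻¹) Φ.contMDiff
      (contMDiff_scal_slice _)) hηn.2 (Φ.contMDiff.comp (contMDiff_scal_slice _)))
    rw [one_mul, mul_inv_cancel₀ hcn] at h2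
    exact h2
  · intro q
    show (η^[n]) (Φ (scal (c ^ n)⁻¹ (zeroC q))) = j q
    rw [scal_zeroC, hΦ0]
    show (η^[n]) ((η.symm^[n]) (w₀ (scal (c ^ n) (zeroC q)))) = j q
    rw [hcanc, scal_zeroC, hwj]

/-- A global attractor attracts the cone. -/
theorem attractsCone_of_isGlobalAttractor [CompactSpace L] [CompactSpace N]
    {j : L → CotangentBundle F N} (hj : ExactLagrangianEmbedding j)
    (h : IsGlobalAttractor j) : AttractsCone j := by
  obtain ⟨η, c, hc0, hc1, hη, hηj, hatt⟩ := h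
  refine ⟨η, c, hc0, hc1, hη, hηj, fun U hU hjU => ?_⟩
  obtain ⟨n, hn⟩ := hatt _ (isCompact_cone hj.smooth.continuous) U hU hjU
  exact ⟨n, hn n le_rfl⟩

/-- The time one map of the backward Liouville flow. -/
theorem isGlobalAttractor_of_isSkeleton {j : L → CotangentBundle F N}
    (h : IsSkeleton j) : IsGlobalAttractor j := by
  obtain ⟨f, φ, hf, hφ, hφ0, hφa, hφc, hφj, hatt⟩ := h
  have hsl : ∀ t, ContMDiff (IC F) (IC F) ∞ (φ t) := fun t =>
    hφ.comp (contMDiff_const.prodMk contMDiff_id)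
  let η : Diffeomorph (IC F) (IC F) (Cotangent F N) (Cotangent F N) ∞ :=
    { toFun := φ (-1)
      invFun := φ 1
      left_inv := fun x => by rw [← hφa, add_neg_cancel, hφ0]
      right_inv := fun x => by rw [← hφa, neg_add_cancel, hφ0]
      contMDiff_toFun := hsl _
      contMDiff_invFun := hsl _ }
  have hit : ∀ n : ℕ, ∀ x, (η^[n]) x = φ (-n) x := by
    intro n
    induction n with
    | zero => intro x; simp [hφ0]
    | succ n ih =>
      intro x
      rw [Function.iterate_succ_apply', ih]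
      show φ (-1) (φ (-n) x) = _
      rw [← hφa]
      congr 1
      push_cast
      ring
  refine ⟨η, Real.exp (-1), Real.exp_pos _, Real.exp_lt_one_iff.2 (by norm_num), ?_, hφj _, ?_⟩
  · refine conformallyExact_iff.2 ⟨fun x => Real.exp (-1) * f x - f (φ (-1) x),
      (contMDiff_const.mul hf).sub (hf.comp (hsl _)), fun x u => ?_⟩
    have h1 := hφc (-1) x u
    have e1 : MDifferentiableAt (IC F) 𝓘(ℝ, ℝ) (fun x => f (φ (-1) x)) x :=
      (hf.comp (hsl _)).mdifferentiableAt (by simp)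
    have e0 : MDifferentiableAt (IC F) 𝓘(ℝ, ℝ) f x := hf.mdifferentiableAt (by simp)
    have e2 := DFunLike.congr_fun (e0.hasMFDerivAt.const_smul (Real.exp (-1))).mfderiv u
    have e3 : (show ℝ from mfderiv (IC F) 𝓘(ℝ, ℝ)
        (fun x => Real.exp (-1) * f x - f (φ (-1) x)) x u) =
        Real.exp (-1) * (show ℝ from mfderiv (IC F) 𝓘(ℝ, ℝ) f x u) -
        (show ℝ from mfderiv (IC F) 𝓘(ℝ, ℝ) (fun x => f (φ (-1) x)) x u) :=
      DFunLike.congr_fun ((e0.hasMFDerivAt.const_smul (Real.exp (-1))).sub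
        e1.hasMFDerivAt).mfderiv u
    have e4 : (show ℝ from mfderiv (IC F) 𝓘(ℝ, ℝ) (fun x => f (φ (-1) x)) x u) =
        (show ℝ from mfderiv (IC F) 𝓘(ℝ, ℝ) f (φ (-1) x) (mfderiv (IC F) (IC F) (φ (-1)) x u)) :=
      DFunLike.congr_fun (mfderiv_comp (I := IC F) (I' := IC F) (I'' := 𝓘(ℝ, ℝ)) x
        (hf.mdifferentiableAt (by simp) (x := φ (-1) x))
        ((hsl _).mdifferentiableAt (by simp))) u
    rw [e3, e4]
    have h2 : canForm (φ (-1) x) (mfderiv (IC F) (IC F) (φ (-1)) x u) +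
        (show ℝ from mfderiv (IC F) 𝓘(ℝ, ℝ) f (φ (-1) x)
          (mfderiv (IC F) (IC F) (φ (-1)) x u)) =
        Real.exp (-1) * (canForm x u + (show ℝ from mfderiv (IC F) 𝓘(ℝ, ℝ) f x u)) := h1
    have h3 : canForm (η x) (mfderiv (IC F) (IC F) η x u) =
        canForm (φ (-1) x) (mfderiv (IC F) (IC F) (φ (-1)) x u) := rfl
    rw [h3]
    linarith
  · intro K hK U hU hjU
    obtain ⟨t₀, ht₀⟩ := hatt K hK U hU hjU
    obtain ⟨n₀, hn₀⟩ := exists_nat_ge t₀
    refine ⟨n₀, fun n hn => ?_⟩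
    have h1 := ht₀ n (hn₀.trans (by exact_mod_cast hn))
    rintro _ ⟨x, hx, rfl⟩
    rw [hit]
    exact h1 ⟨x, hx, rfl⟩

/-- An exact extension gives a Liouville structure with skeleton `j (L)`. -/
theorem isSkeleton_of_extendsExactly [CompactSpace L] {j : L → CotangentBundle F N}
    (h : ExtendsExactly j) : IsSkeleton j := by
  obtain ⟨Ψ, hΨ, hΨj⟩ := h
  obtain ⟨f, hf, hpb⟩ := conformallyExact_iff.1 hΨ
  obtain ⟨fi, hfi, hpbi⟩ := conformallyExact_iff.1 (conformallyExact_symm Ψ one_ne_zero hΨ)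
  have hjΨ : ∀ q, Ψ.symm (j q) = zeroC q := fun q => by
    rw [← hΨj q]
    exact Ψ.symm_apply_apply _
  -- the conformal flow
  set φ : ℝ → Cotangent F N → Cotangent F N := fun t x => Ψ (scal (Real.exp t) (Ψ.symm x)) with hφ
  have hsl : ∀ t, ContMDiff (IC F) (IC F) ∞ (φ t) := fun t =>
    Ψ.contMDiff.comp ((contMDiff_scal_slice _).comp Ψ.symm.contMDiff)
  refine ⟨fun x => fi x, φ, hfi, ?_, ?_, ?_, ?_, ?_, ?_⟩
  · exact Ψ.contMDiff.comp (contMDiff_scal.comp
      ((Real.contDiff_exp.contMDiff.comp contMDiff_fst).prodMk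
        (Ψ.symm.contMDiff.comp contMDiff_snd)))
  · intro x
    show Ψ (scal (Real.exp 0) (Ψ.symm x)) = x
    rw [Real.exp_zero, scal_one]
    exact Ψ.apply_symm_apply x
  · intro s t x
    show Ψ (scal (Real.exp (s + t)) (Ψ.symm x)) =
      Ψ (scal (Real.exp s) (Ψ.symm (Ψ (scal (Real.exp t) (Ψ.symm x)))))
    rw [Ψ.symm_apply_apply, scal_scal, Real.exp_add]
  · intro t x u
    -- `Ψ.symm` pulls back `λ_L` to `λ + d fi`
    have h1 : ∀ (y : Cotangent F N) (v : TangentSpace (IC F) y),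
        canForm (Ψ.symm y) (mfderiv (IC F) (IC F) Ψ.symm y v) =
        canForm y v + (show ℝ from mfderiv (IC F) 𝓘(ℝ, ℝ) fi y v) := by
      intro y v
      have := hpbi y v
      rw [inv_one, one_mul] at this
      exact this
    have h2 : (liouvilleForm (φ t x) + differential (cotangentCorners F) fi (φ t x))
        (mfderiv (cotangentCorners F) (cotangentCorners F) (φ t) x u) =
        canForm (Ψ.symm (φ t x)) (mfderiv (IC F) (IC F) Ψ.symm (φ t x)
          (mfderiv (IC F) (IC F) (φ t) x u)) := (h1 _ _).symm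
    have h3 : (Ψ.symm ∘ φ t : Cotangent F N → Cotangent F L) =
        scal (Real.exp t) ∘ Ψ.symm := by
      ext1 y
      exact Ψ.symm_apply_apply _
    have hΨ'd : ∀ y, MDifferentiableAt (IC F) (IC F) Ψ.symm y := fun y =>
      Ψ.symm.contMDiff.mdifferentiableAt (by simp)
    have h4 := mfderiv_comp (I := IC F) (I' := IC F) (I'' := IC F) x (hΨ'd (φ t x))
      ((hsl t).mdifferentiableAt (by simp))
    have h5 := mfderiv_comp (I := IC F) (I' := IC F) (I'' := IC F) x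
      ((contMDiff_scal_slice (Real.exp t)).mdifferentiableAt (by simp) (x := Ψ.symm x)) (hΨ'd x)
    rw [← h3] at h5
    have h6 : (mfderiv (IC F) (IC F) Ψ.symm (φ t x)
          (mfderiv (IC F) (IC F) (φ t) x u) : F × (F →L[ℝ] ℝ)) =
        mfderiv (IC F) (IC F) (scal (Real.exp t)) (Ψ.symm x)
          (mfderiv (IC F) (IC F) Ψ.symm x u) :=
      (DFunLike.congr_fun h4 u).symm.trans (DFunLike.congr_fun h5 u)
    have h7 : Ψ.symm (φ t x) = scal (Real.exp t) (Ψ.symm x) := Ψ.symm_apply_apply _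
    have h8 := form_move canForm h7 h6
    rw [h2]
    refine h8.trans ?_
    refine (canForm_scal _ _ _).trans ?_
    rw [h1]
    rfl
  · intro t
    have h1 : ∀ (t : ℝ) (q : L), φ t (j q) = j q := by
      intro t q
      show Ψ (scal (Real.exp t) (Ψ.symm (j q))) = j q
      rw [hjΨ, scal_zeroC]
      exact hΨj q
    ext x
    constructor
    · rintro ⟨_, ⟨q, rfl⟩, rfl⟩
      exact ⟨q, (h1 t q).symm⟩
    · rintro ⟨q, rfl⟩
      exact ⟨j q, ⟨q, rfl⟩, h1 t q⟩
  · intro K hK U hU hjU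
    have hU' : IsOpen ((Ψ : Cotangent F L → Cotangent F N) ⁻¹' U) :=
      hU.preimage Ψ.contMDiff.continuous
    obtain ⟨t₀, -, ht₀⟩ := exists_contract (Q := (Ψ : Cotangent F L → Cotangent F N) ⁻¹' U)
      (C := Ψ.symm '' K) (fun q => by
        rw [hU'.interior_eq]
        apply hjU
        exact ⟨q, (hΨj q).symm⟩) (hK.image Ψ.symm.contMDiff.continuous)
    refine ⟨t₀, fun t ht => ?_⟩
    rintro _ ⟨x, hx, rfl⟩
    have h1 := ht₀ t ht _ ⟨x, hx, rfl⟩
    rw [hU'.interior_eq] at h1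
    exact h1

/-- The zero section of a diffeomorphic manifold is standard. -/
theorem exists_lift [T2Space L] [CompactSpace L] [Nonempty L] [CompactSpace N] [T2Space N]
    (δ : Diffeomorph 𝓘(ℝ, F) 𝓘(ℝ, F) L N ∞) :
    ExtendsExactly (fun q : L => (zeroSection (δ q) : CotangentBundle F N)) := by
  have hz : ContMDiff 𝓘(ℝ, F) (IC F) ∞ (fun q : L => (zeroC (δ q) : Cotangent F N)) :=
    contMDiff_zeroC.comp δ.contMDiff
  have hjd : ∀ q (v : TangentSpace 𝓘(ℝ, F) q),
      (mfderiv 𝓘(ℝ, F) (IC F) (fun q : L => (zeroC (δ q) : Cotangent F N)) q v :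
        F × (F →L[ℝ] ℝ)) = horV (δ q) (mfderiv 𝓘(ℝ, F) 𝓘(ℝ, F) δ q v) := by
    intro q v
    exact DFunLike.congr_fun (mfderiv_comp (I := 𝓘(ℝ, F)) (I' := 𝓘(ℝ, F)) (I'' := IC F) q
      (contMDiff_zeroC.mdifferentiableAt (by simp) (x := δ q))
      (δ.contMDiff.mdifferentiableAt (by simp))) v
  have hj : ExactLagrangianEmbedding (fun q : L => (zeroSection (δ q) : CotangentBundle F N)) := by
    refine ⟨hz, ?_, ?_, fun _ => 0, contMDiff_const, ?_⟩
    · refine (hz.continuous.isClosedEmbedding ?_).isEmbedding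
      intro a b hab
      have h1 : δ a = δ b := congrArg TotalSpace.proj hab
      exact δ.injective h1
    · intro q a b hab
      have h1 : (horV (δ q) (mfderiv 𝓘(ℝ, F) 𝓘(ℝ, F) δ q a) : F × (F →L[ℝ] ℝ)) =
        horV (δ q) (mfderiv 𝓘(ℝ, F) 𝓘(ℝ, F) δ q b) :=
        (hjd q a).symm.trans (Eq.trans hab (hjd q b))
      have h2 : mfderiv 𝓘(ℝ, F) 𝓘(ℝ, F) δ q a = mfderiv 𝓘(ℝ, F) 𝓘(ℝ, F) δ q b := by
        rw [← mfderiv_proj_horV (δ q) (mfderiv 𝓘(ℝ, F) 𝓘(ℝ, F) δ q a),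
          ← mfderiv_proj_horV (δ q) (mfderiv 𝓘(ℝ, F) 𝓘(ℝ, F) δ q b)]
        exact congrArg (mfderiv (IC F) 𝓘(ℝ, F) (TotalSpace.proj : Cotangent F N → N)
          (zeroC (δ q))) h1
      have h3 : Function.Injective (mfderiv 𝓘(ℝ, F) 𝓘(ℝ, F) δ q) := by
        have h4 := mfderiv_comp (I := 𝓘(ℝ, F)) (I' := 𝓘(ℝ, F)) (I'' := 𝓘(ℝ, F)) q
          (δ.symm.contMDiff.mdifferentiableAt (by simp) (x := δ q))
          (δ.contMDiff.mdifferentiableAt (by simp))
        have h5 : (δ.symm ∘ δ : L → L) = id := by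
          ext1 y; exact δ.symm_apply_apply y
        rw [h5, mfderiv_id] at h4
        intro a b hab
        have h6 := DFunLike.congr_fun h4 a
        have h7 := DFunLike.congr_fun h4 b
        exact h6.trans ((congrArg (mfderiv 𝓘(ℝ, F) 𝓘(ℝ, F) δ.symm (δ q)) hab).trans h7.symm)
      exact h3 h2
    · intro q v
      have h1 : differential 𝓘(ℝ, F) (fun _ : L => (0:ℝ)) q v = 0 := by
        show (mfderiv 𝓘(ℝ, F) 𝓘(ℝ, ℝ) (fun _ : L => (0:ℝ)) q v : ℝ) = 0
        rw [mfderiv_const]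
        rfl
      rw [h1]
      exact canForm_zeroC (δ q) _
  obtain ⟨w, w', O, g, hO, hOs, h0, hA, hw, hw', hw'w, hwj, hg, hpb⟩ := exists_chart hj
  obtain ⟨Φ, k, hk, hΦ, hΦ0⟩ := engine_cot (w := w) (w' := w') (O := O) (A := w '' O) (g := g)
    hO hA hOs (fun ξ hξ => ⟨ξ, hξ, rfl⟩) (by
      rintro _ ⟨ξ, hξ, rfl⟩
      rw [hw'w ξ hξ]
      exact hξ) hw'w (by
      rintro _ ⟨ξ, hξ, rfl⟩
      rw [hw'w ξ hξ]) hw.contMDiffOn hw' hg hpb h0 (by
      intro q
      refine ⟨zeroC (δ.symm q), h0 _, ?_⟩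
      rw [hwj]
      show zeroC (δ (δ.symm q)) = zeroC q
      rw [δ.apply_symm_apply]) (by
      intro s hs q
      have h1 : scal s (w (zeroC q)) = w (zeroC q) := by
        rw [hwj]
        exact scal_zeroC _ _
      rw [h1]
      exact ⟨_, h0 q, rfl⟩)
  exact ⟨Φ, conformallyExact_iff.2 ⟨k, hk, hΦ⟩, fun q => (hΦ0 q).trans (hwj q)⟩

/-- A symplectic map precomposed with an exact diffeomorphism. -/
lemma SymplecticOn.comp {g : CotangentBundle F N → CotangentBundle F P}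
    {f : CotangentBundle F L → CotangentBundle F N}
    (hg : SymplecticOn g univ) (hf : SymplecticOn f univ)
    (hgs : ContMDiff (IC F) (IC F) ∞ g) (hfs : ContMDiff (IC F) (IC F) ∞ f) :
    SymplecticOn (g ∘ f) univ := by
  intro ξ _ u v
  have h1 := mfderiv_comp (I := IC F) (I' := IC F) (I'' := IC F) ξ
    (hgs.mdifferentiableAt (by simp) (x := f ξ)) (hfs.mdifferentiableAt (by simp))
  have h2 := hg (f ξ) (mem_univ _) (mfderiv (IC F) (IC F) f ξ u) (mfderiv (IC F) (IC F) f ξ v)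
  rw [← hf ξ (mem_univ _) u v, ← h2]
  exact extDer_move canForm rfl (DFunLike.congr_fun h1 u) (DFunLike.congr_fun h1 v)

/-- If `L` and `N` are diffeomorphic, an extension shows that `j (L)` is the image of the zero
section. -/
theorem isImage_of_extends [T2Space L] [CompactSpace L] [Nonempty L] [CompactSpace N] [T2Space N]
    {j : L → CotangentBundle F N} (hLN : AreDiffeomorphic F L N) (h : Extends j) :
    IsImageOfZeroSection j := by
  obtain ⟨δ⟩ := hLN
  obtain ⟨Ψ, hΨ, hΨj⟩ := h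
  obtain ⟨Ψ₀, hΨ₀, hΨ₀j⟩ := exists_lift δ
  have hsymm : SymplecticOn (Ψ₀.symm : CotangentBundle F N → CotangentBundle F L) univ := by
    apply symplectic_of_exact Ψ₀.symm.contMDiff
    have := conformallyExact_symm Ψ₀ one_ne_zero hΨ₀
    rwa [inv_one] at this
  refine ⟨Ψ₀.symm.trans Ψ, hΨ.comp hsymm Ψ.contMDiff Ψ₀.symm.contMDiff, ?_⟩
  have hz : ∀ q : L, Ψ₀.symm (zeroSection (δ q)) = zeroSection q := fun q => by
    have h1 : (zeroSection (δ q) : CotangentBundle F N) = Ψ₀ (zeroSection q) := (hΨ₀j q).symm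
    rw [h1]
    exact Ψ₀.symm_apply_apply _
  ext x
  constructor
  · rintro ⟨q, rfl⟩
    refine ⟨zeroSection (δ q), ⟨_, rfl⟩, ?_⟩
    show Ψ (Ψ₀.symm (zeroSection (δ q))) = j q
    rw [hz, hΨj]
  · rintro ⟨_, ⟨q, rfl⟩, rfl⟩
    refine ⟨δ.symm q, ?_⟩
    show j (δ.symm q) = Ψ (Ψ₀.symm (zeroSection q))
    have h1 : q = δ (δ.symm q) := (δ.apply_symm_apply q).symm
    rw [← hΨj]
    conv_rhs => rw [h1]
    rw [hz]

/-- The image of the zero section determines the domain and extends. -/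
theorem extends_of_isImage [T2Space L] [CompactSpace L] [Nonempty L] [CompactSpace N] [T2Space N]
    {j : L → CotangentBundle F N} (hj : ExactLagrangianEmbedding j)
    (h : IsImageOfZeroSection j) : AreDiffeomorphic F L N ∧ Extends j := by
  obtain ⟨ψ, hψ, hψj⟩ := h
  obtain ⟨w, w', O, g, hO, hOs, h0, hA, hw, hw', hw'w, hwj, hg, hpb⟩ := exists_chart hj
  -- the inverse of `j`
  have hjw' : ∀ q, w' (j q) = zeroC q := fun q => by
    rw [← hwj q, hw'w _ (h0 q)]
  have hψr : ∀ q : N, ψ (zeroSection q) ∈ range j := fun q => by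
    rw [hψj]
    exact ⟨_, ⟨q, rfl⟩, rfl⟩
  have hrA : ∀ x ∈ range j, x ∈ w '' O := by
    rintro _ ⟨q, rfl⟩
    exact ⟨_, h0 q, hwj q⟩
  let γ : N → L := fun q => (w' (ψ (zeroC q))).1
  have hγ : ContMDiff 𝓘(ℝ, F) 𝓘(ℝ, F) ∞ γ := by
    have h1 : ContMDiffOn 𝓘(ℝ, F) (IC F) ∞ (fun q : N => w' (ψ (zeroC q))) univ :=
      hw'.comp (ψ.contMDiff.comp contMDiff_zeroC).contMDiffOn (fun q _ => hrA _ (hψr q))
    exact contMDiff_projC.comp (contMDiffOn_univ.1 h1)
  have hjγ : ∀ q : N, j (γ q) = ψ (zeroC q) := fun q => by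
    obtain ⟨q', hq'⟩ := hψr q
    have h1 : γ q = q' := by
      show (w' (ψ (zeroC q))).1 = q'
      have h2 : ψ (zeroC q) = j q' := hq'.symm
      rw [h2, hjw']
      rfl
    rw [h1]
    exact hq'
  let γ' : L → N := fun q => (ψ.symm (j q)).1
  have hγ' : ContMDiff 𝓘(ℝ, F) 𝓘(ℝ, F) ∞ γ' :=
    contMDiff_projC.comp (ψ.symm.contMDiff.comp hj.smooth)
  have hγ'z : ∀ q : L, ψ.symm (j q) = zeroC (γ' q) := fun q => by
    have h1 : j q ∈ ψ '' range (zeroSection : N → CotangentBundle F N) := by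
      rw [← hψj]; exact ⟨q, rfl⟩
    obtain ⟨_, ⟨q', rfl⟩, h2⟩ := h1
    have h3 : ψ.symm (j q) = zeroC q' := by
      rw [← h2]
      exact ψ.symm_apply_apply _
    show ψ.symm (j q) = zeroC (ψ.symm (j q)).1
    rw [h3]
    rfl
  have hl : ∀ q : N, γ' (γ q) = q := fun q => by
    show (ψ.symm (j (γ q))).1 = q
    rw [hjγ, ψ.symm_apply_apply]
    rfl
  have hr : ∀ q : L, γ (γ' q) = q := fun q => by
    show (w' (ψ (zeroC (γ' q)))).1 = q
    rw [← hγ'z, ψ.apply_symm_apply, hjw']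
    rfl
  let δ : Diffeomorph 𝓘(ℝ, F) 𝓘(ℝ, F) L N ∞ :=
    { toFun := γ'
      invFun := γ
      left_inv := hr
      right_inv := hl
      contMDiff_toFun := hγ'
      contMDiff_invFun := hγ }
  refine ⟨⟨δ⟩, ?_⟩
  obtain ⟨Ψ₀, hΨ₀, hΨ₀j⟩ := exists_lift δ
  refine ⟨Ψ₀.trans ψ, hψ.comp (symplectic_of_exact Ψ₀.contMDiff hΨ₀) ψ.contMDiff Ψ₀.contMDiff, ?_⟩
  intro q
  show ψ (Ψ₀ (zeroSection q)) = j q
  rw [hΨ₀j]
  show ψ (zeroC (γ' q)) = j q
  rw [← hγ'z, ψ.apply_symm_apply]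

end proofs

end Pool.Agent.H823.Nearby
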