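import Mathlib

/-!
# Exact Lagrangian embeddings into cotangent bundles: the definitions used in the statements

`F` is a finite-dimensional real vector space, `N` and `L` are manifolds without boundary modelled
on `F` (so they have the same dimension).  Everything is smooth of class `C^∞`.

The cotangent bundle and its smooth structure are the ones of Mathlib (the total space of the
bundle of continuous linear maps from the tangent bundle to the trivial line bundle).
-/

open scoped Topology ContDiff Manifold
open Set Bundle

noncomputable section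

namespace Pool.Agent.H823.Arnold

universe u

/-! ### The cotangent bundle as a smooth manifold -/

section Cotangent

variable (F : Type u) [NormedAddCommGroup F] [NormedSpace ℝ F]
  (L : Type*) [TopologicalSpace L] [ChartedSpace F L]

/-- The cotangent space of `L` at `q`. -/
def CotangentSpace (q : L) : Type _ := TangentSpace 𝓘(ℝ, F) q →L[ℝ] ℝ

/-- The cotangent space is a vector space. -/
@[instance_reducible] def groupCotangentSpace (q : L) : AddCommGroup (CotangentSpace F L q) :=
  (inferInstance : AddCommGroup (TangentSpace 𝓘(ℝ, F) q →L[ℝ] ℝ))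

attribute [instance] groupCotangentSpace

/-- The cotangent space is a vector space. -/
@[instance_reducible] def moduleCotangentSpace (q : L) : Module ℝ (CotangentSpace F L q) :=
  (inferInstance : Module ℝ (TangentSpace 𝓘(ℝ, F) q →L[ℝ] ℝ))

attribute [instance] moduleCotangentSpace

/-- The topology of the cotangent space, from Mathlib. -/
@[instance_reducible] def topCotangentSpace (q : L) : TopologicalSpace (CotangentSpace F L q) :=
  (inferInstance : TopologicalSpace (TangentSpace 𝓘(ℝ, F) q →L[ℝ] ℝ))

attribute [instance] topCotangentSpace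

/-- The cotangent bundle of `L`. -/
abbrev CotangentBundle : Type _ := TotalSpace (F →L[ℝ] ℝ) (CotangentSpace F L)

/-- The topology of the cotangent bundle: the one of the Mathlib bundle of continuous linear
maps from the tangent bundle to the trivial line bundle. -/
@[instance_reducible] def topCotangentBundle [IsManifold 𝓘(ℝ, F) ∞ L] :
    TopologicalSpace (CotangentBundle F L) :=
  ContinuousLinearMap.topologicalSpaceTotalSpace (RingHom.id ℝ) F (TangentSpace 𝓘(ℝ, F)) ℝ
    (fun _ : L => ℝ)

attribute [instance] topCotangentBundle

/-- The fibre bundle structure of the cotangent bundle: the one of the Mathlib bundle of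
continuous linear maps from the tangent bundle to the trivial line bundle. -/
@[instance_reducible] def fibCotangentBundle [IsManifold 𝓘(ℝ, F) ∞ L] :
    FiberBundle (F →L[ℝ] ℝ) (CotangentSpace F L) :=
  ContinuousLinearMap.fiberBundle (RingHom.id ℝ) F (TangentSpace 𝓘(ℝ, F)) ℝ (fun _ : L => ℝ)

attribute [instance] fibCotangentBundle

/-- The model vector space `F × F^*` of the cotangent bundle. -/
def CotangentModel : Type _ := F × (F →L[ℝ] ℝ)

@[instance_reducible] def normCotangentModel : NormedAddCommGroup (CotangentModel F) :=
  (inferInstance : NormedAddCommGroup (F × (F →L[ℝ] ℝ)))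

attribute [instance] normCotangentModel

@[instance_reducible] def spaceCotangentModel : NormedSpace ℝ (CotangentModel F) :=
  (inferInstance : NormedSpace ℝ (F × (F →L[ℝ] ℝ)))

attribute [instance] spaceCotangentModel

/-- The smooth structure of the cotangent bundle: the one that Mathlib puts on the total space
of a smooth vector bundle. -/
@[instance_reducible] def chartedCotangentBundle [IsManifold 𝓘(ℝ, F) ∞ L] :
    ChartedSpace (CotangentModel F) (CotangentBundle F L) :=
  FiberBundle.chartedSpace (F := F →L[ℝ] ℝ) (E := CotangentSpace F L) (HB := F)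

attribute [instance] chartedCotangentBundle

/-- The model with corners of the cotangent bundle; it has no boundary. -/
def cotangentCorners : ModelWithCorners ℝ (CotangentModel F) (CotangentModel F) :=
  𝓘(ℝ, F).prod 𝓘(ℝ, F →L[ℝ] ℝ)

end Cotangent

/-! ### One-forms and their exterior derivative -/

section OneForms

variable {E : Type*} [NormedAddCommGroup E] [NormedSpace ℝ E] {H : Type*} [TopologicalSpace H]
  (I : ModelWithCorners ℝ E H) (X : Type*) [TopologicalSpace X] [ChartedSpace H X]

/-- One-forms on `X`. -/
abbrev OneForm : Type _ := (x : X) → TangentSpace I x →L[ℝ] ℝ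

variable {I X}

/-- The value of the one-form `α` on the tangent vector `v` at `x`. -/
def eval (α : OneForm I X) (x : X) (v : TangentSpace I x) : ℝ := α x v

/-- The one-form `α` written in the preferred chart `φ` at `x`: at the point `y` of the model
space `E` it is the pull back of `α` by `φ⁻¹`. -/
def formInChart (α : OneForm I X) (x : X) (y : E) : E →L[ℝ] ℝ :=
  (α ((extChartAt I x).symm y)).comp (mfderiv 𝓘(ℝ, E) I (extChartAt I x).symm y)

/-- The derivative in the direction `u` of the coefficient `α v`, at `x`, in the preferred chart
at `x` (in which the tangent space at `x` is identified with `E`). -/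
def coefficientDerivative (α : OneForm I X) (x : X) (u v : TangentSpace I x) : ℝ :=
  fderiv ℝ (formInChart α x) (extChartAt I x x) u v

/-- The exterior derivative `dα` at `x`, on the tangent vectors `u` and `v`. -/
def exteriorDerivative (α : OneForm I X) (x : X) (u v : TangentSpace I x) : ℝ :=
  coefficientDerivative α x u v - coefficientDerivative α x v u

/-- The differential of a real valued function. -/
def differential (I : ModelWithCorners ℝ E H) (f : X → ℝ) : OneForm I X :=
  fun x => mfderiv I 𝓘(ℝ, ℝ) f x

variable {E' : Type*} [NormedAddCommGroup E'] [NormedSpace ℝ E'] {H' : Type*}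
  [TopologicalSpace H'] {Y : Type*} [TopologicalSpace Y] [ChartedSpace H' Y]

/-- The derivative of the map `f` at `x`, applied to the tangent vector `v`. -/
def derivativeAt (I : ModelWithCorners ℝ E H) (J : ModelWithCorners ℝ E' H') (f : X → Y) (x : X)
    (v : TangentSpace I x) : TangentSpace J (f x) := mfderiv I J f x v

end OneForms

/-! ### The canonical one-form, exact Lagrangian embeddings, symplectic maps -/

section Maps

variable (F : Type u) [NormedAddCommGroup F] [NormedSpace ℝ F]

/-- The canonical one-form (Liouville form) `λ = p dq` of the cotangent bundle: at the covector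
`ξ` it sends the tangent vector `w` to `ξ (dπ w)`, where `π` is the projection to `L`. -/
def canonicalForm (L : Type*) [TopologicalSpace L] [ChartedSpace F L] [IsManifold 𝓘(ℝ, F) ∞ L] :
    OneForm (cotangentCorners F) (CotangentBundle F L) :=
  fun ξ => ContinuousLinearMap.comp (M₂ := TangentSpace 𝓘(ℝ, F) ξ.proj) (M₃ := ℝ) ξ.snd
    (mfderiv (cotangentCorners F) 𝓘(ℝ, F) (TotalSpace.proj : CotangentBundle F L → L) ξ)

/-- The zero section of the cotangent bundle. -/
def zeroSection (L : Type*) [TopologicalSpace L] [ChartedSpace F L] (q : L) :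
    CotangentBundle F L := ⟨q, 0⟩

variable {F}
variable {L : Type*} [TopologicalSpace L] [ChartedSpace F L]
  {N : Type*} [TopologicalSpace N] [ChartedSpace F N]

/-- Multiplication by the real number `t` in the fibres of the cotangent bundle. -/
def scale (t : ℝ) (ξ : CotangentBundle F L) : CotangentBundle F L := ⟨ξ.proj, t • ξ.snd⟩

variable [IsManifold 𝓘(ℝ, F) ∞ L] [IsManifold 𝓘(ℝ, F) ∞ N]

/-- Smooth functions on the cotangent bundle. -/
def IsSmoothFunction (f : CotangentBundle F L → ℝ) : Prop :=
  ContMDiff (cotangentCorners F) 𝓘(ℝ, ℝ) ∞ f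

/-- Maps which are smooth at all points of the open set `O` of the cotangent bundle. -/
def IsSmoothOn (ψ : CotangentBundle F L → CotangentBundle F N) (O : Set (CotangentBundle F L)) :
    Prop := ContMDiffOn (cotangentCorners F) (cotangentCorners F) ∞ ψ O

/-- The map `ψ : T^*L → T^*N` is a smooth diffeomorphism. -/
def IsDiffeo (ψ : CotangentBundle F L → CotangentBundle F N) : Prop :=
  ∃ Ψ : Diffeomorph (cotangentCorners F) (cotangentCorners F)
    (CotangentBundle F L) (CotangentBundle F N) ∞, ⇑Ψ = ψ

/-- The derivative of a map of cotangent bundles. -/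
abbrev D (ψ : CotangentBundle F L → CotangentBundle F N) (ξ : CotangentBundle F L)
    (u : TangentSpace (cotangentCorners F) ξ) : TangentSpace (cotangentCorners F) (ψ ξ) :=
  derivativeAt (cotangentCorners F) (cotangentCorners F) ψ ξ u

/-- The canonical symplectic form `ω = dλ` of the cotangent bundle. -/
def symplecticForm (ξ : CotangentBundle F L) (u v : TangentSpace (cotangentCorners F) ξ) : ℝ :=
  exteriorDerivative (canonicalForm F L) ξ u v

/-- The map `ψ : T^*L → T^*N` satisfies `ψ^* ω = ω` at the points of `O`. -/
def SymplecticOn (ψ : CotangentBundle F L → CotangentBundle F N)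
    (O : Set (CotangentBundle F L)) : Prop :=
  ∀ ξ ∈ O, ∀ u v : TangentSpace (cotangentCorners F) ξ,
    symplecticForm (ψ ξ) (D ψ ξ u) (D ψ ξ v) = symplecticForm ξ u v

/-- The map `ψ : T^*L → T^*N` satisfies `ψ^* λ = c λ + df` for some smooth function `f`. -/
def ConformallyExact (ψ : CotangentBundle F L → CotangentBundle F N) (c : ℝ) : Prop :=
  ∃ f : CotangentBundle F L → ℝ, IsSmoothFunction f ∧
    ∀ (ξ : CotangentBundle F L) (u : TangentSpace (cotangentCorners F) ξ),
      eval (canonicalForm F N) (ψ ξ) (D ψ ξ u) =
        c * eval (canonicalForm F L) ξ u + eval (differential (cotangentCorners F) f) ξ u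

/-- The map `j : L → T^*N` is an exact Lagrangian embedding: a smooth embedding such that
`j^* λ` is the differential of a smooth function (so that `j^* ω = 0`); the dimensions of `L` and
`N` agree because both are modelled on `F`. -/
structure ExactLagrangianEmbedding (j : L → CotangentBundle F N) : Prop where
  smooth : ContMDiff 𝓘(ℝ, F) (cotangentCorners F) ∞ j
  embedding : Topology.IsEmbedding j
  immersion : ∀ q, Function.Injective (derivativeAt 𝓘(ℝ, F) (cotangentCorners F) j q)
  exact : ∃ f : L → ℝ, ContMDiff 𝓘(ℝ, F) 𝓘(ℝ, ℝ) ∞ f ∧
    ∀ (q : L) (v : TangentSpace 𝓘(ℝ, F) q),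
      eval (canonicalForm F N) (j q) (derivativeAt 𝓘(ℝ, F) (cotangentCorners F) j q v) =
        eval (differential 𝓘(ℝ, F) f) q v

/-- The conclusion of Arnold's conjecture for `j : L → T^*N`: there is a symplectic diffeomorphism
`ψ` of `T^*N` with `j (L) = ψ (0_N)`. -/
def IsImageOfZeroSection (j : L → CotangentBundle F N) : Prop :=
  ∃ ψ : CotangentBundle F N → CotangentBundle F N,
    IsDiffeo ψ ∧ SymplecticOn ψ univ ∧ range j = ψ '' range (zeroSection F N)

/-- There is a symplectic diffeomorphism `Ψ : T^*L → T^*N` which extends `j`, that is,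
`Ψ ∘ 0_L = j`. -/
def Extends (j : L → CotangentBundle F N) : Prop :=
  ∃ Ψ : CotangentBundle F L → CotangentBundle F N,
    IsDiffeo Ψ ∧ SymplecticOn Ψ univ ∧ ∀ q, Ψ (zeroSection F L q) = j q

/-- There is an exact symplectic diffeomorphism `Ψ : T^*L → T^*N` which extends `j`, that is,
`Ψ ∘ 0_L = j`. -/
def ExtendsExactly (j : L → CotangentBundle F N) : Prop :=
  ∃ Ψ : CotangentBundle F L → CotangentBundle F N,
    IsDiffeo Ψ ∧ ConformallyExact Ψ 1 ∧ ∀ q, Ψ (zeroSection F L q) = j q

end Maps

/-- The two manifolds are diffeomorphic. -/
def AreDiffeomorphic (F : Type u) [NormedAddCommGroup F] [NormedSpace ℝ F]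
    (L : Type*) [TopologicalSpace L] [ChartedSpace F L]
    (N : Type*) [TopologicalSpace N] [ChartedSpace F N] : Prop :=
  Nonempty (Diffeomorph 𝓘(ℝ, F) 𝓘(ℝ, F) L N ∞)

end Pool.Agent.H823.Arnold
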