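import Mathlib
import Pool.Agent.H823.Defs

/-!
# Criteria for exact Lagrangian embeddings into cotangent bundles: definitions
-/

open scoped Topology ContDiff Manifold
open Set Bundle

noncomputable section

namespace Pool.Agent.H823.Arnold

universe u

variable {F : Type u} [NormedAddCommGroup F] [NormedSpace ℝ F]
  {L : Type*} [TopologicalSpace L] [ChartedSpace F L] [IsManifold 𝓘(ℝ, F) ∞ L]
  {N : Type*} [TopologicalSpace N] [ChartedSpace F N] [IsManifold 𝓘(ℝ, F) ∞ N]

/-- The cone over `j (L)`, together with the zero section: the compact set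
`0_N ∪ {t j (q) : 0 ≤ t ≤ 1, q ∈ L}`. -/
def cone (j : L → CotangentBundle F N) : Set (CotangentBundle F N) :=
  range (zeroSection F N) ∪ {x | ∃ t ∈ Icc (0:ℝ) 1, ∃ q : L, x = scale t (j q)}

/-- The map `w`, defined on the fibrewise star-shaped open neighbourhood `O` of the zero section
of `T^*L`, is a Weinstein chart of `j`: it is a symplectic diffeomorphism of `O` onto an open set
of `T^*N`, with inverse `w'`, such that `w ∘ 0_L = j`. -/
structure WeinsteinChart (j : L → CotangentBundle F N) (O : Set (CotangentBundle F L))
    (w : CotangentBundle F L → CotangentBundle F N)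
    (w' : CotangentBundle F N → CotangentBundle F L) : Prop where
  isOpen : IsOpen O
  star : ∀ t ∈ Icc (0:ℝ) 1, ∀ ξ ∈ O, scale t ξ ∈ O
  zero_mem : ∀ q : L, zeroSection F L q ∈ O
  smooth : IsSmoothOn w O
  isOpen_image : IsOpen (w '' O)
  smooth_inverse : IsSmoothOn w' (w '' O)
  left_inverse : ∀ ξ ∈ O, w' (w ξ) = ξ
  symplectic : SymplecticOn w O
  zero : ∀ q, w (zeroSection F L q) = j q

/-- **Engulfing.** There is a Weinstein chart of `j`, defined on a fibrewise star-shaped open
neighbourhood `O` of the zero section of `T^*L`, whose image contains the compact set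
`cone j`. -/
def Engulfing (j : L → CotangentBundle F N) : Prop :=
  ∃ (O : Set (CotangentBundle F L)) (w : CotangentBundle F L → CotangentBundle F N)
    (w' : CotangentBundle F N → CotangentBundle F L),
    WeinsteinChart j O w w' ∧ cone j ⊆ w '' O

/-- The map `η` is an exact conformally symplectic diffeomorphism of `T^*N` contracting `ω`
(that is, `η^* λ = c λ + df` with `0 < c < 1`), and it maps `j (L)` onto itself. -/
def Contraction (j : L → CotangentBundle F N) (η : CotangentBundle F N → CotangentBundle F N) :
    Prop :=
  IsDiffeo η ∧ (∃ c : ℝ, 0 < c ∧ c < 1 ∧ ConformallyExact η c) ∧ η '' range j = range j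

/-- **Attractor, weak form.** There is an exact conformally symplectic diffeomorphism `η` of
`T^*N`, contracting `ω`, with `η (j (L)) = j (L)`, such that the iterates of `η` move `cone j`
into any given neighbourhood of `j (L)`. -/
def AttractsCone (j : L → CotangentBundle F N) : Prop :=
  ∃ η : CotangentBundle F N → CotangentBundle F N, Contraction j η ∧
    ∀ U : Set (CotangentBundle F N), IsOpen U → range j ⊆ U → ∃ n : ℕ, η^[n] '' cone j ⊆ U

/-- **Attractor, strong form.** There is an exact conformally symplectic diffeomorphism `η` of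
`T^*N`, contracting `ω`, for which `j (L)` is the global attractor: `η (j (L)) = j (L)`, and the
iterates of `η` contract all compact sets to `j (L)`. -/
def IsGlobalAttractor (j : L → CotangentBundle F N) : Prop :=
  ∃ η : CotangentBundle F N → CotangentBundle F N, Contraction j η ∧
    ∀ K : Set (CotangentBundle F N), IsCompact K →
      ∀ U : Set (CotangentBundle F N), IsOpen U → range j ⊆ U →
        ∃ n₀ : ℕ, ∀ n ≥ n₀, η^[n] '' K ⊆ U

/-- A smooth action `φ` of `ℝ` on `T^*N`. -/
structure IsSmoothAction (φ : ℝ → CotangentBundle F N → CotangentBundle F N) : Prop where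
  smooth : ContMDiff (𝓘(ℝ, ℝ).prod (cotangentCorners F)) (cotangentCorners F) ∞
      (fun p : ℝ × CotangentBundle F N => φ p.1 p.2)
  zero : ∀ x, φ 0 x = x
  add : ∀ s t x, φ (s + t) x = φ s (φ t x)

/-- The one-form `λ + df`. -/
def modifiedForm (f : CotangentBundle F N → ℝ) :
    OneForm (cotangentCorners F) (CotangentBundle F N) :=
  fun x => canonicalForm F N x + differential (cotangentCorners F) f x

/-- **Skeleton.** The set `j (L)` is the skeleton of a Liouville structure of `T^*N` which differs
from the standard one by an exact form: there are a smooth function `f` and a smooth action `φ` of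
`ℝ` on `T^*N` with `φ_t^* (λ + df) = e^t (λ + df)` (the flow of the Liouville vector field of
`λ + df`) which leaves `j (L)` invariant and contracts all compact sets to `j (L)` for
`t → -∞`. -/
def IsSkeleton (j : L → CotangentBundle F N) : Prop :=
  ∃ (f : CotangentBundle F N → ℝ) (φ : ℝ → CotangentBundle F N → CotangentBundle F N),
    IsSmoothFunction f ∧ IsSmoothAction φ ∧
    (∀ (t : ℝ) (x : CotangentBundle F N) (u : TangentSpace (cotangentCorners F) x),
      eval (modifiedForm f) (φ t x) (D (φ t) x u) = Real.exp t * eval (modifiedForm f) x u) ∧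
    (∀ t, φ t '' range j = range j) ∧
    ∀ K : Set (CotangentBundle F N), IsCompact K →
      ∀ U : Set (CotangentBundle F N), IsOpen U → range j ⊆ U →
        ∃ t₀ : ℝ, ∀ t ≥ t₀, φ (-t) '' K ⊆ U

end Pool.Agent.H823.Arnold
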