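import Mathlib
import Pool.Agent.H823.Criteria
import Pool.Agent.H823.DefsCriteria

/-! Comparison of the definitions used in the statements with the ones used in the proofs. -/

open scoped Topology ContDiff Manifold
open Set Bundle

noncomputable section

namespace Pool.Agent.H823.Arnold

set_option linter.unusedSectionVars false

universe u

open Pool.Agent.H823

variable {F : Type u} [NormedAddCommGroup F] [NormedSpace ℝ F] [FiniteDimensional ℝ F]
  {L : Type*} [TopologicalSpace L] [ChartedSpace F L] [IsManifold 𝓘(ℝ, F) ∞ L]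
  {N : Type*} [TopologicalSpace N] [ChartedSpace F N] [IsManifold 𝓘(ℝ, F) ∞ N]

/-- A map to the cotangent bundle, with the other form of the type. -/
abbrev nb (j : L → CotangentBundle F N) : L → Nearby.CotangentBundle F N := j

lemma ExactLagrangianEmbedding.nb {j : L → CotangentBundle F N}
    (h : ExactLagrangianEmbedding j) : Nearby.ExactLagrangianEmbedding (nb j) :=
  ⟨h.smooth, h.embedding, h.immersion, h.exact⟩

lemma exactLagrangianEmbedding_iff {j : L → CotangentBundle F N} :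
    ExactLagrangianEmbedding j ↔ Nearby.ExactLagrangianEmbedding (nb j) :=
  ⟨fun h => ⟨h.smooth, h.embedding, h.immersion, h.exact⟩,
    fun h => ⟨h.smooth, h.embedding, h.immersion, h.exact⟩⟩

/-- Reinterpretation of a diffeomorphism. -/
def dn (Ψ : Diffeomorph (cotangentCorners F) (cotangentCorners F)
      (CotangentBundle F L) (CotangentBundle F N) ∞) :
    Diffeomorph (Nearby.cotangentCorners F) (Nearby.cotangentCorners F)
      (Nearby.CotangentBundle F L) (Nearby.CotangentBundle F N) ∞ := Ψ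

/-- Reinterpretation of a diffeomorphism. -/
def nd (Ψ : Diffeomorph (Nearby.cotangentCorners F) (Nearby.cotangentCorners F)
      (Nearby.CotangentBundle F L) (Nearby.CotangentBundle F N) ∞) :
    Diffeomorph (cotangentCorners F) (cotangentCorners F)
      (CotangentBundle F L) (CotangentBundle F N) ∞ := Ψ

lemma conformallyExact_iff {ψ : CotangentBundle F L → CotangentBundle F N} {c : ℝ} :
    ConformallyExact ψ c ↔
      Nearby.ConformallyExact (L := L) (N := N) (F := F) ψ c := Iff.rfl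

lemma symplecticOn_iff {ψ : CotangentBundle F L → CotangentBundle F N}
    {O : Set (CotangentBundle F L)} :
    SymplecticOn ψ O ↔ Nearby.SymplecticOn (L := L) (N := N) (F := F) ψ O := Iff.rfl

lemma isImage_iff {j : L → CotangentBundle F N} :
    IsImageOfZeroSection j ↔ Nearby.IsImageOfZeroSection (nb j) := by
  constructor
  · rintro ⟨_, ⟨Ψ, rfl⟩, h1, h2⟩
    exact ⟨dn Ψ, h1, h2⟩
  · rintro ⟨Ψ, h1, h2⟩
    exact ⟨Ψ, ⟨nd Ψ, rfl⟩, h1, h2⟩

lemma extends_iff {j : L → CotangentBundle F N} :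
    Extends j ↔ Nearby.Extends (nb j) := by
  constructor
  · rintro ⟨_, ⟨Ψ, rfl⟩, h1, h2⟩
    exact ⟨dn Ψ, h1, h2⟩
  · rintro ⟨Ψ, h1, h2⟩
    exact ⟨Ψ, ⟨nd Ψ, rfl⟩, h1, h2⟩

lemma extendsExactly_iff {j : L → CotangentBundle F N} :
    ExtendsExactly j ↔ Nearby.ExtendsExactly (nb j) := by
  constructor
  · rintro ⟨_, ⟨Ψ, rfl⟩, h1, h2⟩
    exact ⟨dn Ψ, h1, h2⟩
  · rintro ⟨Ψ, h1, h2⟩
    exact ⟨Ψ, ⟨nd Ψ, rfl⟩, h1, h2⟩

lemma engulfing_iff {j : L → CotangentBundle F N} :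
    Engulfing j ↔ Nearby.Engulfing (nb j) := by
  constructor
  · rintro ⟨O, w, w', h, hc⟩
    exact ⟨O, w, w', h.isOpen, h.star, h.zero_mem, h.smooth, h.isOpen_image, h.smooth_inverse,
      h.left_inverse, h.symplectic, h.zero, hc⟩
  · rintro ⟨O, w, w', h1, h2, h3, h4, h5, h6, h7, h8, h9, hc⟩
    exact ⟨O, w, w', ⟨h1, h2, h3, h4, h5, h6, h7, h8, h9⟩, hc⟩

lemma attractsCone_iff {j : L → CotangentBundle F N} :
    AttractsCone j ↔ Nearby.AttractsCone (nb j) := by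
  constructor
  · rintro ⟨_, ⟨⟨Ψ, rfl⟩, ⟨c, h1, h2, h3⟩, h4⟩, h5⟩
    exact ⟨dn Ψ, c, h1, h2, h3, h4, h5⟩
  · rintro ⟨Ψ, c, h1, h2, h3, h4, h5⟩
    exact ⟨Ψ, ⟨⟨nd Ψ, rfl⟩, ⟨c, h1, h2, h3⟩, h4⟩, h5⟩

lemma isGlobalAttractor_iff {j : L → CotangentBundle F N} :
    IsGlobalAttractor j ↔ Nearby.IsGlobalAttractor (nb j) := by
  constructor
  · rintro ⟨_, ⟨⟨Ψ, rfl⟩, ⟨c, h1, h2, h3⟩, h4⟩, h5⟩
    exact ⟨dn Ψ, c, h1, h2, h3, h4, h5⟩
  · rintro ⟨Ψ, c, h1, h2, h3, h4, h5⟩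
    exact ⟨Ψ, ⟨⟨nd Ψ, rfl⟩, ⟨c, h1, h2, h3⟩, h4⟩, h5⟩

lemma isSkeleton_iff {j : L → CotangentBundle F N} :
    IsSkeleton j ↔ Nearby.IsSkeleton (nb j) := by
  constructor
  · rintro ⟨f, φ, h1, h2, h3, h4, h5⟩
    exact ⟨f, φ, h1, h2.smooth, h2.zero, h2.add, h3, h4, h5⟩
  · rintro ⟨f, φ, h1, h2, h3, h4, h5, h6, h7⟩
    exact ⟨f, φ, h1, ⟨h2, h3, h4⟩, h5, h6, h7⟩

lemma areDiffeomorphic_iff :
    AreDiffeomorphic F L N ↔ Nearby.AreDiffeomorphic F L N := Iff.rfl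

end Pool.Agent.H823.Arnold
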