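import Mathlib
import Pool.Agent.H823.DefsCriteria

/-!
# Complements of exact Lagrangian submanifolds: definitions
-/

open scoped Topology ContDiff Manifold
open Set Bundle

noncomputable section

namespace Pool.Agent.H823.Arnold

universe u

variable {F : Type u} [NormedAddCommGroup F] [NormedSpace ℝ F]
  {K : Type*} [TopologicalSpace K] [ChartedSpace F K] [IsManifold 𝓘(ℝ, F) ∞ K]
  {N : Type*} [TopologicalSpace N] [ChartedSpace F N] [IsManifold 𝓘(ℝ, F) ∞ N]

/-- The function `f` is smooth at all points of the open set `B` of the cotangent bundle. -/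
def IsSmoothFunctionOn (f : CotangentBundle F N → ℝ) (B : Set (CotangentBundle F N)) : Prop :=
  ContMDiffOn (cotangentCorners F) 𝓘(ℝ, ℝ) ∞ f B

/-- The family `φ` is a smooth action of `ℝ` on the open set `B` of `T^*N` with
`φ_t^* (λ + df) = e^t (λ + df)`, where `f` is a smooth function on `B`: it is the complete flow, on
`B`, of the Liouville vector field of the primitive `λ + df` of `ω`. -/
structure LiouvilleFlow (B : Set (CotangentBundle F N)) (f : CotangentBundle F N → ℝ)
    (φ : ℝ → CotangentBundle F N → CotangentBundle F N) : Prop where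
  smooth_primitive : IsSmoothFunctionOn f B
  smooth : ContMDiffOn (𝓘(ℝ, ℝ).prod (cotangentCorners F)) (cotangentCorners F) ∞
    (fun p : ℝ × CotangentBundle F N => φ p.1 p.2) (univ ×ˢ B)
  mapsTo : ∀ t, MapsTo (φ t) B B
  zero : ∀ x ∈ B, φ 0 x = x
  add : ∀ s t, ∀ x ∈ B, φ (s + t) x = φ s (φ t x)
  conformal : ∀ t, ∀ x ∈ B, ∀ u : TangentSpace (cotangentCorners F) x,
    eval (modifiedForm f) (φ t x) (D (φ t) x u) = Real.exp t * eval (modifiedForm f) x u

/-- The open set `B` of `T^*N` is the symplectization of a closed contact manifold, by a primitive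
of `ω` which differs from `λ` by an exact form on `B`.  This means that `B` has a complete
Liouville flow `φ`, with `φ_t^* (λ + df) = e^t (λ + df)`, and a continuous function `r > 0` such
that `r ∘ φ_t = e^t r` and `{r = 1}` is compact.  (Then `B` is equivariantly homeomorphic to
`{r = 1} × (0, ∞)`, the orbit space `B / ℝ` is a closed manifold, and `B` with the form `λ + df` is
the symplectization of the contact structure of `B / ℝ` defined by `λ + df`.) -/
def IsSymplectization (B : Set (CotangentBundle F N)) : Prop :=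
  ∃ (f : CotangentBundle F N → ℝ) (φ : ℝ → CotangentBundle F N → CotangentBundle F N)
    (r : CotangentBundle F N → ℝ),
    LiouvilleFlow B f φ ∧ ContinuousOn r B ∧ (∀ x ∈ B, 0 < r x) ∧
    (∀ t, ∀ x ∈ B, r (φ t x) = Real.exp t * r x) ∧ IsCompact {x | x ∈ B ∧ r x = 1}

/-- The open sets `A` of `T^*K` and `B` of `T^*N` are exactly symplectomorphic: there are a
diffeomorphism `h` of `A` onto `B`, with inverse `h'`, and a smooth function `g` on `A` with
`h^* λ = λ + dg`. -/
def ExactlySymplectomorphic (A : Set (CotangentBundle F K)) (B : Set (CotangentBundle F N)) :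
    Prop :=
  ∃ (h : CotangentBundle F K → CotangentBundle F N) (h' : CotangentBundle F N → CotangentBundle F K)
    (g : CotangentBundle F K → ℝ),
    IsSmoothOn h A ∧ IsSmoothOn h' B ∧ MapsTo h A B ∧ MapsTo h' B A ∧
    (∀ ξ ∈ A, h' (h ξ) = ξ) ∧ (∀ x ∈ B, h (h' x) = x) ∧ IsSmoothFunctionOn g A ∧
    ∀ ξ ∈ A, ∀ u : TangentSpace (cotangentCorners F) ξ,
      eval (canonicalForm F N) (h ξ) (D h ξ u) =
        eval (canonicalForm F K) ξ u + eval (differential (cotangentCorners F) g) ξ u

end Pool.Agent.H823.Arnold
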