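import Mathlib
import Pool.Agent.H823.Core

/-! Extension of isotopies through conformally exact maps. -/

open scoped Topology ContDiff Manifold
open Set Metric Bundle

noncomputable section

namespace Pool.Agent.H823

set_option linter.unusedSectionVars false

universe u

open Pool.Agent.Helper186

variable {E : Type u} [NormedAddCommGroup E] [NormedSpace ℝ E] [FiniteDimensional ℝ E]
  {H : Type*} [TopologicalSpace H] {I : ModelWithCorners ℝ E H} [I.Boundaryless]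
  {X : Type*} [TopologicalSpace X] [ChartedSpace H X] [IsManifold I ∞ X]

/-- **Isotopy extension.** An isotopy `i` through maps with `i_s^* λ = c λ + d k_s`, defined near
`[0, T] × C`, is on `C` induced by an exact symplectic diffeomorphism with compact support in the
set `W` which contains the traces of the points of `C`. -/
theorem isotopy_extension [T2Space X] [SigmaCompactSpace X]
    {lam : (x : X) → TangentSpace I x →L[ℝ] ℝ} (hlam : SmoothForm lam)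
    (hnd : ∀ (x : X) (u : TangentSpace I x), (∀ v, extDer I lam x u v = 0) → u = 0)
    {i j : ℝ × X → X} {D D' : Set (ℝ × X)} (hD : IsOpen D) (hD' : IsOpen D')
    (hi : ContMDiffOn (𝓘(ℝ, ℝ).prod I) I ∞ i D) (hj : ContMDiffOn (𝓘(ℝ, ℝ).prod I) I ∞ j D')
    (hij : ∀ s x, (s, x) ∈ D → (s, i (s, x)) ∈ D' ∧ j (s, i (s, x)) = x)
    (hji : ∀ s y, (s, y) ∈ D' → (s, j (s, y)) ∈ D ∧ i (s, j (s, y)) = y)
    {k : ℝ × X → ℝ} (hk : ContMDiffOn (𝓘(ℝ, ℝ).prod I) 𝓘(ℝ, ℝ) ∞ k D) {c : ℝ}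
    (hpb : ∀ s x, (s, x) ∈ D → PB lam lam (fun x' => i (s, x')) c (fun x' => k (s, x')) x)
    {C : Set X} (hC : IsCompact C) {T : ℝ} (hT : 0 < T) {W : Set X} (hW : IsOpen W)
    (hCW : ∀ s ∈ Icc 0 T, ∀ x ∈ C, (s, x) ∈ D ∧ i (s, x) ∈ W) :
    ∃ (ψ ψi : X → X) (κ : X → ℝ) (K : Set X), ContMDiff I I ∞ ψ ∧ ContMDiff I I ∞ ψi ∧
      (∀ x, ψi (ψ x) = x) ∧ (∀ x, ψ (ψi x) = x) ∧ ContMDiff I 𝓘(ℝ, ℝ) ∞ κ ∧
      (∀ x, PB lam lam ψ 1 κ x) ∧ IsCompact K ∧ K ⊆ W ∧ (∀ x, x ∉ K → ψ x = x) ∧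
      (∀ x ∈ C, ψ (i (0, x)) = i (T, x)) ∧
      (∀ x ∈ C, κ (i (0, x)) = k (T, x) - k (0, x)) := by
  -- the isotopy is Hamiltonian
  obtain ⟨hHs, hHi⟩ := isotopy_hamiltonian hlam hD hD' hi hj hij hji hk hpb
  -- enlarge the time interval
  have hV : IsOpen (D ∩ i ⁻¹' W) := hi.continuousOn.isOpen_inter_preimage hD hW
  obtain ⟨δ, hδ, hδV⟩ := exists_delta hV hT.le hC (by
    rintro ⟨s, x⟩ ⟨hs, hx⟩
    exact hCW s hs x hx)
  -- the trajectory set
  set 𝒯 : Set (ℝ × X) := (fun p : ℝ × X => (p.1, i p)) '' (Icc (-δ) (T + δ) ×ˢ C) with h𝒯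
  have h𝒯c : IsCompact 𝒯 := by
    refine (isCompact_Icc.prod hC).image_of_continuousOn ?_
    exact continuousOn_fst.prodMk
      (hi.continuousOn.mono (fun p hp => (hδV hp).1))
  set 𝒪 : Set (ℝ × X) := D' ∩ (Prod.snd ⁻¹' W) with h𝒪
  have h𝒪o : IsOpen 𝒪 := hD'.inter (hW.preimage continuous_snd)
  have h𝒯𝒪 : 𝒯 ⊆ 𝒪 := by
    rintro _ ⟨⟨s, x⟩, hp, rfl⟩
    exact ⟨(hij s x (hδV hp).1).1, (hδV hp).2⟩
  obtain ⟨Hh, K, hHh, hK, hK𝒪, hHh1, hHh0⟩ := exists_extension h𝒯c h𝒪o h𝒯𝒪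
    (hHs.mono inter_subset_left)
  obtain ⟨R, Ri, hR, hRi, hR0, hRiR, hRRi, hRH, hRu, hRid⟩ := hamiltonian_flow hlam hnd hHh hK hHh0
  have hpull := pullback_hamiltonian hlam hHh hR hR0 hRH
  -- the trajectories
  have htraj : ∀ x ∈ C, ∀ s ∈ Ioo (-δ) (T + δ), i (s, x) = R (s, i (0, x)) := by
    intro x hx
    exact hRu (fun s => i (s, x)) (-δ) (T + δ) ⟨by linarith, by linarith⟩ (by
      intro s hs
      have hsx : (s, x) ∈ D := (hδV ⟨⟨hs.1.le, hs.2.le⟩, hx⟩).1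
      refine ⟨(contMDiffAt_slice_time hD hi hsx).mdifferentiableAt (by simp), ?_⟩
      intro v
      have h2 := (hHi s x hsx).2 v
      refine h2.trans ?_
      have h3 : (fun y => Hh (s, y)) =ᶠ[𝓝 (i (s, x))]
          fun y => isoHam lam i j k (s, y) := by
        have h4 : (s, i (s, x)) ∈ 𝒯 :=
          ⟨(s, x), ⟨⟨hs.1.le, hs.2.le⟩, hx⟩, rfl⟩
        have h5 : ∀ᶠ p in 𝓝 (s, i (s, x)), Hh p = isoHam lam i j k p :=
          hHh1.filter_mono (nhds_le_nhdsSet h4)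
        have h6 : ContinuousAt (fun y : X => (s, y)) (i (s, x)) := by fun_prop
        exact h6.eventually h5
      exact (DFunLike.congr_fun (h3.mfderiv_eq (I := I) (I' := 𝓘(ℝ, ℝ))) v).symm)
  refine ⟨fun x => R (T, x), fun x => Ri (T, x),
    fun x => ∫ s in (0:ℝ)..T, actionIntegrand lam Hh R (s, x), Prod.snd '' K, ?_, ?_, hRiR T,
    hRRi T, contMDiff_paramInt (contMDiff_actionIntegrand hlam hHh hR) T, ?_,
    hK.image continuous_snd, ?_, ?_, ?_, ?_⟩
  · exact hR.comp (contMDiff_const.prodMk contMDiff_id)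
  · exact hRi.comp (contMDiff_const.prodMk contMDiff_id)
  · intro x u
    rw [one_mul]
    exact hpull T x u
  · rintro _ ⟨p, hp, rfl⟩
    exact (hK𝒪 hp).2
  · intro x hx
    refine hRid x ?_ T
    intro s hsx
    exact hx ⟨_, hsx, rfl⟩
  · intro x hx
    exact (htraj x hx T ⟨by linarith, by linarith⟩).symm
  · intro x hx
    simp only
    have h1 : ∀ s ∈ uIcc 0 T, actionIntegrand lam Hh R (s, i (0, x)) =
        (show ℝ from dS 𝓘(ℝ, ℝ) k s x) := by
      intro s hs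
      rw [uIcc_of_le hT.le] at hs
      have hs' : s ∈ Ioo (-δ) (T + δ) := ⟨by linarith [hs.1], by linarith [hs.2]⟩
      have hsx : (s, x) ∈ D := (hδV ⟨⟨hs'.1.le, hs'.2.le⟩, hx⟩).1
      have h2 : (fun σ => R (σ, i (0, x))) =ᶠ[𝓝 s] fun σ => i (σ, x) := by
        filter_upwards [Ioo_mem_nhds hs'.1 hs'.2] with σ hσ
        exact (htraj x hx σ hσ).symm
      have h3 := tangentMap_congr_of_eventuallyEq (J := 𝓘(ℝ, ℝ)) (I := I)
        (v := (⟨s, (1:ℝ)⟩ : TangentBundle 𝓘(ℝ, ℝ) ℝ)) h2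
      have h4 : lam (R (s, i (0, x))) (dS I R s (i (0, x))) =
        lam (i (s, x)) (dS I i s x) := form_congr lam h3
      have h5 : Hh (s, R (s, i (0, x))) = isoHam lam i j k (s, i (s, x)) := by
        rw [← htraj x hx s hs']
        have h4 : (s, i (s, x)) ∈ 𝒯 :=
          ⟨(s, x), ⟨⟨hs'.1.le, hs'.2.le⟩, hx⟩, rfl⟩
        exact (hHh1.filter_mono (nhds_le_nhdsSet h4)).self_of_nhds
      unfold actionIntegrand
      simp only
      rw [h4, h5, (hHi s x hsx).1]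
      ring
    rw [intervalIntegral.integral_congr (g := fun s => (show ℝ from dS 𝓘(ℝ, ℝ) k s x))
      (fun s hs => h1 s hs)]
    have h6 : ∀ s ∈ uIcc 0 T, (s, x) ∈ D := by
      intro s hs
      rw [uIcc_of_le hT.le] at hs
      exact (hCW s hs x hx).1
    have h7 : ∀ s ∈ uIcc 0 T, HasDerivAt (fun σ => k (σ, x))
        (show ℝ from dS 𝓘(ℝ, ℝ) k s x) s := by
      intro s hs
      have h8 := contMDiffAt_slice_time hD hk (h6 s hs)
      have h9 : DifferentiableAt ℝ (fun σ => k (σ, x)) s :=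
        mdifferentiableAt_iff_differentiableAt.1 (h8.mdifferentiableAt (by simp))
      have h10 : (show ℝ from dS 𝓘(ℝ, ℝ) k s x) = deriv (fun σ => k (σ, x)) s := by
        unfold dS
        rw [mfderiv_eq_fderiv]
        rfl
      rw [h10]
      exact h9.hasDerivAt
    have h8 : IntervalIntegrable (fun s => (show ℝ from dS 𝓘(ℝ, ℝ) k s x))
        MeasureTheory.volume 0 T := by
      apply ContinuousOn.intervalIntegrable
      intro s hs
      have h9 : ContMDiffAt (𝓘(ℝ, ℝ).prod I) 𝓘(ℝ, ℝ) ∞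
        (fun q : ℝ × X => (show ℝ from dS 𝓘(ℝ, ℝ) k q.1 q.2)) (s, x) :=
        contMDiffAt_dS_real hD hk (h6 s hs)
      have h10 : ContinuousAt (fun s => (show ℝ from dS 𝓘(ℝ, ℝ) k s x)) s :=
        ContinuousAt.comp (g := fun q : ℝ × X => (show ℝ from dS 𝓘(ℝ, ℝ) k q.1 q.2))
          (f := fun s => (s, x)) h9.continuousAt (by fun_prop)
      exact h10.continuousWithinAt
    rw [intervalIntegral.integral_eq_sub_of_hasDerivAt h7 h8]

end Pool.Agent.H823
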