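import Mathlib
import Pool.Agent.H823.Criteria
import Pool.Agent.H823.IsoExt

/-! Liouville flows on the complement of a closed exact Lagrangian submanifold, I. -/

open scoped Topology ContDiff Manifold
open Set Bundle

noncomputable section

namespace Pool.Agent.H823.Nearby

set_option linter.unusedSectionVars false

universe u

open Pool.Agent.Helper186

variable {F : Type u} [NormedAddCommGroup F] [NormedSpace ℝ F] [FiniteDimensional ℝ F]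
  {L : Type*} [TopologicalSpace L] [ChartedSpace F L] [IsManifold 𝓘(ℝ, F) ∞ L]
  {N : Type*} [TopologicalSpace N] [ChartedSpace F N] [IsManifold 𝓘(ℝ, F) ∞ N]

/-- Star-shaped exact Weinstein charts. -/
structure Chart (j : L → Cotangent F N) where
  w : Cotangent F L → Cotangent F N
  w' : Cotangent F N → Cotangent F L
  O : Set (Cotangent F L)
  g : Cotangent F L → ℝ
  O_open : IsOpen O
  O_star : ∀ s ∈ Icc (0:ℝ) 1, MapsTo (scal s) O O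
  zero_mem : ∀ q, zeroC q ∈ O
  A_open : IsOpen (w '' O)
  w_smooth : ContMDiff (IC F) (IC F) ∞ w
  w'_smooth : ContMDiffOn (IC F) (IC F) ∞ w' (w '' O)
  w'_w : ∀ ξ ∈ O, w' (w ξ) = ξ
  w_zero : ∀ q, w (zeroC q) = j q
  g_smooth : ContMDiffOn (IC F) 𝓘(ℝ, ℝ) ∞ g O
  pb : ∀ ξ ∈ O, PB canForm canForm w 1 g ξ

lemma exists_Chart [T2Space L] [CompactSpace L] [Nonempty L] [T2Space N] [CompactSpace N]
    {j : L → CotangentBundle F N} (hj : ExactLagrangianEmbedding j) : Nonempty (Chart j) := by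
  obtain ⟨w, w', O, g, h1, h2, h3, h4, h5, h6, h7, h8, h9, h10⟩ := exists_chart hj
  exact ⟨⟨w, w', O, g, h1, h2, h3, h4, h5, h6, h7, h8, h9, h10⟩⟩

namespace Chart

variable {j : L → Cotangent F N} (𝒞 : Chart j)

/-- The image of the chart. -/
def A : Set (Cotangent F N) := 𝒞.w '' 𝒞.O

lemma isOpen_A : IsOpen 𝒞.A := 𝒞.A_open

lemma w_mem {ξ : Cotangent F L} (h : ξ ∈ 𝒞.O) : 𝒞.w ξ ∈ 𝒞.A := ⟨ξ, h, rfl⟩

lemma w'_mem {x : Cotangent F N} (h : x ∈ 𝒞.A) : 𝒞.w' x ∈ 𝒞.O := by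
  obtain ⟨ξ, hξ, rfl⟩ := h
  rw [𝒞.w'_w ξ hξ]
  exact hξ

lemma w_w' {x : Cotangent F N} (h : x ∈ 𝒞.A) : 𝒞.w (𝒞.w' x) = x := by
  obtain ⟨ξ, hξ, rfl⟩ := h
  rw [𝒞.w'_w ξ hξ]

lemma range_sub : range j ⊆ 𝒞.A := by
  rintro _ ⟨q, rfl⟩
  exact ⟨zeroC q, 𝒞.zero_mem q, 𝒞.w_zero q⟩

lemma w'_j (q : L) : 𝒞.w' (j q) = zeroC q := by
  rw [← 𝒞.w_zero q, 𝒞.w'_w _ (𝒞.zero_mem q)]

lemma w_mem_range_iff {ξ : Cotangent F L} (h : ξ ∈ 𝒞.O) :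
    𝒞.w ξ ∈ range j ↔ ξ ∈ range (zeroC : L → Cotangent F L) := by
  constructor
  · rintro ⟨q, hq⟩
    refine ⟨q, ?_⟩
    rw [← 𝒞.w'_j q, hq, 𝒞.w'_w ξ h]
  · rintro ⟨q, rfl⟩
    exact ⟨q, (𝒞.w_zero q).symm⟩

lemma w'_smoothAt {x : Cotangent F N} (h : x ∈ 𝒞.A) : ContMDiffAt (IC F) (IC F) ∞ 𝒞.w' x :=
  𝒞.w'_smooth.contMDiffAt (𝒞.A_open.mem_nhds h)

lemma g_smoothAt {ξ : Cotangent F L} (h : ξ ∈ 𝒞.O) : ContMDiffAt (IC F) 𝓘(ℝ, ℝ) ∞ 𝒞.g ξ :=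
  𝒞.g_smooth.contMDiffAt (𝒞.O_open.mem_nhds h)

lemma w'_pb {x : Cotangent F N} (h : x ∈ 𝒞.A) :
    PB canForm canForm 𝒞.w' 1 (fun x => - 𝒞.g (𝒞.w' x)) x := by
  have hO := 𝒞.w'_mem h
  have h1 : PB canForm canForm 𝒞.w 1 (fun ξ => - (- 𝒞.g ξ)) (𝒞.w' x) := by
    have h2 : (fun ξ => - (- 𝒞.g ξ)) = 𝒞.g := funext fun ξ => neg_neg _
    rw [h2]
    exact 𝒞.pb _ hO
  refine PB.inv (g := fun ξ => - 𝒞.g ξ) h1 ?_ ((𝒞.w'_smoothAt h).mdifferentiableAt (by simp))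
    (𝒞.w_smooth.mdifferentiableAt (by simp)) ((𝒞.g_smoothAt hO).mdifferentiableAt (by simp)).neg
  filter_upwards [𝒞.isOpen_A.mem_nhds h] with y hy
  exact 𝒞.w_w' hy

end Chart

/-- Zero covectors are detected by scaling. -/
lemma scal_mem_zero_iff {s : ℝ} (hs : s ≠ 0) {ξ : Cotangent F L} :
    scal s ξ ∈ range (zeroC : L → Cotangent F L) ↔ ξ ∈ range (zeroC : L → Cotangent F L) := by
  constructor
  · rintro ⟨q, hq⟩
    refine ⟨q, ?_⟩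
    rw [← scal_one ξ, ← inv_mul_cancel₀ hs, ← scal_scal, ← hq, scal_zeroC]
  · rintro ⟨q, rfl⟩
    exact ⟨q, (scal_zeroC s q).symm⟩

/-- A complete Liouville flow (for the primitive `λ + df` of `ω`) on the complement of the closed
set `S`. -/
structure LFlow (S : Set (Cotangent F N)) where
  φ : ℝ → Cotangent F N → Cotangent F N
  f : Cotangent F N → ℝ
  f_smooth : ContMDiffOn (IC F) 𝓘(ℝ, ℝ) ∞ f Sᶜ
  smooth : ContMDiffOn (𝓘(ℝ, ℝ).prod (IC F)) (IC F) ∞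
    (fun p : ℝ × Cotangent F N => φ p.1 p.2) (univ ×ˢ Sᶜ)
  maps : ∀ t, ∀ x ∉ S, φ t x ∉ S
  zero : ∀ x ∉ S, φ 0 x = x
  add : ∀ s t, ∀ x ∉ S, φ (s + t) x = φ s (φ t x)
  conf : ∀ t, ∀ x ∉ S, ∀ u : TangentSpace (IC F) x,
    (canForm (φ t x) + dForm (IC F) f (φ t x)) (mfderiv (IC F) (IC F) (φ t) x u) =
      Real.exp t * (canForm x + dForm (IC F) f x) u

/-- A Liouville flow on the complement of the closed set `S`, continuous at `S` in the quotient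
space `T^*N / S`, and contracting to `S`. -/
structure SingFlow (S : Set (Cotangent F N)) extends LFlow S where
  cont : ∀ T : ℝ, ∀ U : Set (Cotangent F N), IsOpen U → S ⊆ U →
    ∃ V : Set (Cotangent F N), IsOpen V ∧ S ⊆ V ∧ ∀ t ∈ Icc (-T) T, ∀ x ∈ V, x ∉ S → φ t x ∈ U
  contr : ∀ K : Set (Cotangent F N), IsCompact K → ∀ U : Set (Cotangent F N), IsOpen U → S ⊆ U →
    ∃ t₀ : ℝ, ∀ t ≥ t₀, ∀ x ∈ K, x ∉ S → φ (-t) x ∈ U

namespace LFlow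

variable {S : Set (Cotangent F N)} (ℱ : LFlow S)

lemma smoothAt (hS : IsClosed S) (t : ℝ) {x : Cotangent F N} (hx : x ∉ S) :
    ContMDiffAt (IC F) (IC F) ∞ (ℱ.φ t) x := by
  have h1 : IsOpen ((univ : Set ℝ) ×ˢ Sᶜ) := isOpen_univ.prod hS.isOpen_compl
  have h2 := ℱ.smooth.contMDiffAt (h1.mem_nhds (x := (t, x)) ⟨mem_univ _, hx⟩)
  exact ContMDiffAt.comp (g := fun p : ℝ × Cotangent F N => ℱ.φ p.1 p.2)
    (f := fun x' : Cotangent F N => (t, x')) x h2 (contMDiffAt_const.prodMk contMDiffAt_id)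

lemma f_smoothAt (hS : IsClosed S) {x : Cotangent F N} (hx : x ∉ S) :
    ContMDiffAt (IC F) 𝓘(ℝ, ℝ) ∞ ℱ.f x :=
  ℱ.f_smooth.contMDiffAt (hS.isOpen_compl.mem_nhds hx)

lemma continuousOn (hS : IsClosed S) (t : ℝ) : ContinuousOn (ℱ.φ t) Sᶜ := fun _ hx =>
  (ℱ.smoothAt hS t hx).continuousAt.continuousWithinAt

lemma neg_left (t : ℝ) {x : Cotangent F N} (hx : x ∉ S) : ℱ.φ (-t) (ℱ.φ t x) = x := by
  rw [← ℱ.add _ _ _ hx, neg_add_cancel, ℱ.zero _ hx]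

lemma neg_right (t : ℝ) {x : Cotangent F N} (hx : x ∉ S) : ℱ.φ t (ℱ.φ (-t) x) = x := by
  rw [← ℱ.add _ _ _ hx, add_neg_cancel, ℱ.zero _ hx]

/-- The primitive. -/
lemma pb (hS : IsClosed S) (t : ℝ) {x : Cotangent F N} (hx : x ∉ S) :
    PB canForm canForm (ℱ.φ t) (Real.exp t) (fun x => Real.exp t * ℱ.f x - ℱ.f (ℱ.φ t x)) x := by
  intro u
  have hφ : MDifferentiableAt (IC F) (IC F) (ℱ.φ t) x :=
    (ℱ.smoothAt hS t hx).mdifferentiableAt (by simp)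
  have hf1 : MDifferentiableAt (IC F) 𝓘(ℝ, ℝ) ℱ.f (ℱ.φ t x) :=
    (ℱ.f_smoothAt hS (ℱ.maps t x hx)).mdifferentiableAt (by simp)
  have hf0 : MDifferentiableAt (IC F) 𝓘(ℝ, ℝ) ℱ.f x :=
    (ℱ.f_smoothAt hS hx).mdifferentiableAt (by simp)
  have h1 := ℱ.conf t x hx u
  have h2 : (show ℝ from mfderiv (IC F) 𝓘(ℝ, ℝ) (fun x => ℱ.f (ℱ.φ t x)) x u) =
      dForm (IC F) ℱ.f (ℱ.φ t x) (mfderiv (IC F) (IC F) (ℱ.φ t) x u) :=
    DFunLike.congr_fun (mfderiv_comp (I := IC F) (I' := IC F) (I'' := 𝓘(ℝ, ℝ)) x hf1 hφ) u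
  have hcm : MDifferentiableAt (IC F) 𝓘(ℝ, ℝ) (fun x => ℱ.f (ℱ.φ t x)) x := hf1.comp x hφ
  have h3 : HasMFDerivAt (IC F) 𝓘(ℝ, ℝ) (fun x => Real.exp t * ℱ.f x - ℱ.f (ℱ.φ t x)) x
      (Real.exp t • (show (F × (F →L[ℝ] ℝ)) →L[ℝ] ℝ from mfderiv (IC F) 𝓘(ℝ, ℝ) ℱ.f x) -
        (show (F × (F →L[ℝ] ℝ)) →L[ℝ] ℝ from
          mfderiv (IC F) 𝓘(ℝ, ℝ) (fun x => ℱ.f (ℱ.φ t x)) x) : (F × (F →L[ℝ] ℝ)) →L[ℝ] ℝ) :=
    (hf0.hasMFDerivAt.const_smul (Real.exp t)).sub hcm.hasMFDerivAt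
  have h4 : (show ℝ from mfderiv (IC F) 𝓘(ℝ, ℝ)
      (fun x => Real.exp t * ℱ.f x - ℱ.f (ℱ.φ t x)) x u) =
      Real.exp t * (show ℝ from mfderiv (IC F) 𝓘(ℝ, ℝ) ℱ.f x u) -
        (show ℝ from mfderiv (IC F) 𝓘(ℝ, ℝ) (fun x => ℱ.f (ℱ.φ t x)) x u) :=
    DFunLike.congr_fun h3.mfderiv u
  rw [h4, h2]
  have h5 : (canForm (ℱ.φ t x) + dForm (IC F) ℱ.f (ℱ.φ t x))
      (mfderiv (IC F) (IC F) (ℱ.φ t) x u) =
      canForm (ℱ.φ t x) (mfderiv (IC F) (IC F) (ℱ.φ t) x u) +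
      dForm (IC F) ℱ.f (ℱ.φ t x) (mfderiv (IC F) (IC F) (ℱ.φ t) x u) := rfl
  have h6 : (canForm x + dForm (IC F) ℱ.f x) u = canForm x u +
      (show ℝ from mfderiv (IC F) 𝓘(ℝ, ℝ) ℱ.f x u) := rfl
  rw [h5, h6] at h1
  linarith

end LFlow

namespace SingFlow

variable {S : Set (Cotangent F N)} (ℱ : SingFlow S)

/-- Trapping neighbourhoods. -/
lemma exists_trap (hS : IsCompact S) [T2Space N] {U : Set (Cotangent F N)} (hU : IsOpen U)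
    (hSU : S ⊆ U) :
    ∃ E : Set (Cotangent F N), IsCompact E ∧ E ⊆ U ∧ S ⊆ interior E ∧
      ∀ t ≥ 0, ∀ x ∈ E, x ∉ S → ℱ.φ (-t) x ∈ E := by
  obtain ⟨K₀, hK₀, hSK, hKU⟩ := exists_compact_between hS hU hSU
  set E : Set (Cotangent F N) := {x | x ∈ S ∨ ∀ t : ℝ, 0 ≤ t → ℱ.φ (-t) x ∈ K₀} with hE
  have hSc : IsClosed S := hS.isClosed
  -- simpler description
  have hEc : Eᶜ = ⋃ t : ℝ, ⋃ (_ : 0 ≤ t), (Sᶜ ∩ ℱ.φ (-t) ⁻¹' K₀ᶜ) := by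
    ext x
    simp only [hE, mem_compl_iff, mem_ofPred_eq, not_or, not_forall, mem_iUnion, mem_inter_iff,
      mem_preimage]
    constructor
    · rintro ⟨h1, t, ht, h2⟩
      exact ⟨t, ht, h1, h2⟩
    · rintro ⟨t, ht, h1, h2⟩
      exact ⟨h1, t, ht, h2⟩
  have hEcl : IsClosed E := by
    rw [← isOpen_compl_iff, hEc]
    refine isOpen_iUnion fun t => isOpen_iUnion fun _ => ?_
    exact (ℱ.continuousOn hSc (-t)).isOpen_inter_preimage hSc.isOpen_compl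
      hK₀.isClosed.isOpen_compl
  have hEK : E ⊆ K₀ := by
    rintro x (hx | hx)
    · exact interior_subset (hSK hx)
    · by_cases hxS : x ∈ S
      · exact interior_subset (hSK hxS)
      · have h1 := hx 0 le_rfl
        rwa [neg_zero, ℱ.zero x hxS] at h1
  refine ⟨E, hK₀.of_isClosed_subset hEcl hEK, hEK.trans hKU, ?_, ?_⟩
  · obtain ⟨t₀, ht₀⟩ := ℱ.contr K₀ hK₀ (interior K₀) isOpen_interior hSK
    obtain ⟨V, hV, hSV, hVt⟩ := ℱ.cont (max t₀ 0) (interior K₀) isOpen_interior hSK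
    intro x hx
    refine mem_interior.2 ⟨V ∩ interior K₀, ?_, hV.inter isOpen_interior, hSV hx, hSK hx⟩
    rintro y ⟨hyV, hyK⟩
    by_cases hyS : y ∈ S
    · exact Or.inl hyS
    · refine Or.inr fun t ht => ?_
      by_cases htt : t ≤ max t₀ 0
      · exact interior_subset (hVt (-t) ⟨by linarith, by linarith [le_max_right t₀ 0]⟩ y hyV hyS)
      · push Not at htt
        exact interior_subset (ht₀ t ((le_max_left _ _).trans htt.le) y (interior_subset hyK) hyS)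
  · rintro t ht x (hx | hx) hxS
    · exact absurd hx hxS
    · refine Or.inr fun s hs => ?_
      rw [← ℱ.add _ _ _ hxS]
      have h1 := hx (s + t) (by linarith)
      rwa [neg_add] at h1

end SingFlow

end Pool.Agent.H823.Nearby
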