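import Mathlib
import Pool.Agent.H823.Sing1

/-! Liouville flows on the complement of a closed exact Lagrangian submanifold, II: the isotopy. -/

open scoped Topology ContDiff Manifold
open Set Bundle

noncomputable section

namespace Pool.Agent.H823.Nearby

set_option linter.unusedSectionVars false

universe u

open Pool.Agent.Helper186

variable {F : Type u} [NormedAddCommGroup F] [NormedSpace ℝ F] [FiniteDimensional ℝ F]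
  {L : Type*} [TopologicalSpace L] [ChartedSpace F L] [IsManifold 𝓘(ℝ, F) ∞ L]
  {N : Type*} [TopologicalSpace N] [ChartedSpace F N] [IsManifold 𝓘(ℝ, F) ∞ N]

/-- The data of the construction. -/
structure Setup (j : L → Cotangent F N) where
  𝒞 : Chart j
  ℱ : SingFlow (range j)
  E₂ : Set (Cotangent F N)
  E : Set (Cotangent F N)
  E₀ : Set (Cotangent F N)
  V : Set (Cotangent F L)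
  T : ℝ
  T_pos : 0 < T
  S_cpt : IsCompact (range j)
  E₂_cpt : IsCompact E₂
  E_cpt : IsCompact E
  E₀_cpt : IsCompact E₀
  E₂_sub : E₂ ⊆ 𝒞.A
  E_sub : E ⊆ interior E₂
  E₀_sub : E₀ ⊆ interior E
  S_sub : range j ⊆ interior E₀
  E₂_inv : ∀ t ≥ 0, ∀ x ∈ E₂, x ∉ range j → ℱ.φ (-t) x ∈ E₂
  E_inv : ∀ t ≥ 0, ∀ x ∈ E, x ∉ range j → ℱ.φ (-t) x ∈ E
  V_sub : V ⊆ 𝒞.O
  V_map : ∀ ξ ∈ V, 𝒞.w ξ ∈ interior E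
  V_zero : ∀ q, zeroC q ∈ interior V
  V_star : ∀ s ∈ Icc (0:ℝ) 1, MapsTo (scal s) V V
  spec : ∀ s ∈ Icc 0 T, ∀ x ∈ E₂, x ∉ range j →
    scal (Real.exp (-s)) (𝒞.w' (ℱ.φ (s - T) x)) ∈ interior V

/-- The interior of a star-shaped set is star-shaped. -/
lemma scal_interior {V : Set (Cotangent F L)} (hV0 : ∀ q, zeroC q ∈ interior V)
    (hV : ∀ s ∈ Icc (0:ℝ) 1, MapsTo (scal s) V V) :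
    ∀ s ∈ Icc (0:ℝ) 1, MapsTo (scal s) (interior V) (interior V) := by
  intro s hs ξ hξ
  rcases eq_or_lt_of_le hs.1 with h | h
  · rw [← h, scal_zero]
    exact hV0 _
  · have h10 : scal s '' interior V ⊆ interior V := by
      apply interior_maximal
      · rintro _ ⟨ζ, hζ, rfl⟩
        exact hV s hs (interior_subset hζ)
      · have h11 : scal s '' interior V = scal s⁻¹ ⁻¹' interior V := by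
          ext ζ
          constructor
          · rintro ⟨η, hη, rfl⟩
            show scal s⁻¹ (scal s η) ∈ interior V
            rw [scal_scal, inv_mul_cancel₀ h.ne', scal_one]
            exact hη
          · intro hζ
            refine ⟨scal s⁻¹ ζ, hζ, ?_⟩
            rw [scal_scal, mul_inv_cancel₀ h.ne', scal_one]
        rw [h11]
        exact isOpen_interior.preimage (contMDiff_scal_slice _).continuous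
    exact h10 ⟨ξ, hξ, rfl⟩

theorem exists_Setup [T2Space L] [CompactSpace L] [Nonempty L] [T2Space N] [CompactSpace N]
    {j : L → CotangentBundle F N} (hj : ExactLagrangianEmbedding j)
    (ℱ : SingFlow (F := F) (N := N) (range j)) : ∃ 𝒮 : Setup (F := F) j, 𝒮.ℱ = ℱ := by
  obtain ⟨𝒞⟩ := exists_Chart hj
  have hS : IsCompact (range j) := isCompact_range hj.smooth.continuous
  obtain ⟨E₂, h1, h2, h3, h4⟩ := ℱ.exists_trap hS 𝒞.isOpen_A 𝒞.range_sub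
  obtain ⟨E, h5, h6, h7, h8⟩ := ℱ.exists_trap hS isOpen_interior h3
  obtain ⟨E₀, h9, h10, h11, h12⟩ := ℱ.exists_trap hS isOpen_interior h7
  have hopen : IsOpen (𝒞.O ∩ 𝒞.w ⁻¹' interior E) :=
    𝒞.O_open.inter (isOpen_interior.preimage 𝒞.w_smooth.continuous)
  obtain ⟨V, hVc, hVs, hV0, hVst⟩ := exists_starshaped hopen (fun q => ⟨𝒞.zero_mem q, by
    show 𝒞.w (zeroC q) ∈ interior E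
    rw [𝒞.w_zero]
    exact h7 ⟨q, rfl⟩⟩)
  have hwV : IsOpen (𝒞.w '' interior V) := by
    have h13 : 𝒞.w '' interior V = 𝒞.A ∩ 𝒞.w' ⁻¹' interior V := by
      ext x
      constructor
      · rintro ⟨ξ, hξ, rfl⟩
        have hξO := (hVs (interior_subset hξ)).1
        refine ⟨𝒞.w_mem hξO, ?_⟩
        show 𝒞.w' (𝒞.w ξ) ∈ interior V
        rw [𝒞.w'_w ξ hξO]
        exact hξ
      · rintro ⟨hx, hx'⟩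
        exact ⟨𝒞.w' x, hx', 𝒞.w_w' hx⟩
    rw [h13]
    exact 𝒞.w'_smooth.continuousOn.isOpen_inter_preimage 𝒞.isOpen_A isOpen_interior
  obtain ⟨t₁, ht₁⟩ := ℱ.contr E₂ h1 (𝒞.w '' interior V) hwV (by
    rintro _ ⟨q, rfl⟩
    exact ⟨zeroC q, hV0 q, 𝒞.w_zero q⟩)
  obtain ⟨s₁, hs₁, hs₁V⟩ := exists_contract hV0 (h1.image_of_continuousOn
    (𝒞.w'_smooth.continuousOn.mono h2))
  refine ⟨⟨𝒞, ℱ, E₂, E, E₀, V, 2 * (max t₁ s₁) + 1, ?_, hS, h1, h5, h9, h2, h6, h10, h11, h4, h8,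
    fun ξ hξ => (hVs hξ).1, fun ξ hξ => (hVs hξ).2, hV0, hVst, ?_⟩, rfl⟩
  · have := le_max_right t₁ s₁
    linarith
  · intro s hs x hx hxS
    have hm1 := le_max_left t₁ s₁
    have hm2 := le_max_right t₁ s₁
    by_cases h : max t₁ s₁ ≤ s
    · have h13 : ℱ.φ (s - (2 * max t₁ s₁ + 1)) x ∈ E₂ := by
        have := h4 (2 * max t₁ s₁ + 1 - s) (by linarith [hs.2]) x hx hxS
        rwa [neg_sub] at this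
      exact hs₁V s (hm2.trans h) _ ⟨_, h13, rfl⟩
    · push Not at h
      obtain ⟨ξ, hξ, hξx⟩ : ℱ.φ (s - (2 * max t₁ s₁ + 1)) x ∈ 𝒞.w '' interior V := by
        have := ht₁ (2 * max t₁ s₁ + 1 - s) (by linarith) x hx hxS
        rwa [neg_sub] at this
      rw [← hξx, 𝒞.w'_w ξ (hVs (interior_subset hξ)).1]
      exact scal_interior hV0 hVst _
        ⟨(Real.exp_pos _).le, Real.exp_le_one_iff.2 (by linarith [hs.1])⟩ hξ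

namespace Setup

variable {j : L → Cotangent F N} (𝒮 : Setup j)

/-- The isotopy. -/
def i (p : ℝ × Cotangent F N) : Cotangent F N :=
  𝒮.𝒞.w (scal (Real.exp (-p.1)) (𝒮.𝒞.w' (𝒮.ℱ.φ (p.1 - 𝒮.T) p.2)))

/-- Its domain. -/
def D : Set (ℝ × Cotangent F N) := {p | (p.2 ∉ range j ∧ 𝒮.ℱ.φ (p.1 - 𝒮.T) p.2 ∈ 𝒮.𝒞.A) ∧
  scal (Real.exp (-p.1)) (𝒮.𝒞.w' (𝒮.ℱ.φ (p.1 - 𝒮.T) p.2)) ∈ 𝒮.𝒞.O}

/-- The inverse isotopy. -/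
def ii (p : ℝ × Cotangent F N) : Cotangent F N :=
  𝒮.ℱ.φ (𝒮.T - p.1) (𝒮.𝒞.w (scal (Real.exp p.1) (𝒮.𝒞.w' p.2)))

/-- Its domain. -/
def D' : Set (ℝ × Cotangent F N) := {p | (p.2 ∉ range j ∧ p.2 ∈ 𝒮.𝒞.A) ∧
  scal (Real.exp p.1) (𝒮.𝒞.w' p.2) ∈ 𝒮.𝒞.O}

/-- The primitive. -/
def k (p : ℝ × Cotangent F N) : ℝ :=
  Real.exp (-p.1) * ((Real.exp (p.1 - 𝒮.T) * 𝒮.ℱ.f p.2 - 𝒮.ℱ.f (𝒮.ℱ.φ (p.1 - 𝒮.T) p.2)) -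
    𝒮.𝒞.g (𝒮.𝒞.w' (𝒮.ℱ.φ (p.1 - 𝒮.T) p.2))) +
  𝒮.𝒞.g (scal (Real.exp (-p.1)) (𝒮.𝒞.w' (𝒮.ℱ.φ (p.1 - 𝒮.T) p.2)))

lemma scal_exp_neg (s : ℝ) (ξ : Cotangent F L) : scal (Real.exp (-s)) (scal (Real.exp s) ξ) = ξ := by
  rw [scal_scal, ← Real.exp_add, neg_add_cancel, Real.exp_zero, scal_one]

lemma scal_exp_pos (s : ℝ) (ξ : Cotangent F L) : scal (Real.exp s) (scal (Real.exp (-s)) ξ) = ξ := by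
  rw [scal_scal, ← Real.exp_add, add_neg_cancel, Real.exp_zero, scal_one]

variable [T2Space N]

include 𝒮 in
lemma S_closed : IsClosed (range j) := 𝒮.S_cpt.isClosed

lemma smooth_y : ContMDiffOn (𝓘(ℝ, ℝ).prod (IC F)) (IC F) ∞
    (fun p : ℝ × Cotangent F N => 𝒮.ℱ.φ (p.1 - 𝒮.T) p.2) (univ ×ˢ (range j)ᶜ) :=
  𝒮.ℱ.smooth.comp ((contMDiff_fst.sub contMDiff_const).prodMk contMDiff_snd).contMDiffOn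
    (fun p hp => ⟨mem_univ _, hp.2⟩)

/-- auxiliary domain -/
def D₁ : Set (ℝ × Cotangent F N) := (univ ×ˢ (range j)ᶜ) ∩
  (fun p : ℝ × Cotangent F N => 𝒮.ℱ.φ (p.1 - 𝒮.T) p.2) ⁻¹' 𝒮.𝒞.A

lemma D₁_open : IsOpen 𝒮.D₁ :=
  𝒮.smooth_y.continuousOn.isOpen_inter_preimage (isOpen_univ.prod 𝒮.S_closed.isOpen_compl)
    𝒮.𝒞.isOpen_A

lemma smooth_exp_neg : ContMDiff (𝓘(ℝ, ℝ).prod (IC F)) 𝓘(ℝ, ℝ) ∞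
    (fun p : ℝ × Cotangent F N => Real.exp (-p.1)) :=
  (Real.contDiff_exp.comp contDiff_neg).contMDiff.comp contMDiff_fst

lemma smooth_exp : ContMDiff (𝓘(ℝ, ℝ).prod (IC F)) 𝓘(ℝ, ℝ) ∞
    (fun p : ℝ × Cotangent F N => Real.exp p.1) :=
  Real.contDiff_exp.contMDiff.comp contMDiff_fst

lemma smooth_w'y : ContMDiffOn (𝓘(ℝ, ℝ).prod (IC F)) (IC F) ∞
    (fun p : ℝ × Cotangent F N => 𝒮.𝒞.w' (𝒮.ℱ.φ (p.1 - 𝒮.T) p.2)) 𝒮.D₁ :=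
  𝒮.𝒞.w'_smooth.comp (𝒮.smooth_y.mono inter_subset_left) (fun _ hp => hp.2)

lemma smooth_v : ContMDiffOn (𝓘(ℝ, ℝ).prod (IC F)) (IC F) ∞
    (fun p : ℝ × Cotangent F N =>
      scal (Real.exp (-p.1)) (𝒮.𝒞.w' (𝒮.ℱ.φ (p.1 - 𝒮.T) p.2))) 𝒮.D₁ :=
  contMDiff_scal.comp_contMDiffOn (smooth_exp_neg.contMDiffOn.prodMk 𝒮.smooth_w'y)

lemma D_eq : 𝒮.D = 𝒮.D₁ ∩ (fun p : ℝ × Cotangent F N =>
    scal (Real.exp (-p.1)) (𝒮.𝒞.w' (𝒮.ℱ.φ (p.1 - 𝒮.T) p.2))) ⁻¹' 𝒮.𝒞.O := by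
  ext p
  constructor
  · rintro ⟨⟨h1, h2⟩, h3⟩
    exact ⟨⟨⟨mem_univ _, h1⟩, h2⟩, h3⟩
  · rintro ⟨⟨⟨-, h1⟩, h2⟩, h3⟩
    exact ⟨⟨h1, h2⟩, h3⟩

lemma D_open : IsOpen 𝒮.D := by
  rw [D_eq]
  exact 𝒮.smooth_v.continuousOn.isOpen_inter_preimage 𝒮.D₁_open 𝒮.𝒞.O_open

lemma D_sub : 𝒮.D ⊆ 𝒮.D₁ := by
  rw [D_eq]
  exact inter_subset_left

lemma smooth_i : ContMDiffOn (𝓘(ℝ, ℝ).prod (IC F)) (IC F) ∞ 𝒮.i 𝒮.D :=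
  𝒮.𝒞.w_smooth.comp_contMDiffOn (𝒮.smooth_v.mono 𝒮.D_sub)

/-- auxiliary domain -/
def D₁' : Set (ℝ × Cotangent F N) := univ ×ˢ ((range j)ᶜ ∩ 𝒮.𝒞.A)

lemma D₁'_open : IsOpen 𝒮.D₁' :=
  isOpen_univ.prod (𝒮.S_closed.isOpen_compl.inter 𝒮.𝒞.isOpen_A)

lemma smooth_v' : ContMDiffOn (𝓘(ℝ, ℝ).prod (IC F)) (IC F) ∞
    (fun p : ℝ × Cotangent F N => scal (Real.exp p.1) (𝒮.𝒞.w' p.2)) 𝒮.D₁' :=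
  contMDiff_scal.comp_contMDiffOn (smooth_exp.contMDiffOn.prodMk
    (𝒮.𝒞.w'_smooth.comp contMDiffOn_snd (fun _ hp => hp.2.2)))

lemma D'_eq : 𝒮.D' = 𝒮.D₁' ∩ (fun p : ℝ × Cotangent F N =>
    scal (Real.exp p.1) (𝒮.𝒞.w' p.2)) ⁻¹' 𝒮.𝒞.O := by
  ext p
  constructor
  · rintro ⟨⟨h1, h2⟩, h3⟩
    exact ⟨⟨mem_univ _, h1, h2⟩, h3⟩
  · rintro ⟨⟨-, h1, h2⟩, h3⟩
    exact ⟨⟨h1, h2⟩, h3⟩

lemma D'_open : IsOpen 𝒮.D' := by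
  rw [D'_eq]
  exact 𝒮.smooth_v'.continuousOn.isOpen_inter_preimage 𝒮.D₁'_open 𝒮.𝒞.O_open

lemma D'_sub : 𝒮.D' ⊆ 𝒮.D₁' := by
  rw [D'_eq]
  exact inter_subset_left

/-- The chart and scaling preserve the complement of `j (L)`. -/
lemma w_scal_notMem {s : ℝ} {x : Cotangent F N} (hx : x ∉ range j) (hxA : x ∈ 𝒮.𝒞.A)
    (h : scal (Real.exp s) (𝒮.𝒞.w' x) ∈ 𝒮.𝒞.O) :
    𝒮.𝒞.w (scal (Real.exp s) (𝒮.𝒞.w' x)) ∉ range j := by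
  rw [𝒮.𝒞.w_mem_range_iff h, scal_mem_zero_iff (Real.exp_pos _).ne',
    ← 𝒮.𝒞.w_mem_range_iff (𝒮.𝒞.w'_mem hxA), 𝒮.𝒞.w_w' hxA]
  exact hx

lemma smooth_ii : ContMDiffOn (𝓘(ℝ, ℝ).prod (IC F)) (IC F) ∞ 𝒮.ii 𝒮.D' := by
  refine 𝒮.ℱ.smooth.comp ((contMDiffOn_const.sub contMDiffOn_fst).prodMk
    (𝒮.𝒞.w_smooth.comp_contMDiffOn (𝒮.smooth_v'.mono 𝒮.D'_sub))) ?_
  rintro p ⟨⟨h1, h2⟩, h3⟩
  exact ⟨mem_univ _, 𝒮.w_scal_notMem h1 h2 h3⟩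

lemma i_ii (s : ℝ) (x : Cotangent F N) (h : (s, x) ∈ 𝒮.D) :
    (s, 𝒮.i (s, x)) ∈ 𝒮.D' ∧ 𝒮.ii (s, 𝒮.i (s, x)) = x := by
  obtain ⟨⟨hx, hy⟩, hO⟩ := h
  simp only at hx hy hO
  have hyS : 𝒮.ℱ.φ (s - 𝒮.T) x ∉ range j := 𝒮.ℱ.maps _ x hx
  have hw : 𝒮.𝒞.w' (𝒮.i (s, x)) = scal (Real.exp (-s)) (𝒮.𝒞.w' (𝒮.ℱ.φ (s - 𝒮.T) x)) :=
    𝒮.𝒞.w'_w _ hO
  have hback : scal (Real.exp s) (𝒮.𝒞.w' (𝒮.i (s, x))) = 𝒮.𝒞.w' (𝒮.ℱ.φ (s - 𝒮.T) x) := by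
    rw [hw, scal_exp_pos]
  refine ⟨⟨⟨𝒮.w_scal_notMem hyS hy hO, 𝒮.𝒞.w_mem hO⟩, ?_⟩, ?_⟩
  · show scal (Real.exp s) (𝒮.𝒞.w' (𝒮.i (s, x))) ∈ 𝒮.𝒞.O
    rw [hback]
    exact 𝒮.𝒞.w'_mem hy
  · show 𝒮.ℱ.φ (𝒮.T - s) (𝒮.𝒞.w (scal (Real.exp s) (𝒮.𝒞.w' (𝒮.i (s, x))))) = x
    rw [hback, 𝒮.𝒞.w_w' hy, ← neg_sub s 𝒮.T, 𝒮.ℱ.neg_left _ hx]

lemma ii_i (s : ℝ) (y : Cotangent F N) (h : (s, y) ∈ 𝒮.D') :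
    (s, 𝒮.ii (s, y)) ∈ 𝒮.D ∧ 𝒮.i (s, 𝒮.ii (s, y)) = y := by
  obtain ⟨⟨hy, hyA⟩, hO⟩ := h
  simp only at hy hyA hO
  have hz := 𝒮.w_scal_notMem hy hyA hO
  have hback : 𝒮.ℱ.φ (s - 𝒮.T) (𝒮.ii (s, y)) = 𝒮.𝒞.w (scal (Real.exp s) (𝒮.𝒞.w' y)) := by
    show 𝒮.ℱ.φ (s - 𝒮.T) (𝒮.ℱ.φ (𝒮.T - s) _) = _
    rw [← neg_sub 𝒮.T s, 𝒮.ℱ.neg_left _ hz]
  refine ⟨⟨⟨𝒮.ℱ.maps _ _ hz, ?_⟩, ?_⟩, ?_⟩
  · show 𝒮.ℱ.φ (s - 𝒮.T) (𝒮.ii (s, y)) ∈ 𝒮.𝒞.A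
    rw [hback]
    exact 𝒮.𝒞.w_mem hO
  · show scal (Real.exp (-s)) (𝒮.𝒞.w' (𝒮.ℱ.φ (s - 𝒮.T) (𝒮.ii (s, y)))) ∈ 𝒮.𝒞.O
    rw [hback, 𝒮.𝒞.w'_w _ hO, scal_exp_neg]
    exact 𝒮.𝒞.w'_mem hyA
  · show 𝒮.𝒞.w (scal (Real.exp (-s)) (𝒮.𝒞.w' (𝒮.ℱ.φ (s - 𝒮.T) (𝒮.ii (s, y))))) = y
    rw [hback, 𝒮.𝒞.w'_w _ hO, scal_exp_neg, 𝒮.𝒞.w_w' hyA]

lemma smooth_k : ContMDiffOn (𝓘(ℝ, ℝ).prod (IC F)) 𝓘(ℝ, ℝ) ∞ 𝒮.k 𝒮.D := by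
  have h1 : ContMDiffOn (𝓘(ℝ, ℝ).prod (IC F)) 𝓘(ℝ, ℝ) ∞
      (fun p : ℝ × Cotangent F N => 𝒮.ℱ.f p.2) 𝒮.D :=
    𝒮.ℱ.f_smooth.comp contMDiffOn_snd (fun _ hp => hp.1.1)
  have h2 : ContMDiffOn (𝓘(ℝ, ℝ).prod (IC F)) 𝓘(ℝ, ℝ) ∞
      (fun p : ℝ × Cotangent F N => 𝒮.ℱ.f (𝒮.ℱ.φ (p.1 - 𝒮.T) p.2)) 𝒮.D :=
    𝒮.ℱ.f_smooth.comp (𝒮.smooth_y.mono (𝒮.D_sub.trans inter_subset_left))
      (fun p hp => 𝒮.ℱ.maps _ _ hp.1.1)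
  have h3 : ContMDiffOn (𝓘(ℝ, ℝ).prod (IC F)) 𝓘(ℝ, ℝ) ∞
      (fun p : ℝ × Cotangent F N => 𝒮.𝒞.g (𝒮.𝒞.w' (𝒮.ℱ.φ (p.1 - 𝒮.T) p.2))) 𝒮.D :=
    𝒮.𝒞.g_smooth.comp (𝒮.smooth_w'y.mono 𝒮.D_sub) (fun p hp => 𝒮.𝒞.w'_mem hp.1.2)
  have h4 : ContMDiffOn (𝓘(ℝ, ℝ).prod (IC F)) 𝓘(ℝ, ℝ) ∞
      (fun p : ℝ × Cotangent F N =>
        𝒮.𝒞.g (scal (Real.exp (-p.1)) (𝒮.𝒞.w' (𝒮.ℱ.φ (p.1 - 𝒮.T) p.2)))) 𝒮.D :=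
    𝒮.𝒞.g_smooth.comp (𝒮.smooth_v.mono 𝒮.D_sub) (fun p hp => hp.2)
  have h5 : ContMDiff (𝓘(ℝ, ℝ).prod (IC F)) 𝓘(ℝ, ℝ) ∞
      (fun p : ℝ × Cotangent F N => Real.exp (p.1 - 𝒮.T)) :=
    Real.contDiff_exp.contMDiff.comp (contMDiff_fst.sub contMDiff_const)
  exact (smooth_exp_neg.contMDiffOn.mul (((h5.contMDiffOn.mul h1).sub h2).sub h3)).add h4

/-- A general composition. -/
lemma pb_comp {t r : ℝ} {x : Cotangent F N} (hx : x ∉ range j) (hy : 𝒮.ℱ.φ t x ∈ 𝒮.𝒞.A)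
    (hO : scal (Real.exp r) (𝒮.𝒞.w' (𝒮.ℱ.φ t x)) ∈ 𝒮.𝒞.O) :
    PB canForm canForm (fun x' => 𝒮.𝒞.w (scal (Real.exp r) (𝒮.𝒞.w' (𝒮.ℱ.φ t x'))))
      (Real.exp (r + t)) (fun x' => Real.exp r * ((Real.exp t * 𝒮.ℱ.f x' - 𝒮.ℱ.f (𝒮.ℱ.φ t x')) -
        𝒮.𝒞.g (𝒮.𝒞.w' (𝒮.ℱ.φ t x'))) +
        𝒮.𝒞.g (scal (Real.exp r) (𝒮.𝒞.w' (𝒮.ℱ.φ t x')))) x := by
  have hS := 𝒮.S_closed
  have d1 : MDifferentiableAt (IC F) (IC F) (𝒮.ℱ.φ t) x :=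
    (𝒮.ℱ.smoothAt hS t hx).mdifferentiableAt (by simp)
  have d2 : MDifferentiableAt (IC F) (IC F) 𝒮.𝒞.w' (𝒮.ℱ.φ t x) :=
    (𝒮.𝒞.w'_smoothAt hy).mdifferentiableAt (by simp)
  have d3 : MDifferentiableAt (IC F) (IC F) (scal (Real.exp r) : Cotangent F L → _)
      (𝒮.𝒞.w' (𝒮.ℱ.φ t x)) := (contMDiff_scal_slice _).mdifferentiableAt (by simp)
  have d4 : MDifferentiableAt (IC F) (IC F) 𝒮.𝒞.w (scal (Real.exp r) (𝒮.𝒞.w' (𝒮.ℱ.φ t x))) :=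
    𝒮.𝒞.w_smooth.mdifferentiableAt (by simp)
  have f0 : MDifferentiableAt (IC F) 𝓘(ℝ, ℝ) 𝒮.ℱ.f x :=
    (𝒮.ℱ.f_smoothAt hS hx).mdifferentiableAt (by simp)
  have f1 : MDifferentiableAt (IC F) 𝓘(ℝ, ℝ) 𝒮.ℱ.f (𝒮.ℱ.φ t x) :=
    (𝒮.ℱ.f_smoothAt hS (𝒮.ℱ.maps t x hx)).mdifferentiableAt (by simp)
  have g1 : MDifferentiableAt (IC F) 𝓘(ℝ, ℝ) 𝒮.𝒞.g (𝒮.𝒞.w' (𝒮.ℱ.φ t x)) :=
    (𝒮.𝒞.g_smoothAt (𝒮.𝒞.w'_mem hy)).mdifferentiableAt (by simp)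
  have g2 : MDifferentiableAt (IC F) 𝓘(ℝ, ℝ) 𝒮.𝒞.g (scal (Real.exp r) (𝒮.𝒞.w' (𝒮.ℱ.φ t x))) :=
    (𝒮.𝒞.g_smoothAt hO).mdifferentiableAt (by simp)
  have k1 : MDifferentiableAt (IC F) 𝓘(ℝ, ℝ)
      (fun x' => Real.exp t * 𝒮.ℱ.f x' - 𝒮.ℱ.f (𝒮.ℱ.φ t x')) x :=
    (f0.const_smul (Real.exp t)).sub (f1.comp x d1)
  have a1 := PB.comp (𝒮.𝒞.w'_pb hy) (𝒮.ℱ.pb hS t hx) d1 d2 k1 (g1.comp _ d2).neg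
  have d12 : MDifferentiableAt (IC F) (IC F) (𝒮.𝒞.w' ∘ 𝒮.ℱ.φ t) x := d2.comp x d1
  have k2 : MDifferentiableAt (IC F) 𝓘(ℝ, ℝ) (fun x' => 1 *
      (Real.exp t * 𝒮.ℱ.f x' - 𝒮.ℱ.f (𝒮.ℱ.φ t x')) + - 𝒮.𝒞.g (𝒮.𝒞.w' (𝒮.ℱ.φ t x'))) x :=
    (k1.const_smul (1:ℝ)).add ((g1.comp _ d2).neg.comp x d1)
  have hscal : PB canForm canForm (scal (Real.exp r) : Cotangent F L → Cotangent F L)
      (Real.exp r) (fun _ => 0) ((𝒮.𝒞.w' ∘ 𝒮.ℱ.φ t) x) := by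
    intro u
    have h2 : (show ℝ from mfderiv (IC F) 𝓘(ℝ, ℝ) (fun _ : Cotangent F L => (0:ℝ))
        ((𝒮.𝒞.w' ∘ 𝒮.ℱ.φ t) x) u) = 0 := by
      rw [mfderiv_const]
      rfl
    rw [h2, add_zero]
    exact canForm_scal _ _ u
  have a2 := PB.comp hscal a1 d12 d3 k2 mdifferentiableAt_const
  have d123 : MDifferentiableAt (IC F) (IC F)
      ((scal (Real.exp r) : Cotangent F L → _) ∘ (𝒮.𝒞.w' ∘ 𝒮.ℱ.φ t)) x := d3.comp x d12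
  have k3 : MDifferentiableAt (IC F) 𝓘(ℝ, ℝ) (fun x' => Real.exp r * (1 *
      (Real.exp t * 𝒮.ℱ.f x' - 𝒮.ℱ.f (𝒮.ℱ.φ t x')) + - 𝒮.𝒞.g (𝒮.𝒞.w' (𝒮.ℱ.φ t x'))) + 0) x :=
    (k2.const_smul (Real.exp r)).add mdifferentiableAt_const
  have a3 := PB.comp (f := (scal (Real.exp r) : Cotangent F L → _) ∘ (𝒮.𝒞.w' ∘ 𝒮.ℱ.φ t)) (x := x)
    (𝒮.𝒞.pb _ hO) a2 d123 d4 k3 g2
  intro u
  have h1 := a3 u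
  have e1 : (1 * (Real.exp r * (1 * Real.exp t))) = Real.exp (r + t) := by
    rw [Real.exp_add]; ring
  have e2 : (fun x' => 1 * (Real.exp r * (1 *
      (Real.exp t * 𝒮.ℱ.f x' - 𝒮.ℱ.f (𝒮.ℱ.φ t x')) + - 𝒮.𝒞.g (𝒮.𝒞.w' (𝒮.ℱ.φ t x'))) + 0) +
      𝒮.𝒞.g (((scal (Real.exp r) : Cotangent F L → _) ∘ (𝒮.𝒞.w' ∘ 𝒮.ℱ.φ t)) x')) =
      (fun x' => Real.exp r * ((Real.exp t * 𝒮.ℱ.f x' - 𝒮.ℱ.f (𝒮.ℱ.φ t x')) -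
        𝒮.𝒞.g (𝒮.𝒞.w' (𝒮.ℱ.φ t x'))) +
        𝒮.𝒞.g (scal (Real.exp r) (𝒮.𝒞.w' (𝒮.ℱ.φ t x')))) := by
    funext x'
    simp only [Function.comp]
    ring
  rw [e1, e2] at h1
  exact h1

lemma pb_i (s : ℝ) (x : Cotangent F N) (h : (s, x) ∈ 𝒮.D) :
    PB canForm canForm (fun x' => 𝒮.i (s, x')) (Real.exp (-𝒮.T)) (fun x' => 𝒮.k (s, x')) x := by
  obtain ⟨⟨hx, hy⟩, hO⟩ := h
  have h1 := 𝒮.pb_comp (t := s - 𝒮.T) (r := -s) hx hy hO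
  have e1 : -s + (s - 𝒮.T) = -𝒮.T := by ring
  rw [e1] at h1
  exact h1

end Setup

end Pool.Agent.H823.Nearby
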