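import Mathlib
import Pool.Agent.H823.Sing2

/-! Liouville flows on the complement of a closed exact Lagrangian submanifold, III: the modified
contraction. -/

open scoped Topology ContDiff Manifold
open Set Bundle

noncomputable section

namespace Pool.Agent.H823.Nearby

set_option linter.unusedSectionVars false

universe u

open Pool.Agent.Helper186

variable {F : Type u} [NormedAddCommGroup F] [NormedSpace ℝ F] [FiniteDimensional ℝ F]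
  {L : Type*} [TopologicalSpace L] [ChartedSpace F L] [IsManifold 𝓘(ℝ, F) ∞ L]
  {N : Type*} [TopologicalSpace N] [ChartedSpace F N] [IsManifold 𝓘(ℝ, F) ∞ N]

lemma path_lemma {X : Type*} [TopologicalSpace X] {P : Set X} (hP : IsClosed P) {z : ℝ → X} {r : ℝ}
    (hr : 0 ≤ r) (hz : ContinuousOn z (Icc 0 r)) (h0 : z 0 ∈ P)
    (hstep : ∀ t ∈ Ico 0 r, z t ∈ P → ∀ᶠ t' in 𝓝[>] t, z t' ∈ P) : z r ∈ P := by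
  have h1 : IsClosed ((z ⁻¹' P) ∩ Icc 0 r) := by
    rw [inter_comm]
    exact hz.preimage_isClosed_of_isClosed isClosed_Icc hP
  have h2 := h1.Icc_subset_of_forall_mem_nhdsWithin (s := z ⁻¹' P) h0
    (fun t ht => hstep t ht.2 ht.1)
  exact h2 ⟨hr, le_rfl⟩

namespace Setup

variable {j : L → Cotangent F N} (𝒮 : Setup j)

/-- The contraction in the chart. -/
def m (x : Cotangent F N) : Cotangent F N := 𝒮.𝒞.w (scal (Real.exp (-𝒮.T)) (𝒮.𝒞.w' x))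

/-- Its inverse. -/
def mi (x : Cotangent F N) : Cotangent F N := 𝒮.𝒞.w (scal (Real.exp 𝒮.T) (𝒮.𝒞.w' x))

/-- Its primitive. -/
def km (x : Cotangent F N) : ℝ := 𝒮.𝒞.g (scal (Real.exp (-𝒮.T)) (𝒮.𝒞.w' x)) -
  Real.exp (-𝒮.T) * 𝒮.𝒞.g (𝒮.𝒞.w' x)

lemma exp_mem : Real.exp (-𝒮.T) ∈ Icc (0:ℝ) 1 :=
  ⟨(Real.exp_pos _).le, Real.exp_le_one_iff.2 (by linarith [𝒮.T_pos])⟩

lemma scal_mem {x : Cotangent F N} (hx : x ∈ 𝒮.𝒞.A) :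
    scal (Real.exp (-𝒮.T)) (𝒮.𝒞.w' x) ∈ 𝒮.𝒞.O := 𝒮.𝒞.O_star _ 𝒮.exp_mem (𝒮.𝒞.w'_mem hx)

lemma m_mem {x : Cotangent F N} (hx : x ∈ 𝒮.𝒞.A) : 𝒮.m x ∈ 𝒮.𝒞.A := 𝒮.𝒞.w_mem (𝒮.scal_mem hx)

lemma w'_m {x : Cotangent F N} (hx : x ∈ 𝒮.𝒞.A) :
    𝒮.𝒞.w' (𝒮.m x) = scal (Real.exp (-𝒮.T)) (𝒮.𝒞.w' x) := 𝒮.𝒞.w'_w _ (𝒮.scal_mem hx)

lemma mi_m {x : Cotangent F N} (hx : x ∈ 𝒮.𝒞.A) : 𝒮.mi (𝒮.m x) = x := by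
  show 𝒮.𝒞.w (scal (Real.exp 𝒮.T) (𝒮.𝒞.w' (𝒮.m x))) = x
  rw [𝒮.w'_m hx, scal_exp_pos, 𝒮.𝒞.w_w' hx]

lemma m_j (q : L) : 𝒮.m (j q) = j q := by
  show 𝒮.𝒞.w (scal (Real.exp (-𝒮.T)) (𝒮.𝒞.w' (j q))) = j q
  rw [𝒮.𝒞.w'_j, scal_zeroC, 𝒮.𝒞.w_zero]

lemma m_notMem {x : Cotangent F N} (hx : x ∈ 𝒮.𝒞.A) (hxS : x ∉ range j) : 𝒮.m x ∉ range j := by
  intro h
  obtain ⟨q, hq⟩ := h
  apply hxS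
  refine ⟨q, ?_⟩
  rw [← 𝒮.mi_m hx, ← hq]
  have : 𝒮.mi (j q) = j q := by
    show 𝒮.𝒞.w (scal (Real.exp 𝒮.T) (𝒮.𝒞.w' (j q))) = j q
    rw [𝒮.𝒞.w'_j, scal_zeroC, 𝒮.𝒞.w_zero]
  exact this.symm

lemma m_smoothAt {x : Cotangent F N} (hx : x ∈ 𝒮.𝒞.A) : ContMDiffAt (IC F) (IC F) ∞ 𝒮.m x :=
  (𝒮.𝒞.w_smooth _).comp x ((contMDiff_scal_slice _ _).comp x (𝒮.𝒞.w'_smoothAt hx))

lemma mi_smoothAt {x : Cotangent F N} (hx : x ∈ 𝒮.𝒞.A) : ContMDiffAt (IC F) (IC F) ∞ 𝒮.mi x :=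
  (𝒮.𝒞.w_smooth _).comp x ((contMDiff_scal_slice _ _).comp x (𝒮.𝒞.w'_smoothAt hx))

lemma m_mi {x : Cotangent F N} (hx : x ∈ 𝒮.𝒞.A)
    (hO : scal (Real.exp 𝒮.T) (𝒮.𝒞.w' x) ∈ 𝒮.𝒞.O) : 𝒮.m (𝒮.mi x) = x := by
  show 𝒮.𝒞.w (scal (Real.exp (-𝒮.T)) (𝒮.𝒞.w' (𝒮.mi x))) = x
  have h1 : 𝒮.𝒞.w' (𝒮.mi x) = scal (Real.exp 𝒮.T) (𝒮.𝒞.w' x) := 𝒮.𝒞.w'_w _ hO
  rw [h1, scal_exp_neg, 𝒮.𝒞.w_w' hx]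

lemma km_smoothAt {x : Cotangent F N} (hx : x ∈ 𝒮.𝒞.A) :
    ContMDiffAt (IC F) 𝓘(ℝ, ℝ) ∞ 𝒮.km x := by
  have h1 : ContMDiffAt (IC F) 𝓘(ℝ, ℝ) ∞
      (fun x => 𝒮.𝒞.g (scal (Real.exp (-𝒮.T)) (𝒮.𝒞.w' x))) x :=
    (𝒮.𝒞.g_smoothAt (𝒮.scal_mem hx)).comp x
      ((contMDiff_scal_slice _ _).comp x (𝒮.𝒞.w'_smoothAt hx))
  have h2 : ContMDiffAt (IC F) 𝓘(ℝ, ℝ) ∞ (fun x => 𝒮.𝒞.g (𝒮.𝒞.w' x)) x :=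
    (𝒮.𝒞.g_smoothAt (𝒮.𝒞.w'_mem hx)).comp x (𝒮.𝒞.w'_smoothAt hx)
  exact h1.sub (contMDiffAt_const.mul h2)

lemma pb_m {x : Cotangent F N} (hx : x ∈ 𝒮.𝒞.A) :
    PB canForm canForm 𝒮.m (Real.exp (-𝒮.T)) 𝒮.km x := by
  have d2 : MDifferentiableAt (IC F) (IC F) 𝒮.𝒞.w' x :=
    (𝒮.𝒞.w'_smoothAt hx).mdifferentiableAt (by simp)
  have d3 : MDifferentiableAt (IC F) (IC F) (scal (Real.exp (-𝒮.T)) : Cotangent F L → _)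
      (𝒮.𝒞.w' x) := (contMDiff_scal_slice _).mdifferentiableAt (by simp)
  have d4 : MDifferentiableAt (IC F) (IC F) 𝒮.𝒞.w (scal (Real.exp (-𝒮.T)) (𝒮.𝒞.w' x)) :=
    𝒮.𝒞.w_smooth.mdifferentiableAt (by simp)
  have g1 : MDifferentiableAt (IC F) 𝓘(ℝ, ℝ) 𝒮.𝒞.g (𝒮.𝒞.w' x) :=
    (𝒮.𝒞.g_smoothAt (𝒮.𝒞.w'_mem hx)).mdifferentiableAt (by simp)
  have g2 : MDifferentiableAt (IC F) 𝓘(ℝ, ℝ) 𝒮.𝒞.g (scal (Real.exp (-𝒮.T)) (𝒮.𝒞.w' x)) :=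
    (𝒮.𝒞.g_smoothAt (𝒮.scal_mem hx)).mdifferentiableAt (by simp)
  have hscal : PB canForm canForm (scal (Real.exp (-𝒮.T)) : Cotangent F L → Cotangent F L)
      (Real.exp (-𝒮.T)) (fun _ => 0) (𝒮.𝒞.w' x) := by
    intro u
    have h2 : (show ℝ from mfderiv (IC F) 𝓘(ℝ, ℝ) (fun _ : Cotangent F L => (0:ℝ))
        (𝒮.𝒞.w' x) u) = 0 := by
      rw [mfderiv_const]
      rfl
    rw [h2, add_zero]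
    exact canForm_scal _ _ u
  have k2 : MDifferentiableAt (IC F) 𝓘(ℝ, ℝ) (fun x' => - 𝒮.𝒞.g (𝒮.𝒞.w' x')) x :=
    (g1.comp x d2).neg
  have a2 := PB.comp hscal (𝒮.𝒞.w'_pb hx) d2 d3 k2 mdifferentiableAt_const
  have k3 : MDifferentiableAt (IC F) 𝓘(ℝ, ℝ) (fun x' => Real.exp (-𝒮.T) *
      (- 𝒮.𝒞.g (𝒮.𝒞.w' x')) + 0) x := (k2.const_smul (Real.exp (-𝒮.T))).add mdifferentiableAt_const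
  have a3 := PB.comp (f := (scal (Real.exp (-𝒮.T)) : Cotangent F L → _) ∘ 𝒮.𝒞.w') (x := x)
    (𝒮.𝒞.pb _ (𝒮.scal_mem hx)) a2 (d3.comp x d2) d4 k3 g2
  intro u
  have h1 := a3 u
  have e1 : (1 * (Real.exp (-𝒮.T) * 1)) = Real.exp (-𝒮.T) := by ring
  have e2 : (fun x' => 1 * (Real.exp (-𝒮.T) * (- 𝒮.𝒞.g (𝒮.𝒞.w' x')) + 0) +
      𝒮.𝒞.g (((scal (Real.exp (-𝒮.T)) : Cotangent F L → _) ∘ 𝒮.𝒞.w') x')) = 𝒮.km := by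
    funext x'
    simp only [Function.comp, km]
    ring
  rw [e1, e2] at h1
  exact h1

lemma mem_A {x : Cotangent F N} (hx : x ∈ 𝒮.E₂) : x ∈ 𝒮.𝒞.A := 𝒮.E₂_sub hx

lemma E_E₂ : 𝒮.E ⊆ 𝒮.E₂ := 𝒮.E_sub.trans interior_subset

lemma E_A : 𝒮.E ⊆ 𝒮.𝒞.A := 𝒮.E_E₂.trans 𝒮.E₂_sub

lemma S_E₀ : range j ⊆ 𝒮.E₀ := 𝒮.S_sub.trans interior_subset

lemma S_intE : range j ⊆ interior 𝒮.E := 𝒮.S_E₀.trans 𝒮.E₀_sub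

lemma S_E : range j ⊆ 𝒮.E := 𝒮.S_intE.trans interior_subset

lemma scal_E₂ {x : Cotangent F N} (hx : x ∈ 𝒮.E₂) :
    scal (Real.exp (-𝒮.T)) (𝒮.𝒞.w' x) ∈ interior 𝒮.V := by
  by_cases hxS : x ∈ range j
  · obtain ⟨q, rfl⟩ := hxS
    rw [𝒮.𝒞.w'_j, scal_zeroC]
    exact 𝒮.V_zero q
  · have h1 := 𝒮.spec 𝒮.T ⟨𝒮.T_pos.le, le_rfl⟩ x hx hxS
    rwa [sub_self, 𝒮.ℱ.zero x hxS] at h1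

lemma m_E₂ {x : Cotangent F N} (hx : x ∈ 𝒮.E₂) : 𝒮.m x ∈ interior 𝒮.E :=
  𝒮.V_map _ (interior_subset (𝒮.scal_E₂ hx))

/-- The image of the small neighbourhood. -/
def wV : Set (Cotangent F N) := 𝒮.𝒞.w '' interior 𝒮.V

lemma wV_open : IsOpen 𝒮.wV := by
  have h13 : 𝒮.wV = 𝒮.𝒞.A ∩ 𝒮.𝒞.w' ⁻¹' interior 𝒮.V := by
    ext x
    constructor
    · rintro ⟨ξ, hξ, rfl⟩
      have hξO := 𝒮.V_sub (interior_subset hξ)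
      refine ⟨𝒮.𝒞.w_mem hξO, ?_⟩
      show 𝒮.𝒞.w' (𝒮.𝒞.w ξ) ∈ interior 𝒮.V
      rw [𝒮.𝒞.w'_w ξ hξO]
      exact hξ
    · rintro ⟨hx, hx'⟩
      exact ⟨𝒮.𝒞.w' x, hx', 𝒮.𝒞.w_w' hx⟩
  rw [h13]
  exact 𝒮.𝒞.w'_smooth.continuousOn.isOpen_inter_preimage 𝒮.𝒞.isOpen_A isOpen_interior

lemma wV_E : 𝒮.wV ⊆ interior 𝒮.E := by
  rintro _ ⟨ξ, hξ, rfl⟩
  exact 𝒮.V_map ξ (interior_subset hξ)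

/-- The result of the isotopy extension. -/
structure Iso (𝒮 : Setup (F := F) j) where
  χ : Cotangent F N → Cotangent F N
  χi : Cotangent F N → Cotangent F N
  κ : Cotangent F N → ℝ
  K : Set (Cotangent F N)
  χ_smooth : ContMDiff (IC F) (IC F) ∞ χ
  χi_smooth : ContMDiff (IC F) (IC F) ∞ χi
  χi_χ : ∀ x, χi (χ x) = x
  χ_χi : ∀ x, χ (χi x) = x
  κ_smooth : ContMDiff (IC F) 𝓘(ℝ, ℝ) ∞ κ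
  χ_pb : ∀ x, PB canForm canForm χ 1 κ x
  K_cpt : IsCompact K
  K_sub : K ⊆ 𝒮.wV
  K_S : ∀ x ∈ K, x ∉ range j
  χ_id : ∀ x, x ∉ K → χ x = x
  χ_C : ∀ x ∈ 𝒮.E₂, x ∉ interior 𝒮.E₀ → χ (𝒮.ℱ.φ (-𝒮.T) x) = 𝒮.m x
  κ_C : ∀ x ∈ 𝒮.E₂, x ∉ interior 𝒮.E₀ → κ (𝒮.ℱ.φ (-𝒮.T) x) =
    𝒮.km x - (Real.exp (-𝒮.T) * 𝒮.ℱ.f x - 𝒮.ℱ.f (𝒮.ℱ.φ (-𝒮.T) x))

theorem exists_Iso [T2Space N] [CompactSpace N] : Nonempty (Iso 𝒮) := by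
  have hC : IsCompact (𝒮.E₂ \ interior 𝒮.E₀) := 𝒮.E₂_cpt.diff isOpen_interior
  have hCS : ∀ x ∈ 𝒮.E₂ \ interior 𝒮.E₀, x ∉ range j := fun x hx hxS => hx.2 (𝒮.S_sub hxS)
  have hW : IsOpen (𝒮.wV \ range j) := 𝒮.wV_open.sdiff 𝒮.S_closed
  obtain ⟨χ, χi, κ, K, h1, h2, h3, h4, h5, h6, h7, h8, h9, h10, h11⟩ :=
    isotopy_extension (smoothForm_canForm (F := F) (L := N)) nondegenerate_canForm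
      𝒮.D_open 𝒮.D'_open 𝒮.smooth_i 𝒮.smooth_ii 𝒮.i_ii 𝒮.ii_i 𝒮.smooth_k 𝒮.pb_i hC 𝒮.T_pos hW (by
        intro s hs x hx
        have hxS := hCS x hx
        have hy : 𝒮.ℱ.φ (s - 𝒮.T) x ∈ 𝒮.E₂ := by
          have := 𝒮.E₂_inv (𝒮.T - s) (by linarith [hs.2]) x hx.1 hxS
          rwa [neg_sub] at this
        have hV := 𝒮.spec s hs x hx.1 hxS
        have hO := 𝒮.V_sub (interior_subset hV)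
        refine ⟨⟨⟨hxS, 𝒮.E₂_sub hy⟩, hO⟩, ⟨_, hV, rfl⟩, ?_⟩
        exact 𝒮.w_scal_notMem (s := -s) (𝒮.ℱ.maps _ x hxS) (𝒮.E₂_sub hy) hO)
  have hi0 : ∀ x ∈ 𝒮.E₂ \ interior 𝒮.E₀, 𝒮.i (0, x) = 𝒮.ℱ.φ (-𝒮.T) x := by
    intro x hx
    have hy := 𝒮.E₂_inv 𝒮.T 𝒮.T_pos.le x hx.1 (hCS x hx)
    show 𝒮.𝒞.w (scal (Real.exp (-0)) (𝒮.𝒞.w' (𝒮.ℱ.φ (0 - 𝒮.T) x))) = _
    rw [neg_zero, Real.exp_zero, scal_one, zero_sub, 𝒮.𝒞.w_w' (𝒮.E₂_sub hy)]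
  have hiT : ∀ x ∈ 𝒮.E₂ \ interior 𝒮.E₀, 𝒮.i (𝒮.T, x) = 𝒮.m x := by
    intro x hx
    show 𝒮.𝒞.w (scal (Real.exp (-𝒮.T)) (𝒮.𝒞.w' (𝒮.ℱ.φ (𝒮.T - 𝒮.T) x))) = _
    rw [sub_self, 𝒮.ℱ.zero x (hCS x hx)]
    rfl
  refine ⟨⟨χ, χi, κ, K, h1, h2, h3, h4, h5, h6, h7, fun x hx => (h8 hx).1,
    fun x hx => (h8 hx).2, h9, ?_, ?_⟩⟩
  · intro x hx hx0
    have := h10 x ⟨hx, hx0⟩
    rwa [hi0 x ⟨hx, hx0⟩, hiT x ⟨hx, hx0⟩] at this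
  · intro x hx hx0
    have h12 := h11 x ⟨hx, hx0⟩
    rw [hi0 x ⟨hx, hx0⟩] at h12
    rw [h12]
    have e1 : 𝒮.k (𝒮.T, x) = 𝒮.km x := by
      show Real.exp (-𝒮.T) * ((Real.exp (𝒮.T - 𝒮.T) * 𝒮.ℱ.f x - 𝒮.ℱ.f (𝒮.ℱ.φ (𝒮.T - 𝒮.T) x)) -
        𝒮.𝒞.g (𝒮.𝒞.w' (𝒮.ℱ.φ (𝒮.T - 𝒮.T) x))) +
        𝒮.𝒞.g (scal (Real.exp (-𝒮.T)) (𝒮.𝒞.w' (𝒮.ℱ.φ (𝒮.T - 𝒮.T) x))) = _
      rw [sub_self, 𝒮.ℱ.zero x (hCS x ⟨hx, hx0⟩), Real.exp_zero]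
      unfold km
      ring
    have e2 : 𝒮.k (0, x) = Real.exp (-𝒮.T) * 𝒮.ℱ.f x - 𝒮.ℱ.f (𝒮.ℱ.φ (-𝒮.T) x) := by
      show Real.exp (-0) * ((Real.exp (0 - 𝒮.T) * 𝒮.ℱ.f x - 𝒮.ℱ.f (𝒮.ℱ.φ (0 - 𝒮.T) x)) -
        𝒮.𝒞.g (𝒮.𝒞.w' (𝒮.ℱ.φ (0 - 𝒮.T) x))) +
        𝒮.𝒞.g (scal (Real.exp (-0)) (𝒮.𝒞.w' (𝒮.ℱ.φ (0 - 𝒮.T) x))) = _
      rw [zero_sub, neg_zero, Real.exp_zero, scal_one]
      ring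
    rw [e1, e2]

end Setup

end Pool.Agent.H823.Nearby
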