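import Mathlib
import Pool.Agent.H823.Sing3

/-! Liouville flows on the complement of a closed exact Lagrangian submanifold, IV: the attractor. -/

open scoped Topology ContDiff Manifold
open Set Bundle

noncomputable section

namespace Pool.Agent.H823.Nearby

set_option linter.unusedSectionVars false

universe u

open Pool.Agent.Helper186

variable {F : Type u} [NormedAddCommGroup F] [NormedSpace ℝ F] [FiniteDimensional ℝ F]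
  {L : Type*} [TopologicalSpace L] [ChartedSpace F L] [IsManifold 𝓘(ℝ, F) ∞ L]
  {N : Type*} [TopologicalSpace N] [ChartedSpace F N] [IsManifold 𝓘(ℝ, F) ∞ N]

namespace Setup.Iso

variable {j : L → Cotangent F N} {𝒮 : Setup j} (ℐ : Iso 𝒮)

/-- The contraction away from `j (L)`. -/
def n (x : Cotangent F N) : Cotangent F N := ℐ.χ (𝒮.ℱ.φ (-𝒮.T) x)

/-- Its inverse. -/
def ni (x : Cotangent F N) : Cotangent F N := 𝒮.ℱ.φ 𝒮.T (ℐ.χi x)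

/-- Its primitive. -/
def kn (x : Cotangent F N) : ℝ := 1 * (Real.exp (-𝒮.T) * 𝒮.ℱ.f x - 𝒮.ℱ.f (𝒮.ℱ.φ (-𝒮.T) x)) +
  ℐ.κ (𝒮.ℱ.φ (-𝒮.T) x)

lemma χ_inj {x y : Cotangent F N} (h : ℐ.χ x = ℐ.χ y) : x = y := by
  rw [← ℐ.χi_χ x, h, ℐ.χi_χ]

lemma χ_S {x : Cotangent F N} (hx : x ∈ range j) : ℐ.χ x = x :=
  ℐ.χ_id x fun h => ℐ.K_S x h hx

lemma χ_K {x : Cotangent F N} (hx : x ∈ ℐ.K) : ℐ.χ x ∈ ℐ.K := by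
  by_contra h
  have h1 := ℐ.χ_id _ h
  have h2 := ℐ.χ_inj h1
  rw [h2] at h
  exact h hx

lemma χ_notMem {x : Cotangent F N} (hx : x ∉ range j) : ℐ.χ x ∉ range j := by
  intro h
  have h1 := ℐ.χ_inj (ℐ.χ_S h)
  rw [h1] at h
  exact hx h

lemma χi_id {x : Cotangent F N} (hx : x ∉ ℐ.K) : ℐ.χi x = x := by
  have h := ℐ.χi_χ x
  rwa [ℐ.χ_id x hx] at h

lemma χi_notMem {x : Cotangent F N} (hx : x ∉ range j) : ℐ.χi x ∉ range j := by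
  intro h
  apply hx
  rw [← ℐ.χ_χi x, ℐ.χ_S h]
  exact h

lemma ni_n {x : Cotangent F N} (hx : x ∉ range j) : ℐ.ni (ℐ.n x) = x := by
  show 𝒮.ℱ.φ 𝒮.T (ℐ.χi (ℐ.χ (𝒮.ℱ.φ (-𝒮.T) x))) = x
  rw [ℐ.χi_χ, 𝒮.ℱ.neg_right _ hx]

lemma n_ni {x : Cotangent F N} (hx : x ∉ range j) : ℐ.n (ℐ.ni x) = x := by
  show ℐ.χ (𝒮.ℱ.φ (-𝒮.T) (𝒮.ℱ.φ 𝒮.T (ℐ.χi x))) = x
  rw [𝒮.ℱ.neg_left _ (ℐ.χi_notMem hx), ℐ.χ_χi]

lemma n_notMem {x : Cotangent F N} (hx : x ∉ range j) : ℐ.n x ∉ range j :=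
  ℐ.χ_notMem (𝒮.ℱ.maps _ x hx)

lemma ni_notMem {x : Cotangent F N} (hx : x ∉ range j) : ℐ.ni x ∉ range j :=
  𝒮.ℱ.maps _ _ (ℐ.χi_notMem hx)

lemma n_C {x : Cotangent F N} (hx : x ∈ 𝒮.E₂) (hx0 : x ∉ interior 𝒮.E₀) : ℐ.n x = 𝒮.m x :=
  ℐ.χ_C x hx hx0

variable [T2Space N]

lemma n_smoothAt {x : Cotangent F N} (hx : x ∉ range j) : ContMDiffAt (IC F) (IC F) ∞ ℐ.n x :=
  (ℐ.χ_smooth _).comp x (𝒮.ℱ.smoothAt 𝒮.S_closed _ hx)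

lemma ni_smoothAt {x : Cotangent F N} (hx : x ∉ range j) : ContMDiffAt (IC F) (IC F) ∞ ℐ.ni x :=
  (𝒮.ℱ.smoothAt 𝒮.S_closed _ (ℐ.χi_notMem hx)).comp x (ℐ.χi_smooth x)

lemma kn_smoothAt {x : Cotangent F N} (hx : x ∉ range j) :
    ContMDiffAt (IC F) 𝓘(ℝ, ℝ) ∞ ℐ.kn x := by
  have h1 := 𝒮.ℱ.smoothAt 𝒮.S_closed (-𝒮.T) hx
  have h2 : ContMDiffAt (IC F) 𝓘(ℝ, ℝ) ∞ (fun x => 𝒮.ℱ.f (𝒮.ℱ.φ (-𝒮.T) x)) x :=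
    (𝒮.ℱ.f_smoothAt 𝒮.S_closed (𝒮.ℱ.maps _ x hx)).comp x h1
  have h3 : ContMDiffAt (IC F) 𝓘(ℝ, ℝ) ∞ (fun x => ℐ.κ (𝒮.ℱ.φ (-𝒮.T) x)) x :=
    (ℐ.κ_smooth _).comp x h1
  exact (contMDiffAt_const.mul ((contMDiffAt_const.mul (𝒮.ℱ.f_smoothAt 𝒮.S_closed hx)).sub h2)).add
    h3

lemma pb_n {x : Cotangent F N} (hx : x ∉ range j) :
    PB canForm canForm ℐ.n (Real.exp (-𝒮.T)) ℐ.kn x := by
  have hS := 𝒮.S_closed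
  have d1 : MDifferentiableAt (IC F) (IC F) (𝒮.ℱ.φ (-𝒮.T)) x :=
    (𝒮.ℱ.smoothAt hS _ hx).mdifferentiableAt (by simp)
  have f0 : MDifferentiableAt (IC F) 𝓘(ℝ, ℝ) 𝒮.ℱ.f x :=
    (𝒮.ℱ.f_smoothAt hS hx).mdifferentiableAt (by simp)
  have f1 : MDifferentiableAt (IC F) 𝓘(ℝ, ℝ) 𝒮.ℱ.f (𝒮.ℱ.φ (-𝒮.T) x) :=
    (𝒮.ℱ.f_smoothAt hS (𝒮.ℱ.maps _ x hx)).mdifferentiableAt (by simp)
  have k1 : MDifferentiableAt (IC F) 𝓘(ℝ, ℝ)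
      (fun x' => Real.exp (-𝒮.T) * 𝒮.ℱ.f x' - 𝒮.ℱ.f (𝒮.ℱ.φ (-𝒮.T) x')) x :=
    (f0.const_smul (Real.exp (-𝒮.T))).sub (f1.comp x d1)
  have a1 := PB.comp (ℐ.χ_pb _) (𝒮.ℱ.pb hS (-𝒮.T) hx) d1 (ℐ.χ_smooth.mdifferentiableAt (by simp))
    k1 (ℐ.κ_smooth.mdifferentiableAt (by simp))
  rw [one_mul] at a1
  exact a1

lemma kn_C {x : Cotangent F N} (hx : x ∈ 𝒮.E₂) (hx0 : x ∉ interior 𝒮.E₀) : ℐ.kn x = 𝒮.km x := by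
  unfold kn
  rw [ℐ.κ_C x hx hx0]
  ring

/-- The image of `E` under the flow and the isotopy. -/
def P : Set (Cotangent F N) := {z | z ∈ range j ∨ ℐ.ni z ∈ 𝒮.E}

/-- The image of `E` under the contraction of the chart. -/
def R (𝒮 : Setup (F := F) j) : Set (Cotangent F N) := 𝒮.m '' 𝒮.E

lemma P_closed : IsClosed ℐ.P := by
  rw [← isOpen_compl_iff]
  have h1 : ℐ.Pᶜ = (range j)ᶜ ∩ ℐ.ni ⁻¹' 𝒮.Eᶜ := by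
    ext z
    simp only [P, mem_compl_iff, mem_ofPred_eq, not_or, mem_inter_iff, mem_preimage]
  rw [h1]
  have h2 : ContinuousOn ℐ.ni (range j)ᶜ := fun x hx =>
    (ℐ.ni_smoothAt hx).continuousAt.continuousWithinAt
  exact h2.isOpen_inter_preimage 𝒮.S_closed.isOpen_compl 𝒮.E_cpt.isClosed.isOpen_compl

lemma m_cont : ContinuousOn 𝒮.m 𝒮.𝒞.A := fun _ hx =>
  (𝒮.m_smoothAt hx).continuousAt.continuousWithinAt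

lemma R_closed : IsClosed (R 𝒮) :=
  (𝒮.E_cpt.image_of_continuousOn (m_cont.mono 𝒮.E_A)).isClosed

lemma P_nhds {x : Cotangent F N} (hx : x ∈ interior 𝒮.E) (hxS : x ∉ range j) :
    ℐ.P ∈ 𝓝 (ℐ.n x) := by
  have h2 : ContinuousOn ℐ.ni (range j)ᶜ := fun x hx =>
    (ℐ.ni_smoothAt hx).continuousAt.continuousWithinAt
  have h3 := h2.isOpen_inter_preimage 𝒮.S_closed.isOpen_compl (isOpen_interior (s := 𝒮.E))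
  refine Filter.mem_of_superset (h3.mem_nhds ⟨ℐ.n_notMem hxS, ?_⟩) ?_
  · show ℐ.ni (ℐ.n x) ∈ interior 𝒮.E
    rw [ℐ.ni_n hxS]
    exact hx
  · rintro z ⟨-, hz⟩
    exact Or.inr (interior_subset hz)

/-- The points near `m x` are of the form `m x'`. -/
lemma m_nhds {x : Cotangent F N} (hx : x ∈ 𝒮.𝒞.A) {G : Set (Cotangent F N)} (hG : IsOpen G)
    (hxG : x ∈ G) : ∀ᶠ z in 𝓝 (𝒮.m x), 𝒮.mi z ∈ G ∧ 𝒮.m (𝒮.mi z) = z := by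
  have h1 : ContinuousOn (fun z => (scal (Real.exp 𝒮.T) (𝒮.𝒞.w' z) : Cotangent F L)) 𝒮.𝒞.A :=
    fun z hz => ((contMDiff_scal_slice _).continuous.continuousAt.comp
      (𝒮.𝒞.w'_smoothAt hz).continuousAt).continuousWithinAt
  have h2 := h1.isOpen_inter_preimage 𝒮.𝒞.isOpen_A
    (𝒮.𝒞.O_open.inter (hG.preimage 𝒮.𝒞.w_smooth.continuous))
  have h3 : 𝒮.m x ∈ 𝒮.𝒞.A ∩ (fun z => (scal (Real.exp 𝒮.T) (𝒮.𝒞.w' z) : Cotangent F L)) ⁻¹'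
      (𝒮.𝒞.O ∩ 𝒮.𝒞.w ⁻¹' G) := by
    refine ⟨𝒮.m_mem hx, ?_⟩
    show scal (Real.exp 𝒮.T) (𝒮.𝒞.w' (𝒮.m x)) ∈ (𝒮.𝒞.O ∩ 𝒮.𝒞.w ⁻¹' G : Set (Cotangent F L))
    rw [𝒮.w'_m hx, scal_exp_pos]
    refine ⟨𝒮.𝒞.w'_mem hx, ?_⟩
    show 𝒮.𝒞.w (𝒮.𝒞.w' x) ∈ G
    rw [𝒮.𝒞.w_w' hx]
    exact hxG
  filter_upwards [h2.mem_nhds h3] with z hz
  exact ⟨hz.2.2, 𝒮.m_mi hz.1 hz.2.1⟩

lemma R_nhds {x : Cotangent F N} (hx : x ∈ interior 𝒮.E) : R 𝒮 ∈ 𝓝 (𝒮.m x) := by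
  filter_upwards [m_nhds (𝒮.E_A (interior_subset hx)) isOpen_interior hx] with z hz
  exact ⟨𝒮.mi z, interior_subset hz.1, hz.2⟩

/-- The key connectedness argument. -/
lemma transfer {a b : Cotangent F N → Cotangent F N} {P : Set (Cotangent F N)} (hP : IsClosed P)
    (hPb : ∀ x ∈ 𝒮.E, x ∉ range j → b x ∈ P)
    (hPin : ∀ z ∈ P, z ∉ range j → ∃ x' ∈ 𝒮.E, x' ∉ range j ∧ b x' = z)
    (hPint : ∀ x' ∈ interior 𝒮.E, x' ∉ range j → P ∈ 𝓝 (b x'))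
    (ha : ∀ x ∈ 𝒮.E, x ∉ range j → ContinuousAt a x)
    (hainj : ∀ x ∈ 𝒮.E, x ∉ range j → ∀ x' ∈ 𝒮.E, x' ∉ range j → a x = a x' → x = x')
    (haS : ∀ x ∈ 𝒮.E, x ∉ range j → a x ∉ range j)
    (hab : ∀ x ∈ 𝒮.E₂, x ∉ interior 𝒮.E₀ → a x = b x)
    {x : Cotangent F N} (hx : x ∈ 𝒮.E) (hxS : x ∉ range j)
    (hlim : ∃ r ≥ 0, a (𝒮.ℱ.φ (-r) x) ∈ P) : a x ∈ P := by
  obtain ⟨r, hr, hrP⟩ := hlim
  have hγE : ∀ t ∈ Icc 0 r, 𝒮.ℱ.φ (t - r) x ∈ 𝒮.E := by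
    intro t ht
    have := 𝒮.E_inv (r - t) (by linarith [ht.2]) x hx hxS
    rwa [neg_sub] at this
  have hγS : ∀ t, 𝒮.ℱ.φ (t - r) x ∉ range j := fun t => 𝒮.ℱ.maps _ x hxS
  have hγc : Continuous (fun t : ℝ => 𝒮.ℱ.φ (t - r) x) := by
    have h1 : ContinuousOn (fun p : ℝ × Cotangent F N => 𝒮.ℱ.φ p.1 p.2) (univ ×ˢ (range j)ᶜ) :=
      𝒮.ℱ.smooth.continuousOn
    have h2 : Continuous (fun t : ℝ => (t - r, x)) := by fun_prop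
    exact h1.comp_continuous h2 (fun t => ⟨mem_univ _, hxS⟩)
  have hzc : ∀ t ∈ Icc 0 r, ContinuousAt (fun t : ℝ => a (𝒮.ℱ.φ (t - r) x)) t := by
    intro t ht
    exact ContinuousAt.comp (g := a) (ha _ (hγE t ht) (hγS t)) hγc.continuousAt
  have h := path_lemma hP (z := fun t => a (𝒮.ℱ.φ (t - r) x)) hr
    (fun t ht => (hzc t ht).continuousWithinAt) (by
      show a (𝒮.ℱ.φ (0 - r) x) ∈ P
      rwa [zero_sub]) (by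
      intro t ht htP
      have ht' : t ∈ Icc 0 r := ⟨ht.1, ht.2.le⟩
      obtain ⟨x', hx'E, hx'S, hx'⟩ := hPin _ htP (haS _ (hγE t ht') (hγS t))
      by_cases hint : x' ∈ interior 𝒮.E
      · have h1 := hPint x' hint hx'S
        rw [hx'] at h1
        exact ((hzc t ht').eventually h1).filter_mono nhdsWithin_le_nhds
      · have h0 : x' ∉ interior 𝒮.E₀ := fun h => hint (𝒮.E₀_sub (interior_subset h))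
        have h1 : a x' = b x' := hab x' (𝒮.E_E₂ hx'E) h0
        have h2 : x' = 𝒮.ℱ.φ (t - r) x := hainj _ hx'E hx'S _ (hγE t ht') (hγS t) (h1.trans hx')
        have h3 : 𝒮.ℱ.φ (t - r) x ∈ interior 𝒮.E₂ \ 𝒮.E₀ := by
          rw [← h2]
          exact ⟨𝒮.E_sub hx'E, fun h => hint (𝒮.E₀_sub h)⟩
        have h4 : IsOpen (interior 𝒮.E₂ \ 𝒮.E₀) := isOpen_interior.sdiff 𝒮.E₀_cpt.isClosed
        have h5 : ∀ᶠ t' in 𝓝[>] t, 𝒮.ℱ.φ (t' - r) x ∈ interior 𝒮.E₂ \ 𝒮.E₀ :=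
          (hγc.continuousAt.eventually (h4.mem_nhds h3)).filter_mono nhdsWithin_le_nhds
        have h6 : ∀ᶠ t' in 𝓝[>] t, t' ∈ Ioc t r := Ioc_mem_nhdsGT ht.2
        filter_upwards [h5, h6] with t' h7 h8
        show a (𝒮.ℱ.φ (t' - r) x) ∈ P
        rw [hab _ (interior_subset h7.1) (fun h => h7.2 (interior_subset h))]
        exact hPb _ (hγE t' ⟨ht.1.trans h8.1.le, h8.2⟩) (hγS t'))
  have h9 : a (𝒮.ℱ.φ (r - r) x) ∈ P := h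
  rwa [sub_self, 𝒮.ℱ.zero x hxS] at h9

lemma S_intP : range j ⊆ interior ℐ.P := by
  obtain ⟨V, hV, hSV, hVt⟩ := 𝒮.ℱ.cont 𝒮.T (interior 𝒮.E) isOpen_interior 𝒮.S_intE
  intro y hy
  refine mem_interior.2 ⟨V ∩ ℐ.Kᶜ, ?_, hV.inter ℐ.K_cpt.isClosed.isOpen_compl,
    hSV hy, fun h => ℐ.K_S y h hy⟩
  rintro z ⟨hzV, hzK⟩
  by_cases hzS : z ∈ range j
  · exact Or.inl hzS
  · right
    show 𝒮.ℱ.φ 𝒮.T (ℐ.χi z) ∈ 𝒮.E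
    rw [ℐ.χi_id hzK]
    exact interior_subset (hVt 𝒮.T ⟨by linarith [𝒮.T_pos], le_rfl⟩ z hzV hzS)

lemma S_intR : range j ⊆ interior (R 𝒮) := by
  rintro _ ⟨q, rfl⟩
  rw [mem_interior_iff_mem_nhds]
  have h := R_nhds (𝒮 := 𝒮) (x := j q) (𝒮.S_intE ⟨q, rfl⟩)
  rwa [𝒮.m_j] at h

lemma R_sub_P : R 𝒮 ⊆ ℐ.P := by
  rintro _ ⟨x, hx, rfl⟩
  by_cases hxS : x ∈ range j
  · obtain ⟨q, rfl⟩ := hxS
    rw [𝒮.m_j]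
    exact Or.inl ⟨q, rfl⟩
  refine transfer (𝒮 := 𝒮) (a := 𝒮.m) (b := ℐ.n) ℐ.P_closed ?_ ?_ (fun x' h1 h2 => ℐ.P_nhds h1 h2)
    ?_ ?_ ?_ ?_ hx hxS ?_
  · intro x hx hxS
    right
    rw [ℐ.ni_n hxS]
    exact hx
  · rintro z (hz | hz) hzS
    · exact absurd hz hzS
    · exact ⟨ℐ.ni z, hz, ℐ.ni_notMem hzS, ℐ.n_ni hzS⟩
  · intro x hx _
    exact (𝒮.m_smoothAt (𝒮.E_A hx)).continuousAt
  · intro x hx _ x' hx' _ h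
    rw [← 𝒮.mi_m (𝒮.E_A hx), h, 𝒮.mi_m (𝒮.E_A hx')]
  · intro x hx hxS
    exact 𝒮.m_notMem (𝒮.E_A hx) hxS
  · intro x hx hx0
    exact (ℐ.n_C hx hx0).symm
  · have hU : IsOpen (𝒮.𝒞.A ∩ 𝒮.m ⁻¹' interior ℐ.P) :=
      m_cont.isOpen_inter_preimage 𝒮.𝒞.isOpen_A isOpen_interior
    obtain ⟨t₀, ht₀⟩ := 𝒮.ℱ.contr {x} isCompact_singleton _ hU (by
      rintro _ ⟨q, rfl⟩
      refine ⟨𝒮.𝒞.range_sub ⟨q, rfl⟩, ?_⟩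
      show 𝒮.m (j q) ∈ interior ℐ.P
      rw [𝒮.m_j]
      exact ℐ.S_intP ⟨q, rfl⟩)
    exact ⟨max t₀ 0, le_max_right _ _, interior_subset (ht₀ _ (le_max_left _ _) x rfl hxS).2⟩

lemma P_sub_R : ℐ.P ⊆ R 𝒮 := by
  rintro z (hz | hz)
  · obtain ⟨q, rfl⟩ := hz
    exact ⟨j q, 𝒮.S_E ⟨q, rfl⟩, 𝒮.m_j q⟩
  by_cases hzS : z ∈ range j
  · obtain ⟨q, rfl⟩ := hzS
    exact ⟨j q, 𝒮.S_E ⟨q, rfl⟩, 𝒮.m_j q⟩
  have key : ℐ.n (ℐ.ni z) ∈ R 𝒮 := by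
    refine transfer (𝒮 := 𝒮) (a := ℐ.n) (b := 𝒮.m) R_closed ?_ ?_ (fun x' h1 _ => R_nhds h1)
      ?_ ?_ ?_ ?_ hz (ℐ.ni_notMem hzS) ?_
    · intro x hx _
      exact ⟨x, hx, rfl⟩
    · rintro _ ⟨x, hx, rfl⟩ hxS
      refine ⟨x, hx, ?_, rfl⟩
      rintro ⟨q, rfl⟩
      apply hxS
      rw [𝒮.m_j]
      exact ⟨q, rfl⟩
    · intro x _ hxS
      exact (ℐ.n_smoothAt hxS).continuousAt
    · intro x _ hxS x' _ hxS' h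
      rw [← ℐ.ni_n hxS, h, ℐ.ni_n hxS']
    · intro x _ hxS
      exact ℐ.n_notMem hxS
    · intro x hx hx0
      exact ℐ.n_C hx hx0
    · have hU : IsOpen (interior (R 𝒮) ∩ ℐ.Kᶜ) :=
        isOpen_interior.inter ℐ.K_cpt.isClosed.isOpen_compl
      obtain ⟨t₀, ht₀⟩ := 𝒮.ℱ.contr {ℐ.ni z} isCompact_singleton _ hU (fun y hy =>
        ⟨S_intR hy, fun h => ℐ.K_S y h hy⟩)
      refine ⟨max t₀ 0, le_max_right _ _, ?_⟩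
      have h1 := ht₀ (𝒮.T + max t₀ 0) (by linarith [le_max_left t₀ 0, 𝒮.T_pos]) _ rfl
        (ℐ.ni_notMem hzS)
      have h2 : ℐ.n (𝒮.ℱ.φ (-max t₀ 0) (ℐ.ni z)) = 𝒮.ℱ.φ (-(𝒮.T + max t₀ 0)) (ℐ.ni z) := by
        show ℐ.χ (𝒮.ℱ.φ (-𝒮.T) (𝒮.ℱ.φ (-max t₀ 0) (ℐ.ni z))) = _
        rw [← 𝒮.ℱ.add _ _ _ (ℐ.ni_notMem hzS), ← neg_add]
        exact ℐ.χ_id _ h1.2
      rw [h2]
      exact interior_subset h1.1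
  rwa [ℐ.n_ni hzS] at key

lemma P_eq_R : ℐ.P = R 𝒮 := Subset.antisymm ℐ.P_sub_R ℐ.R_sub_P

end Setup.Iso

end Pool.Agent.H823.Nearby
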