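import Mathlib
import Pool.Agent.H823.Sing4

/-! Liouville flows on the complement of a closed exact Lagrangian submanifold, V: gluing. -/

open scoped Topology ContDiff Manifold
open Set Bundle

noncomputable section

namespace Pool.Agent.H823.Nearby

set_option linter.unusedSectionVars false

universe u

open Pool.Agent.Helper186

variable {F : Type u} [NormedAddCommGroup F] [NormedSpace ℝ F] [FiniteDimensional ℝ F]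
  {L : Type*} [TopologicalSpace L] [ChartedSpace F L] [IsManifold 𝓘(ℝ, F) ∞ L]
  {N : Type*} [TopologicalSpace N] [ChartedSpace F N] [IsManifold 𝓘(ℝ, F) ∞ N]

namespace Setup.Iso

variable {j : L → Cotangent F N} {𝒮 : Setup j} (ℐ : Iso 𝒮)

open Classical in
/-- The glued contraction. -/
def η (x : Cotangent F N) : Cotangent F N := if x ∈ 𝒮.E then 𝒮.m x else ℐ.n x

open Classical in
/-- Its inverse. -/
def ηi (z : Cotangent F N) : Cotangent F N := if z ∈ R 𝒮 then 𝒮.mi z else ℐ.ni z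

open Classical in
/-- Its primitive. -/
def kη (x : Cotangent F N) : ℝ := if x ∈ 𝒮.E then 𝒮.km x else ℐ.kn x

lemma η_E {x : Cotangent F N} (hx : x ∈ 𝒮.E) : ℐ.η x = 𝒮.m x := if_pos hx
lemma η_nE {x : Cotangent F N} (hx : x ∉ 𝒮.E) : ℐ.η x = ℐ.n x := if_neg hx
lemma kη_E {x : Cotangent F N} (hx : x ∈ 𝒮.E) : ℐ.kη x = 𝒮.km x := if_pos hx
lemma kη_nE {x : Cotangent F N} (hx : x ∉ 𝒮.E) : ℐ.kη x = ℐ.kn x := if_neg hx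
lemma ηi_R {z : Cotangent F N} (hz : z ∈ R 𝒮) : ℐ.ηi z = 𝒮.mi z := if_pos hz
lemma ηi_nR {z : Cotangent F N} (hz : z ∉ R 𝒮) : ℐ.ηi z = ℐ.ni z := if_neg hz

variable [T2Space N]

lemma near_E {x : Cotangent F N} (hx : x ∈ 𝒮.E) :
    (ℐ.η =ᶠ[𝓝 x] 𝒮.m) ∧ (ℐ.kη =ᶠ[𝓝 x] 𝒮.km) := by
  by_cases hint : x ∈ interior 𝒮.E
  · have h1 : 𝒮.E ∈ 𝓝 x := mem_interior_iff_mem_nhds.1 hint
    exact ⟨by filter_upwards [h1] with y hy using ℐ.η_E hy,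
      by filter_upwards [h1] with y hy using ℐ.kη_E hy⟩
  · have h1 : interior 𝒮.E₂ \ 𝒮.E₀ ∈ 𝓝 x :=
      (isOpen_interior.sdiff 𝒮.E₀_cpt.isClosed).mem_nhds
        ⟨𝒮.E_sub hx, fun h => hint (𝒮.E₀_sub h)⟩
    constructor
    · filter_upwards [h1] with y hy
      by_cases hyE : y ∈ 𝒮.E
      · exact ℐ.η_E hyE
      · rw [ℐ.η_nE hyE]
        exact ℐ.n_C (interior_subset hy.1) (fun h => hy.2 (interior_subset h))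
    · filter_upwards [h1] with y hy
      by_cases hyE : y ∈ 𝒮.E
      · exact ℐ.kη_E hyE
      · rw [ℐ.kη_nE hyE]
        exact ℐ.kn_C (interior_subset hy.1) (fun h => hy.2 (interior_subset h))

lemma near_nE {x : Cotangent F N} (hx : x ∉ 𝒮.E) :
    (ℐ.η =ᶠ[𝓝 x] ℐ.n) ∧ (ℐ.kη =ᶠ[𝓝 x] ℐ.kn) := by
  have h1 : 𝒮.Eᶜ ∈ 𝓝 x := 𝒮.E_cpt.isClosed.isOpen_compl.mem_nhds hx
  exact ⟨by filter_upwards [h1] with y hy using ℐ.η_nE hy,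
      by filter_upwards [h1] with y hy using ℐ.kη_nE hy⟩

lemma notMem_S {x : Cotangent F N} (hx : x ∉ 𝒮.E) : x ∉ range j := fun h => hx (𝒮.S_E h)

lemma η_smooth : ContMDiff (IC F) (IC F) ∞ ℐ.η := by
  intro x
  by_cases hx : x ∈ 𝒮.E
  · exact (𝒮.m_smoothAt (𝒮.E_A hx)).congr_of_eventuallyEq (ℐ.near_E hx).1
  · exact (ℐ.n_smoothAt (notMem_S hx)).congr_of_eventuallyEq (ℐ.near_nE hx).1

lemma kη_smooth : ContMDiff (IC F) 𝓘(ℝ, ℝ) ∞ ℐ.kη := by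
  intro x
  by_cases hx : x ∈ 𝒮.E
  · exact (𝒮.km_smoothAt (𝒮.E_A hx)).congr_of_eventuallyEq (ℐ.near_E hx).2
  · exact (ℐ.kn_smoothAt (notMem_S hx)).congr_of_eventuallyEq (ℐ.near_nE hx).2

lemma pb_η (x : Cotangent F N) : PB canForm canForm ℐ.η (Real.exp (-𝒮.T)) ℐ.kη x := by
  by_cases hx : x ∈ 𝒮.E
  · exact (𝒮.pb_m (𝒮.E_A hx)).congr (ℐ.near_E hx).1 (ℐ.near_E hx).2
  · exact (ℐ.pb_n (notMem_S hx)).congr (ℐ.near_nE hx).1 (ℐ.near_nE hx).2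

lemma S_R : range j ⊆ R 𝒮 := S_intR.trans interior_subset

lemma n_notMem_R {x : Cotangent F N} (hx : x ∉ 𝒮.E) : ℐ.n x ∉ R 𝒮 := by
  rw [← ℐ.P_eq_R]
  rintro (h | h)
  · exact ℐ.n_notMem (notMem_S hx) h
  · rw [ℐ.ni_n (notMem_S hx)] at h
    exact hx h

lemma ηi_η (x : Cotangent F N) : ℐ.ηi (ℐ.η x) = x := by
  by_cases hx : x ∈ 𝒮.E
  · rw [ℐ.η_E hx, ℐ.ηi_R ⟨x, hx, rfl⟩, 𝒮.mi_m (𝒮.E_A hx)]
  · rw [ℐ.η_nE hx, ℐ.ηi_nR (ℐ.n_notMem_R hx), ℐ.ni_n (notMem_S hx)]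

lemma η_ηi (z : Cotangent F N) : ℐ.η (ℐ.ηi z) = z := by
  by_cases hz : z ∈ R 𝒮
  · obtain ⟨x, hx, rfl⟩ := hz
    rw [ℐ.ηi_R ⟨x, hx, rfl⟩, 𝒮.mi_m (𝒮.E_A hx), ℐ.η_E hx]
  · have hzS : z ∉ range j := fun h => hz (S_R h)
    have hz' : ℐ.ni z ∉ 𝒮.E := by
      intro h
      apply hz
      rw [← ℐ.P_eq_R]
      exact Or.inr h
    rw [ℐ.ηi_nR hz, ℐ.η_nE hz', ℐ.n_ni hzS]

lemma ηi_smooth : ContMDiff (IC F) (IC F) ∞ ℐ.ηi := by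
  intro z
  by_cases hz : z ∈ R 𝒮
  · obtain ⟨x, hx, rfl⟩ := hz
    refine (𝒮.mi_smoothAt (𝒮.m_mem (𝒮.E_A hx))).congr_of_eventuallyEq ?_
    by_cases hint : x ∈ interior 𝒮.E
    · filter_upwards [m_nhds (𝒮.E_A hx) isOpen_interior hint] with z' hz'
      exact ℐ.ηi_R ⟨𝒮.mi z', interior_subset hz'.1, hz'.2⟩
    · filter_upwards [m_nhds (𝒮.E_A hx) (isOpen_interior.sdiff 𝒮.E₀_cpt.isClosed)
        (show x ∈ interior 𝒮.E₂ \ 𝒮.E₀ from ⟨𝒮.E_sub hx, fun h => hint (𝒮.E₀_sub h)⟩)] with z' hz'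
      by_cases hz'R : z' ∈ R 𝒮
      · exact ℐ.ηi_R hz'R
      · have h1 : 𝒮.mi z' ∉ range j := fun h => hz'.1.2 (𝒮.S_E₀ h)
        have h2 : ℐ.n (𝒮.mi z') = 𝒮.m (𝒮.mi z') :=
          ℐ.n_C (interior_subset hz'.1.1) (fun h => hz'.1.2 (interior_subset h))
        rw [ℐ.ηi_nR hz'R, ← ℐ.ni_n h1, h2, hz'.2]
  · have hzS : z ∉ range j := fun h => hz (S_R h)
    refine (ℐ.ni_smoothAt hzS).congr_of_eventuallyEq ?_
    have h1 : (R 𝒮)ᶜ ∈ 𝓝 z := R_closed.isOpen_compl.mem_nhds hz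
    filter_upwards [h1] with z' hz' using ℐ.ηi_nR hz'

/-- The glued contraction as a diffeomorphism. -/
def ηD : Diffeomorph (IC F) (IC F) (Cotangent F N) (Cotangent F N) ∞ where
  toFun := ℐ.η
  invFun := ℐ.ηi
  left_inv := ℐ.ηi_η
  right_inv := ℐ.η_ηi
  contMDiff_toFun := ℐ.η_smooth
  contMDiff_invFun := ℐ.ηi_smooth

lemma ηD_apply : (ℐ.ηD : Cotangent F N → Cotangent F N) = ℐ.η := rfl

lemma η_j (q : L) : ℐ.η (j q) = j q := by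
  rw [ℐ.η_E (𝒮.S_E ⟨q, rfl⟩), 𝒮.m_j]

lemma η_mem {x : Cotangent F N} (hx : x ∈ 𝒮.E) : ℐ.η x ∈ 𝒮.E := by
  rw [ℐ.η_E hx]
  exact interior_subset (𝒮.m_E₂ (𝒮.E_E₂ hx))

lemma iter_E (n : ℕ) {x : Cotangent F N} (hx : x ∈ 𝒮.E) :
    ℐ.η^[n] x ∈ 𝒮.E ∧ ℐ.η^[n] x = 𝒮.𝒞.w (scal (Real.exp (-(n * 𝒮.T))) (𝒮.𝒞.w' x)) := by
  induction n with
  | zero =>
    refine ⟨hx, ?_⟩
    show x = _
    rw [Nat.cast_zero, zero_mul, neg_zero, Real.exp_zero, scal_one, 𝒮.𝒞.w_w' (𝒮.E_A hx)]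
  | succ n ih =>
    rw [Function.iterate_succ_apply']
    refine ⟨ℐ.η_mem ih.1, ?_⟩
    rw [ℐ.η_E ih.1]
    show 𝒮.𝒞.w (scal (Real.exp (-𝒮.T)) (𝒮.𝒞.w' (ℐ.η^[n] x))) = _
    have hO : scal (Real.exp (-(n * 𝒮.T))) (𝒮.𝒞.w' x) ∈ 𝒮.𝒞.O :=
      𝒮.𝒞.O_star _ ⟨(Real.exp_pos _).le, Real.exp_le_one_iff.2 (by
        have := 𝒮.T_pos
        have : (0:ℝ) ≤ n * 𝒮.T := by positivity
        linarith)⟩ (𝒮.𝒞.w'_mem (𝒮.E_A hx))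
    rw [ih.2, 𝒮.𝒞.w'_w _ hO, scal_scal, ← Real.exp_add]
    congr 3
    push_cast
    ring

lemma iter_out (n : ℕ) {x : Cotangent F N} (hx : x ∉ range j) :
    ℐ.η^[n] x ∈ 𝒮.E ∨ ℐ.η^[n] x = 𝒮.ℱ.φ (-(n * 𝒮.T)) x := by
  induction n with
  | zero =>
    right
    show x = _
    rw [Nat.cast_zero, zero_mul, neg_zero, 𝒮.ℱ.zero x hx]
  | succ n ih =>
    rw [Function.iterate_succ_apply']
    by_cases hE : ℐ.η^[n] x ∈ 𝒮.E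
    · exact Or.inl (ℐ.η_mem hE)
    · have h1 := ih.resolve_left hE
      rw [ℐ.η_nE hE]
      show ℐ.χ (𝒮.ℱ.φ (-𝒮.T) (ℐ.η^[n] x)) ∈ 𝒮.E ∨ ℐ.χ (𝒮.ℱ.φ (-𝒮.T) (ℐ.η^[n] x)) = _
      by_cases hK : 𝒮.ℱ.φ (-𝒮.T) (ℐ.η^[n] x) ∈ ℐ.K
      · exact Or.inl (interior_subset (𝒮.wV_E (ℐ.K_sub (ℐ.χ_K hK))))
      · right
        rw [ℐ.χ_id _ hK, h1, ← 𝒮.ℱ.add _ _ _ hx]
        congr 1
        push_cast
        ring

end Setup.Iso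

/-- **Theorem.** Liouville flows on the complement. -/
theorem attractsCone_of_singFlow [T2Space L] [CompactSpace L] [Nonempty L] [T2Space N]
    [CompactSpace N] {j : L → CotangentBundle F N} (hj : ExactLagrangianEmbedding j)
    (ℱ : SingFlow (F := F) (N := N) (range j)) : AttractsCone j := by
  obtain ⟨𝒮, rfl⟩ := exists_Setup hj ℱ
  obtain ⟨ℐ⟩ := 𝒮.exists_Iso
  have hit : (ℐ.ηD : Cotangent F N → Cotangent F N) = ℐ.η := rfl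
  refine ⟨ℐ.ηD, Real.exp (-𝒮.T), Real.exp_pos _,
    Real.exp_lt_one_iff.2 (by linarith [𝒮.T_pos]),
    conformallyExact_iff.2 ⟨ℐ.kη, ℐ.kη_smooth, ℐ.pb_η⟩, ?_, ?_⟩
  · ext x
    constructor
    · rintro ⟨_, ⟨q, rfl⟩, rfl⟩
      exact ⟨q, (ℐ.η_j q).symm⟩
    · rintro ⟨q, rfl⟩
      exact ⟨j q, ⟨q, rfl⟩, ℐ.η_j q⟩
  · intro U hU hjU
    have hc : IsCompact (cone j) := isCompact_cone hj.smooth.continuous
    obtain ⟨t₀, ht₀⟩ := 𝒮.ℱ.contr _ hc _ isOpen_interior 𝒮.S_intE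
    obtain ⟨n₁, hn₁⟩ := exists_nat_ge (t₀ / 𝒮.T)
    have hn₁' : t₀ ≤ n₁ * 𝒮.T := (div_le_iff₀ 𝒮.T_pos).1 hn₁
    have hQ : IsOpen (𝒮.𝒞.O ∩ 𝒮.𝒞.w ⁻¹' U) :=
      𝒮.𝒞.O_open.inter (hU.preimage 𝒮.𝒞.w_smooth.continuous)
    obtain ⟨s₀, -, hs₀⟩ := exists_contract (Q := 𝒮.𝒞.O ∩ 𝒮.𝒞.w ⁻¹' U) (C := 𝒮.𝒞.w' '' 𝒮.E)
      (fun q => by
        rw [hQ.interior_eq]
        refine ⟨𝒮.𝒞.zero_mem q, ?_⟩
        show 𝒮.𝒞.w (zeroC q) ∈ U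
        rw [𝒮.𝒞.w_zero]
        exact hjU ⟨q, rfl⟩)
      (𝒮.E_cpt.image_of_continuousOn (𝒮.𝒞.w'_smooth.continuousOn.mono 𝒮.E_A))
    obtain ⟨n₂, hn₂⟩ := exists_nat_ge (s₀ / 𝒮.T)
    have hn₂' : s₀ ≤ n₂ * 𝒮.T := (div_le_iff₀ 𝒮.T_pos).1 hn₂
    refine ⟨n₂ + n₁, ?_⟩
    rintro _ ⟨x, hx, rfl⟩
    have h1 : ℐ.η^[n₁] x ∈ 𝒮.E := by
      by_cases hxS : x ∈ range j
      · exact (ℐ.iter_E n₁ (𝒮.S_E hxS)).1
      · rcases ℐ.iter_out n₁ hxS with h | h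
        · exact h
        · rw [h]
          exact interior_subset (ht₀ _ hn₁' x hx hxS)
    rw [Function.iterate_add_apply, hit, (ℐ.iter_E n₂ h1).2]
    have h2 := hs₀ _ hn₂' _ ⟨_, h1, rfl⟩
    rw [hQ.interior_eq] at h2
    exact h2.2

/-- **Theorem.** Liouville flows on the complement. -/
theorem extendsExactly_of_singFlow [T2Space L] [CompactSpace L] [Nonempty L] [T2Space N]
    [CompactSpace N] {j : L → CotangentBundle F N} (hj : ExactLagrangianEmbedding j)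
    (ℱ : SingFlow (F := F) (N := N) (range j)) : ExtendsExactly j :=
  extendsExactly_of_attractsCone hj (attractsCone_of_singFlow hj ℱ)

end Pool.Agent.H823.Nearby
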