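import Mathlib
import Pool.Agent.H823.Sing5

/-! Liouville flows on the complement of a closed exact Lagrangian submanifold, VI: complements
symplectomorphic to the complement of a zero section. -/

open scoped Topology ContDiff Manifold
open Set Bundle

noncomputable section

namespace Pool.Agent.H823.Nearby

set_option linter.unusedSectionVars false

universe u

open Pool.Agent.Helper186

variable {F : Type u} [NormedAddCommGroup F] [NormedSpace ℝ F] [FiniteDimensional ℝ F]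
  {K : Type*} [TopologicalSpace K] [ChartedSpace F K] [IsManifold 𝓘(ℝ, F) ∞ K]
  {N : Type*} [TopologicalSpace N] [ChartedSpace F N] [IsManifold 𝓘(ℝ, F) ∞ N]

/-- The zero section as a set. -/
abbrev zeroSet (F : Type u) [NormedAddCommGroup F] [NormedSpace ℝ F] [FiniteDimensional ℝ F]
    (K : Type*) [TopologicalSpace K] [ChartedSpace F K] [IsManifold 𝓘(ℝ, F) ∞ K] :
    Set (Cotangent F K) := range (zeroC : K → Cotangent F K)

/-- An exact symplectic diffeomorphism of `T^*K ∖ 0_K` onto `T^*N ∖ S`. -/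
structure Punct (K : Type*) [TopologicalSpace K] [ChartedSpace F K] [IsManifold 𝓘(ℝ, F) ∞ K]
    (S : Set (Cotangent F N)) where
  h : Cotangent F K → Cotangent F N
  h' : Cotangent F N → Cotangent F K
  g : Cotangent F K → ℝ
  h_smooth : ContMDiffOn (IC F) (IC F) ∞ h (zeroSet F K)ᶜ
  h'_smooth : ContMDiffOn (IC F) (IC F) ∞ h' Sᶜ
  h_maps : ∀ ξ ∉ zeroSet F K, h ξ ∉ S
  h'_maps : ∀ x ∉ S, h' x ∉ zeroSet F K
  h'_h : ∀ ξ ∉ zeroSet F K, h' (h ξ) = ξ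
  h_h' : ∀ x ∉ S, h (h' x) = x
  g_smooth : ContMDiffOn (IC F) 𝓘(ℝ, ℝ) ∞ g (zeroSet F K)ᶜ
  pb : ∀ ξ ∉ zeroSet F K, PB canForm canForm h 1 g ξ

lemma isCompact_zeroSet [CompactSpace K] : IsCompact (zeroSet F K) := isCompact_range_zeroC

lemma isClosed_zeroSet [CompactSpace K] [T2Space K] : IsClosed (zeroSet F K) :=
  isCompact_zeroSet.isClosed

namespace Punct

variable {S : Set (Cotangent F N)} (𝒬 : Punct K S)

lemma h'_smoothAt (hS : IsClosed S) {x : Cotangent F N} (hx : x ∉ S) :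
    ContMDiffAt (IC F) (IC F) ∞ 𝒬.h' x :=
  𝒬.h'_smooth.contMDiffAt (hS.isOpen_compl.mem_nhds hx)

variable [CompactSpace K] [T2Space K]

lemma h_smoothAt {ξ : Cotangent F K} (hξ : ξ ∉ zeroSet F K) :
    ContMDiffAt (IC F) (IC F) ∞ 𝒬.h ξ :=
  𝒬.h_smooth.contMDiffAt (isClosed_zeroSet.isOpen_compl.mem_nhds hξ)

lemma g_smoothAt {ξ : Cotangent F K} (hξ : ξ ∉ zeroSet F K) :
    ContMDiffAt (IC F) 𝓘(ℝ, ℝ) ∞ 𝒬.g ξ :=
  𝒬.g_smooth.contMDiffAt (isClosed_zeroSet.isOpen_compl.mem_nhds hξ)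

/-- The primitive on `T^*N ∖ S`. -/
def f (x : Cotangent F N) : ℝ := - 𝒬.g (𝒬.h' x)

lemma f_smoothAt (hS : IsClosed S) {x : Cotangent F N} (hx : x ∉ S) :
    ContMDiffAt (IC F) 𝓘(ℝ, ℝ) ∞ 𝒬.f x :=
  ((𝒬.g_smoothAt (𝒬.h'_maps x hx)).comp x (𝒬.h'_smoothAt hS hx)).neg

lemma pb' (hS : IsClosed S) {x : Cotangent F N} (hx : x ∉ S) :
    PB canForm canForm 𝒬.h' 1 𝒬.f x := by
  have hξ := 𝒬.h'_maps x hx
  have h1 : PB canForm canForm 𝒬.h 1 (fun ξ => - (- 𝒬.g ξ)) (𝒬.h' x) := by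
    have h2 : (fun ξ => - (- 𝒬.g ξ)) = 𝒬.g := funext fun ξ => neg_neg _
    rw [h2]
    exact 𝒬.pb _ hξ
  refine PB.inv (g := fun ξ => - 𝒬.g ξ) h1 ?_ ((𝒬.h'_smoothAt hS hx).mdifferentiableAt (by simp))
    ((𝒬.h_smoothAt hξ).mdifferentiableAt (by simp))
    ((𝒬.g_smoothAt hξ).mdifferentiableAt (by simp)).neg
  filter_upwards [hS.isOpen_compl.mem_nhds hx] with y hy
  exact 𝒬.h_h' y hy

/-- The flow. -/
def φ (t : ℝ) (x : Cotangent F N) : Cotangent F N := 𝒬.h (scal (Real.exp t) (𝒬.h' x))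

lemma scal_notMem (t : ℝ) {x : Cotangent F N} (hx : x ∉ S) :
    scal (Real.exp t) (𝒬.h' x) ∉ zeroSet F K := fun h =>
  𝒬.h'_maps x hx ((scal_mem_zero_iff (Real.exp_pos t).ne').1 h)

lemma h'_φ (t : ℝ) {x : Cotangent F N} (hx : x ∉ S) :
    𝒬.h' (𝒬.φ t x) = scal (Real.exp t) (𝒬.h' x) := 𝒬.h'_h _ (𝒬.scal_notMem t hx)

lemma smooth_φ : ContMDiffOn (𝓘(ℝ, ℝ).prod (IC F)) (IC F) ∞
    (fun p : ℝ × Cotangent F N => 𝒬.φ p.1 p.2) (univ ×ˢ Sᶜ) := by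
  have h1 : ContMDiffOn (𝓘(ℝ, ℝ).prod (IC F)) (IC F) ∞
      (fun p : ℝ × Cotangent F N => scal (Real.exp p.1) (𝒬.h' p.2)) (univ ×ˢ Sᶜ) :=
    contMDiff_scal.comp_contMDiffOn
      (((Real.contDiff_exp.contMDiff.comp contMDiff_fst).contMDiffOn).prodMk
        (𝒬.h'_smooth.comp contMDiffOn_snd fun p hp => hp.2))
  exact 𝒬.h_smooth.comp h1 fun p hp => 𝒬.scal_notMem p.1 hp.2

lemma φ_smoothAt (hS : IsClosed S) (t : ℝ) {x : Cotangent F N} (hx : x ∉ S) :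
    ContMDiffAt (IC F) (IC F) ∞ (𝒬.φ t) x := by
  have h1 : IsOpen ((univ : Set ℝ) ×ˢ Sᶜ) := isOpen_univ.prod hS.isOpen_compl
  have h2 := 𝒬.smooth_φ.contMDiffAt (h1.mem_nhds (x := (t, x)) ⟨mem_univ _, hx⟩)
  exact ContMDiffAt.comp (g := fun p : ℝ × Cotangent F N => 𝒬.φ p.1 p.2)
    (f := fun x' : Cotangent F N => (t, x')) x h2 (contMDiffAt_const.prodMk contMDiffAt_id)

lemma form_eq (hS : IsClosed S) {x : Cotangent F N} (hx : x ∉ S) (u : TangentSpace (IC F) x) :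
    (canForm x + dForm (IC F) 𝒬.f x) u = canForm (𝒬.h' x) (mfderiv (IC F) (IC F) 𝒬.h' x u) := by
  have h1 := 𝒬.pb' hS hx u
  rw [one_mul] at h1
  exact h1.symm

lemma conf (hS : IsClosed S) (t : ℝ) {x : Cotangent F N} (hx : x ∉ S)
    (u : TangentSpace (IC F) x) :
    (canForm (𝒬.φ t x) + dForm (IC F) 𝒬.f (𝒬.φ t x)) (mfderiv (IC F) (IC F) (𝒬.φ t) x u) =
      Real.exp t * (canForm x + dForm (IC F) 𝒬.f x) u := by
  have hφx : 𝒬.φ t x ∉ S := 𝒬.h_maps _ (𝒬.scal_notMem t hx)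
  rw [𝒬.form_eq hS hx, 𝒬.form_eq hS hφx]
  have e1 : (𝒬.h' ∘ 𝒬.φ t) =ᶠ[𝓝 x] scal (Real.exp t) ∘ 𝒬.h' := by
    filter_upwards [hS.isOpen_compl.mem_nhds hx] with y hy
    exact 𝒬.h'_φ t hy
  have e2 := tangentMap_congr_of_eventuallyEq (J := IC F) (I := IC F)
    (v := (⟨x, u⟩ : TangentBundle (IC F) (Cotangent F N))) e1
  have e3 : tangentMap (IC F) (IC F) (𝒬.h' ∘ 𝒬.φ t)
      (⟨x, u⟩ : TangentBundle (IC F) (Cotangent F N)) =
      tangentMap (IC F) (IC F) 𝒬.h' (tangentMap (IC F) (IC F) (𝒬.φ t) ⟨x, u⟩) :=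
    tangentMap_comp_at _ ((𝒬.h'_smoothAt hS hφx).mdifferentiableAt (by simp))
      ((𝒬.φ_smoothAt hS t hx).mdifferentiableAt (by simp))
  have e4 : tangentMap (IC F) (IC F) (scal (Real.exp t) ∘ 𝒬.h')
      (⟨x, u⟩ : TangentBundle (IC F) (Cotangent F N)) =
      tangentMap (IC F) (IC F) (scal (Real.exp t)) (tangentMap (IC F) (IC F) 𝒬.h' ⟨x, u⟩) :=
    tangentMap_comp_at _ ((contMDiff_scal_slice _).mdifferentiableAt (by simp))
      ((𝒬.h'_smoothAt hS hx).mdifferentiableAt (by simp))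
  rw [e3, e4] at e2
  exact (form_congr' canForm e2).trans (canForm_scal _ _ _)

/-- A Liouville flow on the complement of `S`. -/
def toFlow (hS : IsClosed S)
    (m₁ : ∀ U : Set (Cotangent F N), IsOpen U → S ⊆ U → ∃ V : Set (Cotangent F K), IsOpen V ∧
      zeroSet F K ⊆ V ∧ ∀ ξ ∈ V, ξ ∉ zeroSet F K → 𝒬.h ξ ∈ U)
    (m₂ : ∀ V : Set (Cotangent F K), IsOpen V → zeroSet F K ⊆ V → ∃ U : Set (Cotangent F N),
      IsOpen U ∧ S ⊆ U ∧ ∀ x ∈ U, x ∉ S → 𝒬.h' x ∈ V) : SingFlow S where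
  φ := 𝒬.φ
  f := 𝒬.f
  f_smooth := fun x hx => (𝒬.f_smoothAt hS hx).contMDiffWithinAt
  smooth := 𝒬.smooth_φ
  maps := fun t x hx => 𝒬.h_maps _ (𝒬.scal_notMem t hx)
  zero := fun x hx => by
    show 𝒬.h (scal (Real.exp 0) (𝒬.h' x)) = x
    rw [Real.exp_zero, scal_one, 𝒬.h_h' x hx]
  add := fun s t x hx => by
    show 𝒬.h (scal (Real.exp (s + t)) (𝒬.h' x)) = 𝒬.h (scal (Real.exp s) (𝒬.h' (𝒬.φ t x)))
    rw [𝒬.h'_φ t hx, scal_scal, Real.exp_add]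
  conf := fun t x hx u => 𝒬.conf hS t hx u
  cont := fun T U hU hSU => by
    obtain ⟨V, hV, h0V, hVU⟩ := m₁ U hU hSU
    have hW : IsOpen {p : ℝ × Cotangent F K | scal (Real.exp p.1) p.2 ∈ V} :=
      hV.preimage (continuous_scal.comp
        ((Real.continuous_exp.comp continuous_fst).prodMk continuous_snd))
    obtain ⟨u, v, hu, hv, h1, h2, h3⟩ := generalized_tube_lemma
      (isCompact_Icc (a := -T) (b := T)) (isCompact_zeroSet (F := F) (K := K)) hW (by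
        rintro ⟨s, _⟩ ⟨_, q, rfl⟩
        show scal (Real.exp s) (zeroC q) ∈ V
        rw [scal_zeroC]
        exact h0V ⟨q, rfl⟩)
    obtain ⟨U', hU', hSU', hU'v⟩ := m₂ v hv h2
    refine ⟨U', hU', hSU', fun t ht x hx hxS => ?_⟩
    exact hVU _ (h3 (⟨h1 ht, hU'v x hx hxS⟩ : (t, 𝒬.h' x) ∈ u ×ˢ v)) (𝒬.scal_notMem t hxS)
  contr := fun C hC U hU hSU => by
    obtain ⟨V, hV, h0V, hVU⟩ := m₁ U hU hSU
    obtain ⟨Q, hQ, -, hQ0, -⟩ := exists_starshaped (F := F) (L := K) isOpen_univ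
      (fun q => mem_univ _)
    obtain ⟨U₁, hU₁, hSU₁, hU₁Q⟩ := m₂ (interior Q) isOpen_interior (by
      rintro _ ⟨q, rfl⟩
      exact hQ0 q)
    have hCU : IsCompact (C \ U₁) := hC.diff hU₁
    have hCS : C \ U₁ ⊆ Sᶜ := fun x hx hxS => hx.2 (hSU₁ hxS)
    obtain ⟨s₀, -, hs₀⟩ := exists_contract (Q := V) (C := Q ∪ 𝒬.h' '' (C \ U₁)) (fun q => by
      rw [hV.interior_eq]
      exact h0V ⟨q, rfl⟩)
      (hQ.union (hCU.image_of_continuousOn (𝒬.h'_smooth.continuousOn.mono hCS)))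
    refine ⟨s₀, fun t ht x hx hxS => hVU _ ?_ (𝒬.scal_notMem (-t) hxS)⟩
    have h1 : scal (Real.exp (-t)) (𝒬.h' x) ∈ interior V := hs₀ t ht _ (by
      by_cases hxU : x ∈ U₁
      · exact Or.inl (interior_subset (hU₁Q x hxU hxS))
      · exact Or.inr ⟨x, ⟨hx, hxU⟩, rfl⟩)
    rwa [hV.interior_eq] at h1

end Punct

end Pool.Agent.H823.Nearby
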