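import Mathlib
import Pool.Graph.R_seed8.Helper186.LMain

/-! Canonical coordinates on the cotangent bundle and the volume. -/

open scoped Topology ContDiff Manifold
open Set Bundle

noncomputable section

namespace Pool.Agent.H823

set_option linter.unusedSectionVars false

universe u

open Pool.Agent.Helper186

section linear

variable {V : Type*} [NormedAddCommGroup V] [NormedSpace ℝ V] [FiniteDimensional ℝ V]

/-- The standard symplectic form of `V × V^*`. -/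
def stdForm (V : Type*) [NormedAddCommGroup V] [NormedSpace ℝ V] :
    LinearMap.BilinForm ℝ (V × (V →L[ℝ] ℝ)) :=
  LinearMap.mk₂ ℝ (fun a b => a.2 b.1 - b.2 a.1)
    (fun a a' b => by simp only [Prod.snd_add, Prod.fst_add, add_apply, map_add]; ring)
    (fun c a b => by
      simp only [Prod.smul_snd, Prod.smul_fst, smul_apply, map_smul, smul_eq_mul]; ring)
    (fun a b b' => by simp only [Prod.snd_add, Prod.fst_add, add_apply, map_add]; ring)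
    (fun c a b => by
      simp only [Prod.smul_snd, Prod.smul_fst, smul_apply, map_smul, smul_eq_mul]; ring)

lemma stdForm_apply (a b : V × (V →L[ℝ] ℝ)) : stdForm V a b = a.2 b.1 - b.2 a.1 := rfl

lemma stdForm_nondegenerate : (stdForm V).Nondegenerate := by
  apply LinearMap.BilinForm.Nondegenerate.ofSeparatingLeft
  intro a ha
  refine Prod.ext ?_ ?_
  · have h1 : ∀ f : V →L[ℝ] ℝ, f a.1 = 0 := by
      intro f
      have h2 := ha (0, f)
      rw [stdForm_apply] at h2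
      simpa using h2
    by_contra h
    obtain ⟨f, hf⟩ := SeparatingDual.exists_ne_zero (R := ℝ) (show a.1 ≠ 0 from h)
    exact hf (h1 f)
  · refine ContinuousLinearMap.ext fun v => ?_
    have h2 := ha (v, 0)
    rw [stdForm_apply] at h2
    simpa using h2

lemma finrank_dualC : Module.finrank ℝ (V →L[ℝ] ℝ) = Module.finrank ℝ V := by
  rw [← (LinearMap.toContinuousLinearMap (𝕜 := ℝ) (E := V) (F' := ℝ)).finrank_eq]
  exact Subspace.dual_finrank_eq (K := ℝ) (V := V)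

lemma abs_det_eq {A : (V × (V →L[ℝ] ℝ)) →ₗ[ℝ] (V × (V →L[ℝ] ℝ))} {c : ℝ} (hc : 0 < c)
    (hA : ∀ a b, stdForm V (A a) (A b) = c * stdForm V a b) :
    |LinearMap.det A| = c ^ Module.finrank ℝ V := by
  classical
  let b := Module.finBasis ℝ (V × (V →L[ℝ] ℝ))
  have h1 := LinearMap.BilinForm.toMatrix_comp b b (stdForm V) A A
  have h2 : (stdForm V).comp A A = c • stdForm V :=
    LinearMap.ext fun x => LinearMap.ext fun y => hA x y
  rw [h2, map_smul] at h1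
  have h3 := congrArg Matrix.det h1
  rw [Matrix.det_mul, Matrix.det_mul, Matrix.det_transpose, LinearMap.det_toMatrix,
    Matrix.det_smul, Fintype.card_fin] at h3
  have hfr : c ^ Module.finrank ℝ (V × (V →L[ℝ] ℝ)) =
      c ^ Module.finrank ℝ V * c ^ Module.finrank ℝ V := by
    rw [Module.finrank_prod, finrank_dualC, pow_add]
  rw [hfr] at h3
  have h4 : (LinearMap.BilinForm.toMatrix b (stdForm V)).det ≠ 0 :=
    (LinearMap.BilinForm.nondegenerate_iff_det_ne_zero b).1 stdForm_nondegenerate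
  have h5 : LinearMap.det A * LinearMap.det A =
      c ^ Module.finrank ℝ V * c ^ Module.finrank ℝ V := by
    have h6 : (LinearMap.BilinForm.toMatrix b (stdForm V)).det *
        (LinearMap.det A * LinearMap.det A -
          c ^ Module.finrank ℝ V * c ^ Module.finrank ℝ V) = 0 := by linear_combination -h3
    rcases mul_eq_zero.1 h6 with h | h
    · exact absurd h h4
    · linarith
  have h6 : |LinearMap.det A| * |LinearMap.det A| =
      c ^ Module.finrank ℝ V * c ^ Module.finrank ℝ V := by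
    rw [← abs_mul, h5, abs_of_pos (by positivity)]
  have h7 : 0 < c ^ Module.finrank ℝ V := by positivity
  nlinarith [abs_nonneg (LinearMap.det A)]

end linear

section charts

variable {F : Type u} [NormedAddCommGroup F] [NormedSpace ℝ F] [FiniteDimensional ℝ F]
  {L : Type*} [TopologicalSpace L] [ChartedSpace F L] [IsManifold 𝓘(ℝ, F) ∞ L]
  {N : Type*} [TopologicalSpace N] [ChartedSpace F N] [IsManifold 𝓘(ℝ, F) ∞ N]

lemma chart_apply (ξ₀ ξ : Cotangent F L) : extChartAt (IC F) ξ₀ ξ =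
    (extChartAt 𝓘(ℝ, F) ξ₀.1 (trivializationAt (F →L[ℝ] ℝ)
      (fun x : L => TangentSpace 𝓘(ℝ, F) x →L[ℝ] ℝ) ξ₀.1 ξ).1,
      (trivializationAt (F →L[ℝ] ℝ)
      (fun x : L => TangentSpace 𝓘(ℝ, F) x →L[ℝ] ℝ) ξ₀.1 ξ).2) := by
  rw [FiberBundle.extChartAt]
  rfl

lemma triv_mem_source_iff (q₀ : L) (ξ : Cotangent F L) :
    ξ ∈ (trivializationAt (F →L[ℝ] ℝ)
      (fun x : L => TangentSpace 𝓘(ℝ, F) x →L[ℝ] ℝ) q₀).source ↔ ξ.1 ∈ (chartAt F q₀).source := by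
  rw [Trivialization.mem_source]
  constructor
  · intro h
    exact h.1
  · intro h
    exact ⟨h, mem_univ _⟩

lemma mem_source_iff (ξ₀ ξ : Cotangent F L) : ξ ∈ (extChartAt (IC F) ξ₀).source ↔
    ξ.1 ∈ (chartAt F ξ₀.1).source := by
  rw [FiberBundle.extChartAt]
  constructor
  · intro h
    exact (triv_mem_source_iff ξ₀.1 ξ).1 h.1
  · intro h
    have h1 := (triv_mem_source_iff ξ₀.1 ξ).2 h
    refine ⟨h1, ?_, mem_univ _⟩
    show (trivializationAt (F →L[ℝ] ℝ)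
      (fun x : L => TangentSpace 𝓘(ℝ, F) x →L[ℝ] ℝ) ξ₀.1 ξ).1 ∈ (extChartAt 𝓘(ℝ, F) ξ₀.1).source
    rw [Trivialization.coe_fst _ h1, extChartAt_source]
    exact h

lemma chart_fst (ξ₀ : Cotangent F L) {ξ : Cotangent F L} (hξ : ξ ∈ (extChartAt (IC F) ξ₀).source) :
    (extChartAt (IC F) ξ₀ ξ).1 = extChartAt 𝓘(ℝ, F) ξ₀.1 ξ.1 := by
  have h1 := (triv_mem_source_iff ξ₀.1 ξ).2 ((mem_source_iff ξ₀ ξ).1 hξ)
  rw [chart_apply, Trivialization.coe_fst _ h1]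

lemma chart_snd (ξ₀ ξ : Cotangent F L) (a : F) :
    (extChartAt (IC F) ξ₀ ξ).2 a =
      ξ.2 ((trivializationAt F (TangentSpace 𝓘(ℝ, F)) ξ₀.1).symmL ℝ ξ.1 a) := by
  rw [chart_apply]
  exact cot_triv_apply ξ₀.1 ξ.1 ξ.2 a

lemma chart_scal (ξ₀ : Cotangent F L) {ξ : Cotangent F L}
    (hξ : ξ ∈ (extChartAt (IC F) ξ₀).source) (s : ℝ) :
    scal s ξ ∈ (extChartAt (IC F) ξ₀).source ∧ extChartAt (IC F) ξ₀ (scal s ξ) =
      ((extChartAt (IC F) ξ₀ ξ).1, s • (extChartAt (IC F) ξ₀ ξ).2) := by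
  have h1 : scal s ξ ∈ (extChartAt (IC F) ξ₀).source :=
    (mem_source_iff ξ₀ _).2 ((mem_source_iff ξ₀ ξ).1 hξ)
  refine ⟨h1, Prod.ext ?_ (ContinuousLinearMap.ext fun a => ?_)⟩
  · rw [chart_fst ξ₀ h1, chart_fst ξ₀ hξ]
    rfl
  · rw [chart_snd]
    show s • (ξ.2 ((trivializationAt F (TangentSpace 𝓘(ℝ, F)) ξ₀.1).symmL ℝ ξ.1 a)) =
      s • ((extChartAt (IC F) ξ₀ ξ).2 a)
    rw [chart_snd]

/-- The canonical one-form in the charts. -/
lemma canForm_chart (ξ₀ : Cotangent F L) {y : F × (F →L[ℝ] ℝ)}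
    (hy : y ∈ (extChartAt (IC F) ξ₀).target) (w : F × (F →L[ℝ] ℝ)) :
    chartForm (IC F) canForm ξ₀ y w = y.2 w.1 := by
  set e := extChartAt (IC F) ξ₀ with he
  have hys : e.symm y ∈ e.source := e.map_target hy
  have hq : (e.symm y).1 ∈ (chartAt F ξ₀.1).source := (mem_source_iff ξ₀ _).1 hys
  have hd : MDifferentiableAt 𝓘(ℝ, F × (F →L[ℝ] ℝ)) (IC F) e.symm y :=
    ((contMDiffOn_extChartAt_symm (n := ∞) ξ₀).contMDiffAt
      ((isOpen_extChartAt_target ξ₀).mem_nhds hy)).mdifferentiableAt (by simp)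
  have h1 : chartForm (IC F) canForm ξ₀ y w = (e.symm y).2
      (mfderiv (IC F) 𝓘(ℝ, F) (TotalSpace.proj : Cotangent F L → L) (e.symm y)
        (mfderiv 𝓘(ℝ, F × (F →L[ℝ] ℝ)) (IC F) e.symm y w)) := rfl
  set φ := extChartAt 𝓘(ℝ, F) ξ₀.1 with hφ
  have hφe : φ (e.symm y).1 = y.1 := by
    rw [← chart_fst ξ₀ hys, ← he, e.right_inv hy]
  have hy1 : y.1 ∈ φ.target := by
    rw [← hφe]
    exact φ.map_source (by rw [hφ, extChartAt_source]; exact hq)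
  have hev : ((TotalSpace.proj : Cotangent F L → L) ∘ e.symm) =ᶠ[𝓝 y]
      φ.symm ∘ (Prod.fst : F × (F →L[ℝ] ℝ) → F) := by
    filter_upwards [(isOpen_extChartAt_target ξ₀).mem_nhds hy] with y' hy'
    have hys' : e.symm y' ∈ e.source := e.map_target hy'
    have hq' : (e.symm y').1 ∈ (chartAt F ξ₀.1).source := (mem_source_iff ξ₀ _).1 hys'
    have h2 : φ (e.symm y').1 = y'.1 := by
      rw [← chart_fst ξ₀ hys', ← he, e.right_inv hy']
    show (e.symm y').1 = φ.symm y'.1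
    rw [← h2, φ.left_inv (by rw [hφ, extChartAt_source]; exact hq')]
  have hev2 := tangentMap_congr_of_eventuallyEq (J := 𝓘(ℝ, F × (F →L[ℝ] ℝ))) (I := 𝓘(ℝ, F))
    (v := (⟨y, w⟩ : TangentBundle 𝓘(ℝ, F × (F →L[ℝ] ℝ)) (F × (F →L[ℝ] ℝ)))) hev
  have e3 : tangentMap 𝓘(ℝ, F × (F →L[ℝ] ℝ)) 𝓘(ℝ, F)
      ((TotalSpace.proj : Cotangent F L → L) ∘ e.symm)
      (⟨y, w⟩ : TangentBundle 𝓘(ℝ, F × (F →L[ℝ] ℝ)) (F × (F →L[ℝ] ℝ))) =
      tangentMap (IC F) 𝓘(ℝ, F) (TotalSpace.proj : Cotangent F L → L)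
        (tangentMap 𝓘(ℝ, F × (F →L[ℝ] ℝ)) (IC F) e.symm ⟨y, w⟩) :=
    tangentMap_comp_at _ (contMDiff_projC.mdifferentiableAt (by simp)) hd
  have e4 : tangentMap 𝓘(ℝ, F × (F →L[ℝ] ℝ)) 𝓘(ℝ, F)
      (φ.symm ∘ (Prod.fst : F × (F →L[ℝ] ℝ) → F))
      (⟨y, w⟩ : TangentBundle 𝓘(ℝ, F × (F →L[ℝ] ℝ)) (F × (F →L[ℝ] ℝ))) =
      tangentMap 𝓘(ℝ, F) 𝓘(ℝ, F) φ.symm (tangentMap 𝓘(ℝ, F × (F →L[ℝ] ℝ)) 𝓘(ℝ, F)
        (Prod.fst : F × (F →L[ℝ] ℝ) → F) ⟨y, w⟩) :=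
    tangentMap_comp_at _ (((contMDiffOn_extChartAt_symm (n := ∞) ξ₀.1).contMDiffAt
      ((isOpen_extChartAt_target ξ₀.1).mem_nhds hy1)).mdifferentiableAt (by simp))
      (contDiff_fst.contMDiff.mdifferentiableAt (n := 1) (by simp))
  rw [e3, e4] at hev2
  have h10 : ∀ (V W : TangentBundle 𝓘(ℝ, F) L), V = W → (V.2 : F) = (W.2 : F) := by
    rintro V W rfl; rfl
  have h11 := h10 _ _ hev2
  have h12 : (tangentMap 𝓘(ℝ, F) 𝓘(ℝ, F) φ.symm (tangentMap 𝓘(ℝ, F × (F →L[ℝ] ℝ)) 𝓘(ℝ, F)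
        (Prod.fst : F × (F →L[ℝ] ℝ) → F) (⟨y, w⟩ : TangentBundle 𝓘(ℝ, F × (F →L[ℝ] ℝ))
          (F × (F →L[ℝ] ℝ))))).2 = mfderiv 𝓘(ℝ, F) 𝓘(ℝ, F) φ.symm y.1 w.1 := by
    simp only [tangentMap, mfderiv_eq_fderiv, fderiv_fst]
    rfl
  have h13 := TangentBundle.symmL_trivializationAt (I := 𝓘(ℝ, F)) hq
  rw [ModelWithCorners.range_eq_univ, mfderivWithin_univ, ← hφ, hφe] at h13
  have h14 : y.2 w.1 = (e.symm y).2
      ((trivializationAt F (TangentSpace 𝓘(ℝ, F)) ξ₀.1).symmL ℝ (e.symm y).1 w.1) := by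
    rw [← chart_snd, ← he, e.right_inv hy]
  rw [h1, h14, h13]
  exact congrArg (e.symm y).2 (h11.trans h12)

lemma hasFDerivAt_eval {E : Type*} [NormedAddCommGroup E] [NormedSpace ℝ E] {c : E → E →L[ℝ] ℝ}
    {c' : E →L[ℝ] E →L[ℝ] ℝ} {z : E} (h : HasFDerivAt c c' z) (d : E) :
    HasFDerivAt (fun q => c q d) ((ContinuousLinearMap.apply ℝ ℝ d).comp c') z :=
  (ContinuousLinearMap.apply ℝ ℝ d).hasFDerivAt.comp z h

/-- The derivative of the canonical one-form in the charts. -/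
lemma fderiv_canForm_chart (ξ₀ : Cotangent F L) {z : F × (F →L[ℝ] ℝ)}
    (hz : z ∈ (extChartAt (IC F) ξ₀).target) (c d : F × (F →L[ℝ] ℝ)) :
    fderiv ℝ (chartForm (IC F) (canForm : (ξ : Cotangent F L) → _) ξ₀) z c d = c.2 d.1 := by
  have hd : DifferentiableAt ℝ (chartForm (IC F) (canForm : (ξ : Cotangent F L) → _) ξ₀) z :=
    ((contDiffOn_chartForm smoothForm_canForm ξ₀).contDiffAt
      ((isOpen_extChartAt_target ξ₀).mem_nhds hz)).differentiableAt (by simp)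
  have h5 : HasFDerivAt (fun q => chartForm (IC F) (canForm : (ξ : Cotangent F L) → _) ξ₀ q d)
      ((ContinuousLinearMap.apply ℝ ℝ d).comp
        (fderiv ℝ (chartForm (IC F) (canForm : (ξ : Cotangent F L) → _) ξ₀) z)) z :=
    hasFDerivAt_eval hd.hasFDerivAt d
  have h6 : HasFDerivAt (fun q : F × (F →L[ℝ] ℝ) => q.2 d.1)
      ((ContinuousLinearMap.apply ℝ ℝ d.1).comp (ContinuousLinearMap.snd ℝ F (F →L[ℝ] ℝ))) z :=
    ((ContinuousLinearMap.apply ℝ ℝ d.1).comp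
      (ContinuousLinearMap.snd ℝ F (F →L[ℝ] ℝ))).hasFDerivAt
  have h7 : (fun q => chartForm (IC F) (canForm : (ξ : Cotangent F L) → _) ξ₀ q d) =ᶠ[𝓝 z]
      (fun q : F × (F →L[ℝ] ℝ) => q.2 d.1) := by
    filter_upwards [(isOpen_extChartAt_target ξ₀).mem_nhds hz] with q hq
    exact canForm_chart ξ₀ hq d
  have h8 := h5.unique (h6.congr_of_eventuallyEq h7)
  exact DFunLike.congr_fun h8 c

/-- The effect of an exact conformally symplectic map on the volume in canonical charts. -/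
theorem exists_hasFDerivAt_chart {h : Cotangent F N → Cotangent F L} {g : Cotangent F N → ℝ}
    {c : ℝ} (hc : 0 < c) {U : Set (Cotangent F N)} (hU : IsOpen U)
    (hh : ContMDiffOn (IC F) (IC F) ∞ h U) (hg : ContMDiffOn (IC F) 𝓘(ℝ, ℝ) ∞ g U)
    (hpb : ∀ x ∈ U, PB canForm canForm h c g x) (x₀ : Cotangent F N) (ξ₀ : Cotangent F L)
    {y : F × (F →L[ℝ] ℝ)} (hy : y ∈ (extChartAt (IC F) x₀).target)
    (hyU : (extChartAt (IC F) x₀).symm y ∈ U)
    (hyh : h ((extChartAt (IC F) x₀).symm y) ∈ (extChartAt (IC F) ξ₀).source) :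
    ∃ A : (F × (F →L[ℝ] ℝ)) →L[ℝ] (F × (F →L[ℝ] ℝ)),
      HasFDerivAt (fun y => extChartAt (IC F) ξ₀ (h ((extChartAt (IC F) x₀).symm y))) A y ∧
        |A.det| = c ^ Module.finrank ℝ F := by
  set e := extChartAt (IC F) x₀ with he
  set e' := extChartAt (IC F) ξ₀ with he'
  set S : F × (F →L[ℝ] ℝ) → Cotangent F L := fun y => h (e.symm y) with hS
  set G : F × (F →L[ℝ] ℝ) → ℝ := fun y => g (e.symm y) with hG
  have hes : ContMDiffOn 𝓘(ℝ, F × (F →L[ℝ] ℝ)) (IC F) ∞ e.symm e.target :=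
    contMDiffOn_extChartAt_symm x₀
  have hU' : IsOpen (e.target ∩ e.symm ⁻¹' U) :=
    hes.continuousOn.isOpen_inter_preimage (isOpen_extChartAt_target x₀) hU
  have hyU' : y ∈ e.target ∩ e.symm ⁻¹' U := ⟨hy, hyU⟩
  have hSs : ContMDiffOn 𝓘(ℝ, F × (F →L[ℝ] ℝ)) (IC F) ∞ S (e.target ∩ e.symm ⁻¹' U) :=
    hh.comp (hes.mono inter_subset_left) fun q hq => hq.2
  have hGs : ContMDiffOn 𝓘(ℝ, F × (F →L[ℝ] ℝ)) 𝓘(ℝ, ℝ) ∞ G (e.target ∩ e.symm ⁻¹' U) :=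
    hg.comp (hes.mono inter_subset_left) fun q hq => hq.2
  have hGat : ContDiffAt ℝ ∞ G y :=
    contMDiffAt_iff_contDiffAt.1 (hGs.contMDiffAt (hU'.mem_nhds hyU'))
  have key : ∀ q ∈ e.target ∩ e.symm ⁻¹' U, ∀ v : F × (F →L[ℝ] ℝ),
      canForm (S q) (mfderiv 𝓘(ℝ, F × (F →L[ℝ] ℝ)) (IC F) S q v) =
        c * q.2 v.1 + fderiv ℝ G q v := by
    intro q hq v
    have d1 : MDifferentiableAt 𝓘(ℝ, F × (F →L[ℝ] ℝ)) (IC F) e.symm q :=
      (hes.contMDiffAt ((isOpen_extChartAt_target x₀).mem_nhds hq.1)).mdifferentiableAt (by simp)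
    have d2 : MDifferentiableAt (IC F) (IC F) h (e.symm q) :=
      (hh.contMDiffAt (hU.mem_nhds hq.2)).mdifferentiableAt (by simp)
    have d3 : MDifferentiableAt (IC F) 𝓘(ℝ, ℝ) g (e.symm q) :=
      (hg.contMDiffAt (hU.mem_nhds hq.2)).mdifferentiableAt (by simp)
    have h1 := DFunLike.congr_fun (mfderiv_comp (I := 𝓘(ℝ, F × (F →L[ℝ] ℝ))) (I' := IC F)
      (I'' := IC F) q d2 d1) v
    have h2 := DFunLike.congr_fun (mfderiv_comp (I := 𝓘(ℝ, F × (F →L[ℝ] ℝ))) (I' := IC F)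
      (I'' := 𝓘(ℝ, ℝ)) q d3 d1) v
    have h3 := hpb (e.symm q) hq.2 (mfderiv 𝓘(ℝ, F × (F →L[ℝ] ℝ)) (IC F) e.symm q v)
    have h4 : canForm (e.symm q) (mfderiv 𝓘(ℝ, F × (F →L[ℝ] ℝ)) (IC F) e.symm q v) = q.2 v.1 :=
      canForm_chart x₀ hq.1 v
    have h5 : fderiv ℝ G q v = (show ℝ from mfderiv (IC F) 𝓘(ℝ, ℝ) g (e.symm q)
        (mfderiv 𝓘(ℝ, F × (F →L[ℝ] ℝ)) (IC F) e.symm q v)) := by
      rw [← mfderiv_eq_fderiv]
      exact h2
    rw [h5, ← h4]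
    refine Eq.trans ?_ h3
    exact congrArg (canForm (h (e.symm q))) h1
  have hder : ∀ u v : F × (F →L[ℝ] ℝ), fderiv ℝ (fun q => canForm (S q)
      (mfderiv 𝓘(ℝ, F × (F →L[ℝ] ℝ)) (IC F) S q v)) y u =
      c * u.2 v.1 + fderiv ℝ (fderiv ℝ G) y u v := by
    intro u v
    have e1 : (fun q => canForm (S q) (mfderiv 𝓘(ℝ, F × (F →L[ℝ] ℝ)) (IC F) S q v)) =ᶠ[𝓝 y]
        fun q => c * q.2 v.1 + fderiv ℝ G q v := by
      filter_upwards [hU'.mem_nhds hyU'] with q hq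
      exact key q hq v
    rw [e1.fderiv_eq]
    have h6 : HasFDerivAt (fun q : F × (F →L[ℝ] ℝ) => c * q.2 v.1)
        (c • (ContinuousLinearMap.apply ℝ ℝ v.1).comp
          (ContinuousLinearMap.snd ℝ F (F →L[ℝ] ℝ))) y :=
      (c • (ContinuousLinearMap.apply ℝ ℝ v.1).comp
        (ContinuousLinearMap.snd ℝ F (F →L[ℝ] ℝ))).hasFDerivAt
    have h2 : HasFDerivAt (fderiv ℝ G) (fderiv ℝ (fderiv ℝ G) y) y :=
      ((hGat.fderiv_right (m := ∞) (by simp)).differentiableAt (by simp)).hasFDerivAt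
    have h3 : HasFDerivAt (fun q => fderiv ℝ G q v)
        ((ContinuousLinearMap.apply ℝ ℝ v).comp (fderiv ℝ (fderiv ℝ G) y)) y :=
      hasFDerivAt_eval h2 v
    have h7 : HasFDerivAt (fun q : F × (F →L[ℝ] ℝ) => c * q.2 v.1 + fderiv ℝ G q v)
        (c • (ContinuousLinearMap.apply ℝ ℝ v.1).comp (ContinuousLinearMap.snd ℝ F (F →L[ℝ] ℝ)) +
          (ContinuousLinearMap.apply ℝ ℝ v).comp (fderiv ℝ (fderiv ℝ G) y)) y := h6.add h3
    rw [h7.fderiv]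
    rfl
  have hsymm : ∀ u v, fderiv ℝ (fderiv ℝ G) y u v = fderiv ℝ (fderiv ℝ G) y v u := by
    have := hGat.isSymmSndFDerivAt (by
      simp only [minSmoothness_of_isRCLikeNormedField]; exact ENat.LEInfty.out)
    exact fun u v => this u v
  have hsy : S y ∈ (chartAt (ModelProd F (F →L[ℝ] ℝ)) ξ₀).source := by
    rw [← extChartAt_source (IC F)]
    exact hyh
  have dS : MDifferentiableAt 𝓘(ℝ, F × (F →L[ℝ] ℝ)) (IC F) S y :=
    (hSs.contMDiffAt (hU'.mem_nhds hyU')).mdifferentiableAt (by simp)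
  have de' : MDifferentiableAt (IC F) 𝓘(ℝ, F × (F →L[ℝ] ℝ)) e' (S y) :=
    (contMDiffAt_extChartAt' (n := ∞) hsy).mdifferentiableAt (by simp)
  have dψ : MDifferentiableAt 𝓘(ℝ, F × (F →L[ℝ] ℝ)) 𝓘(ℝ, F × (F →L[ℝ] ℝ)) (e' ∘ S) y :=
    de'.comp y dS
  have hAu : ∀ u : F × (F →L[ℝ] ℝ), fderiv ℝ (e' ∘ S) y u =
      (trivializationAt (F × (F →L[ℝ] ℝ)) (TangentSpace (IC F)) ξ₀).continuousLinearMapAt ℝ (S y)
        (mfderiv 𝓘(ℝ, F × (F →L[ℝ] ℝ)) (IC F) S y u) := by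
    intro u
    rw [TangentBundle.continuousLinearMapAt_trivializationAt hsy, ← mfderiv_eq_fderiv]
    exact DFunLike.congr_fun (mfderiv_comp (I := 𝓘(ℝ, F × (F →L[ℝ] ℝ))) (I' := IC F)
      (I'' := 𝓘(ℝ, F × (F →L[ℝ] ℝ))) y de' dS) u
  refine ⟨fderiv ℝ (e' ∘ S) y, dψ.differentiableAt.hasFDerivAt, ?_⟩
  have hpres : ∀ u v, stdForm F (fderiv ℝ (e' ∘ S) y u) (fderiv ℝ (e' ∘ S) y v) =
      c * stdForm F u v := by
    intro u v
    have h1 := extDer_pullback (smoothForm_canForm (F := F) (L := L)) hU' hSs hyU' u v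
    rw [hder, hder, hsymm v u] at h1
    have h2 := extDer_eq_chart (smoothForm_canForm (F := F) (L := L)) ξ₀ hsy
      (mfderiv 𝓘(ℝ, F × (F →L[ℝ] ℝ)) (IC F) S y u) (mfderiv 𝓘(ℝ, F × (F →L[ℝ] ℝ)) (IC F) S y v)
    have hz : e' (S y) ∈ e'.target := e'.map_source hyh
    rw [← hAu, ← hAu, fderiv_canForm_chart ξ₀ hz, fderiv_canForm_chart ξ₀ hz] at h2
    rw [stdForm_apply, stdForm_apply, ← h2, h1]
    ring
  exact abs_det_eq (A := (fderiv ℝ (e' ∘ S) y).toLinearMap) hc hpres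

end charts

end Pool.Agent.H823
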