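import Mathlib
import Pool.Agent.H823.Vol1

/-! Volume bounds for exact conformally symplectic maps between cotangent bundles. -/

open scoped Topology ContDiff Manifold
open Set Bundle MeasureTheory

noncomputable section

namespace Pool.Agent.H823

set_option linter.unusedSectionVars false

universe u

open Pool.Agent.Helper186

variable {F : Type u} [NormedAddCommGroup F] [NormedSpace ℝ F] [FiniteDimensional ℝ F]
  {L : Type*} [TopologicalSpace L] [ChartedSpace F L] [IsManifold 𝓘(ℝ, F) ∞ L]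
  {N : Type*} [TopologicalSpace N] [ChartedSpace F N] [IsManifold 𝓘(ℝ, F) ∞ N]

/-- The Borel sets of the model space. -/
local instance instMeasurableModel : MeasurableSpace (F × (F →L[ℝ] ℝ)) := borel _

local instance instBorelModel : BorelSpace (F × (F →L[ℝ] ℝ)) := ⟨rfl⟩

/-- The volume of the model space. -/
def vol (F : Type u) [NormedAddCommGroup F] [NormedSpace ℝ F] [FiniteDimensional ℝ F] :
    Measure (F × (F →L[ℝ] ℝ)) := Measure.addHaar

/-- The volume of the part of the open set `O` in the chart at `x₀`. -/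
def cvol (x₀ : Cotangent F N) (O : Set (Cotangent F N)) : ENNReal :=
  vol F ((extChartAt (IC F) x₀).target ∩ (extChartAt (IC F) x₀).symm ⁻¹' O)

lemma isOpen_piece (x₀ : Cotangent F N) {O : Set (Cotangent F N)} (hO : IsOpen O) :
    IsOpen ((extChartAt (IC F) x₀).target ∩ (extChartAt (IC F) x₀).symm ⁻¹' O) :=
  ((contMDiffOn_extChartAt_symm (n := ∞) x₀).continuousOn).isOpen_inter_preimage
    (isOpen_extChartAt_target x₀) hO

lemma cvol_pos {x₀ : Cotangent F N} {O : Set (Cotangent F N)} (hO : IsOpen O) (hx₀ : x₀ ∈ O) :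
    cvol x₀ O ≠ 0 := by
  have h1 : ((extChartAt (IC F) x₀).target ∩ (extChartAt (IC F) x₀).symm ⁻¹' O).Nonempty :=
    ⟨extChartAt (IC F) x₀ x₀, mem_extChartAt_target x₀, by
      show (extChartAt (IC F) x₀).symm (extChartAt (IC F) x₀ x₀) ∈ O
      rw [(extChartAt (IC F) x₀).left_inv (mem_extChartAt_source x₀)]
      exact hx₀⟩
  exact ((isOpen_piece x₀ hO).measure_pos (Measure.addHaar) h1).ne'

lemma cvol_mono (x₀ : Cotangent F N) {O O' : Set (Cotangent F N)} (h : O ⊆ O') :
    cvol x₀ O ≤ cvol x₀ O' :=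
  measure_mono (inter_subset_inter_right _ (preimage_mono h))

lemma cvol_iUnion_le {ι : Type*} [Countable ι] (x₀ : Cotangent F N)
    (O : ι → Set (Cotangent F N)) : cvol x₀ (⋃ i, O i) ≤ ∑' i, cvol x₀ (O i) := by
  unfold cvol
  rw [preimage_iUnion, inter_iUnion]
  exact measure_iUnion_le _

/-- Doubling the momenta. -/
def dbl (F : Type u) [NormedAddCommGroup F] [NormedSpace ℝ F] [FiniteDimensional ℝ F] :
    (F × (F →L[ℝ] ℝ)) →ₗ[ℝ] (F × (F →L[ℝ] ℝ)) :=
  LinearMap.prodMap LinearMap.id ((2:ℝ) • LinearMap.id)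

lemma det_dbl : LinearMap.det (dbl F) = 2 ^ Module.finrank ℝ F := by
  unfold dbl
  rw [LinearMap.det_prodMap, LinearMap.det_id, one_mul, LinearMap.det_smul, LinearMap.det_id,
    mul_one, finrank_dualC]

/-- A set with finite volume is not invariant under doubling the momenta. -/
theorem cvol_eq_top (hF : 0 < Module.finrank ℝ F) {G : Set (Cotangent F N)} (hG : IsOpen G)
    {x₀ : Cotangent F N} (hx₀ : x₀ ∈ G) (hGs : MapsTo (scal 2) G G) : cvol x₀ G = ⊤ := by
  by_contra hfin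
  have hpos := cvol_pos hG hx₀
  unfold cvol at hfin hpos
  set e := extChartAt (IC F) x₀ with he
  set G₀ : Set (F × (F →L[ℝ] ℝ)) := e.target ∩ e.symm ⁻¹' G with hG₀
  have hdbl : dbl F '' G₀ ⊆ G₀ := by
    rintro _ ⟨y, hy, rfl⟩
    have hys : e.symm y ∈ e.source := e.map_target hy.1
    obtain ⟨h1, h2⟩ := chart_scal x₀ hys 2
    rw [← he, e.right_inv hy.1] at h2
    have h3 : dbl F y = (y.1, (2:ℝ) • y.2) := rfl
    rw [h3, ← h2]
    refine ⟨e.map_source h1, ?_⟩
    show e.symm (e (scal 2 (e.symm y))) ∈ G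
    rw [e.left_inv h1]
    exact hGs hy.2
  have hle : ENNReal.ofReal |LinearMap.det (dbl F)| * vol F G₀ ≤ vol F G₀ := by
    unfold vol
    rw [← Measure.addHaar_image_linearMap]
    exact measure_mono hdbl
  rw [det_dbl] at hle
  have h1 : (2:ℝ) ≤ |2 ^ Module.finrank ℝ F| := by
    rw [abs_of_pos (by positivity)]
    calc (2:ℝ) = 2 ^ 1 := (pow_one 2).symm
      _ ≤ 2 ^ Module.finrank ℝ F := pow_le_pow_right₀ (by norm_num) hF
  have h2 : (2 : ENNReal) * vol F G₀ ≤ vol F G₀ := by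
    refine le_trans ?_ hle
    gcongr
    rw [← ENNReal.ofReal_ofNat]
    exact ENNReal.ofReal_le_ofReal h1
  rw [two_mul] at h2
  have h3 : vol F G₀ + vol F G₀ ≤ vol F G₀ + 0 := by rwa [add_zero]
  have h4 := (ENNReal.add_le_add_iff_left hfin).1 h3
  exact hpos (le_antisymm h4 bot_le)

/-- **Volume bound.** -/
theorem exists_volume_bound (N : Type*) [TopologicalSpace N] [ChartedSpace F N]
    [IsManifold 𝓘(ℝ, F) ∞ N] {Q : Set (Cotangent F L)} (hQ : IsCompact Q) :
    ∃ V : ENNReal, V ≠ ⊤ ∧ ∀ (h : Cotangent F N → Cotangent F L) (g : Cotangent F N → ℝ) (c : ℝ)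
      (U : Set (Cotangent F N)), 0 < c → IsOpen U → ContMDiffOn (IC F) (IC F) ∞ h U →
      ContMDiffOn (IC F) 𝓘(ℝ, ℝ) ∞ g U → (∀ x ∈ U, PB canForm canForm h c g x) → InjOn h U →
      ∀ (x₀ : Cotangent F N) (O : Set (Cotangent F N)), IsOpen O → O ⊆ U → MapsTo h O Q →
        ENNReal.ofReal (c ^ Module.finrank ℝ F) * cvol x₀ O ≤ V := by
  have hC : ∀ ζ : Cotangent F L, ∃ C ∈ 𝓝 ζ, C ⊆ (extChartAt (IC F) ζ).source ∧ IsCompact C :=
    fun ζ => local_compact_nhds (extChartAt_source_mem_nhds ζ)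
  choose C hCn hCs hCc using hC
  obtain ⟨t, -, ht⟩ := hQ.elim_nhds_subcover (fun ζ => interior (C ζ))
    (fun ζ _ => interior_mem_nhds.2 (hCn ζ))
  refine ⟨∑ ζ ∈ t, vol F (extChartAt (IC F) ζ '' C ζ), ?_, ?_⟩
  · refine (ENNReal.sum_lt_top.2 fun ζ _ => ?_).ne
    exact ((hCc ζ).image_of_continuousOn
      ((continuousOn_extChartAt ζ).mono (hCs ζ))).measure_lt_top (μ := Measure.addHaar)
  intro h g c U hc hU hh hg hpb hinj x₀ O hO hOU hOQ
  unfold cvol
  set e := extChartAt (IC F) x₀ with he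
  have hsub : e.target ∩ e.symm ⁻¹' O ⊆
      ⋃ ζ ∈ t, (e.target ∩ e.symm ⁻¹' (O ∩ h ⁻¹' interior (C ζ))) := by
    intro y hy
    have h1 := ht (hOQ hy.2)
    simp only [mem_iUnion] at h1 ⊢
    obtain ⟨ζ, hζ, h2⟩ := h1
    exact ⟨ζ, hζ, hy.1, hy.2, h2⟩
  calc ENNReal.ofReal (c ^ Module.finrank ℝ F) * vol F (e.target ∩ e.symm ⁻¹' O)
      ≤ ENNReal.ofReal (c ^ Module.finrank ℝ F) *
        ∑ ζ ∈ t, vol F (e.target ∩ e.symm ⁻¹' (O ∩ h ⁻¹' interior (C ζ))) := by
        gcongr
        exact (measure_mono hsub).trans (measure_biUnion_finset_le t _)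
    _ = ∑ ζ ∈ t, ENNReal.ofReal (c ^ Module.finrank ℝ F) *
        vol F (e.target ∩ e.symm ⁻¹' (O ∩ h ⁻¹' interior (C ζ))) := Finset.mul_sum _ _ _
    _ ≤ ∑ ζ ∈ t, vol F (extChartAt (IC F) ζ '' C ζ) := by
        refine Finset.sum_le_sum fun ζ _ => ?_
        have hGO : IsOpen (O ∩ h ⁻¹' interior (C ζ)) :=
          (hh.continuousOn.mono hOU).isOpen_inter_preimage hO isOpen_interior
        have hOo := isOpen_piece x₀ hGO
        rw [← he] at hOo
        set O' : Set (F × (F →L[ℝ] ℝ)) :=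
          e.target ∩ e.symm ⁻¹' (O ∩ h ⁻¹' interior (C ζ)) with hO'
        have hder := fun y (hy : y ∈ O') => exists_hasFDerivAt_chart hc hU hh hg hpb x₀ ζ hy.1
          (hOU hy.2.1) (hCs ζ (interior_subset hy.2.2))
        choose! A hA hAdet using hder
        have hinjO : InjOn (fun y => extChartAt (IC F) ζ (h (e.symm y))) O' := by
          intro y hy y' hy' hyy
          have h1 := (extChartAt (IC F) ζ).injOn (hCs ζ (interior_subset hy.2.2))
            (hCs ζ (interior_subset hy'.2.2)) hyy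
          have h2 := hinj (hOU hy.2.1) (hOU hy'.2.1) h1
          exact e.symm.injOn hy.1 hy'.1 h2
        have h1 := lintegral_abs_det_fderiv_eq_addHaar_image (Measure.addHaar)
          hOo.measurableSet (fun y hy => (hA y hy).hasFDerivWithinAt) hinjO
        have h2 : ∫⁻ y in O', ENNReal.ofReal |(A y).det| ∂(Measure.addHaar) =
            ENNReal.ofReal (c ^ Module.finrank ℝ F) * vol F O' := by
          rw [setLIntegral_congr_fun (g := fun _ => ENNReal.ofReal (c ^ Module.finrank ℝ F))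
            hOo.measurableSet (fun y hy => by
              show ENNReal.ofReal |(A y).det| = _
              rw [hAdet y hy])]
          rw [setLIntegral_const]
          rfl
        rw [← h2, h1]
        refine measure_mono ?_
        rintro _ ⟨y, hy, rfl⟩
        exact ⟨_, interior_subset hy.2.2, rfl⟩

/-- Volume is preserved by exact symplectic maps. -/
theorem not_scaling_set (hF : 0 < Module.finrank ℝ F)
    {h : Cotangent F N → Cotangent F L} {g : Cotangent F N → ℝ}
    {U : Set (Cotangent F N)} (hU : IsOpen U)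
    (hh : ContMDiffOn (IC F) (IC F) ∞ h U) (hg : ContMDiffOn (IC F) 𝓘(ℝ, ℝ) ∞ g U)
    (hpb : ∀ x ∈ U, PB canForm canForm h 1 g x) (hinj : InjOn h U)
    {G : Set (Cotangent F N)} (hG : IsOpen G) (hGU : G ⊆ U) (hGne : G.Nonempty)
    (hGs : MapsTo (scal 2) G G) {Q : Set (Cotangent F L)} (hQ : IsCompact Q)
    (hGQ : MapsTo h G Q) : False := by
  obtain ⟨x₀, hx₀⟩ := hGne
  obtain ⟨V, hV, hVb⟩ := exists_volume_bound N hQ
  have h1 := hVb h g 1 U one_pos hU hh hg hpb hinj x₀ G hG hGU hGQ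
  rw [one_pow, ENNReal.ofReal_one, one_mul, cvol_eq_top hF hG hx₀ hGs] at h1
  exact hV (top_le_iff.1 h1)

end Pool.Agent.H823
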