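import Mathlib
import Pool.Agent.H823.Sing6
import Pool.Agent.H823.Vol2

/-! Liouville flows on the complement of a closed exact Lagrangian submanifold, VIII: complements
which are symplectizations. -/

open scoped Topology ContDiff Manifold
open Set Bundle

noncomputable section

namespace Pool.Agent.H823.Nearby

set_option linter.unusedSectionVars false

universe u

open Pool.Agent.Helper186

variable {F : Type u} [NormedAddCommGroup F] [NormedSpace ℝ F] [FiniteDimensional ℝ F]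
  {L : Type*} [TopologicalSpace L] [ChartedSpace F L] [IsManifold 𝓘(ℝ, F) ∞ L]
  {N : Type*} [TopologicalSpace N] [ChartedSpace F N] [IsManifold 𝓘(ℝ, F) ∞ N]

/-- A Liouville flow on the complement of `S` with a proper homogeneous function. -/
structure ConicFlow (S : Set (Cotangent F N)) extends LFlow S where
  r : Cotangent F N → ℝ
  r_cont : ContinuousOn r Sᶜ
  r_pos : ∀ x ∉ S, 0 < r x
  r_hom : ∀ t, ∀ x ∉ S, r (φ t x) = Real.exp t * r x
  r_cpt : IsCompact {x | x ∉ S ∧ r x = 1}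

namespace ConicFlow

variable {S : Set (Cotangent F N)} (𝒢 : ConicFlow S)

/-- The compact set `{a ≤ r ≤ b}`. -/
def lev (a b : ℝ) : Set (Cotangent F N) :=
  (fun p : ℝ × Cotangent F N => 𝒢.φ p.1 p.2) '' (Icc (Real.log a) (Real.log b) ×ˢ
    {x | x ∉ S ∧ 𝒢.r x = 1})

lemma lev_compact (a b : ℝ) : IsCompact (𝒢.lev a b) :=
  (isCompact_Icc.prod 𝒢.r_cpt).image_of_continuousOn
    (𝒢.smooth.continuousOn.mono fun _ hp => ⟨mem_univ _, hp.2.1⟩)

lemma lev_sub (a b : ℝ) {x : Cotangent F N} (hx : x ∈ 𝒢.lev a b) : x ∉ S := by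
  obtain ⟨p, hp, rfl⟩ := hx
  exact 𝒢.maps _ _ hp.2.1

lemma mem_lev {a b : ℝ} (ha : 0 < a) {x : Cotangent F N} (hx : x ∉ S) (h1 : a ≤ 𝒢.r x)
    (h2 : 𝒢.r x ≤ b) : x ∈ 𝒢.lev a b := by
  have hr := 𝒢.r_pos x hx
  refine ⟨(Real.log (𝒢.r x), 𝒢.φ (-Real.log (𝒢.r x)) x), ⟨⟨Real.log_le_log ha h1,
    Real.log_le_log hr h2⟩, 𝒢.maps _ _ hx, ?_⟩, ?_⟩
  · rw [𝒢.r_hom _ _ hx, Real.exp_neg, Real.exp_log hr, inv_mul_cancel₀ hr.ne']
  · exact 𝒢.neg_right _ hx

lemma φ_inj (t : ℝ) : InjOn (𝒢.φ t) Sᶜ := by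
  intro x hx y hy hxy
  have h1 : 𝒢.φ (-t) (𝒢.φ t x) = 𝒢.φ (-t) (𝒢.φ t y) := by rw [hxy]
  rwa [𝒢.neg_left t hx, 𝒢.neg_left t hy] at h1

variable [T2Space N]

/-- The set `{r < 1}` is bounded. -/
theorem exists_bound (hF : 0 < Module.finrank ℝ F) (hS : IsCompact S) :
    ∃ D : Set (Cotangent F N), IsCompact D ∧ ∀ x ∉ S, 𝒢.r x < 1 → x ∈ D := by
  have hSc : IsClosed S := hS.isClosed
  set C := {x | x ∉ S ∧ 𝒢.r x = 1} ∪ S with hC
  have hCc : IsCompact C := 𝒢.r_cpt.union hS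
  set D := (fun p : ℝ × Cotangent F N => scal p.1 p.2) '' (Icc (0:ℝ) 1 ×ˢ C) with hD
  have hDc : IsCompact D := (isCompact_Icc.prod hCc).image continuous_scal
  have hCD : C ⊆ D := fun x hx => ⟨(1, x), ⟨⟨zero_le_one, le_rfl⟩, hx⟩, scal_one x⟩
  have hDs : ∀ x ∉ D, ∀ s : ℝ, 1 ≤ s → scal s x ∉ D := by
    rintro x hx s hs ⟨⟨r, c⟩, ⟨hr, hc⟩, hrc⟩
    apply hx
    have hs0 : s ≠ 0 := by linarith
    refine ⟨(s⁻¹ * r, c), ⟨⟨mul_nonneg (by positivity) hr.1,
      mul_le_one₀ (inv_le_one_of_one_le₀ hs) hr.1 hr.2⟩, hc⟩, ?_⟩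
    have h3 : scal r c = scal s x := hrc
    show scal (s⁻¹ * r) c = x
    rw [← scal_scal, h3, scal_scal, inv_mul_cancel₀ hs0, scal_one]
  have hDS : ∀ x ∉ D, x ∉ S := fun x hx hxS => hx (hCD (Or.inr hxS))
  have hrD : ContinuousOn 𝒢.r Dᶜ := 𝒢.r_cont.mono hDS
  refine ⟨D, hDc, ?_⟩
  set G := Dᶜ ∩ 𝒢.r ⁻¹' Iio 1 with hG
  have hGo : IsOpen G := hrD.isOpen_inter_preimage hDc.isClosed.isOpen_compl isOpen_Iio
  have hG'o : IsOpen (Dᶜ ∩ 𝒢.r ⁻¹' Ioi 1) :=
    hrD.isOpen_inter_preimage hDc.isClosed.isOpen_compl isOpen_Ioi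
  have hGs : MapsTo (scal 2) G G := by
    intro x hx
    have hpath : IsPreconnected ((fun s : ℝ => (scal s x : Cotangent F N)) '' Icc 1 2) :=
      isPreconnected_Icc.image _ (continuous_scal.comp
        (continuous_id.prodMk continuous_const)).continuousOn
    have hdis : Disjoint G (Dᶜ ∩ 𝒢.r ⁻¹' Ioi 1) := by
      rw [Set.disjoint_left]
      rintro y ⟨-, hy1⟩ ⟨-, hy2⟩
      exact lt_asymm (show 𝒢.r y < 1 from hy1) hy2
    have hcov : (fun s : ℝ => (scal s x : Cotangent F N)) '' Icc 1 2 ⊆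
        G ∪ (Dᶜ ∩ 𝒢.r ⁻¹' Ioi 1) := by
      rintro _ ⟨s, hs, rfl⟩
      have h3 : scal s x ∉ D := hDs x hx.1 s hs.1
      rcases lt_trichotomy (𝒢.r (scal s x)) 1 with h | h | h
      · exact Or.inl ⟨h3, h⟩
      · exact absurd (hCD (Or.inl ⟨hDS _ h3, h⟩)) h3
      · exact Or.inr ⟨h3, h⟩
    have h4 := hpath.subset_left_of_subset_union hGo hG'o hdis hcov
      ⟨x, ⟨1, ⟨le_rfl, by norm_num⟩, scal_one x⟩, hx⟩
    exact h4 ⟨2, ⟨by norm_num, le_rfl⟩, rfl⟩
  have hGe : ¬ G.Nonempty := by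
    rintro ⟨x₀, hx₀⟩
    have htop := cvol_eq_top hF hGo hx₀ hGs
    obtain ⟨V, hV, hVb⟩ := exists_volume_bound N (𝒢.lev_compact (Real.exp (-1)) (Real.exp 1))
    set n := Module.finrank ℝ F with hn
    -- the pieces
    set O : ℕ → Set (Cotangent F N) := fun k =>
      G ∩ 𝒢.r ⁻¹' Ioo (Real.exp (-k - 1)) (Real.exp (1 - k)) with hO
    have hOo : ∀ k, IsOpen (O k) := fun k =>
      (𝒢.r_cont.mono fun x hx => hDS x hx.1).isOpen_inter_preimage hGo isOpen_Ioo
    have hcovG : G ⊆ ⋃ k, O k := by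
      intro x hx
      have hr := 𝒢.r_pos x (hDS x hx.1)
      have hlog : 0 ≤ -Real.log (𝒢.r x) := by
        have := Real.log_nonpos hr.le (le_of_lt hx.2)
        linarith
      refine mem_iUnion.2 ⟨⌊-Real.log (𝒢.r x)⌋₊, hx, ?_, ?_⟩
      · rw [← Real.lt_log_iff_exp_lt hr]
        have := Nat.lt_floor_add_one (-Real.log (𝒢.r x))
        linarith
      · rw [← Real.log_lt_iff_lt_exp hr]
        have := Nat.floor_le hlog
        linarith
    have hpiece : ∀ k : ℕ, cvol x₀ (O k) ≤ V * (ENNReal.ofReal (Real.exp (-n))) ^ k := by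
      intro k
      have h1 := hVb (𝒢.φ k) (fun x => Real.exp k * 𝒢.f x - 𝒢.f (𝒢.φ k x)) (Real.exp k) Sᶜ
        (Real.exp_pos _) hSc.isOpen_compl
        (fun x hx => (𝒢.smoothAt hSc k hx).contMDiffWithinAt)
        (fun x hx => ((contMDiffAt_const.mul (𝒢.f_smoothAt hSc hx)).sub
          ((𝒢.f_smoothAt hSc (𝒢.maps k x hx)).comp x (𝒢.smoothAt hSc k hx))).contMDiffWithinAt)
        (fun x hx => 𝒢.pb hSc k hx) (𝒢.φ_inj k) x₀ (O k) (hOo k)
        (fun x hx => hDS x hx.1.1) (by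
          intro x hx
          have hxS := hDS x hx.1.1
          refine 𝒢.mem_lev (Real.exp_pos _) (𝒢.maps k x hxS) ?_ ?_
          · rw [𝒢.r_hom k x hxS]
            have h2 : Real.exp (-k - 1) ≤ 𝒢.r x := le_of_lt hx.2.1
            calc Real.exp (-1) = Real.exp k * Real.exp (-k - 1) := by
                  rw [← Real.exp_add]; congr 1; ring
              _ ≤ Real.exp k * 𝒢.r x := by gcongr
          · rw [𝒢.r_hom k x hxS]
            have h2 : 𝒢.r x ≤ Real.exp (1 - k) := le_of_lt hx.2.2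
            calc Real.exp k * 𝒢.r x ≤ Real.exp k * Real.exp (1 - k) := by gcongr
              _ = Real.exp 1 := by rw [← Real.exp_add]; congr 1; ring)
      have h3 : (ENNReal.ofReal (Real.exp (-n))) ^ k * ENNReal.ofReal (Real.exp k ^ n) = 1 := by
        rw [← ENNReal.ofReal_pow (Real.exp_pos _).le, ← ENNReal.ofReal_mul (by positivity),
          ← Real.exp_nat_mul, ← Real.exp_nat_mul, ← Real.exp_add]
        have : (k:ℝ) * -(n:ℝ) + n * k = 0 := by ring
        rw [this, Real.exp_zero, ENNReal.ofReal_one]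
      calc cvol x₀ (O k) = ((ENNReal.ofReal (Real.exp (-n))) ^ k *
            ENNReal.ofReal (Real.exp k ^ n)) * cvol x₀ (O k) := by rw [h3, one_mul]
        _ = (ENNReal.ofReal (Real.exp (-n))) ^ k *
            (ENNReal.ofReal (Real.exp k ^ n) * cvol x₀ (O k)) := by rw [mul_assoc]
        _ ≤ (ENNReal.ofReal (Real.exp (-n))) ^ k * V := by gcongr
        _ = V * (ENNReal.ofReal (Real.exp (-n))) ^ k := mul_comm _ _
    have hsum : cvol x₀ G ≤ V * (1 - ENNReal.ofReal (Real.exp (-n)))⁻¹ := by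
      calc cvol x₀ G ≤ cvol x₀ (⋃ k, O k) := cvol_mono x₀ hcovG
        _ ≤ ∑' k, cvol x₀ (O k) := cvol_iUnion_le x₀ O
        _ ≤ ∑' k, V * (ENNReal.ofReal (Real.exp (-n))) ^ k := ENNReal.tsum_le_tsum hpiece
        _ = V * (1 - ENNReal.ofReal (Real.exp (-n)))⁻¹ := by
            rw [ENNReal.tsum_mul_left, ENNReal.tsum_geometric]
    rw [htop, top_le_iff] at hsum
    have hlt : ENNReal.ofReal (Real.exp (-n)) < 1 := by
      rw [← ENNReal.ofReal_one]
      refine (ENNReal.ofReal_lt_ofReal_iff one_pos).2 (Real.exp_lt_one_iff.2 ?_)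
      have : (0:ℝ) < n := by exact_mod_cast hF
      linarith
    refine ENNReal.mul_ne_top hV (ENNReal.inv_ne_top.2 ?_) hsum
    exact (tsub_pos_of_lt hlt).ne'
  intro x hx hx1
  by_contra hcon
  exact hGe ⟨x, hcon, hx1⟩

/-- Small sublevel sets are close to `S`. -/
theorem near_S (hF : 0 < Module.finrank ℝ F) (hS : IsCompact S) {U : Set (Cotangent F N)}
    (hU : IsOpen U) (hSU : S ⊆ U) : ∃ ε > 0, ∀ x ∉ S, 𝒢.r x < ε → x ∈ U := by
  obtain ⟨D, hD, hDb⟩ := 𝒢.exists_bound hF hS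
  have hC : IsCompact (D \ U) := hD.diff hU
  have hCS : D \ U ⊆ Sᶜ := fun x hx hxS => hx.2 (hSU hxS)
  obtain ⟨ε, hε, h1⟩ := hC.exists_forall_le' (𝒢.r_cont.mono hCS) (a := 0)
    (fun x hx => 𝒢.r_pos x (hCS hx))
  refine ⟨min ε 1, lt_min hε one_pos, fun x hx hx1 => ?_⟩
  by_contra hcon
  have h2 := h1 x ⟨hDb x hx (hx1.trans_le (min_le_right _ _)), hcon⟩
  exact absurd (hx1.trans_le (min_le_left _ _)) (not_lt.2 h2)

/-- Points close to `S` are in small sublevel sets. -/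
theorem small_near_S (hF : 0 < Module.finrank ℝ F) (hS : IsCompact S) {ε : ℝ} (hε : 0 < ε) :
    ∃ U : Set (Cotangent F N), IsOpen U ∧ S ⊆ U ∧ ∀ x ∈ U, x ∉ S → 𝒢.r x < ε := by
  have hSc : IsClosed S := hS.isClosed
  obtain ⟨Q, hQ, hSQ⟩ := exists_compact_superset hS
  have hW : IsCompact (Q \ interior Q) := hQ.diff isOpen_interior
  have hWS : Q \ interior Q ⊆ Sᶜ := fun x hx hxS => hx.2 (hSQ hxS)
  obtain ⟨R, hR⟩ := (hW.image_of_continuousOn (𝒢.r_cont.mono hWS)).bddAbove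
  have hWR : ∀ x ∈ Q \ interior Q, 𝒢.r x ≤ R := fun x hx => hR ⟨x, hx, rfl⟩
  set G := (interior Q \ S) ∩ 𝒢.r ⁻¹' Ioi R with hG
  have hGo : IsOpen G := (𝒢.r_cont.mono fun x hx => hx.2).isOpen_inter_preimage
    (isOpen_interior.sdiff hSc) isOpen_Ioi
  have hGφ : ∀ t ≥ 0, MapsTo (𝒢.φ t) G G := by
    intro t ht x hx
    have hxS : x ∉ S := hx.1.2
    have hc : Continuous (fun s : ℝ => 𝒢.φ s x) := by
      have h1 : ContinuousOn (fun p : ℝ × Cotangent F N => 𝒢.φ p.1 p.2) (univ ×ˢ Sᶜ) :=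
        𝒢.smooth.continuousOn
      exact h1.comp_continuous (f := fun s : ℝ => (s, x)) (by fun_prop)
        (fun s => ⟨mem_univ _, hxS⟩)
    have hpath : IsPreconnected ((fun s : ℝ => 𝒢.φ s x) '' Icc 0 t) :=
      isPreconnected_Icc.image _ hc.continuousOn
    have hr : ∀ s ≥ 0, R < 𝒢.r (𝒢.φ s x) := by
      intro s hs
      rw [𝒢.r_hom s x hxS]
      have h1 : R < 𝒢.r x := hx.2
      have h2 := 𝒢.r_pos x hxS
      have h3 : 1 ≤ Real.exp s := Real.one_le_exp hs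
      nlinarith
    have hcov : (fun s : ℝ => 𝒢.φ s x) '' Icc 0 t ⊆ interior Q ∪ Qᶜ := by
      rintro _ ⟨s, hs, rfl⟩
      by_cases hsQ : 𝒢.φ s x ∈ Q
      · left
        by_contra hcon
        exact absurd (hWR _ ⟨hsQ, hcon⟩) (not_le.2 (hr s hs.1))
      · exact Or.inr hsQ
    have hdis : Disjoint (interior Q) Qᶜ := by
      rw [Set.disjoint_left]
      intro y hy1 hy2
      exact hy2 (interior_subset hy1)
    have h4 := hpath.subset_left_of_subset_union isOpen_interior hQ.isClosed.isOpen_compl hdis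
      hcov ⟨x, ⟨0, ⟨le_rfl, ht⟩, 𝒢.zero x hxS⟩, hx.1.1⟩
    exact ⟨⟨h4 ⟨t, ⟨ht, le_rfl⟩, rfl⟩, 𝒢.maps t x hxS⟩, hr t ht⟩
  have hGe : ¬ G.Nonempty := by
    rintro ⟨x₀, hx₀⟩
    obtain ⟨V, hV, hVb⟩ := exists_volume_bound N hQ
    have hpos := cvol_pos hGo hx₀
    obtain ⟨m, hm⟩ := ENNReal.exists_nat_mul_gt hpos hV
    have h1 := hVb (𝒢.φ m) (fun x => Real.exp m * 𝒢.f x - 𝒢.f (𝒢.φ m x)) (Real.exp m) Sᶜ
      (Real.exp_pos _) hSc.isOpen_compl
      (fun x hx => (𝒢.smoothAt hSc m hx).contMDiffWithinAt)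
      (fun x hx => ((contMDiffAt_const.mul (𝒢.f_smoothAt hSc hx)).sub
        ((𝒢.f_smoothAt hSc (𝒢.maps m x hx)).comp x (𝒢.smoothAt hSc m hx))).contMDiffWithinAt)
      (fun x hx => 𝒢.pb hSc m hx) (𝒢.φ_inj m) x₀ G hGo (fun x hx => hx.1.2)
      (fun x hx => interior_subset (hGφ m (Nat.cast_nonneg m) hx).1.1)
    have h2 : (m : ENNReal) ≤ ENNReal.ofReal (Real.exp m ^ Module.finrank ℝ F) := by
      rw [← ENNReal.ofReal_natCast]
      apply ENNReal.ofReal_le_ofReal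
      calc (m:ℝ) ≤ m + 1 := by linarith
        _ ≤ Real.exp m := Real.add_one_le_exp _
        _ = Real.exp m ^ 1 := (pow_one _).symm
        _ ≤ Real.exp m ^ Module.finrank ℝ F :=
          pow_le_pow_right₀ (Real.one_le_exp (Nat.cast_nonneg m)) hF
    have h3 : (m : ENNReal) * cvol x₀ G ≤ V := le_trans (by gcongr) h1
    exact absurd hm (not_lt.2 h3)
  refine ⟨interior Q \ 𝒢.lev ε R, isOpen_interior.sdiff (𝒢.lev_compact ε R).isClosed,
    fun x hx => ⟨hSQ hx, fun h => 𝒢.lev_sub ε R h hx⟩, fun x hx hxS => ?_⟩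
  have hxR : 𝒢.r x ≤ R := by
    by_contra hcon
    push Not at hcon
    exact hGe ⟨x, ⟨hx.1, hxS⟩, hcon⟩
  by_contra hcon
  push Not at hcon
  exact hx.2 (𝒢.mem_lev hε hxS hcon hxR)

/-- A conic flow is continuous at `S` and contracts to `S`. -/
def toSing (hF : 0 < Module.finrank ℝ F) (hS : IsCompact S) : SingFlow S :=
  { 𝒢.toLFlow with
    cont := fun T U hU hSU => by
      obtain ⟨ε, hε, h1⟩ := 𝒢.near_S hF hS hU hSU
      obtain ⟨V, hV, hSV, h2⟩ := 𝒢.small_near_S hF hS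
        (show 0 < Real.exp (-T) * ε from mul_pos (Real.exp_pos _) hε)
      refine ⟨V, hV, hSV, fun t ht x hx hxS => h1 _ (𝒢.maps t x hxS) ?_⟩
      have h3 : 𝒢.r (𝒢.φ t x) = Real.exp t * 𝒢.r x := 𝒢.r_hom t x hxS
      have h4 := h2 x hx hxS
      have h5 : Real.exp t * Real.exp (-T) ≤ 1 := by
        rw [← Real.exp_add]
        exact Real.exp_le_one_iff.2 (by linarith [ht.2])
      show 𝒢.r (𝒢.φ t x) < ε
      rw [h3]
      calc Real.exp t * 𝒢.r x < Real.exp t * (Real.exp (-T) * ε) := by gcongr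
        _ = (Real.exp t * Real.exp (-T)) * ε := by ring
        _ ≤ 1 * ε := by gcongr
        _ = ε := one_mul ε
    contr := fun C hC U hU hSU => by
      obtain ⟨ε, hε, h1⟩ := 𝒢.near_S hF hS hU hSU
      obtain ⟨U₁, hU₁, hSU₁, h2⟩ := 𝒢.small_near_S hF hS one_pos
      have hCU : IsCompact (C \ U₁) := hC.diff hU₁
      have hCS : C \ U₁ ⊆ Sᶜ := fun x hx hxS => hx.2 (hSU₁ hxS)
      obtain ⟨R, hR⟩ := (hCU.image_of_continuousOn (𝒢.r_cont.mono hCS)).bddAbove
      have hRC : ∀ x ∈ C, x ∉ S → 𝒢.r x ≤ max R 1 := by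
        intro x hx hxS
        by_cases hxU : x ∈ U₁
        · exact (h2 x hxU hxS).le.trans (le_max_right _ _)
        · exact (hR ⟨x, ⟨hx, hxU⟩, rfl⟩).trans (le_max_left _ _)
      have hM : 0 < max R 1 := lt_max_of_lt_right one_pos
      refine ⟨Real.log (max R 1 / ε) + 1, fun t ht x hx hxS => h1 _ (𝒢.maps (-t) x hxS) ?_⟩
      have h3 : 𝒢.r (𝒢.φ (-t) x) = Real.exp (-t) * 𝒢.r x := 𝒢.r_hom (-t) x hxS
      show 𝒢.r (𝒢.φ (-t) x) < ε
      rw [h3]
      have h4 : max R 1 / ε < Real.exp t := by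
        rw [← Real.log_lt_iff_lt_exp (by positivity)]
        linarith
      have h5 : max R 1 < Real.exp t * ε := by rwa [div_lt_iff₀ hε] at h4
      calc Real.exp (-t) * 𝒢.r x ≤ Real.exp (-t) * max R 1 := by
            gcongr
            exact hRC x hx hxS
        _ < Real.exp (-t) * (Real.exp t * ε) := by gcongr
        _ = ε := by rw [← mul_assoc, ← Real.exp_add, neg_add_cancel, Real.exp_zero, one_mul] }

include 𝒢 in
/-- In dimension zero there are no conic flows. -/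
lemma dim_zero (hF : Module.finrank ℝ F = 0) (hS : IsClosed S) (x : Cotangent F N) : x ∈ S := by
  by_contra hx
  have hsub : Subsingleton F := Module.finrank_zero_iff.1 hF
  have hsubE : Subsingleton (F × (F →L[ℝ] ℝ)) := by
    have : Subsingleton (F →L[ℝ] ℝ) := ⟨fun a b => ContinuousLinearMap.ext fun v => by
      rw [Subsingleton.elim v 0, map_zero, map_zero]⟩
    infer_instance
  have hdisc : DiscreteTopology (Cotangent F N) := by
    rw [discreteTopology_iff_isOpen_singleton]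
    intro y
    have h1 : (extChartAt (IC F) y).source = {y} := by
      ext z
      constructor
      · intro hz
        exact (extChartAt (IC F) y).injOn hz (mem_extChartAt_source y)
          (Subsingleton.elim (α := F × (F →L[ℝ] ℝ)) _ _)
      · rintro rfl
        exact mem_extChartAt_source z
    rw [← h1]
    exact isOpen_extChartAt_source y
  have hc : Continuous (fun s : ℝ => 𝒢.φ s x) := by
    have h1 : ContinuousOn (fun p : ℝ × Cotangent F N => 𝒢.φ p.1 p.2) (univ ×ˢ Sᶜ) :=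
      𝒢.smooth.continuousOn
    exact h1.comp_continuous (f := fun s : ℝ => (s, x)) (by fun_prop) (fun s => ⟨mem_univ _, hx⟩)
  have h2 : 𝒢.φ 1 x = 𝒢.φ 0 x := PreconnectedSpace.constant inferInstance hc
  have h3 := 𝒢.r_hom 1 x hx
  rw [h2, 𝒢.zero x hx] at h3
  have h4 := 𝒢.r_pos x hx
  have h5 : 1 < Real.exp 1 := Real.one_lt_exp_iff.2 one_pos
  nlinarith

end ConicFlow

/-- **Theorem.** An exact Lagrangian submanifold whose complement is a symplectization is
standard. -/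
theorem extendsExactly_of_conicFlow [T2Space L] [CompactSpace L] [Nonempty L] [T2Space N]
    [CompactSpace N] {j : L → CotangentBundle F N}
    (hj : ExactLagrangianEmbedding j) (𝒢 : ConicFlow (F := F) (N := N) (range j)) :
    ExtendsExactly j := by
  have hS : IsCompact (range j) := isCompact_range hj.smooth.continuous
  rcases Nat.eq_zero_or_pos (Module.finrank ℝ F) with hF | hF
  · have hz : ∀ x : Cotangent F N, x ∈ range j := 𝒢.dim_zero hF hS.isClosed
    exact extendsExactly_of_singFlow hj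
      { 𝒢.toLFlow with
        cont := fun T U hU hSU => ⟨univ, isOpen_univ, subset_univ _,
          fun t _ x _ hx => absurd (hz x) hx⟩
        contr := fun K _ U hU hSU => ⟨0, fun t _ x _ hx => absurd (hz x) hx⟩ }
  · exact extendsExactly_of_singFlow hj (𝒢.toSing hF hS)

end Pool.Agent.H823.Nearby
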