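import Mathlib
import Pool.Agent.H823.Sing8

/-! Liouville flows on the complement of a closed exact Lagrangian submanifold, IX: norms on the
cotangent bundle; converses. -/

open scoped Topology ContDiff Manifold
open Set Bundle

noncomputable section

namespace Pool.Agent.H823.Nearby

set_option linter.unusedSectionVars false

universe u

open Pool.Agent.Helper186

variable {F : Type u} [NormedAddCommGroup F] [NormedSpace ℝ F] [FiniteDimensional ℝ F]
  {K : Type*} [TopologicalSpace K] [ChartedSpace F K] [IsManifold 𝓘(ℝ, F) ∞ K]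
  {L : Type*} [TopologicalSpace L] [ChartedSpace F L] [IsManifold 𝓘(ℝ, F) ∞ L]
  {N : Type*} [TopologicalSpace N] [ChartedSpace F N] [IsManifold 𝓘(ℝ, F) ∞ N]

/-- The momentum in the trivialization at `q`. -/
def mom (q : L) (ξ : Cotangent F L) : F →L[ℝ] ℝ :=
  (trivializationAt (F →L[ℝ] ℝ) (fun x : L => TangentSpace 𝓘(ℝ, F) x →L[ℝ] ℝ) q ξ).2

lemma mom_scal (q : L) (s : ℝ) (ξ : Cotangent F L) : mom q (scal s ξ) = s • mom q ξ := by
  refine ContinuousLinearMap.ext fun a => ?_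
  show mom q (scal s ξ) a = s • (mom q ξ a)
  have h1 : mom q ξ a = ξ.2 ((trivializationAt F (TangentSpace 𝓘(ℝ, F)) q).symmL ℝ ξ.1 a) :=
    cot_triv_apply q ξ.1 ξ.2 a
  have h2 : mom q (scal s ξ) a =
      (s • ξ.2) ((trivializationAt F (TangentSpace 𝓘(ℝ, F)) q).symmL ℝ ξ.1 a) :=
    cot_triv_apply q ξ.1 (s • ξ.2) a
  rw [h1, h2]
  rfl

lemma mom_ne_zero {q : L} {ξ : Cotangent F L} (hq : ξ.1 ∈ (chartAt F q).source)
    (hξ : ξ ∉ zeroSet F L) : mom q ξ ≠ 0 := by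
  intro h
  apply hξ
  refine ⟨ξ.1, ?_⟩
  have h1 : ξ.2 = 0 := by
    refine ContinuousLinearMap.ext fun v => ?_
    have h2 : mom q ξ ((trivializationAt F (TangentSpace 𝓘(ℝ, F)) q).continuousLinearMapAt ℝ ξ.1 v)
        = ξ.2 ((trivializationAt F (TangentSpace 𝓘(ℝ, F)) q).symmL ℝ ξ.1
          ((trivializationAt F (TangentSpace 𝓘(ℝ, F)) q).continuousLinearMapAt ℝ ξ.1 v)) :=
      cot_triv_apply q ξ.1 ξ.2 _
    rw [h, (trivializationAt F (TangentSpace 𝓘(ℝ, F)) q).symmL_continuousLinearMapAt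
      (R := ℝ) hq v] at h2
    exact h2.symm
  show (⟨ξ.1, 0⟩ : Cotangent F L) = ξ
  rw [← h1]

lemma continuous_term (q : L) {f : L → ℝ} (hf : Continuous f)
    (hs : tsupport f ⊆ (chartAt F q).source) :
    Continuous (fun ξ : Cotangent F L => f ξ.1 * ‖mom q ξ‖) := by
  have hπ : Continuous (fun ξ : Cotangent F L => ξ.1) := contMDiff_projC.continuous
  rw [continuous_iff_continuousAt]
  intro ξ
  by_cases hξ : ξ.1 ∈ tsupport f
  · have h1 := (triv_mem_source_iff q ξ).2 (hs hξ)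
    have h2 : ContinuousAt (trivializationAt (F →L[ℝ] ℝ)
        (fun x : L => TangentSpace 𝓘(ℝ, F) x →L[ℝ] ℝ) q) ξ :=
      (trivializationAt (F →L[ℝ] ℝ) (fun x : L => TangentSpace 𝓘(ℝ, F) x →L[ℝ] ℝ)
        q).continuousOn.continuousAt ((trivializationAt (F →L[ℝ] ℝ)
          (fun x : L => TangentSpace 𝓘(ℝ, F) x →L[ℝ] ℝ) q).open_source.mem_nhds h1)
    exact (hf.comp hπ).continuousAt.mul (continuousAt_snd.comp h2).norm
  · have h1 : ∀ᶠ ζ in 𝓝 ξ, (0:ℝ) = f ζ.1 * ‖mom q ζ‖ := by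
      filter_upwards [((isClosed_tsupport f).isOpen_compl.preimage hπ).mem_nhds hξ] with ζ hζ
      rw [image_eq_zero_of_notMem_tsupport hζ, zero_mul]
    exact ContinuousAt.congr continuousAt_const h1

/-- A norm on the cotangent bundle. -/
theorem exists_norm [T2Space L] [CompactSpace L] : ∃ r : Cotangent F L → ℝ, Continuous r ∧
    (∀ s ≥ 0, ∀ ξ, r (scal s ξ) = s * r ξ) ∧ (∀ ξ ∉ zeroSet F L, 0 < r ξ) ∧
    (∀ ξ ∈ zeroSet F L, r ξ = 0) ∧ IsCompact {ξ | r ξ = 1} := by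
  have hU : (univ : Set L) ⊆ ⋃ q : L, (chartAt F q).source := fun q _ =>
    mem_iUnion.2 ⟨q, mem_chart_source F q⟩
  obtain ⟨f, hf⟩ := PartitionOfUnity.exists_isSubordinate isClosed_univ
    (fun q : L => (chartAt F q).source) (fun q => (chartAt F q).open_source) hU
  obtain ⟨t, ht⟩ := isCompact_univ.elim_finite_subcover (fun q : L => {x | 0 < f q x})
    (fun q => isOpen_lt continuous_const (f q).continuous) (fun x _ => by
      obtain ⟨i, hi⟩ := f.exists_pos (mem_univ x)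
      exact mem_iUnion.2 ⟨i, hi⟩)
  set r : Cotangent F L → ℝ := fun ξ => ∑ q ∈ t, f q ξ.1 * ‖mom q ξ‖ with hr
  have hrc : Continuous r := continuous_finsetSum _ fun q _ =>
    continuous_term q (f q).continuous (hf q)
  have hrs : ∀ s ≥ 0, ∀ ξ, r (scal s ξ) = s * r ξ := by
    intro s hs ξ
    simp only [hr, Finset.mul_sum]
    refine Finset.sum_congr rfl fun q _ => ?_
    rw [mom_scal, norm_smul, Real.norm_of_nonneg hs]
    show f q ξ.1 * (s * ‖mom q ξ‖) = s * (f q ξ.1 * ‖mom q ξ‖)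
    ring
  have hrp : ∀ ξ ∉ zeroSet F L, 0 < r ξ := by
    intro ξ hξ
    have h1 := ht (mem_univ ξ.1)
    simp only [mem_iUnion] at h1
    obtain ⟨q, hq, h2⟩ := h1
    have h3 : ξ.1 ∈ (chartAt F q).source :=
      hf q (subset_tsupport _ (show f q ξ.1 ≠ 0 from (show 0 < f q ξ.1 from h2).ne'))
    refine Finset.sum_pos' (fun i _ => mul_nonneg (f.nonneg i _) (norm_nonneg _))
      ⟨q, hq, mul_pos h2 (norm_pos_iff.2 (mom_ne_zero h3 hξ))⟩
  have hr0 : ∀ ξ ∈ zeroSet F L, r ξ = 0 := by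
    rintro _ ⟨q, rfl⟩
    have h1 := hrs 0 le_rfl (zeroC q)
    rwa [scal_zeroC, zero_mul] at h1
  refine ⟨r, hrc, hrs, hrp, hr0, ?_⟩
  -- compactness
  obtain ⟨Q, hQ, -, hQ0, hQs⟩ := exists_starshaped (F := F) (L := L) isOpen_univ
    (fun q => mem_univ _)
  have hW : IsCompact (Q \ interior Q) := hQ.diff isOpen_interior
  obtain ⟨ε, hε, hεr⟩ := hW.exists_forall_le' hrc.continuousOn (a := 0) (fun ξ hξ =>
    hrp ξ (by
      rintro ⟨q, rfl⟩
      exact hξ.2 (hQ0 q)))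
  have hsub : ∀ ξ, r ξ < ε → ξ ∈ Q := by
    intro ξ hξ
    by_contra hcon
    have hpath : IsPreconnected ((fun s : ℝ => (scal s ξ : Cotangent F L)) '' Icc 0 1) :=
      isPreconnected_Icc.image _ (continuous_scal.comp
        (continuous_id.prodMk continuous_const)).continuousOn
    have hdis : Disjoint (interior Q) Qᶜ := by
      rw [Set.disjoint_left]
      intro y hy1 hy2
      exact hy2 (interior_subset hy1)
    have hrn : 0 ≤ r ξ := by
      by_cases h : ξ ∈ zeroSet F L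
      · exact (hr0 ξ h).ge
      · exact (hrp ξ h).le
    have hcov : (fun s : ℝ => (scal s ξ : Cotangent F L)) '' Icc 0 1 ⊆ interior Q ∪ Qᶜ := by
      rintro _ ⟨s, hs, rfl⟩
      by_cases hsQ : scal s ξ ∈ Q
      · left
        by_contra hcon'
        have h1 := hεr _ ⟨hsQ, hcon'⟩
        rw [hrs s hs.1] at h1
        have h2 : s * r ξ ≤ 1 * r ξ := by gcongr; exact hs.2
        linarith
      · exact Or.inr hsQ
    have h4 := hpath.subset_left_of_subset_union isOpen_interior hQ.isClosed.isOpen_compl hdis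
      hcov ⟨zeroC ξ.1, ⟨0, ⟨le_rfl, zero_le_one⟩, scal_zero ξ⟩, hQ0 _⟩
    exact hcon (interior_subset (h4 ⟨1, ⟨zero_le_one, le_rfl⟩, scal_one ξ⟩))
  have hc : IsCompact (scal (2 / ε) '' Q : Set (Cotangent F L)) :=
    hQ.image (contMDiff_scal_slice _).continuous
  refine hc.of_isClosed_subset (isClosed_eq hrc continuous_const) ?_
  intro ξ hξ
  have hξ' : r ξ = 1 := hξ
  refine ⟨scal (ε / 2) ξ, hsub _ ?_, ?_⟩
  · rw [hrs _ (by positivity), hξ']
    linarith
  · rw [scal_scal]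
    have : 2 / ε * (ε / 2) = 1 := by field_simp
    rw [this, scal_one]

/-- A complement which is the complement of a zero section is a symplectization. -/
theorem Punct.nonempty_conic [CompactSpace K] [T2Space K] {S : Set (Cotangent F N)}
    (𝒬 : Punct K S) (hS : IsClosed S) : Nonempty (ConicFlow S) := by
  obtain ⟨r, hr1, hr2, hr3, hr4, hr5⟩ := exists_norm (F := F) (L := K)
  refine ⟨{
    φ := 𝒬.φ
    f := 𝒬.f
    f_smooth := fun x hx => (𝒬.f_smoothAt hS hx).contMDiffWithinAt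
    smooth := 𝒬.smooth_φ
    maps := fun t x hx => 𝒬.h_maps _ (𝒬.scal_notMem t hx)
    zero := fun x hx => by
      show 𝒬.h (scal (Real.exp 0) (𝒬.h' x)) = x
      rw [Real.exp_zero, scal_one, 𝒬.h_h' x hx]
    add := fun s t x hx => by
      show 𝒬.h (scal (Real.exp (s + t)) (𝒬.h' x)) = 𝒬.h (scal (Real.exp s) (𝒬.h' (𝒬.φ t x)))
      rw [𝒬.h'_φ t hx, scal_scal, Real.exp_add]
    conf := fun t x hx u => 𝒬.conf hS t hx u
    r := fun x => r (𝒬.h' x)
    r_cont := hr1.comp_continuousOn 𝒬.h'_smooth.continuousOn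
    r_pos := fun x hx => hr3 _ (𝒬.h'_maps x hx)
    r_hom := fun t x hx => by
      show r (𝒬.h' (𝒬.φ t x)) = _
      rw [𝒬.h'_φ t hx, hr2 _ (Real.exp_pos t).le]
    r_cpt := ?_ }⟩
  have h1 : ∀ ξ, r ξ = 1 → ξ ∉ zeroSet F K := by
    intro ξ hξ hz
    rw [hr4 ξ hz] at hξ
    exact zero_ne_one hξ
  have h2 : {x | x ∉ S ∧ r (𝒬.h' x) = 1} = 𝒬.h '' {ξ | r ξ = 1} := by
    ext x
    constructor
    · rintro ⟨hx, hx1⟩
      exact ⟨𝒬.h' x, hx1, 𝒬.h_h' x hx⟩
    · rintro ⟨ξ, hξ, rfl⟩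
      have h3 := h1 ξ hξ
      refine ⟨𝒬.h_maps ξ h3, ?_⟩
      show r (𝒬.h' (𝒬.h ξ)) = 1
      rw [𝒬.h'_h ξ h3]
      exact hξ
  rw [h2]
  exact hr5.image_of_continuousOn (𝒬.h_smooth.continuousOn.mono h1)

/-- Standard Lagrangians have standard complements. -/
theorem nonempty_punct {j : L → CotangentBundle F N} (h : ExtendsExactly j) :
    Nonempty (Punct (F := F) (N := N) L (range j)) := by
  obtain ⟨Ψ, hΨ, hΨj⟩ := h
  obtain ⟨g, hg, hpb⟩ := conformallyExact_iff.1 hΨ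
  have hΨj' : ∀ q : L, Ψ (zeroC q) = j q := hΨj
  refine ⟨{
    h := Ψ
    h' := Ψ.symm
    g := g
    h_smooth := Ψ.contMDiff.contMDiffOn
    h'_smooth := Ψ.symm.contMDiff.contMDiffOn
    h_maps := ?_
    h'_maps := ?_
    h'_h := fun ξ _ => Ψ.symm_apply_apply ξ
    h_h' := fun x _ => Ψ.apply_symm_apply x
    g_smooth := hg.contMDiffOn
    pb := fun ξ _ => hpb ξ }⟩
  · rintro ξ hξ ⟨q, hq⟩
    apply hξ
    refine ⟨q, ?_⟩
    apply Ψ.injective
    exact (hΨj' q).trans hq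
  · rintro x hx ⟨q, hq⟩
    apply hx
    refine ⟨q, ?_⟩
    rw [← hΨj' q, hq]
    exact Ψ.apply_symm_apply x

end Pool.Agent.H823.Nearby
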