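import Mathlib
import Pool.Agent.H823.Bridge
import Pool.Agent.H823.Sing9
import Pool.Agent.H823.DefsComplement

/-! Comparison of the definitions used in the statements with the ones used in the proofs. -/

open scoped Topology ContDiff Manifold
open Set Bundle

noncomputable section

namespace Pool.Agent.H823.Arnold

set_option linter.unusedSectionVars false

universe u

open Pool.Agent.H823

variable {F : Type u} [NormedAddCommGroup F] [NormedSpace ℝ F] [FiniteDimensional ℝ F]
  {K : Type*} [TopologicalSpace K] [ChartedSpace F K] [IsManifold 𝓘(ℝ, F) ∞ K]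
  {L : Type*} [TopologicalSpace L] [ChartedSpace F L] [IsManifold 𝓘(ℝ, F) ∞ L]
  {N : Type*} [TopologicalSpace N] [ChartedSpace F N] [IsManifold 𝓘(ℝ, F) ∞ N]

lemma isSymplectization_iff {j : L → CotangentBundle F N} :
    IsSymplectization (range j)ᶜ ↔
      Nonempty (Nearby.ConicFlow (F := F) (N := N) (range (nb j))) := by
  constructor
  · rintro ⟨f, φ, r, h, h1, h2, h3, h4⟩
    exact ⟨{
      φ := φ
      f := f
      f_smooth := h.smooth_primitive
      smooth := h.smooth
      maps := fun t x hx => h.mapsTo t hx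
      zero := h.zero
      add := h.add
      conf := h.conformal
      r := r
      r_cont := h1
      r_pos := h2
      r_hom := h3
      r_cpt := h4 }⟩
  · rintro ⟨𝒢⟩
    exact ⟨𝒢.f, 𝒢.φ, 𝒢.r, ⟨𝒢.f_smooth, 𝒢.smooth, fun t x hx => 𝒢.maps t x hx, 𝒢.zero, 𝒢.add,
      𝒢.conf⟩, 𝒢.r_cont, 𝒢.r_pos, 𝒢.r_hom, 𝒢.r_cpt⟩

lemma nonempty_punct {j : L → CotangentBundle F N}
    (h : ExactlySymplectomorphic (range (zeroSection F K))ᶜ (range j)ᶜ) :
    Nonempty (Nearby.Punct (F := F) (N := N) K (range (nb j))) := by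
  obtain ⟨h, h', g, h1, h2, h3, h4, h5, h6, h7, h8⟩ := h
  exact ⟨{
    h := h
    h' := h'
    g := g
    h_smooth := h1
    h'_smooth := h2
    h_maps := fun ξ hξ => h3 hξ
    h'_maps := fun x hx => h4 hx
    h'_h := h5
    h_h' := h6
    g_smooth := h7
    pb := fun ξ hξ u => by
      rw [one_mul]
      exact h8 ξ hξ u }⟩

end Pool.Agent.H823.Arnold
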