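import Mathlib
import Pool.Agent.H823.Nearby

/-! Exact Lagrangian submanifolds with convex fibres, I: the function `u₀` on the base. -/

open scoped Topology ContDiff Manifold
open Set Bundle

noncomputable section

namespace Pool.Agent.H823.Nearby

set_option linter.unusedSectionVars false

universe u

open Pool.Agent.Helper186

variable {F : Type u} [NormedAddCommGroup F] [NormedSpace ℝ F] [FiniteDimensional ℝ F]
  {L : Type*} [TopologicalSpace L] [ChartedSpace F L] [IsManifold 𝓘(ℝ, F) ∞ L]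
  {N : Type*} [TopologicalSpace N] [ChartedSpace F N] [IsManifold 𝓘(ℝ, F) ∞ N]

/-- The base point of `j x`. -/
def base (j : L → CotangentBundle F N) (x : L) : N := (j x).1

/-- `f` is a primitive of `j^* λ`. -/
def IsPrim (j : L → CotangentBundle F N) (f : L → ℝ) : Prop :=
  ContMDiff 𝓘(ℝ, F) 𝓘(ℝ, ℝ) ∞ f ∧
    ∀ (q : L) (v : TangentSpace 𝓘(ℝ, F) q),
      liouvilleForm (j q) (mfderiv 𝓘(ℝ, F) (cotangentCorners F) j q v) =
        differential 𝓘(ℝ, F) f q v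

/-- All fibres of `j (L)` are convex. -/
def ConvexFibres (j : L → CotangentBundle F N) : Prop :=
  ∀ q : N, Convex ℝ {p : TangentSpace 𝓘(ℝ, F) q →L[ℝ] ℝ |
    (⟨q, p⟩ : CotangentBundle F N) ∈ range j}

lemma contMDiff_base {j : L → CotangentBundle F N}
    (hj : ContMDiff 𝓘(ℝ, F) (cotangentCorners F) ∞ j) :
    ContMDiff 𝓘(ℝ, F) 𝓘(ℝ, F) ∞ (base j) :=
  contMDiff_projC.comp hj

/-- The differential of the primitive. -/
lemma IsPrim.eq {j : L → CotangentBundle F N}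
    (hj : ContMDiff 𝓘(ℝ, F) (cotangentCorners F) ∞ j) {f : L → ℝ} (hf : IsPrim j f) (x : L)
    (v : TangentSpace 𝓘(ℝ, F) x) :
    (mfderiv 𝓘(ℝ, F) 𝓘(ℝ, ℝ) f x v : ℝ) =
      (show F →L[ℝ] ℝ from (j x).2) (mfderiv 𝓘(ℝ, F) 𝓘(ℝ, F) (base j) x v) := by
  have h1 := hf.2 x v
  have h2 := DFunLike.congr_fun (mfderiv_comp (I := 𝓘(ℝ, F)) (I' := IC F) (I'' := 𝓘(ℝ, F)) x
    (contMDiff_projC.mdifferentiableAt (by simp) (x := j x))
    (hj.mdifferentiableAt (by simp) (x := x))) v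
  have h3 : (show F →L[ℝ] ℝ from (j x).2) (mfderiv 𝓘(ℝ, F) 𝓘(ℝ, F) (base j) x v) =
      liouvilleForm (j x) (mfderiv 𝓘(ℝ, F) (cotangentCorners F) j x v) :=
    congrArg (show F →L[ℝ] ℝ from (j x).2) h2
  rw [h3, h1]
  rfl

/-- The primitive is constant on the fibres. -/
theorem IsPrim.const_on_fibres [T2Space L] [CompactSpace L] [Nonempty L] [T2Space N]
    [CompactSpace N] {j : L → CotangentBundle F N} (hj : ExactLagrangianEmbedding j) {f : L → ℝ}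
    (hf : IsPrim j f) (hconv : ConvexFibres j) {x₀ x₁ : L} (h : base j x₀ = base j x₁) :
    f x₀ = f x₁ := by
  obtain ⟨w, w', O, g, hO, hOs, h0, hA, hw, hw', hw'w, hwj, hg, hpb⟩ := exists_chart hj
  set q : N := base j x₁ with hq
  obtain ⟨p₀, hp₀⟩ : ∃ p₀ : F →L[ℝ] ℝ, j x₀ = incl q p₀ := by
    rw [← h]
    exact ⟨(j x₀).2, rfl⟩
  obtain ⟨p₁, hp₁⟩ : ∃ p₁ : F →L[ℝ] ℝ, j x₁ = incl q p₁ := ⟨(j x₁).2, rfl⟩
  let c : ℝ → Cotangent F N := fun t => incl q ((1 - t) • p₀ + t • p₁)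
  have hc : ContMDiff 𝓘(ℝ, ℝ) (IC F) ∞ c := by
    have h1 : ContDiff ℝ ∞ (fun t : ℝ => (1 - t) • p₀ + t • p₁) := by fun_prop
    exact (contMDiff_incl q).comp h1.contMDiff
  have hcj : ∀ t ∈ Icc (0:ℝ) 1, c t ∈ range j := by
    intro t ht
    have m0 : (p₀ : TangentSpace 𝓘(ℝ, F) q →L[ℝ] ℝ) ∈
        {p : TangentSpace 𝓘(ℝ, F) q →L[ℝ] ℝ | (⟨q, p⟩ : CotangentBundle F N) ∈ range j} :=
      ⟨x₀, hp₀⟩
    have m1 : (p₁ : TangentSpace 𝓘(ℝ, F) q →L[ℝ] ℝ) ∈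
        {p : TangentSpace 𝓘(ℝ, F) q →L[ℝ] ℝ | (⟨q, p⟩ : CotangentBundle F N) ∈ range j} :=
      ⟨x₁, hp₁⟩
    exact hconv q m0 m1 (sub_nonneg.2 ht.2) ht.1 (by ring)
  let γ : ℝ → L := fun t => (w' (c t)).1
  have hγj : ∀ t ∈ Icc (0:ℝ) 1, j (γ t) = c t := by
    intro t ht
    obtain ⟨y, hy⟩ := hcj t ht
    have h1 : γ t = y := by
      show (w' (c t)).1 = y
      rw [← hy, ← hwj, hw'w _ (h0 y)]
      rfl
    rw [h1, hy]
  have hcA : ∀ t ∈ Icc (0:ℝ) 1, c t ∈ w '' O := by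
    intro t ht
    obtain ⟨y, hy⟩ := hcj t ht
    exact ⟨zeroC y, h0 y, by rw [hwj, hy]⟩
  have hγ : ∀ t ∈ Icc (0:ℝ) 1, ContMDiffAt 𝓘(ℝ, ℝ) 𝓘(ℝ, F) ∞ γ t := by
    intro t ht
    have h1 : ContMDiffAt (IC F) (IC F) ∞ w' (c t) := hw'.contMDiffAt (hA.mem_nhds (hcA t ht))
    exact (contMDiff_projC _).comp t (h1.comp t (hc t))
  have hfγ : ∀ t ∈ Icc (0:ℝ) 1, MDifferentiableAt 𝓘(ℝ, ℝ) 𝓘(ℝ, ℝ) (f ∘ γ) t := fun t ht =>
    (hf.1.mdifferentiableAt (by simp)).comp t ((hγ t ht).mdifferentiableAt (by simp))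
  have hder : ∀ t ∈ Ioo (0:ℝ) 1, HasDerivAt (f ∘ γ) 0 t := by
    intro t ht
    have ht' : t ∈ Icc (0:ℝ) 1 := ⟨ht.1.le, ht.2.le⟩
    have hd : DifferentiableAt ℝ (f ∘ γ) t := mdifferentiableAt_iff_differentiableAt.1 (hfγ t ht')
    have h1 : HasDerivAt (f ∘ γ) (fderiv ℝ (f ∘ γ) t 1) t := hd.hasFDerivAt.hasDerivAt
    have h2 : fderiv ℝ (f ∘ γ) t 1 = 0 := by
      have h3 := DFunLike.congr_fun (mfderiv_comp (I := 𝓘(ℝ, ℝ)) (I' := 𝓘(ℝ, F))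
        (I'' := 𝓘(ℝ, ℝ)) t (hf.1.mdifferentiableAt (by simp) (x := γ t))
        ((hγ t ht').mdifferentiableAt (by simp))) (1:ℝ)
      rw [mfderiv_eq_fderiv] at h3
      have h4 := hf.eq hj.smooth (γ t) (mfderiv 𝓘(ℝ, ℝ) 𝓘(ℝ, F) γ t (1:ℝ))
      have h5 := DFunLike.congr_fun (mfderiv_comp (I := 𝓘(ℝ, ℝ)) (I' := 𝓘(ℝ, F))
        (I'' := 𝓘(ℝ, F)) t ((contMDiff_base hj.smooth).mdifferentiableAt (by simp) (x := γ t))
        ((hγ t ht').mdifferentiableAt (by simp))) (1:ℝ)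
      have h6 : (base j ∘ γ) =ᶠ[𝓝 t] fun _ => q := by
        filter_upwards [Ioo_mem_nhds ht.1 ht.2] with s hs
        show (j (γ s)).1 = q
        rw [hγj s ⟨hs.1.le, hs.2.le⟩]
        rfl
      have h7 : mfderiv 𝓘(ℝ, ℝ) 𝓘(ℝ, F) (base j ∘ γ) t =
          mfderiv 𝓘(ℝ, ℝ) 𝓘(ℝ, F) (fun _ : ℝ => q) t := h6.mfderiv_eq
      have h8 : (mfderiv 𝓘(ℝ, ℝ) 𝓘(ℝ, F) (base j ∘ γ) t (1:ℝ) : F) = 0 := by
        rw [h7, mfderiv_const]
        rfl
      refine h3.trans (Eq.trans h4 ?_)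
      have h9 : (mfderiv 𝓘(ℝ, F) 𝓘(ℝ, F) (base j) (γ t)
          (mfderiv 𝓘(ℝ, ℝ) 𝓘(ℝ, F) γ t (1:ℝ)) : F) = 0 := h5.symm.trans h8
      exact (congrArg (show F →L[ℝ] ℝ from (j (γ t)).2) h9).trans (map_zero _)
    rw [h2] at h1
    exact h1
  have hcont : ContinuousOn (f ∘ γ) (Icc 0 1) := fun t ht =>
    (hfγ t ht).continuousAt.continuousWithinAt
  obtain ⟨t, -, ht⟩ := exists_hasDerivAt_eq_slope (f ∘ γ) (fun _ => 0) zero_lt_one hcont hder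
  have e0 : γ 0 = x₀ := hj.embedding.injective (by
    rw [hγj 0 ⟨le_rfl, zero_le_one⟩, hp₀]
    show incl q ((1 - (0:ℝ)) • p₀ + (0:ℝ) • p₁) = incl q p₀
    rw [sub_zero, one_smul, zero_smul, add_zero])
  have e1 : γ 1 = x₁ := hj.embedding.injective (by
    rw [hγj 1 ⟨zero_le_one, le_rfl⟩, hp₁]
    show incl q ((1 - (1:ℝ)) • p₀ + (1:ℝ) • p₁) = incl q p₁
    rw [sub_self, one_smul, zero_smul, zero_add])
  have h10 : (f ∘ γ) 1 - (f ∘ γ) 0 = 0 := by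
    rw [sub_zero, div_one] at ht
    exact ht.symm
  have h11 : f (γ 1) - f (γ 0) = 0 := h10
  rw [e0, e1] at h11
  linarith

/-- The function on the base. -/
theorem exists_base_function [T2Space L] [CompactSpace L] [Nonempty L] [T2Space N]
    [CompactSpace N] {j : L → CotangentBundle F N} (hj : ExactLagrangianEmbedding j) {f : L → ℝ}
    (hf : IsPrim j f) (hconv : ConvexFibres j) (hsurj : Function.Surjective (base j)) :
    ∃ u₀ : N → ℝ, Continuous u₀ ∧ ∀ x, u₀ (base j x) = f x := by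
  have hc := (contMDiff_base hj.smooth).continuous
  have hfac : ∀ x, f (Function.surjInv hsurj (base j x)) = f x := fun x =>
    hf.const_on_fibres hj hconv (Function.surjInv_eq hsurj _)
  refine ⟨fun q => f (Function.surjInv hsurj q), ?_, hfac⟩
  have hq : Topology.IsQuotientMap (base j) := hc.isClosedMap.isQuotientMap hc hsurj
  rw [hq.continuous_iff]
  have h1 : (fun q => f (Function.surjInv hsurj q)) ∘ base j = f := funext hfac
  rw [h1]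
  exact hf.1.continuous

/-- At a regular value `u₀` is smooth and its differential is the covector. -/
theorem regular_point {j : L → CotangentBundle F N} (hj : ExactLagrangianEmbedding j) {f : L → ℝ}
    (hf : IsPrim j f) {u₀ : N → ℝ} (hu₀ : ∀ x, u₀ (base j x) = f x) {x : L}
    (hx : Function.Injective (mfderiv 𝓘(ℝ, F) 𝓘(ℝ, F) (base j) x)) :
    ContMDiffAt 𝓘(ℝ, F) 𝓘(ℝ, ℝ) ∞ u₀ (base j x) ∧
      (mfderiv 𝓘(ℝ, F) 𝓘(ℝ, ℝ) u₀ (base j x) : F →L[ℝ] ℝ) = (j x).2 := by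
  obtain ⟨S, v, hS, hxS, hv, hopen, hvs⟩ := local_inverse (contMDiff_base hj.smooth) hx rfl
  have h1 : IsOpen (base j '' S) := hopen S subset_rfl hS
  have h2 : u₀ =ᶠ[𝓝 (base j x)] f ∘ v := by
    filter_upwards [h1.mem_nhds ⟨x, hxS, rfl⟩] with q hq
    obtain ⟨y, hy, rfl⟩ := hq
    show u₀ (base j y) = f (v (base j y))
    rw [hv y hy, hu₀]
  have h3 : ContMDiffAt 𝓘(ℝ, F) 𝓘(ℝ, ℝ) ∞ u₀ (base j x) :=
    ((hf.1 _).comp (base j x) (hvs x hxS)).congr_of_eventuallyEq h2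
  refine ⟨h3, ?_⟩
  have h4 : u₀ ∘ base j = f := funext hu₀
  have h5 := mfderiv_comp (I := 𝓘(ℝ, F)) (I' := 𝓘(ℝ, F)) (I'' := 𝓘(ℝ, ℝ)) x
    (h3.mdifferentiableAt (by simp))
    ((contMDiff_base hj.smooth).mdifferentiableAt (by simp) (x := x))
  rw [h4] at h5
  let A : F →L[ℝ] F := mfderiv 𝓘(ℝ, F) 𝓘(ℝ, F) (base j) x
  have hA : Function.Surjective A := LinearMap.surjective_of_injective (f := (A : F →ₗ[ℝ] F)) hx
  refine ContinuousLinearMap.ext fun b => ?_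
  obtain ⟨a, rfl⟩ := hA b
  have h6 := hf.eq hj.smooth x a
  have h7 := DFunLike.congr_fun h5 a
  exact h7.symm.trans h6

end Pool.Agent.H823.Nearby
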