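import Mathlib

/-! Analysis used for exact Lagrangian submanifolds with convex fibres. -/

open scoped Topology ContDiff Manifold Convolution
open Set Metric MeasureTheory

noncomputable section

namespace Pool.Agent.H823

set_option linter.unusedSectionVars false

/-- A continuous function which is strictly decreasing to the right of all points outside a set
with null image does not increase. -/
lemma le_of_null_image {G : ℝ → ℝ} (hG : ContinuousOn G (Icc 0 1)) {T : Set ℝ}
    (hT : volume (G '' T) = 0)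
    (hd : ∀ t ∈ Ico (0:ℝ) 1, t ∉ T → ∃ d < 0, HasDerivWithinAt G d (Ici t) t) : G 1 ≤ G 0 := by
  by_contra hlt
  push Not at hlt
  have key : Ioo (G 0) (G 1) ⊆ G '' T := by
    rintro c ⟨hc0, hc1⟩
    set s : Set ℝ := {t ∈ Icc (0:ℝ) 1 | G t ≤ c} with hs
    have hsc : IsCompact s := by
      have h1 : IsClosed s := by
        have := hG.preimage_isClosed_of_isClosed isClosed_Icc (isClosed_Iic (a := c))
        exact this
      exact isCompact_Icc.of_isClosed_subset h1 (fun t ht => ht.1)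
    have hs0 : (0:ℝ) ∈ s := ⟨⟨le_rfl, zero_le_one⟩, hc0.le⟩
    obtain ⟨t, hts, htmax⟩ := hsc.exists_isGreatest ⟨0, hs0⟩
    have ht1 : t < 1 := by
      rcases lt_or_eq_of_le hts.1.2 with h | h
      · exact h
      · rw [h] at hts
        exact absurd hts.2 (not_le.2 hc1)
    have hgt : ∀ r ∈ Ioc t 1, c < G r := by
      intro r hr
      by_contra h
      push Not at h
      exact absurd (htmax ⟨⟨hts.1.1.trans hr.1.le, hr.2⟩, h⟩) (not_le.2 hr.1)
    have hGt : G t = c := by
      refine le_antisymm hts.2 ?_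
      have h1 : ContinuousWithinAt G (Ioc t 1) t :=
        (hG t hts.1).mono (fun r hr => ⟨hts.1.1.trans hr.1.le, hr.2⟩)
      have h2 : (𝓝[Ioc t 1] t).NeBot := by
        have h3 : Ioc t 1 ∈ 𝓝[>] t := Ioc_mem_nhdsGT ht1
        have h4 : 𝓝[>] t ≤ 𝓝[Ioc t 1] t := by
          rw [nhdsWithin_le_iff]
          exact h3
        exact Filter.neBot_of_le h4
      refine ge_of_tendsto h1 ?_
      filter_upwards [self_mem_nhdsWithin] with r hr
      exact (hgt r hr).le
    by_contra hcT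
    have htT : t ∉ T := fun h => hcT ⟨t, h, hGt⟩
    obtain ⟨d, hd0, hder⟩ := hd t ⟨hts.1.1, ht1⟩ htT
    have h5 : HasDerivWithinAt G d (Ioi t) t := hder.Ioi_of_Ici
    have h6 := hasDerivWithinAt_iff_tendsto_slope' (s := Ioi t) (x := t) (by simp) |>.1 h5
    have h7 : ∀ᶠ r in 𝓝[>] t, slope G t r < 0 := h6.eventually (gt_mem_nhds hd0)
    have h8 : ∀ᶠ r in 𝓝[>] t, r ∈ Ioc t 1 := Ioc_mem_nhdsGT ht1
    obtain ⟨r, hr1, hr2⟩ := (h7.and h8).exists
    rw [slope_def_field] at hr1
    have h9 : 0 < r - t := sub_pos.2 hr2.1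
    have h10 : G r - G t < 0 := by
      by_contra h
      push Not at h
      exact absurd hr1 (not_lt.2 (div_nonneg h h9.le))
    have h11 := hgt r hr2
    rw [hGt] at h10
    linarith
  have h1 : volume (Ioo (G 0) (G 1)) ≤ 0 := by
    rw [← hT]
    exact measure_mono key
  rw [Real.volume_Ioo] at h1
  have h2 : 0 < ENNReal.ofReal (G 1 - G 0) := ENNReal.ofReal_pos.2 (sub_pos.2 hlt)
  exact absurd h1 (not_le.2 h2)

section sard

variable {F : Type*} [NormedAddCommGroup F] [NormedSpace ℝ F] [FiniteDimensional ℝ F]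
  [MeasurableSpace F] [BorelSpace F] (μ : Measure F) [μ.IsAddHaarMeasure]
  {L : Type*} [TopologicalSpace L] [ChartedSpace F L] [IsManifold 𝓘(ℝ, F) ∞ L]

/-- Sard's theorem in equal dimensions, on a compact manifold. -/
lemma addHaar_image_critical [CompactSpace L] {Ψ : L → F} {C : Set L}
    (hd : ∀ x ∈ C, MDifferentiableAt 𝓘(ℝ, F) 𝓘(ℝ, F) Ψ x)
    (hC : ∀ x ∈ C, ¬ Function.Injective (mfderiv 𝓘(ℝ, F) 𝓘(ℝ, F) Ψ x)) : μ (Ψ '' C) = 0 := by
  obtain ⟨t, ht⟩ := isCompact_univ.elim_nhds_subcover (fun q : L => (extChartAt 𝓘(ℝ, F) q).source)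
    (fun q _ => extChartAt_source_mem_nhds (I := 𝓘(ℝ, F)) q)
  have hsub : Ψ '' C ⊆ ⋃ q ∈ t, Ψ '' (C ∩ (extChartAt 𝓘(ℝ, F) q).source) := by
    rintro _ ⟨x, hx, rfl⟩
    obtain ⟨q, hq, hxq⟩ := mem_iUnion₂.1 (ht.2 (mem_univ x))
    exact mem_iUnion₂.2 ⟨q, hq, x, ⟨hx, hxq⟩, rfl⟩
  refine measure_mono_null hsub ?_
  refine (measure_biUnion_null_iff (I := (t : Set L)) (Finset.countable_toSet t)).2 ?_
  intro q hq
  set φ := extChartAt 𝓘(ℝ, F) q with hφ
  have himg : Ψ '' (C ∩ φ.source) = (Ψ ∘ φ.symm) '' (φ '' (C ∩ φ.source)) := by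
    ext y
    constructor
    · rintro ⟨x, hx, rfl⟩
      refine ⟨φ x, ⟨x, hx, rfl⟩, ?_⟩
      show Ψ (φ.symm (φ x)) = Ψ x
      rw [φ.left_inv hx.2]
    · rintro ⟨_, ⟨x, hx, rfl⟩, rfl⟩
      refine ⟨x, hx, ?_⟩
      show Ψ x = Ψ (φ.symm (φ x))
      rw [φ.left_inv hx.2]
  rw [himg]
  have hsm : ∀ x ∈ φ.source, MDifferentiableAt 𝓘(ℝ, F) 𝓘(ℝ, F) φ.symm (φ x) := fun x hx =>
    ((contMDiffOn_extChartAt_symm (n := ∞) (I := 𝓘(ℝ, F)) q).contMDiffAt
      ((isOpen_extChartAt_target q).mem_nhds (φ.map_source hx))).mdifferentiableAt (by simp)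
  have hdc : ∀ x ∈ C ∩ φ.source, MDifferentiableAt 𝓘(ℝ, F) 𝓘(ℝ, F) Ψ (φ.symm (φ x)) := by
    intro x hx
    rw [φ.left_inv hx.2]
    exact hd x hx.1
  refine addHaar_image_eq_zero_of_det_fderivWithin_eq_zero μ
    (f' := fun y => fderiv ℝ (Ψ ∘ φ.symm) y) ?_ ?_
  · rintro _ ⟨x, hx, rfl⟩
    have h1 : MDifferentiableAt 𝓘(ℝ, F) 𝓘(ℝ, F) (Ψ ∘ φ.symm) (φ x) :=
      (hdc x hx).comp (φ x) (hsm x hx.2)
    exact (mdifferentiableAt_iff_differentiableAt.1 h1).hasFDerivAt.hasFDerivWithinAt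
  · rintro _ ⟨x, hx, rfl⟩
    by_contra hdet
    apply hC x hx.1
    have h1 := mfderiv_comp (I := 𝓘(ℝ, F)) (I' := 𝓘(ℝ, F)) (I'' := 𝓘(ℝ, F)) (φ x) (hdc x hx)
      (hsm x hx.2)
    have hinj : Function.Injective (fderiv ℝ (Ψ ∘ φ.symm) (φ x)) := by
      have h2 : IsUnit (LinearMap.det ((fderiv ℝ (Ψ ∘ φ.symm) (φ x) : F →L[ℝ] F) : F →ₗ[ℝ] F)) :=
        isUnit_iff_ne_zero.2 hdet
      have h3 := (LinearMap.isUnit_iff_isUnit_det _).2 h2
      have h4 := (LinearMap.isUnit_iff_ker_eq_bot _).1 h3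
      exact LinearMap.ker_eq_bot.1 h4
    -- the derivative of the inverse chart is surjective
    have h5 : (mfderiv 𝓘(ℝ, F) 𝓘(ℝ, F) φ.symm (φ x)).IsInvertible := by
      have h := isInvertible_mfderivWithin_extChartAt_symm (I := 𝓘(ℝ, F)) (φ.map_source hx.2)
      rwa [modelWithCornersSelf_coe, range_id, mfderivWithin_univ] at h
    have h6 : φ.symm (φ x) = x := φ.left_inv hx.2
    have h7 : Function.Injective (mfderiv 𝓘(ℝ, F) 𝓘(ℝ, F) Ψ (φ.symm (φ x))) := by
      intro a b hab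
      obtain ⟨a', rfl⟩ := h5.surjective a
      obtain ⟨b', rfl⟩ := h5.surjective b
      have h8 : mfderiv 𝓘(ℝ, F) 𝓘(ℝ, F) (Ψ ∘ φ.symm) (φ x) a' =
          mfderiv 𝓘(ℝ, F) 𝓘(ℝ, F) (Ψ ∘ φ.symm) (φ x) b' := by
        rw [h1]; exact hab
      rw [mfderiv_eq_fderiv] at h8
      rw [hinj h8]
    rw [h6] at h7
    exact h7

end sard

section mollify

variable {F : Type*} [NormedAddCommGroup F] [NormedSpace ℝ F] [FiniteDimensional ℝ F]

/-- Separation of a point of the dual space from a closed convex set by a vector. -/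
lemma exists_separating_vector {C : Set (F →L[ℝ] ℝ)} (hC : Convex ℝ C) (hCc : IsClosed C)
    {p₀ : F →L[ℝ] ℝ} (hp₀ : p₀ ∉ C) : ∃ (v : F) (s : ℝ), (∀ p ∈ C, p v < s) ∧ s < p₀ v := by
  obtain ⟨g, s, h1, h2⟩ := geometric_hahn_banach_closed_point hC hCc hp₀
  let T : (F →L[ℝ] ℝ) ≃ₗ[ℝ] Module.Dual ℝ F := LinearMap.toContinuousLinearMap.symm
  let g' : Module.Dual ℝ (Module.Dual ℝ F) := (g : (F →L[ℝ] ℝ) →ₗ[ℝ] ℝ).comp T.symm.toLinearMap
  obtain ⟨v, hv⟩ := (Module.evalEquiv ℝ F).surjective g'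
  have hgv : ∀ p : F →L[ℝ] ℝ, g p = p v := by
    intro p
    have h3 : g' (T p) = g p := by
      show g (T.symm (T p)) = g p
      rw [LinearEquiv.symm_apply_apply]
    rw [← h3, ← hv]
    rfl
  refine ⟨v, s, fun p hp => ?_, ?_⟩
  · rw [← hgv]; exact h1 p hp
  · rw [← hgv]; exact h2

/-- **Mollification.** A continuous function whose increments on a ball are controlled by the
closed convex set `C` of covectors can be approximated by smooth functions with differentials in
`C`. -/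
theorem exists_mollify {U : F → ℝ} (hU : Continuous U) {C : Set (F →L[ℝ] ℝ)} (hC : Convex ℝ C)
    (hCc : IsClosed C) {y₀ : F} {δ : ℝ} (hδ : 0 < δ)
    (hMV : ∀ a ∈ ball y₀ (2 * δ), ∀ b ∈ ball y₀ (2 * δ), ∀ h : ℝ, (∀ p ∈ C, p (b - a) ≤ h) →
      U b - U a ≤ h) {ε : ℝ} (hε : 0 < ε) :
    ∃ U' : F → ℝ, ContDiff ℝ ∞ U' ∧ ∀ y ∈ ball y₀ δ, fderiv ℝ U' y ∈ C ∧ |U' y - U y| ≤ ε := by
  let _ : MeasurableSpace F := borel F
  have _ : BorelSpace F := ⟨rfl⟩
  let μ : Measure F := Measure.addHaar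
  have hc2 : IsCompact (closedBall y₀ (2 * δ)) := isCompact_closedBall _ _
  obtain ⟨r₀, hr₀, hr₀U⟩ := Metric.uniformContinuousOn_iff.1
    (hc2.uniformContinuousOn_of_continuous hU.continuousOn) ε hε
  set r : ℝ := min r₀ δ / 2 with hr
  have hr0 : 0 < r := by
    have : 0 < min r₀ δ := lt_min hr₀ hδ
    positivity
  have hrr₀ : r < r₀ := by
    have h1 : min r₀ δ ≤ r₀ := min_le_left _ _
    have : 0 < min r₀ δ := lt_min hr₀ hδ
    rw [hr]; linarith
  have hrδ : r < δ := by
    have h1 : min r₀ δ ≤ δ := min_le_right _ _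
    have : 0 < min r₀ δ := lt_min hr₀ hδ
    rw [hr]; linarith
  let φ : ContDiffBump (0 : F) := ⟨r / 2, r, by positivity, by linarith⟩
  have hφout : φ.rOut = r := rfl
  set U' : F → ℝ := (φ.normed μ) ⋆[ContinuousLinearMap.lsmul ℝ ℝ, μ] U with hU'
  have hU's : ContDiff ℝ ∞ U' :=
    φ.hasCompactSupport_normed.contDiff_convolution_left _ φ.contDiff_normed
      hU.locallyIntegrable
  refine ⟨U', hU's, fun y hy => ⟨?_, ?_⟩⟩
  · by_contra hnot
    obtain ⟨v, s, hs, hs0⟩ := exists_separating_vector hC hCc hnot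
    -- increments in the direction `v`
    have hdef : ∀ x, U' x = ∫ z, φ.normed μ z * U (x - z) ∂μ := fun x => rfl
    have hint : ∀ x, Integrable (fun z => φ.normed μ z * U (x - z)) μ := by
      intro x
      apply Continuous.integrable_of_hasCompactSupport
      · exact φ.continuous_normed.mul (hU.comp (continuous_const.sub continuous_id))
      · exact φ.hasCompactSupport_normed.mul_right
    have hinc : ∀ᶠ t : ℝ in 𝓝[>] 0, U' (y + t • v) - U' y ≤ t * s := by
      have h1 : ∀ᶠ t : ℝ in 𝓝 0, dist (y + t • v) y₀ < δ := by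
        have hcont : Continuous (fun t : ℝ => dist (y + t • v) y₀) := by fun_prop
        have h2 : dist (y + (0:ℝ) • v) y₀ < δ := by simpa using hy
        exact hcont.continuousAt.eventually (gt_mem_nhds h2)
      filter_upwards [h1.filter_mono nhdsWithin_le_nhds, self_mem_nhdsWithin] with t ht ht0
      have ht0' : 0 < t := ht0
      rw [hdef, hdef, ← integral_sub (hint _) (hint _)]
      have h3 : ∫ z, φ.normed μ z * (t * s) ∂μ = t * s := by
        rw [integral_mul_const, φ.integral_normed, one_mul]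
      rw [← h3]
      refine integral_mono ((hint _).sub (hint _)) (φ.integrable_normed.mul_const _) ?_
      intro z
      show φ.normed μ z * U (y + t • v - z) - φ.normed μ z * U (y - z) ≤
        φ.normed μ z * (t * s)
      rw [← mul_sub]
      by_cases hz : z ∈ ball (0:F) r
      · apply mul_le_mul_of_nonneg_left _ (φ.nonneg_normed z)
        have hz' : ‖z‖ < r := by simpa using hz
        have hya : y - z ∈ ball y₀ (2 * δ) := by
          rw [mem_ball, dist_eq_norm]
          have h4 : ‖y - z - y₀‖ ≤ ‖y - y₀‖ + ‖z‖ := by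
            have : y - z - y₀ = (y - y₀) - z := by abel
            rw [this]; exact norm_sub_le _ _
          have h5 : ‖y - y₀‖ < δ := by rw [← dist_eq_norm]; exact hy
          linarith
        have hyb : y + t • v - z ∈ ball y₀ (2 * δ) := by
          rw [mem_ball, dist_eq_norm]
          have h4 : ‖y + t • v - z - y₀‖ ≤ ‖y + t • v - y₀‖ + ‖z‖ := by
            have : y + t • v - z - y₀ = (y + t • v - y₀) - z := by abel
            rw [this]; exact norm_sub_le _ _
          have h5 : ‖y + t • v - y₀‖ < δ := by rw [← dist_eq_norm]; exact ht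
          linarith
        apply hMV _ hya _ hyb
        intro p hp
        have h6 : y + t • v - z - (y - z) = t • v := by abel
        rw [h6, map_smul, smul_eq_mul]
        exact mul_le_mul_of_nonneg_left (hs p hp).le ht0'.le
      · have h4 : φ.normed μ z = 0 := by
          have h5 : z ∉ Function.support (φ.normed μ) := by
            rw [φ.support_normed_eq]
            exact hz
          simpa using h5
        rw [h4, zero_mul, zero_mul]
    have hder : HasDerivAt (fun t : ℝ => U' (y + t • v)) (fderiv ℝ U' y v) 0 := by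
      have h1 : HasFDerivAt U' (fderiv ℝ U' y) (y + (0:ℝ) • v) := by
        rw [zero_smul, add_zero]
        exact (hU's.differentiable (by simp) y).hasFDerivAt
      have h2 : HasDerivAt (fun t : ℝ => y + t • v) v 0 := by
        simpa using ((hasDerivAt_id (0:ℝ)).smul_const v).const_add y
      exact h1.comp_hasDerivAt (0:ℝ) h2
    have h5 : HasDerivWithinAt (fun t : ℝ => U' (y + t • v)) (fderiv ℝ U' y v) (Ioi 0) 0 :=
      hder.hasDerivWithinAt
    have h6 := hasDerivWithinAt_iff_tendsto_slope' (s := Ioi (0:ℝ)) (x := 0) (by simp) |>.1 h5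
    have h7 : ∀ᶠ t in 𝓝[>] (0:ℝ), s < slope (fun t : ℝ => U' (y + t • v)) 0 t :=
      h6.eventually (lt_mem_nhds hs0)
    obtain ⟨t, ⟨ht1, ht2⟩, ht3⟩ := ((h7.and hinc).and self_mem_nhdsWithin).exists
    have ht3' : 0 < t := ht3
    rw [slope_def_field, sub_zero, lt_div_iff₀ ht3'] at ht1
    simp only [zero_smul, add_zero] at ht1
    linarith
  · rw [← Real.dist_eq]
    refine ContDiffBump.dist_normed_convolution_le hU.aestronglyMeasurable ?_
    intro x hx
    rw [hφout] at hx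
    have hyb : y ∈ closedBall y₀ (2 * δ) := by
      have : dist y y₀ < δ := hy
      exact mem_closedBall.2 (by linarith)
    have hxb : x ∈ closedBall y₀ (2 * δ) := by
      have h1 : dist y y₀ < δ := hy
      have h2 : dist x y < r := hx
      have h3 := dist_triangle x y y₀
      exact mem_closedBall.2 (by linarith)
    exact (hr₀U x hxb y hyb (lt_trans hx hrr₀)).le

end mollify

end Pool.Agent.H823
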