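import Mathlib
import Pool.Agent.H823.Convex1
import Pool.Agent.H823.Lines

/-! Exact Lagrangian submanifolds with convex fibres, II: the mean value inequality. -/

open scoped Topology ContDiff Manifold
open Set Bundle Metric MeasureTheory

noncomputable section

namespace Pool.Agent.H823.Nearby

set_option linter.unusedSectionVars false

universe u

open Pool.Agent.Helper186

variable {F : Type u} [NormedAddCommGroup F] [NormedSpace ℝ F] [FiniteDimensional ℝ F]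
  {L : Type*} [TopologicalSpace L] [ChartedSpace F L] [IsManifold 𝓘(ℝ, F) ∞ L]
  {N : Type*} [TopologicalSpace N] [ChartedSpace F N] [IsManifold 𝓘(ℝ, F) ∞ N]

/-- The coordinates of a covector in the chart at `q₀`. -/
def pt (q₀ : N) (ξ : Cotangent F N) : F →L[ℝ] ℝ :=
  (trivializationAt (F →L[ℝ] ℝ) (fun x : N => TangentSpace 𝓘(ℝ, F) x →L[ℝ] ℝ) q₀ ξ).2

lemma pt_apply (q₀ : N) {ξ : Cotangent F N} (hξ : ξ.1 ∈ (chartAt F q₀).source) (a : F) :
    pt q₀ ξ a = (show F →L[ℝ] ℝ from ξ.2)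
      (mfderiv 𝓘(ℝ, F) 𝓘(ℝ, F) (extChartAt 𝓘(ℝ, F) q₀).symm (extChartAt 𝓘(ℝ, F) q₀ ξ.1) a) := by
  have h1 := cot_triv_apply q₀ ξ.1 ξ.2 a
  have h2 := TangentBundle.symmL_trivializationAt (I := 𝓘(ℝ, F)) hξ
  rw [modelWithCornersSelf_coe, range_id, mfderivWithin_univ] at h2
  refine h1.trans ?_
  rw [h2]
  rfl

/-- **Mean value inequality.** The increments of `u₀` in a chart are controlled by any set of
covectors containing `j (L)`. -/
theorem mean_value [CompactSpace L] {j : L → CotangentBundle F N}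
    (hj : ExactLagrangianEmbedding j) {f : L → ℝ} (hf : IsPrim j f) {u₀ : N → ℝ}
    (hu₀c : Continuous u₀) (hu₀ : ∀ x, u₀ (base j x) = f x)
    (hsurj : Function.Surjective (base j)) (q₀ : N) {y₀ : F} {R : ℝ}
    (hR : ball y₀ R ⊆ (extChartAt 𝓘(ℝ, F) q₀).target) {C : Set (F →L[ℝ] ℝ)}
    (hC : ∀ x : L, base j x ∈ (extChartAt 𝓘(ℝ, F) q₀).source →
      extChartAt 𝓘(ℝ, F) q₀ (base j x) ∈ ball y₀ R → pt q₀ (j x) ∈ C)
    {a b : F} (ha : a ∈ ball y₀ R) (hb : b ∈ ball y₀ R) {h : ℝ} (hh : ∀ p ∈ C, p (b - a) ≤ h) :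
    u₀ ((extChartAt 𝓘(ℝ, F) q₀).symm b) - u₀ ((extChartAt 𝓘(ℝ, F) q₀).symm a) ≤ h := by
  set φ := extChartAt 𝓘(ℝ, F) q₀ with hφ
  set U : F → ℝ := fun y => u₀ (φ.symm y) with hU
  have hPs := contMDiff_base hj.smooth
  -- points over a point of the ball
  have hpre : ∀ y ∈ ball y₀ R, ∃ x : L, base j x = φ.symm y := fun y _ => hsurj _
  have hpt : ∀ y ∈ ball y₀ R, ∀ x : L, base j x = φ.symm y → pt q₀ (j x) ∈ C ∧
      base j x ∈ φ.source ∧ φ (base j x) = y := by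
    intro y hy x hx
    have h1 : base j x ∈ φ.source := by rw [hx]; exact φ.map_target (hR hy)
    have h2 : φ (base j x) = y := by rw [hx]; exact φ.right_inv (hR hy)
    exact ⟨hC x h1 (by rw [h2]; exact hy), h1, h2⟩
  by_cases hab : b - a = 0
  · obtain ⟨x, hx⟩ := hpre a ha
    have h1 := hh _ (hpt a ha x hx).1
    rw [hab, map_zero] at h1
    rw [sub_eq_zero.1 hab, sub_self]
    exact h1
  by_contra hlt
  push Not at hlt
  obtain ⟨κ, hκ1, hκ2⟩ := exists_between hlt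
  set v : F := b - a with hv
  obtain ⟨τ, hτ⟩ := SeparatingDual.exists_eq_one (R := ℝ) hab
  let _ : MeasurableSpace F := borel F
  have _ : BorelSpace F := ⟨rfl⟩
  let μ : Measure F := Measure.addHaar
  -- the critical set
  set Crit : Set L := {x | base j x ∈ φ.source ∧
    ¬ Function.Injective (mfderiv 𝓘(ℝ, F) 𝓘(ℝ, F) (base j) x)} with hCrit
  let A : F →L[ℝ] F := ContinuousLinearMap.id ℝ F - (κ + 1) • τ.smulRight v
  let B : ℝ →L[ℝ] F := (ContinuousLinearMap.id ℝ ℝ).smulRight v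
  have hA : ∀ y : F, A y = y - (κ + 1) • τ y • v := fun y => rfl
  have hB : ∀ s : ℝ, B s = s • v := fun s => rfl
  let Ψ : L → F := fun x => A (φ (base j x)) + B (f x)
  let dP : L → F →L[ℝ] F := fun x => mfderiv 𝓘(ℝ, F) 𝓘(ℝ, F) (base j) x
  let dφ : N → F →L[ℝ] F := fun q => mfderiv 𝓘(ℝ, F) 𝓘(ℝ, F) φ q
  let df : L → F →L[ℝ] ℝ := fun x => mfderiv 𝓘(ℝ, F) 𝓘(ℝ, ℝ) f x
  have hΨ : ∀ x : L, base j x ∈ φ.source → HasMFDerivAt 𝓘(ℝ, F) 𝓘(ℝ, F) Ψ x
      (A.comp ((dφ (base j x)).comp (dP x)) + B.comp (df x) : F →L[ℝ] F) := by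
    intro x hx
    have h1 : MDifferentiableAt 𝓘(ℝ, F) 𝓘(ℝ, F) φ (base j x) :=
      mdifferentiableAt_extChartAt (by rwa [hφ, extChartAt_source] at hx)
    have h2 : HasMFDerivAt 𝓘(ℝ, F) 𝓘(ℝ, F) (fun x => φ (base j x)) x
        ((mfderiv 𝓘(ℝ, F) 𝓘(ℝ, F) φ (base j x)).comp
          (mfderiv 𝓘(ℝ, F) 𝓘(ℝ, F) (base j) x)) :=
      h1.hasMFDerivAt.comp x (hPs.mdifferentiableAt (by simp)).hasMFDerivAt
    have h3 : HasMFDerivAt 𝓘(ℝ, F) 𝓘(ℝ, ℝ) f x (mfderiv 𝓘(ℝ, F) 𝓘(ℝ, ℝ) f x) :=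
      (hf.1.mdifferentiableAt (by simp)).hasMFDerivAt
    have h4 : HasMFDerivAt 𝓘(ℝ, F) 𝓘(ℝ, F) A (φ (base j x)) A := A.hasFDerivAt.hasMFDerivAt
    have h5 : HasMFDerivAt 𝓘(ℝ, ℝ) 𝓘(ℝ, F) B (f x) B := B.hasFDerivAt.hasMFDerivAt
    exact (h4.comp x h2).add (h5.comp x h3)
  have hnull : μ (Ψ '' Crit) = 0 := by
    refine addHaar_image_critical μ (fun x hx => (hΨ x hx.1).mdifferentiableAt) ?_
    rintro x ⟨hx, hxi⟩ hinj
    apply hxi
    rw [(hΨ x hx).mfderiv] at hinj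
    refine (injective_iff_map_eq_zero
      (mfderiv 𝓘(ℝ, F) 𝓘(ℝ, F) (base j) x : F →L[ℝ] F)).2 fun z hz => ?_
    have h1 : (mfderiv 𝓘(ℝ, F) 𝓘(ℝ, ℝ) f x z : ℝ) = 0 := by
      rw [hf.eq hj.smooth x z]
      exact (congrArg (show F →L[ℝ] ℝ from (j x).2) hz).trans (map_zero _)
    have h2 : (mfderiv 𝓘(ℝ, F) 𝓘(ℝ, F) φ (base j x)
        (mfderiv 𝓘(ℝ, F) 𝓘(ℝ, F) (base j) x z) : F) = 0 :=
      (congrArg (mfderiv 𝓘(ℝ, F) 𝓘(ℝ, F) φ (base j x)) hz).trans (map_zero _)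
    refine (injective_iff_map_eq_zero
      (A.comp ((dφ (base j x)).comp (dP x)) + B.comp (df x) : F →L[ℝ] F)).1 hinj z ?_
    show A ((mfderiv 𝓘(ℝ, F) 𝓘(ℝ, F) φ (base j x)
        (mfderiv 𝓘(ℝ, F) 𝓘(ℝ, F) (base j) x z) : F)) + B (mfderiv 𝓘(ℝ, F) 𝓘(ℝ, ℝ) f x z : ℝ) = 0
    rw [h1, h2]
    have e1 : A (0 : F) = 0 := map_zero A
    have e2 : B (0 : ℝ) = 0 := map_zero B
    exact (congrArg₂ (· + ·) e1 e2).trans (add_zero (0:F))
  -- almost all lines in the direction `v`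
  have hae : ∀ᵐ y ∂μ, ∀ᵐ s : ℝ, y + s • v ∉ Ψ '' Crit := by
    have h1 : ∀ᵐ y ∂μ, y ∈ (toMeasurable μ (Ψ '' Crit))ᶜ := by
      rw [ae_iff]
      simp only [mem_compl_iff, not_not, ofPred_mem_eq, measure_toMeasurable]
      exact hnull
    have h2 := (ae_ae_add_linearMap_mem_iff (LinearMap.toSpanSingleton ℝ F v) volume μ
      (measurableSet_toMeasurable μ (Ψ '' Crit)).compl).2 h1
    filter_upwards [h2] with y hy
    filter_upwards [hy] with s hs hs'
    exact hs (subset_toMeasurable μ _ hs')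
  have hUc : ∀ y ∈ ball y₀ R, ContinuousAt U y := fun y hy =>
    hu₀c.continuousAt.comp (continuousAt_extChartAt_symm'' (hR hy))
  have hav : a + v = b := by rw [hv]; abel
  have hev : ∀ᶠ y in 𝓝 a, y ∈ ball y₀ R ∧ y + v ∈ ball y₀ R ∧ κ < U (y + v) - U y := by
    have h1 : ContinuousAt (fun y => y + v) a := by fun_prop
    have h2 : ContinuousAt (fun y => U (y + v) - U y) a := by
      refine ContinuousAt.sub ?_ (hUc a ha)
      refine ContinuousAt.comp (g := U) ?_ h1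
      rw [hav]
      exact hUc b hb
    have h3 : ∀ᶠ y in 𝓝 a, y + v ∈ ball y₀ R :=
      h1.eventually (isOpen_ball.mem_nhds (by
        show a + v ∈ ball y₀ R
        rw [hav]; exact hb))
    have h4 : ∀ᶠ y in 𝓝 a, κ < U (y + v) - U y := h2.eventually (lt_mem_nhds (by
      show κ < U (a + v) - U a
      rw [hav]; exact hκ2))
    filter_upwards [isOpen_ball.mem_nhds ha, h3, h4] with y h5 h6 h7
    exact ⟨h5, h6, h7⟩
  obtain ⟨c, hcs, hc1, hc2, hc3⟩ := (Measure.dense_of_ae hae).inter_nhds_nonempty hev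
  have hseg : ∀ t ∈ Icc (0:ℝ) 1, c + t • v ∈ ball y₀ R := by
    intro t ht
    have h1 := (convex_ball y₀ R) hc1 hc2 (sub_nonneg.2 ht.2) ht.1 (by ring)
    have h2 : (1 - t) • c + t • (c + v) = c + t • v := by module
    rw [← h2]
    exact h1
  -- the one-dimensional argument
  let G : ℝ → ℝ := fun t => U (c + t • v) - κ * τ (c + t • v)
  let T : Set ℝ := {t | t ∈ Ico (0:ℝ) 1 ∧ ∃ x : L, base j x = φ.symm (c + t • v) ∧
    ¬ Function.Injective (mfderiv 𝓘(ℝ, F) 𝓘(ℝ, F) (base j) x)}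
  have hGc : ContinuousOn G (Icc 0 1) := by
    intro t ht
    apply ContinuousAt.continuousWithinAt
    have h1 : ContinuousAt (fun t : ℝ => c + t • v) t := by fun_prop
    have h2 : ContinuousAt (fun t : ℝ => U (c + t • v)) t :=
      ContinuousAt.comp (g := U) (hUc _ (hseg t ht)) h1
    have h3 : ContinuousAt (fun t : ℝ => κ * τ (c + t • v)) t := by fun_prop
    exact h2.sub h3
  have hT : volume (G '' T) = 0 := by
    have h1 : ∀ᵐ s : ℝ, c + (s - τ c) • v ∉ Ψ '' Crit :=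
      (measurePreserving_sub_right volume (τ c)).quasiMeasurePreserving.ae hcs
    rw [ae_iff] at h1
    refine measure_mono_null ?_ h1
    rintro _ ⟨t, ⟨ht, x, hx, hxi⟩, rfl⟩
    show ¬ (c + (G t - τ c) • v ∉ Ψ '' Crit)
    rw [not_not]
    have ht' : t ∈ Icc (0:ℝ) 1 := ⟨ht.1, ht.2.le⟩
    obtain ⟨-, hxs, hxφ⟩ := hpt _ (hseg t ht') x hx
    refine ⟨x, ⟨hxs, hxi⟩, ?_⟩
    show A (φ (base j x)) + B (f x) = _
    rw [hA, hB, hxφ]
    have h2 : f x = U (c + t • v) := by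
      show f x = u₀ (φ.symm (c + t • v))
      rw [← hx, hu₀]
    have h3 : G t = f x - κ * (τ c + t) := by
      show U (c + t • v) - κ * τ (c + t • v) = _
      rw [map_add, map_smul, hτ, h2, smul_eq_mul, mul_one]
    rw [h3, map_add, map_smul, hτ, smul_eq_mul, mul_one]
    module
  have hG := le_of_null_image hGc hT (fun t ht htT => by
    have ht' : t ∈ Icc (0:ℝ) 1 := ⟨ht.1, ht.2.le⟩
    have hy := hseg t ht'
    obtain ⟨x, hx⟩ := hpre _ hy
    obtain ⟨hxC, hxs, hxφ⟩ := hpt _ hy x hx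
    have hinj : Function.Injective (mfderiv 𝓘(ℝ, F) 𝓘(ℝ, F) (base j) x) := by
      by_contra hni
      exact htT ⟨ht, x, hx, hni⟩
    obtain ⟨hr1, hr2⟩ := regular_point hj hf hu₀ hinj
    refine ⟨pt q₀ (j x) v - κ, ?_, ?_⟩
    · have := hh _ hxC
      linarith
    · apply HasDerivAt.hasDerivWithinAt
      have h1 : MDifferentiableAt 𝓘(ℝ, F) 𝓘(ℝ, F) φ.symm (c + t • v) :=
        ((contMDiffOn_extChartAt_symm (n := ∞) (I := 𝓘(ℝ, F)) q₀).contMDiffAt
          ((isOpen_extChartAt_target q₀).mem_nhds (hR hy))).mdifferentiableAt (by simp)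
      have h2 : MDifferentiableAt 𝓘(ℝ, F) 𝓘(ℝ, ℝ) u₀ (φ.symm (c + t • v)) := by
        rw [← hx]
        exact hr1.mdifferentiableAt (by simp)
      have h3 : MDifferentiableAt 𝓘(ℝ, F) 𝓘(ℝ, ℝ) U (c + t • v) := h2.comp _ h1
      have h4 : HasFDerivAt U (fderiv ℝ U (c + t • v)) (c + t • v) :=
        (mdifferentiableAt_iff_differentiableAt.1 h3).hasFDerivAt
      have h5 : fderiv ℝ U (c + t • v) v = pt q₀ (j x) v := by
        have h6 := DFunLike.congr_fun (mfderiv_comp (I := 𝓘(ℝ, F)) (I' := 𝓘(ℝ, F))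
          (I'' := 𝓘(ℝ, ℝ)) (c + t • v) h2 h1) v
        rw [pt_apply q₀ (by
          show base j x ∈ (chartAt F q₀).source
          rwa [hφ, extChartAt_source] at hxs)]
        have h7 : extChartAt 𝓘(ℝ, F) q₀ (j x).1 = c + t • v := hxφ
        rw [h7]
        have h8 : fderiv ℝ U (c + t • v) v = (mfderiv 𝓘(ℝ, F) 𝓘(ℝ, ℝ) u₀ (φ.symm (c + t • v))
          (mfderiv 𝓘(ℝ, F) 𝓘(ℝ, F) φ.symm (c + t • v) v) : ℝ) := by
          rw [← mfderiv_eq_fderiv]
          exact h6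
        rw [h8]
        have h9 : ∀ q : N, base j x = q → ∀ z : F,
            (mfderiv 𝓘(ℝ, F) 𝓘(ℝ, ℝ) u₀ q z : ℝ) = (show F →L[ℝ] ℝ from (j x).2) z := by
          rintro q rfl z
          exact DFunLike.congr_fun hr2 z
        exact h9 _ hx _
      have h10 : HasDerivAt (fun t : ℝ => c + t • v) v t := by
        simpa using ((hasDerivAt_id t).smul_const v).const_add c
      have h11 : HasDerivAt (fun t : ℝ => U (c + t • v)) (pt q₀ (j x) v) t := by
        rw [← h5]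
        exact h4.comp_hasDerivAt t h10
      have h12 : HasDerivAt (fun t : ℝ => κ * τ (c + t • v)) κ t := by
        have h13 : HasDerivAt (fun t : ℝ => τ (c + t • v)) (τ v) t :=
          τ.hasFDerivAt.comp_hasDerivAt t h10
        have h14 := h13.const_mul κ
        rw [hτ, mul_one] at h14
        exact h14
      exact h11.sub h12)
  have hG1 : G 1 = U (c + v) - κ * (τ c + 1) := by
    show U (c + (1:ℝ) • v) - κ * τ (c + (1:ℝ) • v) = _
    rw [one_smul, map_add, hτ]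
  have hG0 : G 0 = U c - κ * τ c := by
    show U (c + (0:ℝ) • v) - κ * τ (c + (0:ℝ) • v) = _
    rw [zero_smul, add_zero]
  rw [hG1, hG0] at hG
  linarith

end Pool.Agent.H823.Nearby
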