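import Mathlib
import Pool.Agent.H823.Convex2

/-! Exact Lagrangian submanifolds with convex fibres, III: fibrewise convex neighbourhoods. -/

open scoped Topology ContDiff Manifold
open Set Bundle Metric

noncomputable section

namespace Pool.Agent.H823.Nearby

set_option linter.unusedSectionVars false

universe u

open Pool.Agent.Helper186

variable {F : Type u} [NormedAddCommGroup F] [NormedSpace ℝ F] [FiniteDimensional ℝ F]
  {L : Type*} [TopologicalSpace L] [ChartedSpace F L] [IsManifold 𝓘(ℝ, F) ∞ L]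
  {N : Type*} [TopologicalSpace N] [ChartedSpace F N] [IsManifold 𝓘(ℝ, F) ∞ N]

lemma pt_comb (q₀ q : N) (p p' : TangentSpace 𝓘(ℝ, F) q →L[ℝ] ℝ) (s t : ℝ) :
    pt q₀ (⟨q, s • p + t • p'⟩ : Cotangent F N) = s • pt q₀ (⟨q, p⟩ : Cotangent F N) +
      t • pt q₀ (⟨q, p'⟩ : Cotangent F N) := by
  refine ContinuousLinearMap.ext fun a => ?_
  have h1 := cot_triv_apply q₀ q (s • p + t • p') a
  have h2 := cot_triv_apply q₀ q p a
  have h3 := cot_triv_apply q₀ q p' a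
  refine h1.trans ?_
  show s * p ((trivializationAt F (TangentSpace 𝓘(ℝ, F)) q₀).symmL ℝ q a) +
    t * p' ((trivializationAt F (TangentSpace 𝓘(ℝ, F)) q₀).symmL ℝ q a) =
    s * pt q₀ (⟨q, p⟩ : Cotangent F N) a + t * pt q₀ (⟨q, p'⟩ : Cotangent F N) a
  rw [← h2, ← h3]
  rfl

/-- Local fibrewise convex neighbourhoods. -/
lemma exists_local_convex [T2Space N] [CompactSpace L] {j : L → CotangentBundle F N}
    (hj : ContMDiff 𝓘(ℝ, F) (cotangentCorners F) ∞ j) (hconv : ConvexFibres j)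
    {A : Set (Cotangent F N)} (hA : IsOpen A) (hjA : range j ⊆ A) (q₀ : N) :
    ∃ (W : Set N) (C : Set (F →L[ℝ] ℝ)), IsOpen W ∧ q₀ ∈ W ∧ W ⊆ (chartAt F q₀).source ∧
      IsClosed C ∧ Convex ℝ C ∧
      IsOpen {ξ : Cotangent F N | ξ.1 ∈ W ∧ pt q₀ ξ ∈ interior C} ∧
      (∀ ξ : Cotangent F N, ξ.1 ∈ W → pt q₀ ξ ∈ C → ξ ∈ A) ∧
      ∀ x, base j x ∈ W → pt q₀ (j x) ∈ interior C := by
  set e := trivializationAt (F →L[ℝ] ℝ) (fun x : N => TangentSpace 𝓘(ℝ, F) x →L[ℝ] ℝ) q₀ with he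
  have hq₀e : q₀ ∈ e.baseSet := mem_baseSet_trivializationAt _ _ q₀
  have hc := (contMDiff_base hj).continuous
  have hptc : ContinuousOn (pt q₀ : Cotangent F N → _) e.source :=
    continuous_snd.comp_continuousOn e.continuousOn
  have hsrc : ∀ ξ : Cotangent F N, ξ ∈ e.source ↔ ξ.1 ∈ e.baseSet := fun ξ => e.mem_source
  have hptj : ContinuousOn (fun x => pt q₀ (j x)) (base j ⁻¹' e.baseSet) :=
    hptc.comp hj.continuous.continuousOn (fun x hx => (hsrc _).2 hx)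
  set K : Set (F →L[ℝ] ℝ) := (fun x => pt q₀ (j x)) '' (base j ⁻¹' {q₀}) with hK
  have hfc : IsCompact (base j ⁻¹' {q₀}) := (isClosed_singleton.preimage hc).isCompact
  have hKc : IsCompact K := hfc.image_of_continuousOn (hptj.mono (by
    intro x hx
    have hx' : base j x = q₀ := hx
    show base j x ∈ e.baseSet
    rw [hx']
    exact hq₀e))
  have hKconv : Convex ℝ K := by
    rintro _ ⟨x₀, hx₀, rfl⟩ _ ⟨x₁, hx₁, rfl⟩ s t hs ht hst
    have hx₀' : (j x₀).1 = q₀ := hx₀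
    have hx₁' : (j x₁).1 = q₀ := hx₁
    obtain ⟨p₀, hp₀⟩ : ∃ p₀ : TangentSpace 𝓘(ℝ, F) q₀ →L[ℝ] ℝ,
        j x₀ = (⟨q₀, p₀⟩ : CotangentBundle F N) := by
      rw [← hx₀']
      exact ⟨(j x₀).2, rfl⟩
    obtain ⟨p₁, hp₁⟩ : ∃ p₁ : TangentSpace 𝓘(ℝ, F) q₀ →L[ℝ] ℝ,
        j x₁ = (⟨q₀, p₁⟩ : CotangentBundle F N) := by
      rw [← hx₁']
      exact ⟨(j x₁).2, rfl⟩
    obtain ⟨y, hy⟩ := hconv q₀ (show p₀ ∈ _ from ⟨x₀, hp₀⟩) (show p₁ ∈ _ from ⟨x₁, hp₁⟩) hs ht hst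
    refine ⟨y, ?_, ?_⟩
    · show (j y).1 = q₀
      rw [hy]
    · show pt q₀ (j y) = s • pt q₀ (j x₀) + t • pt q₀ (j x₁)
      rw [hy, hp₀, hp₁]
      exact pt_comb q₀ q₀ p₀ p₁ s t
  have hA' : IsOpen (e.target ∩ e.toOpenPartialHomeomorph.symm ⁻¹' A) :=
    e.toOpenPartialHomeomorph.isOpen_inter_preimage_symm hA
  have heξ : ∀ ξ : Cotangent F N, ξ.1 ∈ e.baseSet → e ξ = (ξ.1, pt q₀ ξ) := by
    intro ξ hξ
    exact Prod.ext (e.coe_fst ((hsrc ξ).2 hξ)) rfl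
  obtain ⟨u, v, hu, hv, hu0, hKv, huv⟩ := generalized_tube_lemma
    (isCompact_singleton (x := q₀)) hKc hA' (by
      rintro ⟨q, p⟩ ⟨hq, x, hx, hxp⟩
      have hq' : q = q₀ := hq
      have hx' : (j x).1 = q₀ := hx
      have hxp' : pt q₀ (j x) = p := hxp
      have hxb : (j x).1 ∈ e.baseSet := by rw [hx']; exact hq₀e
      have h1 : e (j x) = (q, p) := by
        rw [heξ _ hxb, hxp', hx', hq']
      rw [← h1]
      refine ⟨e.map_source ((hsrc _).2 hxb), ?_⟩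
      show e.toOpenPartialHomeomorph.symm (e (j x)) ∈ A
      have h2 : e.toOpenPartialHomeomorph.symm (e (j x)) = j x :=
        e.toOpenPartialHomeomorph.left_inv ((hsrc _).2 hxb)
      rw [h2]
      exact hjA ⟨x, rfl⟩)
  obtain ⟨δ, hδ, hδv⟩ := hKc.exists_cthickening_subset_open hv hKv
  set C := cthickening δ K with hC
  have hKC : K ⊆ interior C := by
    refine (self_subset_thickening hδ K).trans ?_
    exact interior_maximal (thickening_subset_cthickening δ K) isOpen_thickening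
  have hgood : IsOpen ((base j ⁻¹' e.baseSet) ∩ (fun x => pt q₀ (j x)) ⁻¹' interior C) :=
    hptj.isOpen_inter_preimage (e.open_baseSet.preimage hc) isOpen_interior
  set bad : Set L := ((base j ⁻¹' e.baseSet) ∩ (fun x => pt q₀ (j x)) ⁻¹' interior C)ᶜ with hbad
  have hbadc : IsCompact (base j '' bad) := hgood.isClosed_compl.isCompact.image hc
  refine ⟨u ∩ e.baseSet ∩ (chartAt F q₀).source ∩ (base j '' bad)ᶜ, C, ?_, ?_, ?_,
    isClosed_cthickening, hKconv.cthickening δ, ?_, ?_, ?_⟩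
  · exact ((hu.inter e.open_baseSet).inter (chartAt F q₀).open_source).inter
      hbadc.isClosed.isOpen_compl
  · refine ⟨⟨⟨hu0 rfl, hq₀e⟩, mem_chart_source F q₀⟩, ?_⟩
    rintro ⟨x, hx, hxq⟩
    refine hx ⟨?_, hKC ⟨x, hxq, rfl⟩⟩
    show base j x ∈ e.baseSet
    rw [hxq]; exact hq₀e
  · exact fun q hq => hq.1.2
  · have h1 : IsOpen (e.source ∩ (pt q₀ : Cotangent F N → _) ⁻¹' interior C) :=
      hptc.isOpen_inter_preimage e.open_source isOpen_interior
    have h2 : IsOpen ((TotalSpace.proj : Cotangent F N → N) ⁻¹'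
        (u ∩ e.baseSet ∩ (chartAt F q₀).source ∩ (base j '' bad)ᶜ)) :=
      (((hu.inter e.open_baseSet).inter (chartAt F q₀).open_source).inter
      hbadc.isClosed.isOpen_compl).preimage contMDiff_projC.continuous
    convert h2.inter h1 using 1
    ext ξ
    constructor
    · rintro ⟨h3, h4⟩
      exact ⟨h3, (hsrc ξ).2 h3.1.1.2, h4⟩
    · rintro ⟨h3, h4, h5⟩
      exact ⟨h3, h5⟩
  · rintro ξ hξ hξC
    have hξb : ξ.1 ∈ e.baseSet := hξ.1.1.2
    have h1 : (ξ.1, pt q₀ ξ) ∈ e.target ∩ e.toOpenPartialHomeomorph.symm ⁻¹' A :=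
      huv ⟨hξ.1.1.1, hδv hξC⟩
    rw [← heξ ξ hξb] at h1
    have h2 : e.toOpenPartialHomeomorph.symm (e ξ) = ξ :=
      e.toOpenPartialHomeomorph.left_inv ((hsrc _).2 hξb)
    have h3 : e.toOpenPartialHomeomorph.symm (e ξ) ∈ A := h1.2
    rwa [h2] at h3
  · intro x hx
    by_contra h
    exact hx.2 ⟨x, fun h1 => h h1.2, rfl⟩

/-- Fibrewise convex neighbourhoods. -/
lemma exists_convex_nbhd [T2Space N] [CompactSpace N] [CompactSpace L]
    {j : L → CotangentBundle F N}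
    (hj : ContMDiff 𝓘(ℝ, F) (cotangentCorners F) ∞ j) (hconv : ConvexFibres j)
    {A : Set (Cotangent F N)} (hA : IsOpen A) (hjA : range j ⊆ A) :
    ∃ V : Set (Cotangent F N), IsOpen V ∧ range j ⊆ V ∧ V ⊆ A ∧
      ∀ q : N, Convex ℝ {p : TangentSpace 𝓘(ℝ, F) q →L[ℝ] ℝ | (⟨q, p⟩ : Cotangent F N) ∈ V} := by
  choose W C hW hqW hWs hCc hCconv hO hOA hjO using
    fun q₀ : N => exists_local_convex hj hconv hA hjA q₀
  have : LocallyCompactSpace N := ChartedSpace.locallyCompactSpace F N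
  choose κ hκ hκq hκW using fun q₀ : N => exists_compact_subset (hW q₀) (hqW q₀)
  obtain ⟨t, ht⟩ := isCompact_univ.elim_nhds_subcover (fun q : N => κ q)
    (fun q _ => mem_interior_iff_mem_nhds.1 (hκq q))
  refine ⟨{ξ : Cotangent F N | ∀ i ∈ t, ξ.1 ∈ κ i → ξ.1 ∈ W i ∧ pt i ξ ∈ interior (C i)},
    ?_, ?_, ?_, ?_⟩
  · have h1 : {ξ : Cotangent F N | ∀ i ∈ t, ξ.1 ∈ κ i → ξ.1 ∈ W i ∧ pt i ξ ∈ interior (C i)} =
        ⋂ i ∈ t, (((TotalSpace.proj : Cotangent F N → N) ⁻¹' κ i)ᶜ ∪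
          {ξ : Cotangent F N | ξ.1 ∈ W i ∧ pt i ξ ∈ interior (C i)}) := by
      ext ξ
      simp only [mem_iInter, mem_union, mem_compl_iff, mem_preimage]
      constructor
      · intro h i hi
        by_cases hk : ξ.1 ∈ κ i
        · exact Or.inr (h i hi hk)
        · exact Or.inl hk
      · intro h i hi hk
        rcases h i hi with h2 | h2
        · exact absurd hk h2
        · exact h2
    rw [h1]
    refine isOpen_biInter_finset fun i _ => IsOpen.union ?_ (hO i)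
    exact ((hκ i).isClosed.preimage contMDiff_projC.continuous).isOpen_compl
  · rintro _ ⟨x, rfl⟩ i _ hi
    exact ⟨hκW i hi, hjO i x (hκW i hi)⟩
  · intro ξ hξ
    obtain ⟨i, hi, hik⟩ := mem_iUnion₂.1 (ht.2 (mem_univ ξ.1))
    obtain ⟨h1, h2⟩ := hξ i hi hik
    exact hOA i ξ h1 (interior_subset h2)
  · intro q p hp p' hp' s r hs hr hsr i hi hik
    refine ⟨hκW i hik, ?_⟩
    have h1 := (hp i hi hik).2
    have h2 := (hp' i hi hik).2
    rw [pt_comb]
    exact (hCconv i).interior h1 h2 hs hr hsr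

end Pool.Agent.H823.Nearby
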