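import Mathlib
import Pool.Agent.H823.Convex3

/-! Exact Lagrangian submanifolds with convex fibres, IV: local and global smooth sections. -/

open scoped Topology ContDiff Manifold
open Set Bundle Metric

noncomputable section

namespace Pool.Agent.H823.Nearby

set_option linter.unusedSectionVars false

universe u

open Pool.Agent.Helper186

variable {F : Type u} [NormedAddCommGroup F] [NormedSpace ℝ F] [FiniteDimensional ℝ F]
  {L : Type*} [TopologicalSpace L] [ChartedSpace F L] [IsManifold 𝓘(ℝ, F) ∞ L]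
  {N : Type*} [TopologicalSpace N] [ChartedSpace F N] [IsManifold 𝓘(ℝ, F) ∞ N]

/-- Local smooth approximations. -/
lemma exists_local_function [T2Space N] [CompactSpace L] {j : L → CotangentBundle F N}
    (hj : ExactLagrangianEmbedding j) (hconv : ConvexFibres j) {f : L → ℝ} (hf : IsPrim j f)
    {u₀ : N → ℝ} (hu₀c : Continuous u₀) (hu₀ : ∀ x, u₀ (base j x) = f x)
    (hsurj : Function.Surjective (base j))
    {V : Set (Cotangent F N)} (hV : IsOpen V) (hjV : range j ⊆ V) (q₀ : N) :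
    ∃ W : Set N, IsOpen W ∧ q₀ ∈ W ∧ ∀ ε > 0, ∃ u : N → ℝ, ContMDiff 𝓘(ℝ, F) 𝓘(ℝ, ℝ) ∞ u ∧
      ∀ q ∈ W, (⟨q, dForm 𝓘(ℝ, F) u q⟩ : Cotangent F N) ∈ V ∧ |u q - u₀ q| ≤ ε := by
  obtain ⟨W₀, C, hW₀, hqW₀, hW₀s, hCc, hCconv, -, hCV, hjC⟩ :=
    exists_local_convex hj.smooth hconv hV hjV q₀
  set φ := extChartAt 𝓘(ℝ, F) q₀ with hφ
  have hopen : IsOpen (φ.target ∩ φ.symm ⁻¹' W₀) :=
    (continuousOn_extChartAt_symm (I := 𝓘(ℝ, F)) q₀).isOpen_inter_preimage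
      (isOpen_extChartAt_target q₀) hW₀
  have hmem : φ q₀ ∈ φ.target ∩ φ.symm ⁻¹' W₀ := by
    refine ⟨mem_extChartAt_target q₀, ?_⟩
    show φ.symm (φ q₀) ∈ W₀
    rw [φ.left_inv (mem_extChartAt_source q₀)]
    exact hqW₀
  obtain ⟨r, hr, hrb⟩ := Metric.isOpen_iff.1 hopen _ hmem
  set δ : ℝ := r / 4 with hδ
  have hδ0 : 0 < δ := by positivity
  have hcb : closedBall (φ q₀) (2 * δ) ⊆ ball (φ q₀) r := closedBall_subset_ball (by
    rw [hδ]; linarith)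
  have hbt : ball (φ q₀) (2 * δ) ⊆ φ.target := fun y hy => (hrb (hcb (ball_subset_closedBall hy))).1
  have hbW : ∀ q ∈ φ.source, φ q ∈ ball (φ q₀) (2 * δ) → q ∈ W₀ := by
    intro q hq hq2
    have h1 : φ.symm (φ q) ∈ W₀ := (hrb (hcb (ball_subset_closedBall hq2))).2
    rwa [φ.left_inv hq] at h1
  -- Tietze extension
  have hUc : ContinuousOn (fun y => u₀ (φ.symm y)) (closedBall (φ q₀) (2 * δ)) := by
    refine hu₀c.comp_continuousOn ((continuousOn_extChartAt_symm q₀).mono ?_)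
    exact fun y hy => (hrb (hcb hy)).1
  obtain ⟨U₁, hU₁⟩ := ContinuousMap.exists_restrict_eq (Y := ℝ) (s := closedBall (φ q₀) (2 * δ))
    isClosed_closedBall ⟨_, hUc.domRestrict⟩
  have hU₁e : ∀ y ∈ closedBall (φ q₀) (2 * δ), U₁ y = u₀ (φ.symm y) := fun y hy =>
    DFunLike.congr_fun hU₁ ⟨y, hy⟩
  have hMV : ∀ a ∈ ball (φ q₀) (2 * δ), ∀ b ∈ ball (φ q₀) (2 * δ), ∀ h : ℝ,
      (∀ p ∈ C, p (b - a) ≤ h) → U₁ b - U₁ a ≤ h := by
    intro a ha b hb h hh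
    rw [hU₁e a (ball_subset_closedBall ha), hU₁e b (ball_subset_closedBall hb)]
    exact mean_value hj hf hu₀c hu₀ hsurj q₀ hbt
      (fun x hx hx2 => interior_subset (hjC x (hbW _ hx hx2))) ha hb hh
  -- the cutoff
  let χ : SmoothBumpFunction 𝓘(ℝ, F) q₀ := Classical.arbitrary _
  refine ⟨{q | χ =ᶠ[𝓝 q] 1} ∩ (φ.source ∩ φ ⁻¹' ball (φ q₀) δ), ?_, ?_, ?_⟩
  · exact isOpen_setOfPred_eventually_nhds.inter
      ((continuousOn_extChartAt q₀).isOpen_inter_preimage (isOpen_extChartAt_source q₀)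
        isOpen_ball)
  · exact ⟨χ.eventuallyEq_one, mem_extChartAt_source q₀, mem_ball_self hδ0⟩
  · intro ε hε
    obtain ⟨U', hU's, hU'⟩ := exists_mollify U₁.continuous hCconv hCc hδ0 hMV hε
    refine ⟨fun q => χ q • U' (φ q), ?_, ?_⟩
    · apply χ.contMDiff_smul
      exact hU's.contMDiff.comp_contMDiffOn (contMDiffOn_extChartAt (I := 𝓘(ℝ, F)) (n := ∞))
    · rintro q ⟨hq1, hqs, hqb⟩
      have hqb' : φ q ∈ ball (φ q₀) (2 * δ) := ball_subset_ball (by linarith) hqb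
      have hqW : q ∈ W₀ := hbW q hqs hqb'
      have h1 : (fun q => χ q • U' (φ q)) =ᶠ[𝓝 q] fun q => U' (φ q) := by
        filter_upwards [hq1] with x hx
        rw [hx]
        exact one_smul ℝ _
      obtain ⟨h2, h3⟩ := hU' (φ q) hqb
      constructor
      · apply hCV _ hqW
        have h4 : pt q₀ (⟨q, dForm 𝓘(ℝ, F) (fun q => χ q • U' (φ q)) q⟩ : Cotangent F N) =
            fderiv ℝ U' (φ q) := by
          refine ContinuousLinearMap.ext fun a => ?_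
          rw [pt_apply q₀ (hW₀s hqW)]
          have h5 : dForm 𝓘(ℝ, F) (fun q => χ q • U' (φ q)) q =
              mfderiv 𝓘(ℝ, F) 𝓘(ℝ, ℝ) (fun q => U' (φ q)) q := h1.mfderiv_eq
          have h6 : MDifferentiableAt 𝓘(ℝ, F) 𝓘(ℝ, F) φ q :=
            mdifferentiableAt_extChartAt (by rwa [hφ, extChartAt_source] at hqs)
          have h7 := mfderiv_comp (I := 𝓘(ℝ, F)) (I' := 𝓘(ℝ, F)) (I'' := 𝓘(ℝ, ℝ)) q
            (hU's.contMDiff.mdifferentiableAt (by simp) (x := φ q)) h6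
          have h8 := mfderiv_extChartAt_comp_mfderivWithin_extChartAt_symm' (I := 𝓘(ℝ, F)) hqs
          rw [modelWithCornersSelf_coe, range_id, mfderivWithin_univ] at h8
          show (dForm 𝓘(ℝ, F) (fun q => χ q • U' (φ q)) q : F →L[ℝ] ℝ)
            (mfderiv 𝓘(ℝ, F) 𝓘(ℝ, F) φ.symm (φ q) a) = fderiv ℝ U' (φ q) a
          have h9 : (dForm 𝓘(ℝ, F) (fun q => χ q • U' (φ q)) q : F →L[ℝ] ℝ)
              (mfderiv 𝓘(ℝ, F) 𝓘(ℝ, F) φ.symm (φ q) a) =
              (mfderiv 𝓘(ℝ, F) 𝓘(ℝ, ℝ) U' (φ q) (mfderiv 𝓘(ℝ, F) 𝓘(ℝ, F) φ q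
                (mfderiv 𝓘(ℝ, F) 𝓘(ℝ, F) φ.symm (φ q) a)) : ℝ) := by
            rw [h5]
            exact DFunLike.congr_fun h7 _
          rw [h9, mfderiv_eq_fderiv]
          exact congrArg (fderiv ℝ U' (φ q)) (DFunLike.congr_fun h8 a)
        rw [h4]
        exact h2
      · have h4 : χ q • U' (φ q) = U' (φ q) := h1.self_of_nhds
        have h5 : U₁ (φ q) = u₀ q := by
          rw [hU₁e _ (ball_subset_closedBall hqb'), φ.left_inv hqs]
        show |χ q • U' (φ q) - u₀ q| ≤ ε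
        rw [h4, ← h5]
        exact h3

/-- The differential of a sum of products. -/
lemma dForm_sum_mul {ι : Type*} (s : Finset ι) {ρ u : ι → N → ℝ} {q : N}
    (hρ : ∀ i, MDifferentiableAt 𝓘(ℝ, F) 𝓘(ℝ, ℝ) (ρ i) q)
    (hu : ∀ i, MDifferentiableAt 𝓘(ℝ, F) 𝓘(ℝ, ℝ) (u i) q) :
    HasMFDerivAt 𝓘(ℝ, F) 𝓘(ℝ, ℝ) (fun q => ∑ i ∈ s, ρ i q * u i q) q
      (∑ i ∈ s, (ρ i q • (show F →L[ℝ] ℝ from dForm 𝓘(ℝ, F) (u i) q) +
        u i q • (show F →L[ℝ] ℝ from dForm 𝓘(ℝ, F) (ρ i) q)) : F →L[ℝ] ℝ) := by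
  classical
  induction s using Finset.induction_on with
  | empty =>
    simp only [Finset.sum_empty]
    exact hasMFDerivAt_const (0:ℝ) q
  | insert i s hi ih =>
    have h1 : HasMFDerivAt 𝓘(ℝ, F) 𝓘(ℝ, ℝ) (ρ i * u i) q
        (ρ i q • (show F →L[ℝ] ℝ from dForm 𝓘(ℝ, F) (u i) q) +
        u i q • (show F →L[ℝ] ℝ from dForm 𝓘(ℝ, F) (ρ i) q) : F →L[ℝ] ℝ) :=
      (hρ i).hasMFDerivAt.mul (hu i).hasMFDerivAt
    have h2 := h1.add ih
    rw [Finset.sum_insert hi]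
    refine HasMFDerivAt.congr_of_eventuallyEq h2 (Filter.Eventually.of_forall fun q' => ?_)
    exact Finset.sum_insert hi

/-- Adding combinations of the differentials of finitely many functions. -/
def shift {ι : Type*} [Fintype ι] (ρ : ι → N → ℝ) (z : (ι → ℝ) × Cotangent F N) :
    Cotangent F N :=
  ⟨z.2.1, z.2.2 + ∑ i, z.1 i • dForm 𝓘(ℝ, F) (ρ i) z.2.1⟩

lemma continuous_shift {ι : Type*} [Fintype ι] {ρ : ι → N → ℝ}
    (hρ : ∀ i, ContMDiff 𝓘(ℝ, F) 𝓘(ℝ, ℝ) ∞ (ρ i)) :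
    Continuous (shift (F := F) ρ) := by
  have h : ContMDiff (𝓘(ℝ, ι → ℝ).prod (IC F)) (IC F) ∞ (shift (F := F) ρ) := by
    intro z₀
    refine contMDiffAt_cot_of_pairing (b := fun z : (ι → ℝ) × Cotangent F N => z.2.1)
      (θ := fun z => z.2.2 + ∑ i, z.1 i • dForm 𝓘(ℝ, F) (ρ i) z.2.1)
      ((contMDiff_projC _).comp z₀ contMDiffAt_snd) ?_
    intro v hv
    have h1 := contMDiffAt_cot_pairing (f := fun z : (ι → ℝ) × Cotangent F N => z.2) (v := v)
      (p₀ := z₀) contMDiffAt_snd hv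
    have h2 : ∀ i, ContMDiffAt (𝓘(ℝ, ι → ℝ).prod (IC F)) 𝓘(ℝ, ℝ) ∞
        (fun z : (ι → ℝ) × Cotangent F N => z.1 i * dForm 𝓘(ℝ, F) (ρ i) z.2.1 (v z)) z₀ := by
      intro i
      have h3 : ContMDiffAt (𝓘(ℝ, ι → ℝ).prod (IC F)) 𝓘(ℝ, ℝ) ∞
          (fun z : (ι → ℝ) × Cotangent F N => z.1 i) z₀ :=
        ((ContinuousLinearMap.proj (R := ℝ) (φ := fun _ : ι => ℝ) i).contDiff.contMDiff _).comp z₀
          contMDiffAt_fst
      exact h3.mul ((smoothForm_dForm (hρ i)).comp hv le_rfl)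
    have h4 : ContMDiffAt (𝓘(ℝ, ι → ℝ).prod (IC F)) 𝓘(ℝ, ℝ) ∞
        (fun z : (ι → ℝ) × Cotangent F N =>
          z.2.2 (v z) + ∑ i, z.1 i * dForm 𝓘(ℝ, F) (ρ i) z.2.1 (v z)) z₀ :=
      h1.add (contMDiffAt_finsetSum fun i _ => h2 i)
    refine h4.congr_of_eventuallyEq (Filter.Eventually.of_forall fun z => ?_)
    show (z.2.2 + ∑ i, z.1 i • dForm 𝓘(ℝ, F) (ρ i) z.2.1 : F →L[ℝ] ℝ) (v z) = _
    rw [add_apply, sum_apply]
    rfl
  exact h.continuous

/-- **Smooth sections.** There is a smooth function whose differential is a section of a given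
fibrewise convex neighbourhood of `j (L)`. -/
theorem exists_smooth_section [T2Space N] [CompactSpace N] [CompactSpace L]
    {j : L → CotangentBundle F N}
    (hj : ExactLagrangianEmbedding j) (hconv : ConvexFibres j) {f : L → ℝ} (hf : IsPrim j f)
    {u₀ : N → ℝ} (hu₀c : Continuous u₀) (hu₀ : ∀ x, u₀ (base j x) = f x)
    (hsurj : Function.Surjective (base j))
    {V : Set (Cotangent F N)} (hV : IsOpen V) (hjV : range j ⊆ V) :
    ∃ u : N → ℝ, ContMDiff 𝓘(ℝ, F) 𝓘(ℝ, ℝ) ∞ u ∧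
      ∀ q, (⟨q, dForm 𝓘(ℝ, F) u q⟩ : Cotangent F N) ∈ V := by
  classical
  have hjc : IsCompact (range j) := isCompact_range hj.smooth.continuous
  obtain ⟨Q, hQ, hjQ, hQV⟩ := exists_compact_between hjc hV hjV
  obtain ⟨V', hV', hjV', hV'Q, hV'c⟩ := exists_convex_nbhd hj.smooth hconv isOpen_interior hjQ
  choose W hW hqW hWu using fun q₀ : N =>
    exists_local_function hj hconv hf hu₀c hu₀ hsurj hV' hjV' q₀
  obtain ⟨t, ht⟩ := isCompact_univ.elim_nhds_subcover (fun q : N => W q)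
    (fun q _ => (hW q).mem_nhds (hqW q))
  obtain ⟨ρ, hρ⟩ := SmoothPartitionOfUnity.exists_isSubordinate 𝓘(ℝ, F) (s := (univ : Set N))
    isClosed_univ (fun i : t => W i) (fun i => hW i) (by
      intro q hq
      obtain ⟨i, hi, hqi⟩ := mem_iUnion₂.1 (ht.2 hq)
      exact mem_iUnion.2 ⟨⟨i, hi⟩, hqi⟩)
  have hρs : ∀ i, ContMDiff 𝓘(ℝ, F) 𝓘(ℝ, ℝ) ∞ (ρ i) := fun i => (ρ i).contMDiff
  have hρW : ∀ i : t, ∀ q, q ∉ W i → ρ i =ᶠ[𝓝 q] fun _ => 0 := by
    intro i q hq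
    have h1 : q ∉ tsupport (ρ i) := fun h => hq (hρ i h)
    exact notMem_tsupport_iff_eventuallyEq.1 h1
  have hsum : ∀ q, ∑ i, ρ i q = 1 := by
    intro q
    have h1 := ρ.sum_eq_one (mem_univ q)
    rwa [finsum_eq_sum_of_fintype] at h1
  -- the size of the errors
  obtain ⟨a, b, ha, hb, ha0, hQb, hab⟩ := generalized_tube_lemma
    (isCompact_singleton (x := (0 : t → ℝ))) hQ
    (hV.preimage (continuous_shift (F := F) (ρ := fun i => ρ i) hρs)) (by
      rintro ⟨s, ξ⟩ ⟨hs, hξ⟩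
      have hs' : s = 0 := hs
      show shift (fun i => ρ i) (s, ξ) ∈ V
      have h1 : shift (fun i => ρ i) (s, ξ) = ξ := by
        rw [hs']
        have h2 : (ξ.2 + ∑ i : t, (0 : t → ℝ) i • dForm 𝓘(ℝ, F) (ρ i) ξ.1) = ξ.2 := by
          have h3 : (∑ i : t, (0 : t → ℝ) i • dForm 𝓘(ℝ, F) (ρ i) ξ.1) = 0 :=
            Finset.sum_eq_zero fun i _ => zero_smul ℝ _
          rw [h3, add_zero]
        exact congrArg (TotalSpace.mk ξ.1) h2
      rw [h1]
      exact hQV hξ)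
  obtain ⟨ε, hε, hεa⟩ := Metric.isOpen_iff.1 ha 0 (ha0 rfl)
  choose u hus hu using fun q₀ : N => hWu q₀ (ε / 2) (by positivity)
  refine ⟨fun q => ∑ i : t, ρ i q * u i q, ?_, ?_⟩
  · exact contMDiff_finsetSum fun i _ => (hρs i).mul (hus i)
  · intro q
    have hd := dForm_sum_mul (F := F) (Finset.univ : Finset t) (ρ := fun i => ρ i)
      (u := fun i => u i) (q := q)
      (fun i => (hρs i).mdifferentiableAt (by simp)) (fun i => (hus i).mdifferentiableAt (by simp))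
    have hone := dForm_sum_mul (F := F) (Finset.univ : Finset t) (ρ := fun i => ρ i)
      (u := fun i _ => 1) (q := q)
      (fun i => (hρs i).mdifferentiableAt (by simp)) (fun i => mdifferentiableAt_const)
    let dρ : t → F →L[ℝ] ℝ := fun i => dForm 𝓘(ℝ, F) (ρ i) q
    let du : t → F →L[ℝ] ℝ := fun i => dForm 𝓘(ℝ, F) (u i) q
    have hz : ∑ i : t, dρ i = 0 := by
      have h1 : (fun q => ∑ i : t, ρ i q * (1:ℝ)) = fun _ => (1:ℝ) := by
        funext q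
        simp only [mul_one]
        exact hsum q
      have h2 : mfderiv 𝓘(ℝ, F) 𝓘(ℝ, ℝ) (fun q => ∑ i : t, ρ i q * (1:ℝ)) q = 0 := by
        rw [h1, mfderiv_const]
        rfl
      have h3 := hone.mfderiv
      have h4 : ∀ i : t, (ρ i q • (show F →L[ℝ] ℝ from dForm 𝓘(ℝ, F) (fun _ : N => (1:ℝ)) q) +
          (1:ℝ) • (show F →L[ℝ] ℝ from dForm 𝓘(ℝ, F) (ρ i) q)) = dρ i := by
        intro i
        have h5 : (show F →L[ℝ] ℝ from dForm 𝓘(ℝ, F) (fun _ : N => (1:ℝ)) q) = 0 := mfderiv_const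
        rw [h5, smul_zero, zero_add, one_smul]
      have h6 : (∑ i : t, (ρ i q • (show F →L[ℝ] ℝ from dForm 𝓘(ℝ, F) (fun _ : N => (1:ℝ)) q) +
          (1:ℝ) • (show F →L[ℝ] ℝ from dForm 𝓘(ℝ, F) (ρ i) q))) = ∑ i : t, dρ i :=
        Finset.sum_congr rfl fun i _ => h4 i
      rw [← h6]
      exact h3.symm.trans h2
    -- a point of `V'` over `q`
    obtain ⟨x, hx⟩ := hsurj q
    obtain ⟨z₀, hz₀⟩ : ∃ z₀ : F →L[ℝ] ℝ, (⟨q, z₀⟩ : Cotangent F N) ∈ V' := by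
      rw [← hx]
      exact ⟨(j x).2, hjV' ⟨x, rfl⟩⟩
    let z : t → F →L[ℝ] ℝ := fun i => if q ∈ W i then du i else z₀
    have hzV : ∀ i : t, z i ∈ {p : TangentSpace 𝓘(ℝ, F) q →L[ℝ] ℝ |
        (⟨q, p⟩ : Cotangent F N) ∈ V'} := by
      intro i
      by_cases hi : q ∈ W i
      · have h1 : z i = du i := if_pos hi
        rw [h1]
        exact (hu i q hi).1
      · have h1 : z i = z₀ := if_neg hi
        rw [h1]
        exact hz₀
    have hmem : (∑ i : t, ρ i q • z i) ∈ {p : TangentSpace 𝓘(ℝ, F) q →L[ℝ] ℝ |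
        (⟨q, p⟩ : Cotangent F N) ∈ V'} :=
      (hV'c q).sum_mem (fun i _ => ρ.nonneg i q) (hsum q) (fun i _ => hzV i)
    let s : t → ℝ := fun i => if q ∈ W i then u i q - u₀ q else 0
    have hs : s ∈ a := by
      apply hεa
      rw [mem_ball, dist_pi_lt_iff hε]
      intro i
      show dist (s i) 0 < ε
      rw [Real.dist_eq, sub_zero]
      by_cases hi : q ∈ W i
      · have h1 : s i = u i q - u₀ q := if_pos hi
        rw [h1]
        exact lt_of_le_of_lt (hu i q hi).2 (by linarith)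
      · have h1 : s i = 0 := if_neg hi
        rw [h1, abs_zero]
        exact hε
    have hfin : shift (fun i => ρ i) (s, (⟨q, ∑ i : t, ρ i q • z i⟩ : Cotangent F N)) ∈ V :=
      hab (⟨hs, hQb (interior_subset (hV'Q hmem))⟩ : (s, (⟨q, ∑ i : t, ρ i q • z i⟩ :
        Cotangent F N)) ∈ a ×ˢ b)
    have heq : (∑ i : t, ρ i q • z i) + ∑ i : t, s i • dρ i =
        (show F →L[ℝ] ℝ from dForm 𝓘(ℝ, F) (fun q => ∑ i : t, ρ i q * u i q) q) := by
      have h1 : (show F →L[ℝ] ℝ from dForm 𝓘(ℝ, F) (fun q => ∑ i : t, ρ i q * u i q) q) =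
          ∑ i : t, (ρ i q • du i + u i q • dρ i) := hd.mfderiv
      rw [h1]
      have h2 : ∑ i : t, (ρ i q • du i + u i q • dρ i) =
          ∑ i : t, (ρ i q • du i + u i q • dρ i) - u₀ q • ∑ i : t, dρ i := by
        rw [hz, smul_zero, sub_zero]
      rw [h2, Finset.smul_sum, ← Finset.sum_add_distrib, ← Finset.sum_sub_distrib]
      refine Finset.sum_congr rfl fun i _ => ?_
      by_cases hi : q ∈ W i
      · have h3 : z i = du i := if_pos hi
        have h4 : s i = u i q - u₀ q := if_pos hi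
        rw [h3, h4]
        module
      · have h3 : ρ i q = 0 := (hρW i q hi).self_of_nhds
        have h4 : dρ i = 0 := by
          have h5 : mfderiv 𝓘(ℝ, F) 𝓘(ℝ, ℝ) (ρ i) q =
            mfderiv 𝓘(ℝ, F) 𝓘(ℝ, ℝ) (fun _ : N => (0:ℝ)) q := (hρW i q hi).mfderiv_eq
          show mfderiv 𝓘(ℝ, F) 𝓘(ℝ, ℝ) (ρ i) q = 0
          rw [h5, mfderiv_const]
          rfl
        rw [h3, h4]
        simp
    have h7 : shift (fun i => ρ i) (s, (⟨q, ∑ i : t, ρ i q • z i⟩ : Cotangent F N)) =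
        (⟨q, dForm 𝓘(ℝ, F) (fun q => ∑ i : t, ρ i q * u i q) q⟩ : Cotangent F N) :=
      congrArg (TotalSpace.mk q) heq
    rw [← h7]
    exact hfin

end Pool.Agent.H823.Nearby
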