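import Mathlib
import Pool.Agent.H823.Criteria

/-! Limits of symplectic diffeomorphisms. -/

open scoped Topology ContDiff Manifold
open Set Bundle

noncomputable section

namespace Pool.Agent.H823.Nearby

set_option linter.unusedSectionVars false

universe u

open Pool.Agent.Helper186

variable {F : Type u} [NormedAddCommGroup F] [NormedSpace ℝ F] [FiniteDimensional ℝ F]
  {L : Type*} [TopologicalSpace L] [ChartedSpace F L] [IsManifold 𝓘(ℝ, F) ∞ L]
  {N : Type*} [TopologicalSpace N] [ChartedSpace F N] [IsManifold 𝓘(ℝ, F) ∞ N]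

/-- **Sandwich theorem.** If a star-shaped chart of `j` contains `ψ (D)`, with `ψ` an exact
symplectic diffeomorphism and `D` a compact star-shaped neighbourhood of the zero section, and
`j (L)` is contained in the interior of `ψ (D)`, then `j` extends. -/
theorem extendsExactly_of_sandwich [T2Space L] [CompactSpace L] [CompactSpace N] [T2Space N]
    {j : L → CotangentBundle F N}
    {w : Cotangent F L → Cotangent F N} {w' : Cotangent F N → Cotangent F L}
    {O : Set (Cotangent F L)} {g : Cotangent F L → ℝ}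
    (hO : IsOpen O) (hOs : ∀ s ∈ Icc (0:ℝ) 1, MapsTo (scal s) O O) (h0 : ∀ q, zeroC q ∈ O)
    (hA : IsOpen (w '' O)) (hw : ContMDiff (IC F) (IC F) ∞ w)
    (hw' : ContMDiffOn (IC F) (IC F) ∞ w' (w '' O)) (hw'w : ∀ ξ ∈ O, w' (w ξ) = ξ)
    (hwj : ∀ q, w (zeroC q) = j q)
    (hg : ContMDiffOn (IC F) 𝓘(ℝ, ℝ) ∞ g O) (hpb : ∀ ξ ∈ O, PB canForm canForm w 1 g ξ)
    (ψ : Diffeomorph (IC F) (IC F) (Cotangent F N) (Cotangent F N) ∞)
    (hψ : ConformallyExact (ψ : CotangentBundle F N → CotangentBundle F N) 1)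
    {D : Set (Cotangent F N)} (hD : IsCompact D)
    (hDs : ∀ s ∈ Icc (0:ℝ) 1, MapsTo (scal s) D D) (hD0 : ∀ q, zeroC q ∈ interior D)
    (hDA : ψ '' D ⊆ w '' O) (hjD : range j ⊆ ψ '' interior D) :
    ExtendsExactly j := by
  obtain ⟨fi, hfi, hfipb⟩ := conformallyExact_iff.1 (conformallyExact_symm ψ one_ne_zero hψ)
  have hw₀'maps : ∀ x ∈ w '' O, w' x ∈ O ∧ w (w' x) = x := by
    rintro _ ⟨ξ, hξ, rfl⟩
    rw [hw'w ξ hξ]
    exact ⟨hξ, rfl⟩
  obtain ⟨Φ, k, hk, hΦ, hΦ0⟩ := engine (cotFlow F N) (w := fun ξ => ψ.symm (w ξ))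
    (w' := fun x => w' (ψ x)) (O := O) (A := ψ ⁻¹' (w '' O)) (V := D)
    (g := fun ξ => 1⁻¹ * g ξ + fi (w ξ))
    hO (hA.preimage ψ.contMDiff.continuous) hOs
    (fun ξ hξ => by
      show ψ (ψ.symm (w ξ)) ∈ w '' O
      rw [ψ.apply_symm_apply]
      exact ⟨ξ, hξ, rfl⟩)
    (fun x hx => (hw₀'maps _ hx).1)
    (fun ξ hξ => by
      show w' (ψ (ψ.symm (w ξ))) = ξ
      rw [ψ.apply_symm_apply, hw'w ξ hξ])
    (fun x hx => by
      show ψ.symm (w (w' (ψ x))) = x
      rw [(hw₀'maps _ hx).2, ψ.symm_apply_apply])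
    (ψ.symm.contMDiff.comp hw).contMDiffOn
    (hw'.comp ψ.contMDiff.contMDiffOn fun x hx => hx)
    ((contMDiffOn_const.mul hg).add (hfi.comp hw).contMDiffOn)
    (fun ξ hξ => by
      have hgd : MDifferentiableAt (IC F) 𝓘(ℝ, ℝ) g ξ :=
        (hg.contMDiffAt (hO.mem_nhds hξ)).mdifferentiableAt (by simp)
      have a2 := PB.comp (hfipb _) (hpb ξ hξ) (hw.mdifferentiableAt (by simp))
        (ψ.symm.contMDiff.mdifferentiableAt (by simp)) hgd (hfi.mdifferentiableAt (by simp))
      intro u
      have a3 := a2 u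
      rw [inv_one, one_mul] at a3
      rw [inv_one]
      exact a3)
    hD (fun x hx => hDA ⟨x, hx, rfl⟩)
    (fun r hr => hDs _ ⟨(Real.exp_pos _).le, Real.exp_le_one_iff.2 (by linarith)⟩)
    (fun C hC => exists_contract hD0 hC) h0
    (fun q => by
      obtain ⟨x, hx, hxj⟩ := hjD ⟨q, rfl⟩
      show ψ.symm (w (zeroC q)) ∈ interior D
      rw [hwj, ← hxj, ψ.symm_apply_apply]
      exact hx)
  refine ⟨Φ.trans ψ, ?_, ?_⟩
  · have h1 : ConformallyExact (Φ : CotangentBundle F L → CotangentBundle F N) 1 :=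
      conformallyExact_iff.2 ⟨k, hk, hΦ⟩
    have h2 := hψ.comp h1 ψ.contMDiff Φ.contMDiff
    rw [one_mul] at h2
    exact h2
  · intro q
    show ψ (Φ (zeroC q)) = j q
    rw [hΦ0, ψ.apply_symm_apply, hwj]

/-- Convergence in the compact-open topology. -/
def Converges (ψ : ℕ → CotangentBundle F N → CotangentBundle F N)
    (h : CotangentBundle F N → CotangentBundle F N) : Prop :=
  ∀ K : Set (CotangentBundle F N), IsCompact K → ∀ U : Set (CotangentBundle F N), IsOpen U →
    MapsTo h K U → ∀ᶠ k in Filter.atTop, MapsTo (ψ k) K U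

/-- **Limit theorem.** -/
theorem extendsExactly_of_limit [T2Space L] [CompactSpace L] [Nonempty L]
    [CompactSpace N] [T2Space N] {j : L → CotangentBundle F N}
    (hj : ExactLagrangianEmbedding j)
    (ψ : ℕ → Diffeomorph (IC F) (IC F) (Cotangent F N) (Cotangent F N) ∞)
    (hψ : ∀ k, ConformallyExact (ψ k : CotangentBundle F N → CotangentBundle F N) 1)
    {h : CotangentBundle F N → CotangentBundle F N} (hh : Continuous h)
    (hconv : Converges (fun k => ψ k) h)
    (himg : h '' range (zeroSection : N → CotangentBundle F N) = range j)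
    (hpre : ∃ U : Set (CotangentBundle F N), IsOpen U ∧
      range (zeroSection : N → CotangentBundle F N) ⊆ U ∧
      ∀ ξ ∈ U, h ξ ∈ range j → ξ ∈ range (zeroSection : N → CotangentBundle F N)) :
    ExtendsExactly j := by
  obtain ⟨w, w', O, g, hO, hOs, h0, hA, hw, hw', hw'w, hwj, hg, hpb⟩ := exists_chart hj
  obtain ⟨U, hU, hzU, hUj⟩ := hpre
  have hjA : range j ⊆ w '' O := by
    rintro _ ⟨q, rfl⟩
    exact ⟨zeroC q, h0 q, hwj q⟩
  have hjc : IsCompact (range j) := isCompact_range hj.smooth.continuous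
  -- the neighbourhood `D`
  obtain ⟨D, hD, hDU, hD0, hDs⟩ := exists_starshaped (F := F) (L := N)
    (U := U ∩ h ⁻¹' (w '' O)) (hU.inter (hA.preimage hh)) (fun q => ⟨hzU ⟨q, rfl⟩, by
      apply hjA
      rw [← himg]
      exact ⟨_, ⟨q, rfl⟩, rfl⟩⟩)
  have hfr : IsCompact (frontier D) := hD.of_isClosed_subset isClosed_frontier
    hD.isClosed.frontier_subset
  have hfrj : ∀ x ∈ frontier D, h x ∉ range j := by
    intro x hx hxj
    obtain ⟨q, rfl⟩ := hUj x (hDU (hD.isClosed.frontier_subset hx)).1 hxj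
    exact hx.2 (hD0 q)
  have hlc : LocallyConnectedSpace (Cotangent F N) := by
    have : LocallyConnectedSpace (ModelProd F (F →L[ℝ] ℝ)) :=
      (inferInstance : LocallyConnectedSpace (F × (F →L[ℝ] ℝ)))
    exact ChartedSpace.locallyConnectedSpace (ModelProd F (F →L[ℝ] ℝ)) _
  -- eventually `j (L)` is contained in the image of the interior of `D`
  have hev : ∀ᶠ k in Filter.atTop, range j ⊆ (ψ k) '' interior D := by
    refine hjc.induction_on (p := fun S => ∀ᶠ k in Filter.atTop, S ⊆ (ψ k) '' interior D)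
      (by simp) (fun s t hst ht => ht.mono fun k hk => hst.trans hk)
      (fun s t hs ht => by
        filter_upwards [hs, ht] with k h1 h2
        exact union_subset h1 h2) ?_
    intro y hy
    obtain ⟨_, ⟨q, rfl⟩, hqy⟩ : y ∈ h '' range (zeroSection : N → CotangentBundle F N) := by
      rw [himg]; exact hy
    -- separate `y` from `h (∂D)`
    have hhfr : IsCompact (h '' frontier D) := hfr.image hh
    have hyfr : y ∉ h '' frontier D := by
      rintro ⟨x, hx, rfl⟩
      exact hfrj x hx hy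
    obtain ⟨V, W, hV, hW, hyV, hfW, hVW⟩ := SeparatedNhds.of_isCompact_isCompact
      (isCompact_singleton (x := y)) hhfr (disjoint_singleton_left.2 hyfr)
    set B := connectedComponentIn V y with hB
    have hBo : IsOpen B := hV.connectedComponentIn
    have hyB : y ∈ B := mem_connectedComponentIn (hyV rfl)
    have hBV : B ⊆ V := connectedComponentIn_subset V y
    refine ⟨B, mem_nhdsWithin_of_mem_nhds (hBo.mem_nhds hyB), ?_⟩
    have e1 : ∀ᶠ k in Filter.atTop, MapsTo (ψ k) (frontier D) W :=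
      hconv _ hfr W hW (fun x hx => hfW ⟨x, hx, rfl⟩)
    have e2 : ∀ᶠ k in Filter.atTop, MapsTo (ψ k) {zeroC q} B :=
      hconv _ isCompact_singleton B hBo (by
        rintro _ rfl
        show h (zeroC q) ∈ B
        have : h (zeroC q) = y := hqy
        rw [this]
        exact hyB)
    filter_upwards [e1, e2] with k h1 h2
    have h3 : ψ k '' interior D = interior (ψ k '' D) := (ψ k).toHomeomorph.image_interior D
    have h4 : ψ k '' frontier D = frontier (ψ k '' D) := (ψ k).toHomeomorph.image_frontier D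
    rw [h3]
    have hcl : IsClosed (ψ k '' D) := (hD.image (ψ k).contMDiff.continuous).isClosed
    refine IsPreconnected.subset_left_of_subset_union isOpen_interior hcl.isOpen_compl ?_ ?_ ?_
      isPreconnected_connectedComponentIn
    · rw [disjoint_compl_right_iff_subset]
      exact interior_subset
    · intro z hz
      by_cases hzD : z ∈ ψ k '' D
      · left
        by_contra hzi
        have h5 : z ∈ frontier (ψ k '' D) := ⟨subset_closure hzD, hzi⟩
        rw [← h4] at h5
        obtain ⟨x, hx, rfl⟩ := h5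
        exact disjoint_left.1 hVW (hBV hz) (h1 hx)
      · exact Or.inr hzD
    · refine ⟨ψ k (zeroC q), h2 rfl, ?_⟩
      rw [← h3]
      exact ⟨_, hD0 q, rfl⟩
  have hev2 : ∀ᶠ k in Filter.atTop, MapsTo (ψ k) D (w '' O) :=
    hconv D hD _ hA (fun x hx => (hDU hx).2)
  obtain ⟨k, hk1, hk2⟩ := (hev.and hev2).exists
  exact extendsExactly_of_sandwich hO hOs h0 hA hw hw' hw'w hwj hg hpb (ψ k) (hψ k) hD hDs hD0
    (by
      rintro _ ⟨x, hx, rfl⟩
      exact hk2 hx) hk1

end Pool.Agent.H823.Nearby
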