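import Mathlib
import Pool.Agent.H823.Convex4
import Pool.Agent.H823.Limits

/-! Exact Lagrangian submanifolds with convex fibres, V: the theorem. -/

open scoped Topology ContDiff Manifold
open Set Bundle Metric

noncomputable section

namespace Pool.Agent.H823.Nearby

set_option linter.unusedSectionVars false

universe u

open Pool.Agent.Helper186

variable {F : Type u} [NormedAddCommGroup F] [NormedSpace ℝ F] [FiniteDimensional ℝ F]
  {L : Type*} [TopologicalSpace L] [ChartedSpace F L] [IsManifold 𝓘(ℝ, F) ∞ L]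
  {N : Type*} [TopologicalSpace N] [ChartedSpace F N] [IsManifold 𝓘(ℝ, F) ∞ N]

/-- Translation by the differential of a function, as a diffeomorphism. -/
def transDiffeo {u : N → ℝ} (hu : ContMDiff 𝓘(ℝ, F) 𝓘(ℝ, ℝ) ∞ u) :
    Diffeomorph (IC F) (IC F) (Cotangent F N) (Cotangent F N) ∞ where
  toFun := trans u
  invFun := trans (fun q => - u q)
  left_inv := trans_neg_trans u
  right_inv := trans_trans_neg u
  contMDiff_toFun := contMDiff_trans hu
  contMDiff_invFun := contMDiff_trans hu.neg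

lemma conformallyExact_trans {u : N → ℝ} (hu : ContMDiff 𝓘(ℝ, F) 𝓘(ℝ, ℝ) ∞ u) :
    ConformallyExact (transDiffeo (F := F) hu : CotangentBundle F N → CotangentBundle F N) 1 :=
  conformallyExact_iff.2 ⟨fun ξ => u ξ.1, hu.comp contMDiff_projC, fun ξ => canForm_trans hu ξ⟩

/-- **Convex fibres.** -/
theorem extendsExactly_of_convexFibres [T2Space L] [CompactSpace L] [Nonempty L] [CompactSpace N]
    [T2Space N] {j : L → CotangentBundle F N} (hj : ExactLagrangianEmbedding j)
    (hconv : ConvexFibres j) (hsurj : Function.Surjective (base j)) : ExtendsExactly j := by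
  obtain ⟨w, w', O, g, hO, hOs, h0, hA, hw, hw', hw'w, hwj, hg, hpb⟩ := exists_chart hj
  obtain ⟨f, hfs, hfj⟩ := hj.exact
  have hf : IsPrim j f := ⟨hfs, hfj⟩
  obtain ⟨u₀, hu₀c, hu₀⟩ := exists_base_function hj hf hconv hsurj
  have hjA : range j ⊆ w '' O := by
    rintro _ ⟨q, rfl⟩
    exact ⟨zeroC q, h0 q, hwj q⟩
  obtain ⟨V, hV, hjV, hVA, hVc⟩ := exists_convex_nbhd hj.smooth hconv hA hjA
  obtain ⟨u, hu, huV⟩ := exists_smooth_section hj hconv hf hu₀c hu₀ hsurj hV hjV
  have hjc : IsCompact (range j) := isCompact_range hj.smooth.continuous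
  have htc : Continuous (trans (fun q => - u q) : Cotangent F N → Cotangent F N) :=
    (contMDiff_trans hu.neg).continuous
  obtain ⟨D, hD, hDA, hKD, hDs⟩ := exists_star_nbhd
    (K := trans (fun q => - u q) '' range j ∪ range (zeroC : N → Cotangent F N))
    (A := (trans u : Cotangent F N → Cotangent F N) ⁻¹' (w '' O))
    ((hjc.image htc).union isCompact_range_zeroC)
    (hA.preimage (contMDiff_trans hu).continuous) (by
      intro s hs ξ hξ
      -- `ξ = η - du` with `η ∈ V`
      have hη : trans u ξ ∈ V := by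
        rcases hξ with ⟨η, hη, rfl⟩ | ⟨q, rfl⟩
        · rw [trans_trans_neg]
          exact hjV hη
        · have h1 : trans u (zeroC q : Cotangent F N) = ⟨q, dForm 𝓘(ℝ, F) u q⟩ := by
            show (⟨q, 0 + dForm 𝓘(ℝ, F) u q⟩ : Cotangent F N) = _
            rw [zero_add]
          rw [h1]
          exact huV q
      apply hVA
      have h1 := hVc ξ.1 (show ξ.2 + dForm 𝓘(ℝ, F) u ξ.1 ∈ _ from hη)
        (show dForm 𝓘(ℝ, F) u ξ.1 ∈ _ from huV ξ.1) hs.1 (sub_nonneg.2 hs.2)
        (add_sub_cancel s 1)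
      have h2 : s • (ξ.2 + dForm 𝓘(ℝ, F) u ξ.1) + (1 - s) • dForm 𝓘(ℝ, F) u ξ.1 =
          s • ξ.2 + dForm 𝓘(ℝ, F) u ξ.1 := by
        have h3 : ∀ a b : F →L[ℝ] ℝ, s • (a + b) + (1 - s) • b = s • a + b := fun a b => by module
        exact h3 _ _
      rw [h2] at h1
      exact h1)
  have himg : trans (fun q => - u q) '' range j ⊆ interior D := subset_union_left.trans hKD
  refine extendsExactly_of_sandwich hO hOs h0 hA hw hw' hw'w hwj hg hpb (transDiffeo hu)
    (conformallyExact_trans hu) hD hDs (fun q => hKD (Or.inr ⟨q, rfl⟩)) ?_ ?_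
  · rintro _ ⟨x, hx, rfl⟩
    exact hDA hx
  · intro y hy
    exact ⟨trans (fun q => - u q) y, himg ⟨y, hy, rfl⟩, trans_trans_neg u y⟩

end Pool.Agent.H823.Nearby
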