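import Mathlib
import Pool.Agent.H823.Defs

/-!
# Lagrangian submanifolds with convex fibres: definitions
-/

open scoped Topology ContDiff Manifold
open Set Bundle

noncomputable section

namespace Pool.Agent.H823.Arnold

universe u

variable {F : Type u} [NormedAddCommGroup F] [NormedSpace ℝ F]
  {L : Type*} {N : Type*} [TopologicalSpace N] [ChartedSpace F N]

/-- The fibre `T_q^*N ∩ j (L)` of `j (L)` over the point `q` of `N`. -/
def fibre (j : L → CotangentBundle F N) (q : N) : Set (CotangentSpace F N q) :=
  {p | (⟨q, p⟩ : CotangentBundle F N) ∈ range j}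

/-- Every cotangent space `T_q^*N` meets `j (L)` in a nonempty convex set (for instance a single
point). -/
def HasConvexFibres (j : L → CotangentBundle F N) : Prop :=
  ∀ q : N, (fibre j q).Nonempty ∧ Convex ℝ (fibre j q)

end Pool.Agent.H823.Arnold
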