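import Mathlib
import Pool.Agent.H823.Defs

/-!
# Limits of exact symplectic diffeomorphisms of cotangent bundles: definitions
-/

open scoped Topology ContDiff Manifold
open Set Bundle

noncomputable section

namespace Pool.Agent.H823.Arnold

universe u

variable {F : Type u} [NormedAddCommGroup F] [NormedSpace ℝ F]
  {N : Type*} [TopologicalSpace N] [ChartedSpace F N] [IsManifold 𝓘(ℝ, F) ∞ N]

/-- The maps `ψ k` converge to `h` in the compact-open topology: for every compact set `K` and
every open set `U` with `h (K) ⊆ U` one has `ψ k (K) ⊆ U` for all large `k`.  For a continuous map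
`h` this is uniform convergence on compact sets (with respect to any metric of `T^*N`). -/
def Converges (ψ : ℕ → CotangentBundle F N → CotangentBundle F N)
    (h : CotangentBundle F N → CotangentBundle F N) : Prop :=
  ∀ K : Set (CotangentBundle F N), IsCompact K → ∀ U : Set (CotangentBundle F N), IsOpen U →
    MapsTo h K U → ∀ᶠ k in Filter.atTop, MapsTo (ψ k) K U

/-- The continuous map `h` is a limit, uniformly on compact sets, of exact symplectic
diffeomorphisms `ψ k` of `T^*N` (that is, `(ψ k)^* λ = λ + df_k`). -/
def IsLimitOfExactSymplectic (h : CotangentBundle F N → CotangentBundle F N) : Prop :=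
  Continuous h ∧ ∃ ψ : ℕ → CotangentBundle F N → CotangentBundle F N,
    (∀ k, IsDiffeo (ψ k) ∧ ConformallyExact (ψ k) 1) ∧ Converges ψ h

/-- The map `h` maps the zero section onto the set `S`, and no other point of some neighbourhood
of the zero section is mapped to `S`.  A homeomorphism `h` has this property for
`S = h (0_N)`. -/
def MapsZeroSectionOnto (h : CotangentBundle F N → CotangentBundle F N)
    (S : Set (CotangentBundle F N)) : Prop :=
  h '' range (zeroSection F N) = S ∧
    ∃ U : Set (CotangentBundle F N), IsOpen U ∧ range (zeroSection F N) ⊆ U ∧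
      ∀ ξ ∈ U, h ξ ∈ S → ξ ∈ range (zeroSection F N)

end Pool.Agent.H823.Arnold
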